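import Mathlib
import Pool.Agent.Lib.MP_d5741c_al.Basic
import Pool.Agent.Lib.MP_d5741c_al.Curve

section

/-!
# Units in `F ⊗ L` for a finite extension `L / K`
-/

set_option autoImplicit false

namespace Pool.Agent.D5741.CZ

open scoped TensorProduct

section

variable {K L : Type} [Field K] [Field L] [Algebra K L] {n : ℕ} (b : Module.Basis (Fin n) K L)

/-- The regular representation of `R ⊗ L`. -/
noncomputable def psi (R : Type) [CommRing R] [Algebra K R] :
    R ⊗[K] L →ₐ[R] Matrix (Fin n) (Fin n) R :=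
  Algebra.TensorProduct.lift (Algebra.ofId R (Matrix (Fin n) (Fin n) R))
    (((Algebra.ofId K R).mapMatrix).comp (Algebra.leftMulMatrix b))
    (fun _ _ => (Algebra.commutes _ _ : _ = _))

theorem psi_tmul (R : Type) [CommRing R] [Algebra K R] (r : R) (l : L) :
    psi b R (r ⊗ₜ l) = r • (Algebra.leftMulMatrix b l).map (algebraMap K R) := by
  have h1 : psi b R (r ⊗ₜ l) = Algebra.ofId R (Matrix (Fin n) (Fin n) R) r *
      ((Algebra.ofId K R).mapMatrix.comp (Algebra.leftMulMatrix b)) l :=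
    Algebra.TensorProduct.lift_tmul _ _ _ _ _
  rw [h1, Algebra.ofId_apply, Algebra.smul_def]
  rfl

theorem psi_map {R S : Type} [CommRing R] [CommRing S] [Algebra K R] [Algebra K S]
    (f : R →ₐ[K] S) (x : R ⊗[K] L) :
    (psi b R x).map f = psi b S (Algebra.TensorProduct.map f (AlgHom.id K L) x) := by
  induction x using TensorProduct.induction_on with
  | zero => simp
  | add x y hx hy =>
    rw [map_add, map_add, map_add, ← hx, ← hy, Matrix.map_add]
    exact fun a b => map_add f a b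
  | tmul r l =>
    rw [Algebra.TensorProduct.map_tmul, psi_tmul, psi_tmul]
    ext i j
    simp only [Matrix.map_apply, Matrix.smul_apply, smul_eq_mul, map_mul, AlgHom.commutes,
      AlgHom.coe_id, id_eq]

theorem det_psi_map {R S : Type} [CommRing R] [CommRing S] [Algebra K R] [Algebra K S]
    (f : R →ₐ[K] S) (x : R ⊗[K] L) :
    f (psi b R x).det = (psi b S (Algebra.TensorProduct.map f (AlgHom.id K L) x)).det := by
  rw [← psi_map, AlgHom.map_det]
  rfl

theorem psi_mulVec (R : Type) [CommRing R] [Algebra K R] (x : R ⊗[K] L) (i : Fin n) :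
    (psi b R x).mulVec (fun i => algebraMap K R (b.repr 1 i)) i =
      (Algebra.TensorProduct.basis R b).repr x i := by
  induction x using TensorProduct.induction_on with
  | zero => simp
  | add x y hx hy =>
    rw [map_add, Matrix.add_mulVec, Pi.add_apply, hx, hy, map_add, Finsupp.add_apply]
  | tmul r l =>
    rw [psi_tmul, Algebra.TensorProduct.basis_repr_tmul, Matrix.smul_mulVec, Pi.smul_apply,
      Finsupp.smul_apply, Finsupp.mapRange_apply]
    congr 1
    have h1 := Algebra.leftMulMatrix_mulVec_repr b l 1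
    have h2 := congrFun h1 i
    rw [mul_one] at h2
    rw [← h2]
    simp only [Matrix.mulVec, dotProduct, Matrix.map_apply, map_sum, map_mul]

theorem psi_injective (R : Type) [CommRing R] [Algebra K R] :
    Function.Injective (psi b R) := by
  rw [injective_iff_map_eq_zero]
  intro x hx
  apply (Algebra.TensorProduct.basis R b).repr.injective
  ext i
  rw [← psi_mulVec, hx, Matrix.zero_mulVec, map_zero]
  rfl

theorem isUnit_of_det (F : Type) [Field F] [Algebra K F] (x : F ⊗[K] L)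
    (hx : (psi b F x).det ≠ 0) : IsUnit x := by
  have : FiniteDimensional K L := Module.Finite.of_basis b
  have : IsArtinianRing (F ⊗[K] L) := IsArtinianRing.of_finite F (F ⊗[K] L)
  apply IsArtinianRing.isUnit_of_mem_nonZeroDivisors
  rw [mem_nonZeroDivisors_iff_right]
  intro y hy
  apply psi_injective b F
  have h1 : psi b F y * psi b F x = 0 := by rw [← map_mul, hy, map_zero]
  have h2 : IsUnit (psi b F x) := (Matrix.isUnit_iff_isUnit_det _).mpr (isUnit_iff_ne_zero.mpr hx)
  rw [map_zero]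
  exact (h2.mul_left_eq_zero).mp h1

theorem det_of_isUnit (F : Type) [Field F] [Algebra K F] (x : F ⊗[K] L) (hx : IsUnit x) :
    (psi b F x).det ≠ 0 := by
  have h2 : IsUnit (psi b F x) := hx.map (psi b F)
  exact ((Matrix.isUnit_iff_isUnit_det _).mp h2).ne_zero

include b in
/-- If some specialisation of an element is a unit, then it is a unit over the fraction field. -/
theorem isUnit_of_specialise {R k Q : Type} [CommRing R] [Algebra K R] [Field k] [Algebra K k]
    [Field Q] [Algebra K Q] (c : R →ₐ[K] k) (j : R →ₐ[K] Q) (hj : Function.Injective j)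
    (x : R ⊗[K] L) (hx : IsUnit (Algebra.TensorProduct.map c (AlgHom.id K L) x)) :
    IsUnit (Algebra.TensorProduct.map j (AlgHom.id K L) x) := by
  apply isUnit_of_det b
  rw [← det_psi_map]
  intro h
  rw [map_eq_zero_iff j hj] at h
  have h1 := det_of_isUnit b k _ hx
  rw [← det_psi_map, h, map_zero] at h1
  exact h1 rfl

end

/-- The inverse of a rational unit is rational. -/
theorem inv_mem_RatSub {K L Ω : Type} [Field K] [Field L] [Algebra K L] [FiniteDimensional K L]
    [Field Ω] [Algebra K Ω] (E : IntermediateField K Ω) (x : Ω ⊗[K] L) (hx : x ∈ RatSub L E)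
    (hu : IsUnit x) : ∃ y ∈ RatSub L E, x * y = 1 := by
  obtain ⟨x', rfl⟩ := hx
  have : IsArtinianRing (E ⊗[K] L) := IsArtinianRing.of_finite E (E ⊗[K] L)
  have hinj : Function.Injective (Algebra.TensorProduct.map E.val (AlgHom.id K L)) := by
    have h := Module.Flat.rTensor_preserves_injective_linearMap (M := L) E.val.toLinearMap
      E.val.injective
    intro x y hxy
    apply h
    have e : ∀ z : E ⊗[K] L, LinearMap.rTensor L E.val.toLinearMap z =
        Algebra.TensorProduct.map E.val (AlgHom.id K L) z := by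
      intro z
      induction z using TensorProduct.induction_on with
      | zero => simp
      | add a b ha hb => rw [map_add, map_add, ha, hb]
      | tmul a l => rfl
    rw [e, e, hxy]
  have h1 : IsUnit x' := by
    apply IsArtinianRing.isUnit_of_mem_nonZeroDivisors
    rw [mem_nonZeroDivisors_iff_right]
    intro y hy
    apply hinj
    rw [map_zero]
    have h2 := congrArg (Algebra.TensorProduct.map E.val (AlgHom.id K L)) hy
    rw [map_mul, map_zero] at h2
    exact (hu.mul_left_eq_zero).mp h2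
  obtain ⟨y, hy⟩ := h1.exists_right_inv
  refine ⟨_, ⟨y, rfl⟩, ?_⟩
  have h2 := congrArg (Algebra.TensorProduct.map E.val (AlgHom.id K L)) hy
  rwa [map_mul, map_one] at h2

end Pool.Agent.D5741.CZ
end

section

/-!
# The cubic algebra: products, conjugates and the identity behind the main theorem
-/

set_option autoImplicit false

namespace Pool.Agent.D5741

namespace FA

section Ring

variable {R : Type*} [CommRing R]

/-- Product in the cubic algebra. -/
def mulT (α : R) (x y : Fin 3 → R) : Fin 3 → R :=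
  ![x 0 * y 0 + α * (x 1 * y 2 + x 2 * y 1), x 0 * y 1 + x 1 * y 0 + α * x 2 * y 2,
    x 0 * y 2 + x 1 * y 1 + x 2 * y 0]

/-- The automorphism `μ ↦ ω μ`. -/
def sg (ω : R) (x : Fin 3 → R) : Fin 3 → R := ![x 0, ω * x 1, ω ^ 2 * x 2]

/-- The adjoint: the product of the two other conjugates. -/
def sh (α : R) (x : Fin 3 → R) : Fin 3 → R :=
  ![x 0 ^ 2 - α * x 1 * x 2, α * x 2 ^ 2 - x 0 * x 1, x 1 ^ 2 - x 0 * x 2]

theorem cube_eq_one {ω : R} (hω : ω ^ 2 + ω + 1 = 0) : ω ^ 3 = 1 := by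
  linear_combination (ω - 1) * hω

theorem cj_mulT {ω μ α : R} (hω : ω ^ 2 + ω + 1 = 0) (hμ : μ ^ 3 = α) (x y : Fin 3 → R) (i : ℕ) :
    cj ω μ (mulT α x y) i = cj ω μ x i * cj ω μ y i := by
  have h3 : (ω ^ i * μ) ^ 3 = α := by
    rw [mul_pow, ← pow_mul, mul_comm i 3, pow_mul, cube_eq_one hω, one_pow, one_mul, hμ]
  unfold cj mulT
  simp only [Matrix.cons_val_zero, Matrix.cons_val_one, Matrix.cons_val]
  rw [← h3]
  ring

theorem cj_sg (ω μ : R) (x : Fin 3 → R) (i : ℕ) : cj ω μ (sg ω x) i = cj ω μ x (i + 1) := by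
  unfold cj sg
  simp only [Matrix.cons_val_zero, Matrix.cons_val_one, Matrix.cons_val]
  ring

theorem cj_sh {ω μ α : R} (hω : ω ^ 2 + ω + 1 = 0) (hμ : μ ^ 3 = α) (x : Fin 3 → R) (i : ℕ) :
    cj ω μ (sh α x) i = cj ω μ x (i + 1) * cj ω μ x (i + 2) := by
  have h3 : (ω ^ i * μ) ^ 3 = α := by
    rw [mul_pow, ← pow_mul, mul_comm i 3, pow_mul, cube_eq_one hω, one_pow, one_mul, hμ]
  unfold cj sh
  simp only [Matrix.cons_val_zero, Matrix.cons_val_one, Matrix.cons_val]
  have e1 : ω ^ (i + 1) * μ = ω * (ω ^ i * μ) := by ring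
  have e2 : ω ^ (i + 2) * μ = (-1 - ω) * (ω ^ i * μ) := by
    have : ω ^ 2 = -1 - ω := by linear_combination hω
    rw [pow_add, this]; ring
  rw [e1, e2, ← h3]
  generalize ω ^ i * μ = m
  linear_combination (-2 * m ^ 2 * x 0 * x 2 + m ^ 2 * x 1 ^ 2 - m ^ 3 * x 1 * x 2
    + m ^ 4 * x 2 ^ 2 * (1 - ω - ω ^ 2)) * hω

theorem nf_mulT (α : R) (x y : Fin 3 → R) :
    nf α (mulT α x y 0) (mulT α x y 1) (mulT α x y 2) =
      nf α (x 0) (x 1) (x 2) * nf α (y 0) (y 1) (y 2) := by
  unfold mulT nf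
  simp only [Matrix.cons_val_zero, Matrix.cons_val_one, Matrix.cons_val]
  ring

theorem nf_sg {ω α : R} (hω : ω ^ 2 + ω + 1 = 0) (x : Fin 3 → R) :
    nf α (sg ω x 0) (sg ω x 1) (sg ω x 2) = nf α (x 0) (x 1) (x 2) := by
  have h3 := cube_eq_one hω
  unfold sg nf
  simp only [Matrix.cons_val_zero, Matrix.cons_val_one, Matrix.cons_val]
  linear_combination (α * x 1 ^ 3 + α ^ 2 * x 2 ^ 3 * (ω ^ 3 + 1) - 3 * α * x 0 * x 1 * x 2) * h3

theorem nf_sh (α : R) (x : Fin 3 → R) :
    nf α (sh α x 0) (sh α x 1) (sh α x 2) = nf α (x 0) (x 1) (x 2) ^ 2 := by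
  unfold sh nf
  simp only [Matrix.cons_val_zero, Matrix.cons_val_one, Matrix.cons_val]
  ring

theorem cj_mul_const (ω μ c : R) (x : Fin 3 → R) (i : ℕ) :
    cj ω μ (fun j => x j * c) i = cj ω μ x i * c := by
  unfold cj
  ring

/-- The triple attached to `h`. -/
def gT (ω α : R) (ξ θ h : Fin 3 → R) : Fin 3 → R :=
  mulT α (mulT α (mulT α ξ θ) (sg ω h)) (sh α h)

theorem nf_gT {ω α : R} (hω : ω ^ 2 + ω + 1 = 0) (ξ θ h : Fin 3 → R) :
    nf α (gT ω α ξ θ h 0) (gT ω α ξ θ h 1) (gT ω α ξ θ h 2) =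
      nf α (ξ 0) (ξ 1) (ξ 2) * nf α (θ 0) (θ 1) (θ 2) * nf α (h 0) (h 1) (h 2) ^ 3 := by
  unfold gT
  rw [nf_mulT, nf_mulT, nf_mulT, nf_sg hω, nf_sh]
  ring

theorem cj_gT {ω μ α : R} (hω : ω ^ 2 + ω + 1 = 0) (hμ : μ ^ 3 = α) (ξ θ h : Fin 3 → R) (i : ℕ) :
    cj ω μ (gT ω α ξ θ h) i =
      cj ω μ ξ i * cj ω μ θ i * cj ω μ h (i + 1) * (cj ω μ h (i + 1) * cj ω μ h (i + 2)) := by
  unfold gT
  rw [cj_mulT hω hμ, cj_mulT hω hμ, cj_mulT hω hμ, cj_sg, cj_sh hω hμ]

end Ring

section Domain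

variable {R : Type*} [CommRing R] [IsDomain R]

/-- The conjugates determine the element. -/
theorem cj_injective {ω μ : R} (hω : ω ^ 2 + ω + 1 = 0) (h3 : (3 : R) ≠ 0) (hμ : μ ≠ 0)
    {x y : Fin 3 → R} (h0 : cj ω μ x 0 = cj ω μ y 0) (h1 : cj ω μ x 1 = cj ω μ y 1)
    (h2 : cj ω μ x 2 = cj ω μ y 2) : x = y := by
  have hc := cube_eq_one hω
  unfold cj at h0 h1 h2
  have a0 : x 0 = y 0 := by
    apply mul_left_cancel₀ h3
    linear_combination h0 + h1 + h2 - (μ * (x 1 - y 1) + μ ^ 2 * (x 2 - y 2)) * hω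
      - (μ ^ 2 * (x 2 - y 2) * ω) * hc
  have a1 : x 1 = y 1 := by
    apply mul_left_cancel₀ (mul_ne_zero h3 hμ)
    linear_combination h0 + ω ^ 2 * h1 + ω * h2 - (x 0 - y 0) * hω
      - (2 * μ * (x 1 - y 1)) * hc - (μ ^ 2 * (x 2 - y 2)) * (hω + (ω ^ 2 + ω) * hc)
  have a2 : x 2 = y 2 := by
    apply mul_left_cancel₀ (mul_ne_zero h3 (pow_ne_zero 2 hμ))
    linear_combination h0 + ω * h1 + ω ^ 2 * h2 - (x 0 - y 0) * hω
      - (μ * (x 1 - y 1)) * (hω + ω * hc) - (μ ^ 2 * (x 2 - y 2)) * (hc + (1 + ω ^ 3) * hc)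
  funext j
  fin_cases j
  · exact a0
  · exact a1
  · exact a2

theorem g_rel {ω μ α a v0 v1 w : R} (hω : ω ^ 2 + ω + 1 = 0) (hμ : μ ^ 3 = α) (h3 : (3 : R) ≠ 0)
    (hμ0 : μ ≠ 0) {ξ₁ ξ₂ θ h h' : Fin 3 → R} {u : Fin 3 → R} (hw : w ≠ 0)
    (hu : ∀ i : Fin 3, w * cj ω μ h' i = u i * cj ω μ h i)
    (hu0 : u 0 = u 1 * cj ω μ θ 0) (hu1 : u 1 = u 2 * cj ω μ θ 1)
    (hθ : nf α (θ 0) (θ 1) (θ 2) = a)
    (e10 : cj ω μ ξ₁ 0 = v0) (e11 : cj ω μ ξ₁ 1 = v1) (e20 : cj ω μ ξ₂ 0 = v0)
    (e21 : cj ω μ ξ₂ 1 = v1) (hv0 : v0 ≠ 0) (hv1 : v1 ≠ 0)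
    (hd : nf α (ξ₁ 0) (ξ₁ 1) (ξ₁ 2) = a * nf α (ξ₂ 0) (ξ₂ 1) (ξ₂ 2)) (j : Fin 3) :
    gT ω α ξ₁ θ h j * nf α (h' 0) (h' 1) (h' 2) =
      gT ω α ξ₂ (mulT α θ θ) h' j * nf α (h 0) (h 1) (h 2) := by
  have c0 : ∀ x : Fin 3 → R, cj ω μ x 3 = cj ω μ x 0 := fun x => cj_add_three ω μ x 0 hω
  have c1 : ∀ x : Fin 3 → R, cj ω μ x 4 = cj ω μ x 1 := fun x => cj_add_three ω μ x 1 hω
  have hn := nf_eq_prod_cj ω μ h hω
  have hn' := nf_eq_prod_cj ω μ h' hω
  have hnθ := nf_eq_prod_cj ω μ θ hω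
  have hn1 := nf_eq_prod_cj ω μ ξ₁ hω
  have hn2 := nf_eq_prod_cj ω μ ξ₂ hω
  rw [hμ] at hn hn' hnθ hn1 hn2
  rw [hn1, hn2, e10, e11, e20, e21] at hd
  have hξ : cj ω μ ξ₁ 2 = a * cj ω μ ξ₂ 2 := by
    apply mul_left_cancel₀ (mul_ne_zero hv0 hv1)
    linear_combination hd
  rw [hθ] at hnθ
  have k0 := hu 0
  have k1 := hu 1
  have k2 := hu 2
  simp only [Fin.val_zero, Fin.val_one, Fin.val_two] at k0 k1 k2
  have key : (fun j => gT ω α ξ₁ θ h j * nf α (h' 0) (h' 1) (h' 2)) =
      fun j => gT ω α ξ₂ (mulT α θ θ) h' j * nf α (h 0) (h 1) (h 2) := by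
    refine cj_injective hω h3 hμ0 ?_ ?_ ?_
    · rw [cj_mul_const, cj_mul_const, cj_gT hω hμ, cj_gT hω hμ, cj_mulT hω hμ, hn, hn', e10, e20]
      simp only [zero_add]
      generalize cj ω μ h 0 = H0 at *
      generalize cj ω μ h 1 = H1 at *
      generalize cj ω μ h 2 = H2 at *
      generalize cj ω μ h' 0 = H0' at *
      generalize cj ω μ h' 1 = H1' at *
      generalize cj ω μ h' 2 = H2' at *
      generalize cj ω μ θ 0 = t0 at *
      apply mul_left_cancel₀ (pow_ne_zero 3 hw)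
      have P : w ^ 3 * (H0' * H1' * H2') = u 0 * u 1 * u 2 * (H0 * H1 * H2) := by
        calc w ^ 3 * (H0' * H1' * H2') = (w * H0') * (w * H1') * (w * H2') := by ring
          _ = _ := by rw [k0, k1, k2]; ring
      have Q : w ^ 3 * (H1' * (H1' * H2')) = u 1 * u 1 * u 2 * (H1 * (H1 * H2)) := by
        calc w ^ 3 * (H1' * (H1' * H2')) = (w * H1') * (w * H1') * (w * H2') := by ring
          _ = _ := by rw [k1, k2]; ring
      calc w ^ 3 * (v0 * t0 * H1 * (H1 * H2) * (H0' * H1' * H2'))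
          = v0 * t0 * H1 * (H1 * H2) * (w ^ 3 * (H0' * H1' * H2')) := by ring
        _ = v0 * (t0 * t0) * (w ^ 3 * (H1' * (H1' * H2'))) * (H0 * H1 * H2) := by
            rw [P, Q, hu0]; ring
        _ = w ^ 3 * (v0 * (t0 * t0) * H1' * (H1' * H2') * (H0 * H1 * H2)) := by ring
    · rw [cj_mul_const, cj_mul_const, cj_gT hω hμ, cj_gT hω hμ, cj_mulT hω hμ, hn, hn', e11, e21]
      norm_num only [c0]
      generalize cj ω μ h 0 = H0 at *
      generalize cj ω μ h 1 = H1 at *
      generalize cj ω μ h 2 = H2 at *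
      generalize cj ω μ h' 0 = H0' at *
      generalize cj ω μ h' 1 = H1' at *
      generalize cj ω μ h' 2 = H2' at *
      generalize cj ω μ θ 1 = t1 at *
      apply mul_left_cancel₀ (pow_ne_zero 3 hw)
      have P : w ^ 3 * (H0' * H1' * H2') = u 0 * u 1 * u 2 * (H0 * H1 * H2) := by
        calc w ^ 3 * (H0' * H1' * H2') = (w * H0') * (w * H1') * (w * H2') := by ring
          _ = _ := by rw [k0, k1, k2]; ring
      have Q : w ^ 3 * (H2' * (H2' * H0')) = u 2 * u 2 * u 0 * (H2 * (H2 * H0)) := by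
        calc w ^ 3 * (H2' * (H2' * H0')) = (w * H2') * (w * H2') * (w * H0') := by ring
          _ = _ := by rw [k2, k0]; ring
      calc w ^ 3 * (v1 * t1 * H2 * (H2 * H0) * (H0' * H1' * H2'))
          = v1 * t1 * H2 * (H2 * H0) * (w ^ 3 * (H0' * H1' * H2')) := by ring
        _ = v1 * (t1 * t1) * (w ^ 3 * (H2' * (H2' * H0'))) * (H0 * H1 * H2) := by
            rw [P, Q, hu1]; ring
        _ = w ^ 3 * (v1 * (t1 * t1) * H2' * (H2' * H0') * (H0 * H1 * H2)) := by ring
    · rw [cj_mul_const, cj_mul_const, cj_gT hω hμ, cj_gT hω hμ, cj_mulT hω hμ, hn, hn', hξ, hnθ]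
      norm_num only [c0, c1]
      generalize cj ω μ h 0 = H0 at *
      generalize cj ω μ h 1 = H1 at *
      generalize cj ω μ h 2 = H2 at *
      generalize cj ω μ h' 0 = H0' at *
      generalize cj ω μ h' 1 = H1' at *
      generalize cj ω μ h' 2 = H2' at *
      generalize cj ω μ θ 0 = t0 at *
      generalize cj ω μ θ 1 = t1 at *
      generalize cj ω μ θ 2 = t2 at *
      generalize cj ω μ ξ₂ 2 = x2 at *
      apply mul_left_cancel₀ (pow_ne_zero 3 hw)
      have P : w ^ 3 * (H0' * H1' * H2') = u 0 * u 1 * u 2 * (H0 * H1 * H2) := by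
        calc w ^ 3 * (H0' * H1' * H2') = (w * H0') * (w * H1') * (w * H2') := by ring
          _ = _ := by rw [k0, k1, k2]; ring
      have Q : w ^ 3 * (H0' * (H0' * H1')) = u 0 * u 0 * u 1 * (H0 * (H0 * H1)) := by
        calc w ^ 3 * (H0' * (H0' * H1')) = (w * H0') * (w * H0') * (w * H1') := by ring
          _ = _ := by rw [k0, k1]; ring
      calc w ^ 3 * (t0 * t1 * t2 * x2 * t2 * H0 * (H0 * H1) * (H0' * H1' * H2'))
          = t0 * t1 * t2 * x2 * t2 * H0 * (H0 * H1) * (w ^ 3 * (H0' * H1' * H2')) := by ring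
        _ = x2 * (t2 * t2) * (w ^ 3 * (H0' * (H0' * H1'))) * (H0 * H1 * H2) := by
            rw [P, Q, hu0, hu1]; ring
        _ = w ^ 3 * (x2 * (t2 * t2) * H0' * (H0' * H1') * (H0 * H1 * H2)) := by ring
  exact congrFun key j

end Domain

end FA

end Pool.Agent.D5741
end

section

/-!
# Rational elements of `Ω ⊗ L`: intersection of two fields of definition
-/

set_option autoImplicit false
open scoped TensorProduct

namespace Pool.Agent.D5741

namespace InterAux

section

variable {K L Ω : Type} [Field K] [Field L] [Algebra K L] [Field Ω] [Algebra K Ω]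

/-- A `K`-linear map `Ω → Ω` that is an `F`-linear projection onto `F`. -/
structure IsProj (F : IntermediateField K Ω) (ψ : Ω →ₗ[K] Ω) : Prop where
  mem : ∀ x, ψ x ∈ F
  mul : ∀ f x : Ω, f ∈ F → ψ (f * x) = f * ψ x
  one : ψ 1 = 1

theorem exists_isProj (F : IntermediateField K Ω) : ∃ ψ : Ω →ₗ[K] Ω, IsProj F ψ := by
  obtain ⟨φ, hφ⟩ := LinearMap.exists_leftInverse_of_injective (Algebra.linearMap F Ω)
    (LinearMap.ker_eq_bot.mpr (FaithfulSMul.algebraMap_injective F Ω))
  refine ⟨(F.val.toLinearMap).comp (φ.restrictScalars K), ?_, ?_, ?_⟩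
  · intro x
    exact (φ x).2
  · intro f x hf
    have h := φ.map_smul (⟨f, hf⟩ : F) x
    have h2 : (⟨f, hf⟩ : F) • x = f * x := by
      rw [Algebra.smul_def]; rfl
    rw [h2] at h
    simp only [LinearMap.comp_apply, LinearMap.restrictScalars_apply, AlgHom.toLinearMap_apply]
    rw [h]
    rfl
  · have h := LinearMap.congr_fun hφ (1 : F)
    simp only [LinearMap.comp_apply, Algebra.linearMap_apply, map_one, LinearMap.id_apply] at h
    simp only [LinearMap.comp_apply, LinearMap.restrictScalars_apply, AlgHom.toLinearMap_apply]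
    rw [h]
    rfl

variable {F : IntermediateField K Ω} {ψ : Ω →ₗ[K] Ω}

theorem rTensor_mul (hψ : IsProj F ψ) {g : Ω ⊗[K] L} (hg : g ∈ RatSub L F) (x : Ω ⊗[K] L) :
    ψ.rTensor L (g * x) = g * ψ.rTensor L x := by
  obtain ⟨g', rfl⟩ := hg
  induction g' using TensorProduct.induction_on with
  | zero => simp
  | add a b ha hb =>
    rw [map_add, add_mul, map_add, ha, hb, add_mul]
  | tmul f l =>
    induction x using TensorProduct.induction_on with
    | zero => simp
    | add a b ha hb => rw [mul_add, map_add, ha, hb, map_add, mul_add]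
    | tmul w m =>
      have h1 : (Algebra.TensorProduct.map F.val (AlgHom.id K L)) (f ⊗ₜ[K] l) =
          (f : Ω) ⊗ₜ[K] l := rfl
      change ψ.rTensor L ((Algebra.TensorProduct.map F.val (AlgHom.id K L)) (f ⊗ₜ[K] l) *
        w ⊗ₜ[K] m) = (Algebra.TensorProduct.map F.val (AlgHom.id K L)) (f ⊗ₜ[K] l) *
          ψ.rTensor L (w ⊗ₜ[K] m)
      rw [h1, Algebra.TensorProduct.tmul_mul_tmul, LinearMap.rTensor_tmul, LinearMap.rTensor_tmul,
        Algebra.TensorProduct.tmul_mul_tmul, hψ.mul _ _ f.2]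

theorem rTensor_mem (hψ : IsProj F ψ) (x : Ω ⊗[K] L) : ψ.rTensor L x ∈ RatSub L F := by
  induction x using TensorProduct.induction_on with
  | zero => rw [map_zero]; exact Subalgebra.zero_mem _
  | add a b ha hb => rw [map_add]; exact Subalgebra.add_mem _ ha hb
  | tmul w m =>
    rw [LinearMap.rTensor_tmul]
    exact ⟨(⟨ψ w, hψ.mem w⟩ : F) ⊗ₜ[K] m, rfl⟩

theorem rTensor_eq_self (hψ : IsProj F ψ) {g : Ω ⊗[K] L} (hg : g ∈ RatSub L F) :
    ψ.rTensor L g = g := by
  have h := rTensor_mul hψ hg 1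
  have h1 : ψ.rTensor L (1 : Ω ⊗[K] L) = 1 := by
    rw [Algebra.TensorProduct.one_def, LinearMap.rTensor_tmul, hψ.one]
  rw [h1, mul_one] at h
  exact h

theorem mem_ratSub_iff (hψ : IsProj F ψ) (g : Ω ⊗[K] L) :
    g ∈ RatSub L F ↔ ψ.rTensor L g = g :=
  ⟨rTensor_eq_self hψ, fun h => h ▸ rTensor_mem hψ g⟩

variable {ι : Type*} (b : Module.Basis ι K L)

theorem repr_rTensor (x : Ω ⊗[K] L) (i : ι) :
    (Algebra.TensorProduct.basis Ω b).repr (ψ.rTensor L x) i =
      ψ ((Algebra.TensorProduct.basis Ω b).repr x i) := by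
  induction x using TensorProduct.induction_on with
  | zero => simp
  | add a c ha hc => simp only [map_add, Finsupp.add_apply, ha, hc]
  | tmul w m =>
    rw [LinearMap.rTensor_tmul, Algebra.TensorProduct.basis_repr_tmul,
      Algebra.TensorProduct.basis_repr_tmul]
    simp only [Finsupp.smul_apply, Finsupp.mapRange_apply, smul_eq_mul]
    rw [mul_comm, mul_comm w, ← Algebra.smul_def, ← Algebra.smul_def, map_smul]

theorem mem_ratSub_iff_repr (F : IntermediateField K Ω) (x : Ω ⊗[K] L) :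
    x ∈ RatSub L F ↔ ∀ i, (Algebra.TensorProduct.basis Ω b).repr x i ∈ F := by
  obtain ⟨ψ, hψ⟩ := exists_isProj F
  constructor
  · intro h i
    rw [← rTensor_eq_self hψ h, repr_rTensor]
    exact hψ.mem _
  · intro h
    rw [mem_ratSub_iff hψ]
    apply (Algebra.TensorProduct.basis Ω b).repr.injective
    ext i
    rw [repr_rTensor]
    have h1 := hψ.mul _ 1 (h i)
    rw [mul_one, hψ.one, mul_one] at h1
    exact h1

theorem mem_ratSub_inf {F₁ F₂ : IntermediateField K Ω} {x : Ω ⊗[K] L} (h₁ : x ∈ RatSub L F₁)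
    (h₂ : x ∈ RatSub L F₂) : x ∈ RatSub L (F₁ ⊓ F₂) := by
  have b := Module.Basis.ofVectorSpace K L
  rw [mem_ratSub_iff_repr b] at h₁ h₂ ⊢
  intro i
  exact ⟨h₁ i, h₂ i⟩

/-- If `n` has minimal support among the nonzero elements of `D` and is normalised, it is
rational. -/
theorem rational_of_minimal {J : Type*} (F : IntermediateField K Ω) {n₁ : Ω ⊗[K] L}
    {G₁ : J → Ω ⊗[K] L} (hn₁ : n₁ ∈ RatSub L F) (hG₁ : ∀ j, G₁ j ∈ RatSub L F) [IsDomain (Ω ⊗[K] L)]
    (h₁ : n₁ ≠ 0) (n : Ω ⊗[K] L) (hn : ∀ j, ∃ G, G * n₁ = G₁ j * n) (s : ι)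
    (hs : (Algebra.TensorProduct.basis Ω b).repr n s = 1)
    (hmin : ∀ m : Ω ⊗[K] L, m ≠ 0 → (∀ j, ∃ G, G * n₁ = G₁ j * m) →
      ((Algebra.TensorProduct.basis Ω b).repr n).support.card ≤
        ((Algebra.TensorProduct.basis Ω b).repr m).support.card) :
    n ∈ RatSub L F ∧ ∀ j G, G * n₁ = G₁ j * n → G ∈ RatSub L F := by
  obtain ⟨ψ, hψ⟩ := exists_isProj F
  have hΦ : ∀ j (m G : Ω ⊗[K] L), G * n₁ = G₁ j * m →
      ψ.rTensor L G * n₁ = G₁ j * ψ.rTensor L m := by
    intro j m G h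
    have h2 := congrArg (ψ.rTensor L) h
    rw [rTensor_mul hψ (hG₁ j), mul_comm G n₁, rTensor_mul hψ hn₁, mul_comm] at h2
    exact h2
  have key : ψ.rTensor L n = n := by
    by_contra hne
    have hm : n - ψ.rTensor L n ≠ 0 := by
      intro h
      exact hne (sub_eq_zero.mp h).symm
    have hD : ∀ j, ∃ G, G * n₁ = G₁ j * (n - ψ.rTensor L n) := by
      intro j
      obtain ⟨G, hG⟩ := hn j
      refine ⟨G - ψ.rTensor L G, ?_⟩
      rw [sub_mul, mul_sub, hG, hΦ j n G hG]
    have hle := hmin _ hm hD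
    have hlt : ((Algebra.TensorProduct.basis Ω b).repr (n - ψ.rTensor L n)).support.card <
        ((Algebra.TensorProduct.basis Ω b).repr n).support.card := by
      apply Finset.card_lt_card
      rw [Finset.ssubset_iff_of_subset]
      · refine ⟨s, ?_, ?_⟩
        · rw [Finsupp.mem_support_iff, hs]
          exact one_ne_zero
        · rw [Finsupp.notMem_support_iff, map_sub, Finsupp.sub_apply, repr_rTensor, hs, hψ.one,
            sub_self]
      · intro i hi
        rw [Finsupp.mem_support_iff] at hi ⊢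
        intro h0
        apply hi
        rw [map_sub, Finsupp.sub_apply, repr_rTensor, h0, map_zero, sub_self]
    exact absurd hle (not_le.mpr hlt)
  refine ⟨(mem_ratSub_iff hψ n).mpr key, ?_⟩
  intro j G hG
  have h := hΦ j n G hG
  rw [key, ← hG] at h
  rw [mem_ratSub_iff hψ]
  exact mul_right_cancel₀ h₁ h

end

end InterAux

open InterAux in
/-- TASK INT -/
theorem exists_inter (K L Ω : Type) [Field K] [Field L] [Algebra K L] [Field Ω] [Algebra K Ω]
    [IsDomain (Ω ⊗[K] L)] (F₁ F₂ : IntermediateField K Ω) (n₁ n₂ : Ω ⊗[K] L)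
    (G₁ G₂ : Fin 3 → Ω ⊗[K] L) (hn₁ : n₁ ∈ RatSub L F₁) (hn₂ : n₂ ∈ RatSub L F₂)
    (hG₁ : ∀ j, G₁ j ∈ RatSub L F₁) (hG₂ : ∀ j, G₂ j ∈ RatSub L F₂)
    (h₁ : n₁ ≠ 0) (h₂ : n₂ ≠ 0) (hrel : ∀ j, G₁ j * n₂ = G₂ j * n₁) :
    ∃ (n : Ω ⊗[K] L) (G : Fin 3 → Ω ⊗[K] L), n ∈ RatSub L (F₁ ⊓ F₂) ∧
      (∀ j, G j ∈ RatSub L (F₁ ⊓ F₂)) ∧ n ≠ 0 ∧ ∀ j, G j * n₁ = G₁ j * n := by
  classical
  let b := Module.Basis.ofVectorSpace K L
  let B := Algebra.TensorProduct.basis Ω b
  -- the set of cardinalities of supports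
  let P : ℕ → Prop := fun N => ∃ m : Ω ⊗[K] L, m ≠ 0 ∧ (∀ j, ∃ G, G * n₁ = G₁ j * m) ∧
    (B.repr m).support.card = N
  have hP : ∃ N, P N := ⟨_, n₁, h₁, fun j => ⟨G₁ j, rfl⟩, rfl⟩
  obtain ⟨m, hm0, hmD, hmc⟩ := Nat.find_spec hP
  have hmin : ∀ m' : Ω ⊗[K] L, m' ≠ 0 → (∀ j, ∃ G, G * n₁ = G₁ j * m') →
      (B.repr m).support.card ≤ (B.repr m').support.card := by
    intro m' h0 hD
    rw [hmc]
    exact Nat.find_min' hP ⟨m', h0, hD, rfl⟩
  obtain ⟨s, hs⟩ : ∃ s, B.repr m s ≠ 0 := by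
    by_contra hcon
    push Not at hcon
    apply hm0
    apply B.repr.injective
    ext i
    rw [map_zero]
    exact hcon i
  -- normalise
  obtain ⟨n, hn⟩ : ∃ n, n = (B.repr m s)⁻¹ • m := ⟨_, rfl⟩
  have hs' : B.repr n s = 1 := by
    rw [hn, map_smul, Finsupp.smul_apply, smul_eq_mul, inv_mul_cancel₀ hs]
  have hsupp : (B.repr n).support.card = (B.repr m).support.card := by
    rw [hn, map_smul, Finsupp.support_smul_eq (inv_ne_zero hs)]
  have hnD : ∀ j, ∃ G, G * n₁ = G₁ j * n := by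
    intro j
    obtain ⟨G, hG⟩ := hmD j
    refine ⟨(B.repr m s)⁻¹ • G, ?_⟩
    rw [hn, smul_mul_assoc, hG, mul_smul_comm]
  have hn0 : n ≠ 0 := by
    intro h
    rw [h, map_zero] at hs'
    exact zero_ne_one hs'
  -- the two descriptions of `D`
  have hequiv : ∀ (x G : Ω ⊗[K] L) (j : Fin 3), G * n₁ = G₁ j * x ↔ G * n₂ = G₂ j * x := by
    intro x G j
    constructor
    · intro h
      apply mul_right_cancel₀ h₁
      calc G * n₂ * n₁ = (G * n₁) * n₂ := by ring
        _ = (G₁ j * n₂) * x := by rw [h]; ring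
        _ = G₂ j * x * n₁ := by rw [hrel j]; ring
    · intro h
      apply mul_right_cancel₀ h₂
      calc G * n₁ * n₂ = (G * n₂) * n₁ := by ring
        _ = (G₂ j * n₁) * x := by rw [h]; ring
        _ = G₁ j * x * n₂ := by rw [← hrel j]; ring
  have r1 := rational_of_minimal b F₁ hn₁ hG₁ h₁ n hnD s hs'
    (fun m' h0 hD => by
      have := hmin m' h0 hD
      rw [← hsupp] at this
      exact this)
  have r2 := rational_of_minimal b F₂ hn₂ hG₂ h₂ n
    (fun j => by
      obtain ⟨G, hG⟩ := hnD j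
      exact ⟨G, (hequiv n G j).mp hG⟩) s hs'
    (fun m' h0 hD => by
      have := hmin m' h0 (fun j => by
        obtain ⟨G, hG⟩ := hD j
        exact ⟨G, (hequiv m' G j).mpr hG⟩)
      rw [← hsupp] at this
      exact this)
  choose G hG using hnD
  exact ⟨n, G, mem_ratSub_inf r1.1 r2.1,
    fun j => mem_ratSub_inf (r1.2 j (G j) (hG j)) (r2.2 j (G j) ((hequiv n (G j) j).mp (hG j))),
    hn0, hG⟩

end Pool.Agent.D5741
end

section

/-!
# Specialisation of values of norm forms
-/

set_option autoImplicit false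

namespace Pool.Agent.D5741

open scoped nonZeroDivisors

/-- Clearing denominators in a representation by the norm form. -/
theorem isNm_clear {R Q : Type*} [CommRing R] [IsDomain R] [Field Q] [Algebra R Q]
    [IsFractionRing R Q] {α c : R} (h : IsNm (algebraMap R Q α) (algebraMap R Q c)) :
    ∃ X Y Z q : R, q ≠ 0 ∧ nf α X Y Z = c * q ^ 3 := by
  classical
  obtain ⟨x, y, z, h⟩ := h
  obtain ⟨⟨q, hq⟩, hq'⟩ := IsLocalization.exist_integer_multiples_of_finset R⁰ ({x, y, z} : Finset Q)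
  have hx := hq' x (by simp)
  have hy := hq' y (by simp)
  have hz := hq' z (by simp)
  obtain ⟨X, hX⟩ := hx
  obtain ⟨Y, hY⟩ := hy
  obtain ⟨Z, hZ⟩ := hz
  simp only [Algebra.smul_def] at hX hY hZ
  refine ⟨X, Y, Z, q, nonZeroDivisors.ne_zero hq, ?_⟩
  apply IsFractionRing.injective R Q
  rw [map_nf, hX, hY, hZ, nf_smul, h, map_mul, map_pow]
  ring

/-- A representation with denominator specialises. -/
theorem IsNm.of_eq_mul_cube {F : Type*} [Field F] {α c X Y Z q : F} (hq : q ≠ 0)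
    (h : nf α X Y Z = c * q ^ 3) : IsNm α c := by
  rw [← isNm_mul_cube_iff hq]
  exact ⟨X, Y, Z, h⟩

theorem isNm_of_fractionRing_mvPolynomial (F : Type) [Field F] [Infinite F] (ι : Type)
    (α c : F) (h : IsNm (algebraMap F (FractionRing (MvPolynomial ι F)) α)
      (algebraMap F (FractionRing (MvPolynomial ι F)) c)) : IsNm α c := by
  rw [IsScalarTower.algebraMap_apply F (MvPolynomial ι F) (FractionRing (MvPolynomial ι F)),
    IsScalarTower.algebraMap_apply F (MvPolynomial ι F) (FractionRing (MvPolynomial ι F)) c] at h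
  obtain ⟨X, Y, Z, q, hq, h⟩ := isNm_clear h
  obtain ⟨v, hv⟩ : ∃ v : ι → F, MvPolynomial.eval v q ≠ 0 := by
    by_contra hcon
    push Not at hcon
    exact hq (MvPolynomial.funext fun v => by rw [hcon v, map_zero])
  have h2 := congrArg (MvPolynomial.eval v) h
  rw [map_nf, map_mul, map_pow, MvPolynomial.algebraMap_eq, MvPolynomial.eval_C,
    MvPolynomial.eval_C] at h2
  exact IsNm.of_eq_mul_cube hv h2

/-- The same for rational functions in one variable. -/
theorem isNm_of_ratFunc (F : Type) [Field F] [Infinite F]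
    (α c : F) (h : IsNm (algebraMap F (RatFunc F) α) (algebraMap F (RatFunc F) c)) :
    IsNm α c := by
  rw [IsScalarTower.algebraMap_apply F (Polynomial F) (RatFunc F),
    IsScalarTower.algebraMap_apply F (Polynomial F) (RatFunc F) c] at h
  obtain ⟨X, Y, Z, q, hq, h⟩ := isNm_clear h
  obtain ⟨v, hv⟩ : ∃ v : F, Polynomial.eval v q ≠ 0 := by
    by_contra hcon
    push Not at hcon
    exact hq (Polynomial.funext fun v => by rw [hcon v, Polynomial.eval_zero])
  have h2 := congrArg (Polynomial.evalRingHom v) h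
  rw [map_nf, map_mul, map_pow] at h2
  simp only [Polynomial.coe_evalRingHom, Polynomial.algebraMap_eq, Polynomial.eval_C] at h2
  exact IsNm.of_eq_mul_cube hv h2

theorem isNm_of_powerSeries {F : Type} [Field F] {ω α c : F}
    (hω : ω ^ 2 + ω + 1 = 0) (hα : ∀ x : F, x ^ 3 ≠ α) (u : PowerSeries F)
    (hu : PowerSeries.constantCoeff u ≠ 0) (n : ℕ) :
    ∀ X Y Z : PowerSeries F,
      nf (PowerSeries.C α) X Y Z = PowerSeries.C c * (PowerSeries.X ^ n * u) ^ 3 →
      IsNm α c := by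
  induction n with
  | zero =>
    intro X Y Z h
    have h2 := congrArg PowerSeries.constantCoeff h
    rw [map_nf, map_mul, map_pow, pow_zero, one_mul] at h2
    simp only [PowerSeries.constantCoeff_C] at h2
    exact IsNm.of_eq_mul_cube hu h2
  | succ n ih =>
    intro X Y Z h
    have h2 := congrArg PowerSeries.constantCoeff h
    rw [map_nf, map_mul, map_pow, map_mul, map_pow, PowerSeries.constantCoeff_X] at h2
    simp only [PowerSeries.constantCoeff_C, ne_eq, Nat.add_eq_zero_iff, one_ne_zero, and_false,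
      not_false_eq_true, zero_pow, zero_mul, OfNat.ofNat_ne_zero, mul_zero] at h2
    obtain ⟨hX, hY, hZ⟩ := (nf_eq_zero_iff hω hα).mp h2
    rw [← PowerSeries.X_dvd_iff] at hX hY hZ
    obtain ⟨X', rfl⟩ := hX
    obtain ⟨Y', rfl⟩ := hY
    obtain ⟨Z', rfl⟩ := hZ
    refine ih X' Y' Z' ?_
    rw [nf_smul] at h
    have h3 : (PowerSeries.X : PowerSeries F) ^ 3 ≠ 0 := pow_ne_zero _ PowerSeries.X_ne_zero
    apply mul_left_cancel₀ h3
    rw [h]
    ring

theorem isNm_of_laurentSeries (F : Type) [Field F] [CharZero F] (ω α c : F)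
    (hω : ω ^ 2 + ω + 1 = 0) (hα : α ≠ 0)
    (h : IsNm (algebraMap F (LaurentSeries F) α) (algebraMap F (LaurentSeries F) c)) :
    IsNm α c := by
  by_cases hcube : ∀ x : F, x ^ 3 ≠ α
  · have e1 : ∀ r : F, algebraMap F (LaurentSeries F) r =
        algebraMap (PowerSeries F) (LaurentSeries F) (PowerSeries.C r) := by
      intro r
      rw [LaurentSeries.algebraMap_apply, LaurentSeries.coe_algebraMap,
        HahnSeries.ofPowerSeries_C]
    rw [e1, e1] at h
    obtain ⟨X, Y, Z, q, hq, h⟩ := isNm_clear h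
    obtain ⟨u, hu⟩ := PowerSeries.X_pow_order_dvd (φ := q)
    have h1 := PowerSeries.coeff_order hq
    generalize q.order.toNat = n at h1 hu
    have hu0 : PowerSeries.constantCoeff u ≠ 0 := by
      intro h0
      apply h1
      rw [hu]
      rw [PowerSeries.coeff_X_pow_mul', if_pos le_rfl, Nat.sub_self,
        PowerSeries.coeff_zero_eq_constantCoeff_apply, h0]
    rw [hu] at h
    exact isNm_of_powerSeries hω hcube u hu0 _ X Y Z h
  · push Not at hcube
    obtain ⟨γ, rfl⟩ := hcube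
    exact IsNm.of_cube (fun h0 => hα (by rw [h0]; ring)) c

end Pool.Agent.D5741
end

section

/-!
# Independence of two symbols over the intersection of two fields
-/

set_option autoImplicit false

namespace Pool.Agent.D5741

theorem indep_of_two {K' K₁ K₂ : Type} [Field K'] [Field K₁] [Field K₂] (i₁ : K' →+* K₁)
    (i₂ : K' →+* K₂) {α a b : K'} (hα : α ≠ 0) (ha : a ≠ 0) (hb : b ≠ 0)
    (h1 : IsNm (i₁ α) (i₁ (b / a))) (h1' : ¬ IsNm (i₁ α) (i₁ a))
    (h2 : IsNm (i₂ α) (i₂ (b / a ^ 2))) (h2' : ¬ IsNm (i₂ α) (i₂ a)) : Indep α a b := by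
  refine ⟨hα, ha, hb, ?_⟩
  intro i j hij
  have ha1 : i₁ a ≠ 0 := by rwa [Ne, map_eq_zero]
  have hb1 : i₁ b ≠ 0 := by rwa [Ne, map_eq_zero]
  have ha2 : i₂ a ≠ 0 := by rwa [Ne, map_eq_zero]
  have hb2 : i₂ b ≠ 0 := by rwa [Ne, map_eq_zero]
  have e1 : IsNm (i₁ α) (i₁ a ^ (i + j)) := by
    have h3 := (hij.map i₁).div (h1.pow j)
    have h4 : i₁ (a ^ i * b ^ j) / i₁ (b / a) ^ j = i₁ a ^ (i + j) := by
      rw [map_mul, map_pow, map_pow, map_div₀, div_pow, pow_add]
      field_simp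
    rwa [h4] at h3
  have e2 : IsNm (i₂ α) (i₂ a ^ (i + 2 * j)) := by
    have h3 := (hij.map i₂).div (h2.pow j)
    have h4 : i₂ (a ^ i * b ^ j) / i₂ (b / a ^ 2) ^ j = i₂ a ^ (i + 2 * j) := by
      rw [map_mul, map_pow, map_pow, map_div₀, map_pow, div_pow, pow_add, pow_mul]
      field_simp
    rwa [h4] at h3
  have f1 : 3 ∣ i + j := by
    by_contra h
    exact h1' (e1.of_pow ha1 h)
  have f2 : 3 ∣ i + 2 * j := by
    by_contra h
    exact h2' (e2.of_pow ha2 h)
  omega

end Pool.Agent.D5741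
end

section

/-!
# Extension of scalars, rational elements and generic elements
-/

set_option autoImplicit false

namespace Pool.Agent.D5741

open scoped TensorProduct

namespace FA

section Lin

/-- A basis of a subspace consisting of elements of a spanning set. -/
theorem exists_basis_of_span {F M : Type} [Field F] [AddCommGroup M] [Module F M]
    (V : Submodule F M) [FiniteDimensional F V] (S : Set M) (hV : V = Submodule.span F S) :
    ∃ b : Module.Basis (Fin (Module.finrank F V)) F V, ∀ k, (b k : M) ∈ S := by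
  subst hV
  obtain ⟨f, hf, hspan, hli⟩ := Submodule.exists_fun_fin_finrank_span_eq F S
  refine ⟨(Module.Basis.span hli).map (LinearEquiv.ofEq _ _ hspan), fun k => ?_⟩
  rw [Module.Basis.map_apply]
  show ((Module.Basis.span hli k : Submodule.span F (Set.range f)) : M) ∈ S
  rw [Module.Basis.span_apply]
  exact hf k

theorem cj_add {R : Type*} [CommRing R] (ω μ : R) (x y : Fin 3 → R) (i : ℕ) :
    cj ω μ (x + y) i = cj ω μ x i + cj ω μ y i := by
  unfold cj
  simp only [Pi.add_apply]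
  ring

theorem cj_smul {S R : Type*} [CommRing S] [CommRing R] [Algebra S R] (ω μ : R) (c : S)
    (x : Fin 3 → R) (i : ℕ) : cj ω μ (c • x) i = c • cj ω μ x i := by
  unfold cj
  simp only [Pi.smul_apply, smul_add, mul_smul_comm]

theorem cj_sum {R ι : Type*} [CommRing R] (ω μ : R) (s : Finset ι) (c : ι → R)
    (x : ι → Fin 3 → R) (i : ℕ) :
    cj ω μ (fun j => ∑ k ∈ s, c k * x k j) i = ∑ k ∈ s, c k * cj ω μ (x k) i := by
  unfold cj
  rw [Finset.mul_sum, Finset.mul_sum, ← Finset.sum_add_distrib, ← Finset.sum_add_distrib]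
  apply Finset.sum_congr rfl
  intro k _
  ring

theorem map_cj {R S : Type*} [CommRing R] [CommRing S] (f : R →+* S) (ω μ : R) (x : Fin 3 → R)
    (i : ℕ) : f (cj ω μ x i) = cj (f ω) (f μ) (fun j => f (x j)) i := by
  unfold cj
  simp only [map_add, map_mul, map_pow]

/-- Two subspaces of triples related by multiplication of the conjugates by nonzero scalars are
isomorphic. -/
theorem exists_equiv {F T Q : Type} [Field F] [CommRing T] [IsDomain T] [Algebra F T] [Field Q]
    [Algebra T Q] [FaithfulSMul T Q] {ω μ : T} (hω : ω ^ 2 + ω + 1 = 0) (h3 : (3 : T) ≠ 0)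
    (hμ : μ ≠ 0) (φ : Fin 3 → Q) (hφ : ∀ i, φ i ≠ 0) (V₁ V₂ : Submodule F (Fin 3 → T))
    (h12 : ∀ h ∈ V₁, ∃ h' ∈ V₂, ∀ i : Fin 3,
      algebraMap T Q (cj ω μ h' i) = φ i * algebraMap T Q (cj ω μ h i))
    (h21 : ∀ h' ∈ V₂, ∃ h ∈ V₁, ∀ i : Fin 3,
      algebraMap T Q (cj ω μ h' i) = φ i * algebraMap T Q (cj ω μ h i)) :
    ∃ Φ : V₁ ≃ₗ[F] V₂, ∀ (h : V₁) (i : Fin 3),
      algebraMap T Q (cj ω μ (Φ h) i) = φ i * algebraMap T Q (cj ω μ h i) := by
  have hinj : Function.Injective (algebraMap T Q) := FaithfulSMul.algebraMap_injective T Q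
  have uniq : ∀ x y y' : Fin 3 → T, (∀ i : Fin 3,
      algebraMap T Q (cj ω μ y i) = φ i * algebraMap T Q (cj ω μ x i)) → (∀ i : Fin 3,
      algebraMap T Q (cj ω μ y' i) = φ i * algebraMap T Q (cj ω μ x i)) → y = y' := by
    intro x y y' h1 h2
    refine cj_injective hω h3 hμ ?_ ?_ ?_
    · exact hinj ((h1 0).trans (h2 0).symm)
    · exact hinj ((h1 1).trans (h2 1).symm)
    · exact hinj ((h1 2).trans (h2 2).symm)
  have uniq' : ∀ x x' y : Fin 3 → T, (∀ i : Fin 3,
      algebraMap T Q (cj ω μ y i) = φ i * algebraMap T Q (cj ω μ x i)) → (∀ i : Fin 3,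
      algebraMap T Q (cj ω μ y i) = φ i * algebraMap T Q (cj ω μ x' i)) → x = x' := by
    intro x x' y h1 h2
    refine cj_injective hω h3 hμ ?_ ?_ ?_
    · exact hinj (mul_left_cancel₀ (hφ 0) ((h1 0).symm.trans (h2 0)))
    · exact hinj (mul_left_cancel₀ (hφ 1) ((h1 1).symm.trans (h2 1)))
    · exact hinj (mul_left_cancel₀ (hφ 2) ((h1 2).symm.trans (h2 2)))
  choose f hf using fun x : V₁ => (by
    obtain ⟨y, hy, h⟩ := h12 x x.2
    exact ⟨⟨y, hy⟩, h⟩ : ∃ y : V₂, ∀ i : Fin 3,
      algebraMap T Q (cj ω μ y i) = φ i * algebraMap T Q (cj ω μ x i))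
  let Φ : V₁ →ₗ[F] V₂ :=
    { toFun := f
      map_add' := by
        intro x y
        apply Subtype.ext
        refine uniq (((x + y : V₁) : Fin 3 → T)) _ _ (hf (x + y)) ?_
        intro i
        rw [Submodule.coe_add, Submodule.coe_add, cj_add, cj_add, map_add, map_add, hf x, hf y]
        ring
      map_smul' := by
        intro c x
        apply Subtype.ext
        refine uniq (((c • x : V₁) : Fin 3 → T)) _ _ (hf (c • x)) ?_
        intro i
        rw [RingHom.id_apply, Submodule.coe_smul, Submodule.coe_smul, cj_smul, cj_smul,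
          Algebra.smul_def, Algebra.smul_def, map_mul, map_mul, hf x]
        ring }
  have hbij : Function.Bijective Φ := by
    constructor
    · intro x x' hxx
      apply Subtype.ext
      refine uniq' _ _ (f x) (hf x) ?_
      have : f x = f x' := hxx
      rw [this]
      exact hf x'
    · intro y
      obtain ⟨x, hx, h⟩ := h21 y y.2
      refine ⟨⟨x, hx⟩, ?_⟩
      apply Subtype.ext
      exact uniq x _ _ (hf ⟨x, hx⟩) h
  exact ⟨LinearEquiv.ofBijective Φ hbij, fun h i => hf h i⟩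

end Lin

section Ext

variable {K L Ω Ω' : Type} [Field K] [Field L] [Algebra K L] [Field Ω] [Algebra K Ω] [Field Ω']
  [Algebra K Ω'] [Algebra Ω Ω'] [IsScalarTower K Ω Ω']

variable (K L Ω Ω') in
/-- Extension of scalars. -/
noncomputable def jx : Ω ⊗[K] L →ₐ[K] Ω' ⊗[K] L :=
  Algebra.TensorProduct.map (IsScalarTower.toAlgHom K Ω Ω') (AlgHom.id K L)

theorem jx_tmul (c : Ω) (l : L) : jx K L Ω Ω' (c ⊗ₜ l) = algebraMap Ω Ω' c ⊗ₜ l := by
  unfold jx
  rw [Algebra.TensorProduct.map_tmul]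
  rfl

theorem tmap_injective {A B : Type} [CommRing A] [CommRing B] [Algebra K A] [Algebra K B]
    (f : A →ₐ[K] B) (hf : Function.Injective f) :
    Function.Injective (Algebra.TensorProduct.map f (AlgHom.id K L)) := by
  have h := Module.Flat.rTensor_preserves_injective_linearMap (M := L) f.toLinearMap hf
  intro x y hxy
  apply h
  have e : ∀ z : A ⊗[K] L, LinearMap.rTensor L f.toLinearMap z =
      Algebra.TensorProduct.map f (AlgHom.id K L) z := by
    intro z
    induction z using TensorProduct.induction_on with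
    | zero => simp
    | add a b ha hb => rw [map_add, map_add, ha, hb]
    | tmul a l => rfl
  rw [e, e, hxy]

theorem jx_injective : Function.Injective (jx K L Ω Ω') :=
  tmap_injective _ (FaithfulSMul.algebraMap_injective Ω Ω')

theorem tmul_mem_RatSub {F : IntermediateField K Ω} {c : Ω} (hc : c ∈ F) (l : L) :
    c ⊗ₜ l ∈ RatSub L F := ⟨(⟨c, hc⟩ : F) ⊗ₜ l, rfl⟩

theorem jx_mem_RatSub {F : IntermediateField K Ω} {F' : IntermediateField K Ω'}
    (hF : ∀ c ∈ F, algebraMap Ω Ω' c ∈ F') {x : Ω ⊗[K] L} (hx : x ∈ RatSub L F) :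
    jx K L Ω Ω' x ∈ RatSub L F' := by
  obtain ⟨z, rfl⟩ := hx
  induction z using TensorProduct.induction_on with
  | zero =>
    rw [map_zero, map_zero]
    exact Subalgebra.zero_mem _
  | add a b ha hb =>
    rw [map_add, map_add]
    exact Subalgebra.add_mem _ ha hb
  | tmul f l =>
    have e : (Algebra.TensorProduct.map F.val (AlgHom.id K L)) (f ⊗ₜ[K] l) = (f : Ω) ⊗ₜ[K] l := rfl
    change jx K L Ω Ω' ((Algebra.TensorProduct.map F.val (AlgHom.id K L)) (f ⊗ₜ[K] l)) ∈ _
    rw [e, jx_tmul]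
    exact tmul_mem_RatSub (hF f f.2) l

/-- The generic combination of the triples `e k`. -/
noncomputable def gen {r : ℕ} (η : Fin r → Ω') (e : Fin r → Fin 3 → Ω ⊗[K] L) :
    Fin 3 → Ω' ⊗[K] L := fun j => ∑ k, (η k ⊗ₜ 1) * jx K L Ω Ω' (e k j)

theorem gen_mem {r : ℕ} {η : Fin r → Ω'} {e : Fin r → Fin 3 → Ω ⊗[K] L}
    {F : IntermediateField K Ω} {F' : IntermediateField K Ω'}
    (hF : ∀ c ∈ F, algebraMap Ω Ω' c ∈ F') (hη : ∀ k, η k ∈ F')
    (he : ∀ k j, e k j ∈ RatSub L F) (j : Fin 3) : gen η e j ∈ RatSub L F' := by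
  unfold gen
  exact Subalgebra.sum_mem _ fun k _ =>
    Subalgebra.mul_mem _ (tmul_mem_RatSub (hη k) 1) (jx_mem_RatSub hF (he k j))

/-- The generic combination is nondegenerate if some special combination is. -/
theorem nf_gen_ne_zero {r : ℕ} {η : Fin r → Ω'} (hη : AlgebraicIndependent Ω η)
    (e : Fin r → Fin 3 → Ω ⊗[K] L) (α : K) (c : Fin r → Ω) (h0 : Fin 3 → Ω ⊗[K] L)
    (hc : h0 = ∑ k, c k • e k)
    (hne : nf (algebraMap K (Ω ⊗[K] L) α) (h0 0) (h0 1) (h0 2) ≠ 0) :
    nf (algebraMap K (Ω' ⊗[K] L) α) (gen η e 0) (gen η e 1) (gen η e 2) ≠ 0 := by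
  intro hz
  apply hne
  let R := MvPolynomial (Fin r) Ω
  let ι : R ⊗[K] L →ₐ[K] Ω' ⊗[K] L :=
    Algebra.TensorProduct.map ((MvPolynomial.aeval η).restrictScalars K) (AlgHom.id K L)
  let ev : R ⊗[K] L →ₐ[K] Ω ⊗[K] L :=
    Algebra.TensorProduct.map ((MvPolynomial.aeval c : R →ₐ[Ω] Ω).restrictScalars K)
      (AlgHom.id K L)
  let j₀ : Ω ⊗[K] L →ₐ[K] R ⊗[K] L :=
    Algebra.TensorProduct.map (IsScalarTower.toAlgHom K Ω R) (AlgHom.id K L)
  have hι : Function.Injective ι := tmap_injective _ hη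
  have e1 : ∀ x, ι (j₀ x) = jx K L Ω Ω' x := by
    intro x
    induction x using TensorProduct.induction_on with
    | zero => simp
    | add a b ha hb => rw [map_add, map_add, map_add, ha, hb]
    | tmul a l =>
      rw [jx_tmul]
      show ι ((algebraMap Ω R a) ⊗ₜ l) = _
      show (MvPolynomial.aeval η (algebraMap Ω R a)) ⊗ₜ[K] l = _
      rw [MvPolynomial.algebraMap_eq, MvPolynomial.aeval_C]
  have e2 : ∀ x, ev (j₀ x) = x := by
    intro x
    induction x using TensorProduct.induction_on with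
    | zero => simp
    | add a b ha hb => rw [map_add, map_add, ha, hb]
    | tmul a l =>
      show (MvPolynomial.aeval c (algebraMap Ω R a)) ⊗ₜ[K] l = _
      rw [MvPolynomial.algebraMap_eq, MvPolynomial.aeval_C]
      rfl
  let g : Fin 3 → R ⊗[K] L := fun j => ∑ k, ((MvPolynomial.X k : R) ⊗ₜ 1) * j₀ (e k j)
  have g1 : ∀ j, ι (g j) = gen η e j := by
    intro j
    simp only [g, gen]
    rw [map_sum]
    apply Finset.sum_congr rfl
    intro k _
    rw [map_mul, e1]
    congr 1
    show (MvPolynomial.aeval η (MvPolynomial.X k : R)) ⊗ₜ[K] (1 : L) = _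
    rw [MvPolynomial.aeval_X]
  have g2 : ∀ j, ev (g j) = h0 j := by
    intro j
    simp only [g, hc]
    rw [map_sum, Finset.sum_apply]
    apply Finset.sum_congr rfl
    intro k _
    rw [map_mul, e2, Pi.smul_apply]
    have : ev ((MvPolynomial.X k : R) ⊗ₜ 1) = (c k) ⊗ₜ[K] (1 : L) := by
      show (MvPolynomial.aeval c (MvPolynomial.X k : R)) ⊗ₜ[K] (1 : L) = _
      rw [MvPolynomial.aeval_X]
    rw [this, Algebra.smul_def]
    rfl
  have h1 : ι (nf (algebraMap K (R ⊗[K] L) α) (g 0) (g 1) (g 2)) = 0 := by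
    have := map_nf (ι : R ⊗[K] L →+* Ω' ⊗[K] L) (algebraMap K (R ⊗[K] L) α) (g 0) (g 1) (g 2)
    simp only [RingHom.coe_coe] at this
    rw [this, g1, g1, g1, AlgHom.commutes]
    exact hz
  have h2 : nf (algebraMap K (R ⊗[K] L) α) (g 0) (g 1) (g 2) = 0 := by
    apply hι
    rw [h1, map_zero]
  have h3 := congrArg ev h2
  have h4 := map_nf (ev : R ⊗[K] L →+* Ω ⊗[K] L) (algebraMap K (R ⊗[K] L) α) (g 0) (g 1) (g 2)
  simp only [RingHom.coe_coe] at h4
  rw [h4, map_zero, g2, g2, g2, AlgHom.commutes] at h3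
  exact h3

/-- A linear change of variables preserves algebraic independence. -/
theorem algInd_linear {r : ℕ} {η : Fin r → Ω'} (hη : AlgebraicIndependent Ω η)
    (G H : Matrix (Fin r) (Fin r) Ω) (hGH : G * H = 1) :
    AlgebraicIndependent Ω (fun l => ∑ k, algebraMap Ω Ω' (G l k) * η k) := by
  rw [algebraicIndependent_iff_injective_aeval] at hη ⊢
  let A : MvPolynomial (Fin r) Ω →ₐ[Ω] MvPolynomial (Fin r) Ω :=
    MvPolynomial.aeval (fun l => ∑ k, MvPolynomial.C (G l k) * MvPolynomial.X k)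
  let B : MvPolynomial (Fin r) Ω →ₐ[Ω] MvPolynomial (Fin r) Ω :=
    MvPolynomial.aeval (fun k => ∑ m, MvPolynomial.C (H k m) * MvPolynomial.X m)
  have hBA : B.comp A = AlgHom.id Ω _ := by
    apply MvPolynomial.algHom_ext
    intro l
    have e1 : (B.comp A) (MvPolynomial.X l) =
        ∑ k, MvPolynomial.C (G l k) * ∑ m, MvPolynomial.C (H k m) * MvPolynomial.X m := by
      show B (A (MvPolynomial.X l)) = _
      simp only [A, MvPolynomial.aeval_X, map_sum, map_mul, B, MvPolynomial.algHom_C,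
        MvPolynomial.algebraMap_eq]
    rw [e1]
    simp only [Finset.mul_sum]
    rw [Finset.sum_comm]
    have e2 : ∀ m : Fin r, ∑ k, MvPolynomial.C (G l k) * (MvPolynomial.C (H k m) *
        MvPolynomial.X m) = MvPolynomial.C ((G * H) l m) * (MvPolynomial.X m :
          MvPolynomial (Fin r) Ω) := by
      intro m
      rw [Matrix.mul_apply, map_sum, Finset.sum_mul]
      apply Finset.sum_congr rfl
      intro k _
      rw [map_mul]
      ring
    rw [Finset.sum_congr rfl fun m _ => e2 m, hGH]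
    rw [Finset.sum_eq_single l]
    · simp
    · intro m _ hm
      rw [Matrix.one_apply_ne (Ne.symm hm)]
      simp
    · intro h
      exact absurd (Finset.mem_univ l) h
  have hAinj : Function.Injective A := by
    intro x y hxy
    have h1 := congrArg B hxy
    have h2 : ∀ z, B (A z) = z := fun z => DFunLike.congr_fun hBA z
    rwa [h2, h2] at h1
  have e3 : (MvPolynomial.aeval (fun l => ∑ k, algebraMap Ω Ω' (G l k) * η k) :
      MvPolynomial (Fin r) Ω →ₐ[Ω] Ω') = (MvPolynomial.aeval η).comp A := by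
    apply MvPolynomial.algHom_ext
    intro l
    show _ = (MvPolynomial.aeval η) (A (MvPolynomial.X l))
    simp only [A, MvPolynomial.aeval_X, map_sum, map_mul, MvPolynomial.aeval_C]
  rw [e3]
  exact hη.comp hAinj

/-- The norm form over a purely transcendental extension generated by `η`. -/
theorem not_isNm_adjoin [CharZero K] {r : ℕ} {η : Fin r → Ω'} (F : IntermediateField K Ω)
    (hη : AlgebraicIndependent Ω η) (α a : K)
    (h : ¬ IsNm (algebraMap K F α) (algebraMap K F a)) :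
    ¬ IsNm (algebraMap K ((IntermediateField.adjoin F (Set.range η)).restrictScalars K) α)
      (algebraMap K ((IntermediateField.adjoin F (Set.range η)).restrictScalars K) a) := by
  intro hcon
  apply h
  have hη' : AlgebraicIndependent F η :=
    hη.restrictScalars (FaithfulSMul.algebraMap_injective F Ω)
  have : CharZero F := charZero_of_injective_algebraMap (FaithfulSMul.algebraMap_injective K F)
  have : Infinite F := inferInstance
  refine isNm_of_fractionRing_mvPolynomial F (Fin r) _ _ ?_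
  let E := IntermediateField.adjoin F (Set.range η)
  let ψ : E ≃ₐ[F] FractionRing (MvPolynomial (Fin r) F) := (hη'.aevalEquivField).symm
  have h1 : IsNm (algebraMap K E α) (algebraMap K E a) := hcon
  have h2 := h1.map (ψ : E →+* FractionRing (MvPolynomial (Fin r) F))
  have e : ∀ x : K, (ψ : E →+* FractionRing (MvPolynomial (Fin r) F)) (algebraMap K E x) =
      algebraMap F (FractionRing (MvPolynomial (Fin r) F)) (algebraMap K F x) := by
    intro x
    rw [IsScalarTower.algebraMap_apply K F E]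
    exact ψ.commutes _
  rwa [e, e] at h2

end Ext

end FA

end Pool.Agent.D5741
end

section

/-!
# An existentially closed field with two independent symbols
-/

set_option autoImplicit false

namespace Pool.Agent.D5741

namespace ExC


open Cardinal

/-- A countable extension of a countable field embeds into an uncountable algebraically closed
field. -/
theorem exists_algHom_of_countable (K E Ω : Type) [Field K] [Field E] [Field Ω] [Algebra K E]
    [Algebra K Ω] [IsAlgClosed Ω] [Countable K] [Countable E] [Uncountable Ω] :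
    Nonempty (E →ₐ[K] Ω) := by
  obtain ⟨s, hs⟩ := exists_isTranscendenceBasis K E
  obtain ⟨t, ht⟩ := exists_isTranscendenceBasis K Ω
  have h1 : ℵ₀ ≤ #t := by
    by_contra hlt
    push Not at hlt
    have h2 := IsAlgClosed.cardinal_le_max_transcendence_basis' _ ht
    have h3 : #Ω ≤ ℵ₀ := by
      refine h2.trans (max_le (max_le ?_ hlt.le) le_rfl)
      exact Cardinal.mk_le_aleph0
    exact (Cardinal.aleph0_lt_mk (α := Ω)).not_ge h3
  have h2 : #s ≤ #t := (Cardinal.mk_le_aleph0 (α := s)).trans h1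
  obtain ⟨f⟩ := Cardinal.le_def _ _ |>.mp h2
  have hw : AlgebraicIndependent K (fun i : s => ((f i : t) : Ω)) := ht.1.comp f f.injective
  let g : Algebra.adjoin K (Set.range ((↑) : s → E)) →ₐ[K] Ω :=
    (MvPolynomial.aeval (fun i : s => ((f i : t) : Ω))).comp hs.1.aevalEquiv.symm.toAlgHom
  have hg : Function.Injective g := by
    intro x y hxy
    exact hs.1.aevalEquiv.symm.injective (hw hxy)
  let : Algebra (Algebra.adjoin K (Set.range ((↑) : s → E))) Ω := g.toRingHom.toAlgebra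
  have : IsScalarTower K (Algebra.adjoin K (Set.range ((↑) : s → E))) Ω :=
    IsScalarTower.of_algebraMap_eq fun x => (g.commutes x).symm
  have : FaithfulSMul (Algebra.adjoin K (Set.range ((↑) : s → E))) Ω :=
    (faithfulSMul_iff_algebraMap_injective _ _).mpr hg
  have : Algebra.IsAlgebraic (Algebra.adjoin K (Set.range ((↑) : s → E))) E := hs.isAlgebraic
  exact ⟨(IsAlgClosed.lift : E →ₐ[Algebra.adjoin K (Set.range ((↑) : s → E))] Ω).restrictScalars K⟩



open Polynomial in
/-- The valuation argument for the norm form over a polynomial ring. -/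
theorem nf_X_pow {F : Type} [Field F] {ω α c : F} (hω : ω ^ 2 + ω + 1 = 0)
    (hα : ∀ x : F, x ^ 3 ≠ α) (hc : c ≠ 0) (u : F[X]) (hu : u.coeff 0 ≠ 0) (m : ℕ) :
    ∀ x y z : F[X], nf (C α) x y z = C c * X ^ m * u ^ 3 → 3 ∣ m ∧ IsNm α c := by
  have ev : ∀ p : F[X], (Polynomial.evalRingHom (0 : F)) p = p.coeff 0 := fun p => by
    rw [Polynomial.coe_evalRingHom, Polynomial.coeff_zero_eq_eval_zero]
  induction m using Nat.strong_induction_on with
  | _ m ih =>
    intro x y z h
    have h2 := congrArg (Polynomial.evalRingHom (0 : F)) h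
    rw [map_nf, map_mul, map_mul, map_pow, map_pow, ev, ev, ev, ev, ev, ev, ev, coeff_C_zero,
      coeff_C_zero, coeff_X_zero] at h2
    rcases Nat.eq_zero_or_pos m with rfl | hm
    · rw [pow_zero, mul_one] at h2
      exact ⟨dvd_zero 3, IsNm.of_eq_mul_cube hu h2⟩
    · rw [zero_pow hm.ne', mul_zero, zero_mul] at h2
      obtain ⟨hx, hy, hz⟩ := (nf_eq_zero_iff hω hα).mp h2
      rw [← X_dvd_iff] at hx hy hz
      obtain ⟨x', rfl⟩ := hx
      obtain ⟨y', rfl⟩ := hy
      obtain ⟨z', rfl⟩ := hz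
      rw [nf_smul] at h
      have hX : (X : F[X]) ≠ 0 := X_ne_zero
      rcases Nat.lt_or_ge m 3 with h3 | h3
      · exfalso
        obtain ⟨e, he⟩ : ∃ e, 3 = m + (e + 1) := ⟨2 - m, by omega⟩
        have h4 : X ^ (e + 1) * nf (C α) x' y' z' = C c * u ^ 3 := by
          apply mul_left_cancel₀ (pow_ne_zero m hX)
          calc X ^ m * (X ^ (e + 1) * nf (C α) x' y' z') = X ^ (m + (e + 1)) * nf (C α) x' y' z' := by
                rw [pow_add]; ring
            _ = X ^ 3 * nf (C α) x' y' z' := by rw [← he]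
            _ = _ := by rw [h]; ring
        have h5 := congrArg (Polynomial.evalRingHom (0 : F)) h4
        rw [map_mul, map_mul, map_pow, map_pow, ev, ev, ev, ev, coeff_X_zero, coeff_C_zero,
          zero_pow (Nat.succ_ne_zero e), zero_mul] at h5
        exact mul_ne_zero hc (pow_ne_zero 3 hu) h5.symm
      · obtain ⟨m', rfl⟩ : ∃ m', m = m' + 3 := ⟨m - 3, by omega⟩
        have h4 : nf (C α) x' y' z' = C c * X ^ m' * u ^ 3 := by
          apply mul_left_cancel₀ (pow_ne_zero 3 hX)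
          rw [h, pow_add]
          ring
        obtain ⟨h5, h6⟩ := ih m' (by omega) x' y' z' h4
        exact ⟨by omega, h6⟩

open Polynomial in
theorem isNm_ratFunc {F : Type} [Field F] {ω α c : F} (hω : ω ^ 2 + ω + 1 = 0)
    (hα : ∀ x : F, x ^ 3 ≠ α) (hc : c ≠ 0) (j : ℕ)
    (h : IsNm (algebraMap F (RatFunc F) α) (algebraMap F (RatFunc F) c * RatFunc.X ^ j)) :
    3 ∣ j ∧ IsNm α c := by
  have e1 : algebraMap F (RatFunc F) c * RatFunc.X ^ j =
      algebraMap F[X] (RatFunc F) (C c * X ^ j) := by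
    rw [map_mul, map_pow, RatFunc.algebraMap_X, RatFunc.algebraMap_C]
    rfl
  have e2 : algebraMap F (RatFunc F) α = algebraMap F[X] (RatFunc F) (C α) := by
    rw [RatFunc.algebraMap_C]
    rfl
  rw [e1, e2] at h
  obtain ⟨x, y, z, q, hq, h⟩ := isNm_clear h
  obtain ⟨u, hu, hu'⟩ := Polynomial.exists_eq_pow_rootMultiplicity_mul_and_not_dvd q hq 0
  rw [C_0, sub_zero] at hu hu'
  generalize q.rootMultiplicity 0 = n at hu
  rw [X_dvd_iff] at hu'
  rw [hu] at h
  have h3 : nf (C α) x y z = C c * X ^ (j + 3 * n) * u ^ 3 := by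
    rw [h]
    ring
  obtain ⟨h4, h5⟩ := nf_X_pow hω hα hc u hu' _ x y z h3
  exact ⟨by omega, h5⟩

open Polynomial in
theorem not_cube_ratFunc {F : Type} [Field F] [Infinite F] {α : F}
    (hα : ∀ x : F, x ^ 3 ≠ α) (x : RatFunc F) : x ^ 3 ≠ algebraMap F (RatFunc F) α := by
  intro h
  have e2 : algebraMap F (RatFunc F) α = algebraMap F[X] (RatFunc F) (C α) := by
    rw [RatFunc.algebraMap_C]
    rfl
  obtain ⟨p, q, hq, rfl⟩ := IsFractionRing.div_surjective (A := F[X]) x
  have hq0 : q ≠ 0 := nonZeroDivisors.ne_zero hq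
  have hq1 : algebraMap F[X] (RatFunc F) q ≠ 0 := RatFunc.algebraMap_ne_zero hq0
  rw [div_pow, div_eq_iff (pow_ne_zero 3 hq1), e2, ← map_pow, ← map_pow, ← map_mul] at h
  have h1 := RatFunc.algebraMap_injective F h
  obtain ⟨v, hv⟩ : ∃ v : F, Polynomial.eval v q ≠ 0 := by
    by_contra hcon
    push Not at hcon
    exact hq0 (Polynomial.funext fun v => by rw [hcon v, Polynomial.eval_zero])
  have h2 := congrArg (Polynomial.eval v) h1
  rw [eval_pow, eval_mul, eval_pow, eval_C] at h2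
  refine hα (eval v p / eval v q) ?_
  rw [div_pow, h2, mul_div_assoc, div_self (pow_ne_zero 3 hv), mul_one]

open Polynomial in
theorem X_not_cube {F : Type} [Field F] (x : RatFunc F) : x ^ 3 ≠ RatFunc.X := by
  intro h
  have h1 := congrArg RatFunc.intDegree h
  rw [RatFunc.intDegree_X] at h1
  have hx : x ≠ 0 := by
    rintro rfl
    rw [zero_pow three_ne_zero] at h
    exact RatFunc.X_ne_zero h.symm
  have h2 : RatFunc.intDegree (x ^ 3) = 3 * RatFunc.intDegree x := by
    rw [pow_succ, pow_succ, pow_one, RatFunc.intDegree_mul (mul_ne_zero hx hx) hx,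
      RatFunc.intDegree_mul hx hx]
    ring
  omega

theorem ratFunc_omega {F : Type} [Field F] {ω : F} (hω : ω ^ 2 + ω + 1 = 0) :
    (algebraMap F (RatFunc F) ω) ^ 2 + algebraMap F (RatFunc F) ω + 1 = 0 := by
  rw [← map_pow, ← map_add, ← map_one (algebraMap F (RatFunc F)), ← map_add, hω, map_zero]

theorem ratFunc_charZero {F : Type} [Field F] [CharZero F] : CharZero (RatFunc F) :=
  charZero_of_injective_algebraMap (algebraMap F (RatFunc F)).injective

theorem ratFunc_uncountable {F : Type} [Field F] [Uncountable F] : Uncountable (RatFunc F) :=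
  (algebraMap F (RatFunc F)).injective.uncountable

theorem uncountable_complex : Uncountable ℂ :=
  Complex.ofReal_injective.uncountable

theorem exists_base1 :
    ∃ (F : Type) (_ : Field F) (_ : CharZero F) (_ : Uncountable F) (ω α : F),
      ω ^ 2 + ω + 1 = 0 ∧ α ≠ 0 ∧ ∀ x : F, x ^ 3 ≠ α := by
  obtain ⟨w, hw⟩ : ∃ w : ℂ, w ^ 2 + w + 1 = 0 := by
    obtain ⟨w, hw⟩ := IsAlgClosed.exists_root (Polynomial.X ^ 2 + Polynomial.X + 1 : Polynomial ℂ)
      (by
        have : (Polynomial.X ^ 2 + Polynomial.X + 1 : Polynomial ℂ).degree = 2 := by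
          compute_degree!
        rw [this]
        norm_num)
    refine ⟨w, ?_⟩
    simpa [Polynomial.IsRoot] using hw
  have := uncountable_complex
  exact ⟨RatFunc ℂ, inferInstance, ratFunc_charZero, ratFunc_uncountable, _, RatFunc.X,
    ratFunc_omega hw, RatFunc.X_ne_zero, X_not_cube⟩

theorem exists_base2 :
    ∃ (F : Type) (_ : Field F) (_ : CharZero F) (_ : Uncountable F) (ω α a : F),
      ω ^ 2 + ω + 1 = 0 ∧ α ≠ 0 ∧ (∀ x : F, x ^ 3 ≠ α) ∧ a ≠ 0 ∧
        ∀ i : ℕ, IsNm α (a ^ i) → 3 ∣ i := by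
  obtain ⟨F, _, _, _, ω, α, hω, hα0, hα⟩ := exists_base1
  refine ⟨RatFunc F, inferInstance, ratFunc_charZero, ratFunc_uncountable, _,
    algebraMap F (RatFunc F) α, RatFunc.X, ratFunc_omega hω, ?_, not_cube_ratFunc hα,
    RatFunc.X_ne_zero, ?_⟩
  · rwa [Ne, map_eq_zero]
  · intro i h
    have h3 : IsNm (algebraMap F (RatFunc F) α) (algebraMap F (RatFunc F) 1 * RatFunc.X ^ i) := by
      rwa [map_one, one_mul]
    exact (isNm_ratFunc hω hα one_ne_zero i h3).1

/-- The generic symbols. -/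
theorem exists_base :
    ∃ (F : Type) (_ : Field F) (_ : CharZero F) (_ : Uncountable F) (ω α a b : F),
      ω ^ 2 + ω + 1 = 0 ∧ Indep α a b := by
  obtain ⟨F, _, _, _, ω, α, a, hω, hα0, hα, ha0, ha⟩ := exists_base2
  refine ⟨RatFunc F, inferInstance, ratFunc_charZero, ratFunc_uncountable, _,
    algebraMap F (RatFunc F) α, algebraMap F (RatFunc F) a, RatFunc.X, ratFunc_omega hω,
    ?_, ?_, RatFunc.X_ne_zero, ?_⟩
  · rwa [Ne, map_eq_zero]
  · rwa [Ne, map_eq_zero]
  · intro i j h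
    rw [← map_pow] at h
    obtain ⟨h1, h2⟩ := isNm_ratFunc hω hα (pow_ne_zero i ha0) j h
    exact ⟨ha i h2, h1⟩



section Chain

variable {Ω : Type} [Field Ω] (Good : Subfield Ω → Prop)

/-- Finite systems of polynomial equations. -/
abbrev Task (Ω : Type) [Field Ω] : Type := Σ m : ℕ, Finset (MvPolynomial (Fin m) Ω)

/-- The system is solvable in the subfield `F`. -/
def Sol (F : Subfield Ω) (τ : Task Ω) : Prop :=
  ∃ x : Fin τ.1 → Ω, (∀ i, x i ∈ F) ∧ ∀ g ∈ τ.2, MvPolynomial.eval x g = 0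

/-- The system has coefficients in the subfield `F`. -/
def Over (F : Subfield Ω) : Set (Task Ω) :=
  {τ | ∀ g ∈ τ.2, g ∈ Set.range (MvPolynomial.map (σ := Fin τ.1) F.subtype)}

theorem Sol.mono {F F' : Subfield Ω} (h : F ≤ F') {τ : Task Ω} (hτ : Sol F τ) : Sol F' τ := by
  obtain ⟨x, hx, hg⟩ := hτ
  exact ⟨x, fun i => h (hx i), hg⟩

theorem countable_over (F : Subfield Ω) [Countable F] : (Over F).Countable := by
  classical
  have hc : ∀ m : ℕ, Countable (MvPolynomial (Fin m) F) := by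
    intro m
    rw [← Cardinal.mk_le_aleph0_iff]
    refine (MvPolynomial.cardinalMk_le_max (σ := Fin m) (R := F)).trans ?_
    exact max_le (max_le Cardinal.mk_le_aleph0 Cardinal.mk_le_aleph0) le_rfl
  let f : (Σ m : ℕ, Finset (MvPolynomial (Fin m) F)) → Task Ω := fun τ =>
    ⟨τ.1, τ.2.image (MvPolynomial.map F.subtype)⟩
  refine (Set.countable_range f).mono ?_
  rintro ⟨m, G⟩ h
  have h1 : (G : Set (MvPolynomial (Fin m) Ω)) ⊆
      (MvPolynomial.map (σ := Fin m) F.subtype) '' Set.univ := by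
    intro g hg
    obtain ⟨p, hp⟩ := h g hg
    exact ⟨p, trivial, hp⟩
  obtain ⟨G', -, hG'⟩ := Finset.subset_set_image_iff.mp h1
  exact ⟨⟨m, G'⟩, by simp only [f, hG']⟩

variable {Good}

theorem exists_step (hcount : ∀ F, Good F → Countable F)
    (hunion : ∀ S : ℕ → Subfield Ω, Monotone S → (∀ n, Good (S n)) → Good (⨆ n, S n))
    (F : Subfield Ω) (hF : Good F) :
    ∃ F' : Subfield Ω, F ≤ F' ∧ Good F' ∧ ∀ τ ∈ Over F, ∀ F'' : Subfield Ω, F' ≤ F'' → Good F'' →
      Sol F'' τ → Sol F' τ := by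
  classical
  have := hcount F hF
  obtain ⟨f, hf⟩ : ∃ f : ℕ → Task Ω, Over F ⊆ Set.range f := by
    have h0 : (Over F).Nonempty := ⟨⟨0, ∅⟩, by simp [Over]⟩
    obtain ⟨f, hf⟩ := (countable_over F).exists_eq_range h0
    exact ⟨f, hf.subset⟩
  let next : Subfield Ω → Task Ω → Subfield Ω := fun E τ =>
    if h : ∃ E', E ≤ E' ∧ Good E' ∧ Sol E' τ then h.choose else E
  have hnext1 : ∀ E τ, E ≤ next E τ := by
    intro E τ
    by_cases h : ∃ E', E ≤ E' ∧ Good E' ∧ Sol E' τ
    · simp only [next, dif_pos h]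
      exact h.choose_spec.1
    · simp only [next, dif_neg h]
      exact le_rfl
  have hnext2 : ∀ E τ, Good E → Good (next E τ) := by
    intro E τ hE
    by_cases h : ∃ E', E ≤ E' ∧ Good E' ∧ Sol E' τ
    · simp only [next, dif_pos h]
      exact h.choose_spec.2.1
    · simp only [next, dif_neg h]
      exact hE
  have hnext3 : ∀ E τ, (∃ E', E ≤ E' ∧ Good E' ∧ Sol E' τ) → Sol (next E τ) τ := by
    intro E τ h
    simp only [next, dif_pos h]
    exact h.choose_spec.2.2
  let S : ℕ → Subfield Ω := fun n => Nat.rec F (fun n E => next E (f n)) n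
  have hS0 : S 0 = F := rfl
  have hS : ∀ n, S (n + 1) = next (S n) (f n) := fun n => rfl
  have hmono : Monotone S := monotone_nat_of_le_succ fun n => by
    rw [hS]
    exact hnext1 _ _
  have hgood : ∀ n, Good (S n) := by
    intro n
    induction n with
    | zero => exact hF
    | succ n ih =>
      rw [hS]
      exact hnext2 _ _ ih
  refine ⟨⨆ n, S n, le_iSup S 0, hunion S hmono hgood, ?_⟩
  intro τ hτ F'' hle hF'' hsol
  obtain ⟨n, rfl⟩ := hf hτ
  have h1 : Sol (S (n + 1)) (f n) := by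
    rw [hS]
    exact hnext3 _ _ ⟨F'', (le_iSup S n).trans hle, hF'', hsol⟩
  exact h1.mono (le_iSup S (n + 1))

theorem over_iSup (S : ℕ → Subfield Ω) (hS : Monotone S) (τ : Task Ω) (hτ : τ ∈ Over (⨆ n, S n)) :
    ∃ n, τ ∈ Over (S n) := by
  classical
  obtain ⟨m, G⟩ := τ
  have key : ∀ g : MvPolynomial (Fin m) Ω,
      g ∈ Set.range (MvPolynomial.map (σ := Fin m) (⨆ n, S n).subtype) →
      ∃ n, ∀ n' ≥ n, g ∈ Set.range (MvPolynomial.map (σ := Fin m) (S n').subtype) := by
    rintro _ ⟨p, rfl⟩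
    induction p using MvPolynomial.induction_on with
    | C a =>
      obtain ⟨n, hn⟩ := (Subfield.mem_iSup_of_directed hS.directed_le).mp a.2
      refine ⟨n, fun n' hn' => ⟨MvPolynomial.C ⟨a, hS hn' hn⟩, ?_⟩⟩
      rw [MvPolynomial.map_C, MvPolynomial.map_C]
      rfl
    | add p q hp hq =>
      obtain ⟨n, hn⟩ := hp
      obtain ⟨n', hn'⟩ := hq
      refine ⟨max n n', fun k hk => ?_⟩
      obtain ⟨a, ha⟩ := hn k ((le_max_left _ _).trans hk)
      obtain ⟨b, hb⟩ := hn' k ((le_max_right _ _).trans hk)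
      exact ⟨a + b, by rw [map_add, map_add, ha, hb]⟩
    | mul_X p i hp =>
      obtain ⟨n, hn⟩ := hp
      refine ⟨n, fun k hk => ?_⟩
      obtain ⟨a, ha⟩ := hn k hk
      exact ⟨a * MvPolynomial.X i, by rw [map_mul, map_mul, ha, MvPolynomial.map_X,
        MvPolynomial.map_X]⟩
  choose! N hN using fun g (hg : g ∈ G) => key g (hτ g hg)
  refine ⟨G.sup N, fun g hg => hN g hg _ (Finset.le_sup (f := N) hg)⟩

/-- Existence of an existentially closed member of the class `Good`. -/
theorem exists_closed (hcount : ∀ F, Good F → Countable F)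
    (hunion : ∀ S : ℕ → Subfield Ω, Monotone S → (∀ n, Good (S n)) → Good (⨆ n, S n))
    (F : Subfield Ω) (hF : Good F) :
    ∃ K : Subfield Ω, Good K ∧ ∀ τ ∈ Over K, ∀ F'' : Subfield Ω, K ≤ F'' → Good F'' →
      Sol F'' τ → Sol K τ := by
  classical
  choose! next h1 h2 h3 using exists_step hcount hunion
  let S : ℕ → Subfield Ω := fun n => Nat.rec F (fun n E => next E) n
  have hS : ∀ n, S (n + 1) = next (S n) := fun n => rfl
  have hgood : ∀ n, Good (S n) := by
    intro n
    induction n with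
    | zero => exact hF
    | succ n ih =>
      rw [hS]
      exact h2 _ ih
  have hmono : Monotone S := monotone_nat_of_le_succ fun n => by
    rw [hS]
    exact h1 _ (hgood n)
  refine ⟨⨆ n, S n, hunion S hmono hgood, ?_⟩
  intro τ hτ F'' hle hF'' hsol
  obtain ⟨n, hn⟩ := over_iSup S hmono τ hτ
  have h4 : Sol (S (n + 1)) τ := by
    rw [hS]
    refine h3 _ (hgood n) τ hn F'' ?_ hF'' hsol
    rw [← hS]
    exact (le_iSup S (n + 1)).trans hle
  exact h4.mono (le_iSup S (n + 1))

end Chain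

end ExC

open ExC Cardinal in
theorem exists_ec :
    ∃ (K : Type) (_ : Field K) (_ : CharZero K) (ω α a b : K),
      ω ^ 2 + ω + 1 = 0 ∧ Indep α a b ∧
      ∀ (K' : Type) [Field K'] [Algebra K K'],
        Indep (algebraMap K K' α) (algebraMap K K' a) (algebraMap K K' b) → EC K K' := by
  classical
  obtain ⟨B, _, _, _, ω, α, a, b, hω, hα0, ha0, hb0, hind⟩ := exists_base
  let Ω := AlgebraicClosure B
  have hBΩ : Function.Injective (algebraMap B Ω) := (algebraMap B Ω).injective
  have hchar : CharZero Ω := charZero_of_injective_algebraMap hBΩ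
  have hunc : Uncountable Ω := hBΩ.uncountable
  set ω' : Ω := algebraMap B Ω ω with hω'
  set α' : Ω := algebraMap B Ω α with hα'
  set a' : Ω := algebraMap B Ω a with ha'
  set b' : Ω := algebraMap B Ω b with hb'
  let Good : Subfield Ω → Prop := fun F => Countable F ∧ (ω' ∈ F ∧ α' ∈ F ∧ a' ∈ F ∧ b' ∈ F) ∧
    ∀ i j : ℕ, ∀ x y z : Ω, x ∈ F → y ∈ F → z ∈ F → nf α' x y z = a' ^ i * b' ^ j → 3 ∣ i ∧ 3 ∣ j
  have hcount : ∀ F, Good F → Countable F := fun F h => h.1
  have hunion : ∀ S : ℕ → Subfield Ω, Monotone S → (∀ n, Good (S n)) → Good (⨆ n, S n) := by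
    intro S hS h
    refine ⟨?_, ?_, ?_⟩
    · have h1 : ((⨆ n, S n : Subfield Ω) : Set Ω).Countable := by
        rw [Subfield.coe_iSup_of_directed hS.directed_le]
        exact Set.countable_iUnion fun n => Set.countable_coe_iff.mp (h n).1
      exact h1.to_subtype
    · obtain ⟨h1, h2, h3, h4⟩ := (h 0).2.1
      exact ⟨le_iSup S 0 h1, le_iSup S 0 h2, le_iSup S 0 h3, le_iSup S 0 h4⟩
    · intro i j x y z hx hy hz
      obtain ⟨n1, hx⟩ := (Subfield.mem_iSup_of_directed hS.directed_le).mp hx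
      obtain ⟨n2, hy⟩ := (Subfield.mem_iSup_of_directed hS.directed_le).mp hy
      obtain ⟨n3, hz⟩ := (Subfield.mem_iSup_of_directed hS.directed_le).mp hz
      exact (h (max n1 (max n2 n3))).2.2 i j x y z (hS (le_max_left _ _) hx)
        (hS ((le_max_left _ _).trans (le_max_right _ _)) hy)
        (hS ((le_max_right _ _).trans (le_max_right _ _)) hz)
  let F0 : Subfield Ω := Subfield.closure {ω', α', a', b'}
  have hF0le : F0 ≤ (algebraMap B Ω).fieldRange := by
    rw [Subfield.closure_le]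
    intro x hx
    simp only [Set.mem_insert_iff, Set.mem_singleton_iff] at hx
    rcases hx with rfl | rfl | rfl | rfl
    · exact ⟨ω, rfl⟩
    · exact ⟨α, rfl⟩
    · exact ⟨a, rfl⟩
    · exact ⟨b, rfl⟩
  have hF0 : Good F0 := by
    refine ⟨?_, ⟨Subfield.subset_closure (by simp), Subfield.subset_closure (by simp),
      Subfield.subset_closure (by simp), Subfield.subset_closure (by simp)⟩, ?_⟩
    · rw [← Cardinal.mk_le_aleph0_iff]
      refine (Subfield.cardinalMk_closure_le_max _).trans (max_le ?_ le_rfl)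
      rw [Cardinal.mk_le_aleph0_iff]
      exact Set.Finite.countable (Set.toFinite _)
    · intro i j x y z hx hy hz h
      obtain ⟨x, rfl⟩ := hF0le hx
      obtain ⟨y, rfl⟩ := hF0le hy
      obtain ⟨z, rfl⟩ := hF0le hz
      refine hind i j ⟨x, y, z, hBΩ ?_⟩
      rw [map_nf, map_mul, map_pow, map_pow]
      exact h
  obtain ⟨K, ⟨hKc, ⟨hK1, hK2, hK3, hK4⟩, hK5⟩, hK⟩ := exists_closed hcount hunion F0 hF0
  have hKΩ : Function.Injective (algebraMap K Ω) := (algebraMap K Ω).injective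
  refine ⟨K, inferInstance, inferInstance, ⟨ω', hK1⟩, ⟨α', hK2⟩, ⟨a', hK3⟩, ⟨b', hK4⟩, ?_,
    ⟨?_, ?_, ?_, ?_⟩, ?_⟩
  · apply Subtype.ext
    change ω' ^ 2 + ω' + 1 = 0
    rw [hω', ← map_pow, ← map_add, ← map_one (algebraMap B Ω), ← map_add, hω, map_zero]
  · intro h
    have h1 : α' = 0 := congrArg Subtype.val h
    rw [hα', map_eq_zero] at h1
    exact hα0 h1
  · intro h
    have h1 : a' = 0 := congrArg Subtype.val h
    rw [ha', map_eq_zero] at h1
    exact ha0 h1
  · intro h
    have h1 : b' = 0 := congrArg Subtype.val h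
    rw [hb', map_eq_zero] at h1
    exact hb0 h1
  · rintro i j ⟨x, y, z, h⟩
    refine hK5 i j x y z x.2 y.2 z.2 ?_
    have h1 := congrArg (algebraMap K Ω) h
    rw [map_nf, map_mul, map_pow, map_pow] at h1
    exact h1
  · intro K' _ _ hInd S hS
    obtain ⟨s, hs⟩ := hS
    obtain ⟨n, e, he⟩ : ∃ (n : ℕ) (e : Fin n → K'), Set.range e = (s : Set K') := by
      refine ⟨s.card, fun i => (s.equivFin.symm i : K'), ?_⟩
      ext x
      constructor
      · rintro ⟨i, rfl⟩
        exact (s.equivFin.symm i).2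
      · intro hx
        exact ⟨s.equivFin ⟨x, hx⟩, by simp⟩
    let E := IntermediateField.adjoin K (Set.range e)
    have hEc : Countable E := by
      rw [← Cardinal.mk_le_aleph0_iff]
      refine (IntermediateField.cardinalMk_adjoin_le K (Set.range e)).trans ?_
      refine sup_le (sup_le Cardinal.mk_le_aleph0 ?_) le_rfl
      exact Cardinal.mk_le_aleph0
    obtain ⟨φ⟩ := exists_algHom_of_countable K E Ω
    let F'' : Subfield Ω := φ.toRingHom.fieldRange
    have hle : K ≤ F'' := by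
      intro x hx
      exact ⟨algebraMap K E ⟨x, hx⟩, φ.commutes ⟨x, hx⟩⟩
    have hF'' : Good F'' := by
      refine ⟨?_, ⟨hle hK1, hle hK2, hle hK3, hle hK4⟩, ?_⟩
      · have h1 : (F'' : Set Ω) = Set.range φ := by
          ext x
          rfl
        have h2 : (F'' : Set Ω).Countable := by
          rw [h1]
          exact Set.countable_range φ
        exact h2.to_subtype
      · rintro i j _ _ _ ⟨x, rfl⟩ ⟨y, rfl⟩ ⟨z, rfl⟩ h
        have hφ : Function.Injective φ := φ.toRingHom.injective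
        have h1 : nf (algebraMap K E ⟨α', hK2⟩) x y z =
            algebraMap K E ⟨a', hK3⟩ ^ i * algebraMap K E ⟨b', hK4⟩ ^ j := by
          apply hφ
          rw [map_mul, map_pow, map_pow, φ.commutes, φ.commutes]
          refine Eq.trans ?_ h
          refine (map_nf φ.toRingHom _ _ _ _).trans ?_
          congr 1
          exact φ.commutes _
        have h2 := congrArg (algebraMap E K') h1
        rw [map_nf, map_mul, map_pow, map_pow, ← IsScalarTower.algebraMap_apply,
          ← IsScalarTower.algebraMap_apply, ← IsScalarTower.algebraMap_apply] at h2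
        exact hInd.2.2.2 i j ⟨_, _, _, h2⟩
    let f : MvPolynomial (Fin n) K →ₐ[K] K' := MvPolynomial.aeval e
    have hfr : f.range = S := by
      rw [← hs, ← he]
      exact (Algebra.adjoin_range_eq_range_aeval K e).symm
    obtain ⟨G, hG⟩ : (RingHom.ker f).FG := (isNoetherianRing_iff_ideal_fg _).mp inferInstance _
    let τ : ExC.Task Ω := ⟨n, G.image (MvPolynomial.map K.subtype)⟩
    have hτ : τ ∈ Over K := by
      intro g hg
      simp only [τ, Finset.mem_image] at hg
      obtain ⟨p, -, rfl⟩ := hg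
      exact ⟨p, rfl⟩
    have hsol : Sol F'' τ := by
      refine ⟨fun i => φ ⟨e i, IntermediateField.subset_adjoin K _ ⟨i, rfl⟩⟩,
        fun i => ⟨_, rfl⟩, ?_⟩
      intro g hg
      simp only [τ, Finset.mem_image] at hg
      obtain ⟨p, hp, rfl⟩ := hg
      have hp1 : f p = 0 := by
        have : p ∈ RingHom.ker f := by
          rw [← hG]
          exact Ideal.subset_span hp
        exact this
      have hp2 : MvPolynomial.aeval
          (fun i => (⟨e i, IntermediateField.subset_adjoin K _ ⟨i, rfl⟩⟩ : E)) p = 0 := by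
        apply (algebraMap E K').injective
        rw [map_zero, ← hp1]
        change E.val _ = _
        rw [← AlgHom.comp_apply, MvPolynomial.comp_aeval]
        rfl
      have hp3 := congrArg φ hp2
      rw [map_zero, ← AlgHom.comp_apply, MvPolynomial.comp_aeval] at hp3
      rw [MvPolynomial.eval_map]
      exact hp3
    obtain ⟨x, hx, hx'⟩ := hK τ hτ F'' hle hF'' hsol
    have hker : ∀ p ∈ RingHom.ker f, (MvPolynomial.aeval (fun i => (⟨x i, hx i⟩ : K)) :
        MvPolynomial (Fin n) K →ₐ[K] K) p = 0 := by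
      intro p hp
      have h1 : RingHom.ker f ≤ RingHom.ker (MvPolynomial.aeval (fun i => (⟨x i, hx i⟩ : K)) :
          MvPolynomial (Fin n) K →ₐ[K] K) := by
        rw [← hG, Ideal.span_le]
        intro q hq
        have h2 := hx' (MvPolynomial.map K.subtype q) (by
          simp only [τ, Finset.mem_image]
          exact ⟨q, hq, rfl⟩)
        rw [MvPolynomial.eval_map] at h2
        change (MvPolynomial.aeval (fun i => (⟨x i, hx i⟩ : K)) :
          MvPolynomial (Fin n) K →ₐ[K] K) q = 0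
        apply hKΩ
        rw [map_zero, ← h2, MvPolynomial.aeval_def, MvPolynomial.eval₂_comp_left]
        rfl
      exact h1 hp
    let ψ : (MvPolynomial (Fin n) K ⧸ RingHom.ker f) →ₐ[K] K :=
      Ideal.Quotient.liftₐ (RingHom.ker f) (MvPolynomial.aeval (fun i => (⟨x i, hx i⟩ : K))) hker
    exact ⟨(ψ.comp (Ideal.quotientKerEquivRange f).symm.toAlgHom).comp
      (Subalgebra.equivOfEq S f.range hfr.symm).toAlgHom⟩

end Pool.Agent.D5741
end
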