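import Mathlib
import Pool.Agent.Lib.MP_d5741c_al.Basic
import Pool.Agent.Lib.MP_d5741c_al.Curve
import Pool.Agent.Lib.MP_d5741c_al.FF

section

/-!
# Laurent polynomials in two variables with a twisted rotation of order three
-/

set_option autoImplicit false

namespace Pool.Agent.D5741.KL

section Descent

set_option linter.unusedSectionVars false

variable {A : Type*} [CommRing A] [IsDomain A] (s : A ≃+* A)

/-- The norm of a ring automorphism of order three. -/
def nm (a : A) : A := a * s a * s (s a)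

theorem nm_mul (a b : A) : nm s (a * b) = nm s a * nm s b := by
  unfold nm
  simp only [map_mul]
  ring

theorem nm_map (h3 : ∀ a, s (s (s a)) = a) (a : A) : nm s (s a) = nm s a := by
  unfold nm
  rw [h3]
  ring

theorem isUnit_of_nm {a : A} (h : IsUnit (nm s a)) : IsUnit a := by
  unfold nm at h
  exact isUnit_of_mul_isUnit_left (isUnit_of_mul_isUnit_left h)

theorem nm_ne_zero {a : A} (h : a ≠ 0) : nm s a ≠ 0 := by
  unfold nm
  refine mul_ne_zero (mul_ne_zero h ?_) ?_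
  · simpa using h
  · simpa using h

/-- In a unique factorisation domain every unit that is a norm from the field of fractions is the
norm of a unit. -/
theorem exists_unit_nm [UniqueFactorizationMonoid A] (h3 : ∀ a, s (s (s a)) = a) (c : Aˣ) (a : A) :
    a ≠ 0 → ∀ b : A, b ≠ 0 → nm s a = c * nm s b → ∃ e : Aˣ, (c : A) = nm s e := by
  refine UniqueFactorizationMonoid.induction_on_prime a ?_ ?_ ?_
  · intro h; exact absurd rfl h
  · intro x hx _ b hb h
    have hbu : IsUnit b := by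
      apply isUnit_of_nm s
      have h1 : IsUnit ((c : A) * nm s b) := by
        rw [← h]
        unfold nm
        exact (hx.mul (hx.map s)).mul ((hx.map s).map s)
      exact isUnit_of_mul_isUnit_right h1
    obtain ⟨u, rfl⟩ := hx
    obtain ⟨v, rfl⟩ := hbu
    refine ⟨u * v⁻¹, ?_⟩
    have h2 : nm s (v : A) ≠ 0 := nm_ne_zero s v.ne_zero
    apply mul_right_cancel₀ h2
    rw [← h, ← nm_mul]
    simp
  · intro a' p ha' hp ih _ b hb h
    have hdvd : p ∣ (c : A) * nm s b := by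
      rw [← h, nm_mul]
      refine Dvd.dvd.mul_right ?_ _
      unfold nm
      exact ⟨s p * s (s p), by ring⟩
    have hdvd' : p ∣ nm s b := by
      rcases hp.dvd_or_dvd hdvd with h' | h'
      · exact absurd (isUnit_of_dvd_unit h' c.isUnit) hp.not_isUnit
      · exact h'
    have key : ∃ q b' : A, nm s q = nm s p ∧ b = q * b' := by
      unfold nm at hdvd'
      rcases hp.dvd_or_dvd hdvd' with h' | ⟨b', hb'⟩
      · rcases hp.dvd_or_dvd h' with ⟨b', hb'⟩ | ⟨b', hb'⟩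
        · exact ⟨p, b', rfl, hb'⟩
        · refine ⟨s (s p), s (s b'), by rw [nm_map s h3, nm_map s h3], ?_⟩
          rw [← map_mul, ← map_mul, ← hb', h3]
      · refine ⟨s p, s b', by rw [nm_map s h3], ?_⟩
        rw [← map_mul, ← hb', h3]
    obtain ⟨q, b', hq, rfl⟩ := key
    have hb'0 : b' ≠ 0 := right_ne_zero_of_mul hb
    refine ih ha' b' hb'0 ?_
    rw [nm_mul, nm_mul, hq] at h
    have h2 : nm s p ≠ 0 := nm_ne_zero s hp.ne_zero
    apply mul_left_cancel₀ h2
    rw [h]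
    ring

end Descent

section Laurent

open Polynomial

instance laurentUFD (R : Type*) [CommRing R] [IsDomain R] [UniqueFactorizationMonoid R] :
    UniqueFactorizationMonoid (LaurentPolynomial R) :=
  UniqueFactorizationMonoid.of_isLocalization (Submonoid.powers (X : R[X])) (LaurentPolynomial R)

theorem isUnit_laurent {R : Type*} [CommRing R] [IsDomain R] {f : LaurentPolynomial R}
    (hf : IsUnit f) : ∃ (a : Rˣ) (n : ℤ), f = LaurentPolynomial.C (a : R) * LaurentPolynomial.T n := by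
  obtain ⟨g, hg⟩ := hf.exists_right_inv
  obtain ⟨m, f', hf'⟩ := LaurentPolynomial.exists_T_pow f
  obtain ⟨k, g', hg'⟩ := LaurentPolynomial.exists_T_pow g
  have h1 : f' * g' = X ^ (m + k) := by
    apply Polynomial.toLaurent_injective
    rw [map_mul, hf', hg', Polynomial.toLaurent_X_pow]
    have : f * LaurentPolynomial.T ↑m * (g * LaurentPolynomial.T ↑k) =
        (f * g) * (LaurentPolynomial.T ↑m * LaurentPolynomial.T ↑k) := by ring
    rw [this, hg, one_mul, ← LaurentPolynomial.T_add]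
    push_cast
    rfl
  have h2 : f' ∣ X ^ (m + k) := Dvd.intro _ h1
  obtain ⟨i, _, hi⟩ := (dvd_prime_pow Polynomial.prime_X _).mp h2
  obtain ⟨w, hw⟩ := hi.symm
  obtain ⟨a, ha, hw'⟩ := Polynomial.isUnit_iff.mp w.isUnit
  refine ⟨ha.unit, (i : ℤ) - m, ?_⟩
  have h3 : f = Polynomial.toLaurent f' * LaurentPolynomial.T (-m) := by
    rw [hf', LaurentPolynomial.mul_T_assoc]
    simp
  rw [h3, ← hw, ← hw', map_mul, Polynomial.toLaurent_X_pow, Polynomial.toLaurent_C,
    sub_eq_add_neg, LaurentPolynomial.T_add, IsUnit.unit_spec]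
  ring

theorem laurent_ringHom_ext {R S : Type*} [CommRing R] [CommRing S]
    {f g : LaurentPolynomial R →+* S}
    (hC : ∀ a, f (LaurentPolynomial.C a) = g (LaurentPolynomial.C a))
    (hT : f (LaurentPolynomial.T 1) = g (LaurentPolynomial.T 1)) : f = g := by
  apply IsLocalization.ringHom_ext (Submonoid.powers (X : R[X]))
  apply Polynomial.ringHom_ext
  · intro a
    simpa [LaurentPolynomial.algebraMap_eq_toLaurent, Polynomial.toLaurent_C] using hC a
  · simpa [LaurentPolynomial.algebraMap_eq_toLaurent, Polynomial.toLaurent_X] using hT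

/-- Laurent polynomials in two variables. -/
abbrev AA (M : Type*) [Semiring M] : Type _ := LaurentPolynomial (LaurentPolynomial M)

variable {M : Type*} [Field M]

/-- Constants. -/
noncomputable def cc : M →+* AA M := LaurentPolynomial.C.comp LaurentPolynomial.C

/-- The first variable. -/
noncomputable def uu : (AA M)ˣ :=
  ((LaurentPolynomial.isUnit_T (R := M) 1).map (LaurentPolynomial.C : _ →+* AA M)).unit

/-- The second variable. -/
noncomputable def vv : (AA M)ˣ :=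
  (LaurentPolynomial.isUnit_T (R := LaurentPolynomial M) 1).unit

theorem coe_uu : ((uu : (AA M)ˣ) : AA M) = LaurentPolynomial.C (LaurentPolynomial.T 1) := by
  unfold uu
  rw [IsUnit.unit_spec]

theorem coe_vv : ((vv : (AA M)ˣ) : AA M) = LaurentPolynomial.T 1 := by
  unfold vv
  rw [IsUnit.unit_spec]

theorem AA_ringHom_ext {S : Type*} [CommRing S] {f g : AA M →+* S}
    (hC : ∀ a, f (cc a) = g (cc a)) (hu : f (uu : (AA M)ˣ) = g (uu : (AA M)ˣ))
    (hv : f (vv : (AA M)ˣ) = g (vv : (AA M)ˣ)) : f = g := by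
  apply laurent_ringHom_ext
  · intro a
    have : f.comp (LaurentPolynomial.C : _ →+* AA M) = g.comp LaurentPolynomial.C := by
      apply laurent_ringHom_ext
      · intro b
        exact hC b
      · simpa [coe_uu] using hu
    exact congrArg (fun h => h a) this
  · simpa [coe_vv] using hv

/-- The unit attached to a nonzero constant. -/
noncomputable def cu : Mˣ →* (AA M)ˣ := Units.map (cc : M →+* AA M).toMonoidHom

theorem coe_cu (δ : Mˣ) : ((cu δ : (AA M)ˣ) : AA M) = cc (δ : M) := rfl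

/-- The twisted rotation `u ↦ v ↦ δ / (u v)`. -/
noncomputable def rot (σ : M →+* M) (δ : Mˣ) : AA M →+* AA M :=
  LaurentPolynomial.eval₂
    (LaurentPolynomial.eval₂ (cc.comp σ) (vv : (AA M)ˣ)) (cu δ * uu⁻¹ * vv⁻¹)

theorem rot_cc (σ : M →+* M) (δ : Mˣ) (a : M) : rot σ δ (cc a) = cc (σ a) := by
  unfold rot
  change LaurentPolynomial.eval₂ _ _ (LaurentPolynomial.C (LaurentPolynomial.C a)) = _
  rw [LaurentPolynomial.eval₂_C, LaurentPolynomial.eval₂_C]
  rfl

theorem rot_uu (σ : M →+* M) (δ : Mˣ) : rot σ δ (uu : (AA M)ˣ) = (vv : (AA M)ˣ) := by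
  unfold rot
  rw [coe_uu, LaurentPolynomial.eval₂_C, LaurentPolynomial.eval₂_T]
  simp

theorem rot_vv (σ : M →+* M) (δ : Mˣ) :
    rot σ δ (vv : (AA M)ˣ) = ((cu δ * uu⁻¹ * vv⁻¹ : (AA M)ˣ) : AA M) := by
  unfold rot
  rw [coe_vv, LaurentPolynomial.eval₂_T]
  simp

theorem rot_uu' (σ : M →+* M) (δ : Mˣ) :
    Units.map (rot σ δ).toMonoidHom (uu : (AA M)ˣ) = vv := by
  ext1
  exact rot_uu σ δ

theorem rot_vv' (σ : M →+* M) (δ : Mˣ) :
    Units.map (rot σ δ).toMonoidHom (vv : (AA M)ˣ) = cu δ * uu⁻¹ * vv⁻¹ := by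
  ext1
  exact rot_vv σ δ

theorem rot_cu' (σ : M →+* M) (δ : Mˣ) (hδ : σ δ = δ) :
    Units.map (rot σ δ).toMonoidHom (cu δ : (AA M)ˣ) = cu δ := by
  ext1
  change rot σ δ (cc (δ : M)) = cc (δ : M)
  rw [rot_cc, hδ]

theorem grp_aux {G : Type*} [CommGroup G] (a b c : G) : a * c⁻¹ * (a * b⁻¹ * c⁻¹)⁻¹ = b := by
  rw [mul_inv, mul_inv, inv_inv, inv_inv]
  calc a * c⁻¹ * (a⁻¹ * b * c) = (a * a⁻¹) * (c⁻¹ * c) * b := by ac_rfl
    _ = b := by simp

theorem grp_aux2 {G : Type*} [CommGroup G] (a b c : G) : a * b * (c * a⁻¹ * b⁻¹) = c := by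
  calc a * b * (c * a⁻¹ * b⁻¹) = (a * a⁻¹) * (b * b⁻¹) * c := by ac_rfl
    _ = c := by simp

theorem rot_rot_vv' (σ : M →+* M) (δ : Mˣ) (hδ : σ δ = δ) :
    Units.map (rot σ δ).toMonoidHom (cu δ * uu⁻¹ * vv⁻¹ : (AA M)ˣ) = uu := by
  rw [map_mul, map_mul, map_inv, map_inv, rot_cu' σ δ hδ, rot_uu', rot_vv']
  exact grp_aux _ _ _

theorem rot_three (σ : M →+* M) (δ : Mˣ) (hδ : σ δ = δ) (hσ : ∀ m, σ (σ (σ m)) = m) (a : AA M) :
    rot σ δ (rot σ δ (rot σ δ a)) = a := by
  have h : ((rot σ δ).comp ((rot σ δ).comp (rot σ δ))) = RingHom.id _ := by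
    apply AA_ringHom_ext
    · intro m
      simp only [RingHom.comp_apply, rot_cc, hσ, RingHom.id_apply]
    · simp only [RingHom.comp_apply, RingHom.id_apply]
      rw [rot_uu, rot_vv]
      exact congrArg Units.val (rot_rot_vv' σ δ hδ)
    · simp only [RingHom.comp_apply, RingHom.id_apply]
      rw [rot_vv]
      have := congrArg Units.val (rot_rot_vv' σ δ hδ)
      change rot σ δ _ = _ at this
      rw [this, rot_uu]
  exact congrArg (fun h => h a) h

/-- The twisted rotation as an automorphism. -/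
noncomputable def rotE (σ : M →+* M) (δ : Mˣ) (hδ : σ δ = δ) (hσ : ∀ m, σ (σ (σ m)) = m) :
    AA M ≃+* AA M :=
  RingEquiv.ofRingHom (rot σ δ) ((rot σ δ).comp (rot σ δ))
    (RingHom.ext fun a => rot_three σ δ hδ hσ a) (RingHom.ext fun a => rot_three σ δ hδ hσ a)

theorem rotE_apply (σ : M →+* M) (δ : Mˣ) (hδ : σ δ = δ) (hσ : ∀ m, σ (σ (σ m)) = m) (a : AA M) :
    rotE σ δ hδ hσ a = rot σ δ a := rfl

theorem coe_T_zpow {R : Type*} [CommRing R] (w : (LaurentPolynomial R)ˣ)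
    (hw : (w : LaurentPolynomial R) = LaurentPolynomial.T 1) (i : ℤ) :
    ((w ^ i : (LaurentPolynomial R)ˣ) : LaurentPolynomial R) = LaurentPolynomial.T i := by
  induction i using Int.induction_on with
  | zero => simp
  | succ n ih => rw [zpow_add_one, Units.val_mul, ih, hw, ← LaurentPolynomial.T_add]
  | pred n ih =>
    rw [zpow_sub_one, Units.val_mul, ih, LaurentPolynomial.T_sub]
    congr 1
    have h1 : (w : LaurentPolynomial R) * LaurentPolynomial.T (-1) = 1 := by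
      rw [hw, ← LaurentPolynomial.T_add]
      simp
    have h2 : ((w⁻¹ : (LaurentPolynomial R)ˣ) : LaurentPolynomial R) *
        ((w : LaurentPolynomial R) * LaurentPolynomial.T (-1)) = LaurentPolynomial.T (-1) := by
      rw [← mul_assoc, Units.inv_mul, one_mul]
    rw [h1, mul_one] at h2
    exact h2

theorem coe_vv_zpow (j : ℤ) : ((vv ^ j : (AA M)ˣ) : AA M) = LaurentPolynomial.T j :=
  coe_T_zpow _ coe_vv j

theorem coe_uu_zpow (i : ℤ) :
    ((uu ^ i : (AA M)ˣ) : AA M) = LaurentPolynomial.C (LaurentPolynomial.T i) := by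
  rw [← coe_T_zpow (LaurentPolynomial.isUnit_T (R := M) 1).unit (IsUnit.unit_spec _) i]
  change _ = ((Units.map (LaurentPolynomial.C : _ →+* AA M).toMonoidHom
    ((LaurentPolynomial.isUnit_T (R := M) 1).unit ^ i) : (AA M)ˣ) : AA M)
  rw [map_zpow]
  congr 2
  ext1
  rw [coe_uu]
  rfl

theorem exists_eq_of_isUnit {e : AA M} (he : IsUnit e) :
    ∃ (m : Mˣ) (i j : ℤ), e = ((cu m * uu ^ i * vv ^ j : (AA M)ˣ) : AA M) := by
  obtain ⟨a, j, ha⟩ := isUnit_laurent he
  obtain ⟨m, i, hm⟩ := isUnit_laurent a.isUnit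
  refine ⟨m, i, j, ?_⟩
  rw [ha, hm]
  rw [Units.val_mul, Units.val_mul, coe_uu_zpow, coe_vv_zpow, coe_cu, map_mul]
  rfl

theorem cc_injective : Function.Injective (cc : M →+* AA M) := RingHom.injective _

theorem nm_coe {A : Type*} [CommRing A] (s : A ≃+* A) (e : Aˣ) : nm s (e : A) =
    ((e * Units.map s.toRingHom.toMonoidHom e *
      Units.map s.toRingHom.toMonoidHom (Units.map s.toRingHom.toMonoidHom e) : Aˣ) : A) := rfl

theorem nm_zpow {A : Type*} [CommRing A] (s : A ≃+* A) (e g : Aˣ) (h : nm s (e : A) = (g : A))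
    (i : ℤ) : nm s ((e ^ i : Aˣ) : A) = ((g ^ i : Aˣ) : A) := by
  rw [nm_coe] at h ⊢
  rw [← Units.ext h]
  simp only [map_zpow, mul_zpow]

theorem nm_uu (σ : M →+* M) (δ : Mˣ) (hδ : σ δ = δ) (hσ : ∀ m, σ (σ (σ m)) = m) :
    nm (rotE σ δ hδ hσ) ((uu : (AA M)ˣ) : AA M) = ((cu δ : (AA M)ˣ) : AA M) := by
  have h1 : nm (rotE σ δ hδ hσ) ((uu : (AA M)ˣ) : AA M) =
      ((uu * vv * (cu δ * uu⁻¹ * vv⁻¹) : (AA M)ˣ) : AA M) := by
    unfold nm
    rw [rotE_apply, rot_uu, rotE_apply, rot_vv]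
    rfl
  rw [h1]
  have h2 : (uu * vv * (cu δ * uu⁻¹ * vv⁻¹) : (AA M)ˣ) = cu δ :=
    @grp_aux2 (AA M)ˣ _ uu vv (cu δ)
  rw [h2]

theorem nm_vv (σ : M →+* M) (δ : Mˣ) (hδ : σ δ = δ) (hσ : ∀ m, σ (σ (σ m)) = m) :
    nm (rotE σ δ hδ hσ) ((vv : (AA M)ˣ) : AA M) = ((cu δ : (AA M)ˣ) : AA M) := by
  rw [← nm_uu σ δ hδ hσ, ← rot_uu σ δ, ← rotE_apply σ δ hδ hσ]
  exact nm_map _ (fun a => rot_three σ δ hδ hσ a) _

theorem nm_cc (σ : M →+* M) (δ : Mˣ) (hδ : σ δ = δ) (hσ : ∀ m, σ (σ (σ m)) = m) (m : M) :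
    nm (rotE σ δ hδ hσ) (cc m) = cc (m * σ m * σ (σ m)) := by
  unfold nm
  simp only [rotE_apply, rot_cc, map_mul]

/-- The kernel of the norm map: constants. -/
theorem exists_of_nm_eq (σ : M →+* M) (δ : Mˣ) (hδ : σ δ = δ) (hσ : ∀ m, σ (σ (σ m)) = m)
    (c : Mˣ) (a b : AA M) (ha : a ≠ 0) (hb : b ≠ 0)
    (h : nm (rotE σ δ hδ hσ) a = cc (c : M) * nm (rotE σ δ hδ hσ) b) :
    ∃ (m : Mˣ) (k : ℤ), (c : M) = (m * σ m * σ (σ m)) * ((δ ^ k : Mˣ) : M) := by
  obtain ⟨e, he⟩ := exists_unit_nm (rotE σ δ hδ hσ) (fun a => rot_three σ δ hδ hσ a) (cu c) a ha b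
    hb h
  obtain ⟨m, i, j, hm⟩ := exists_eq_of_isUnit e.isUnit
  refine ⟨m, i + j, ?_⟩
  apply cc_injective
  have h1 : (cc ((δ ^ (i + j) : Mˣ) : M) : AA M) =
      ((cu δ ^ i : (AA M)ˣ) : AA M) * ((cu δ ^ j : (AA M)ˣ) : AA M) := by
    rw [← Units.val_mul, ← zpow_add, ← map_zpow, coe_cu]
  have h2 : nm (rotE σ δ hδ hσ) ((e : (AA M)ˣ) : AA M) =
      cc (m * σ m * σ (σ m)) * ((cu δ ^ i : (AA M)ˣ) : AA M) * ((cu δ ^ j : (AA M)ˣ) : AA M) := by
    rw [hm, Units.val_mul, Units.val_mul, nm_mul, nm_mul,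
      nm_zpow _ _ _ (nm_uu σ δ hδ hσ), nm_zpow _ _ _ (nm_vv σ δ hδ hσ), coe_cu, nm_cc]
  rw [map_mul cc, h1, ← mul_assoc, ← h2, ← he, coe_cu]

theorem const_of_unit {R : Type*} [CommRing R] [IsDomain R] {f : LaurentPolynomial R}
    (h : f = 0 ∨ IsUnit f) (h1 : f + 1 = 0 ∨ IsUnit (f + 1)) :
    ∃ r, f = LaurentPolynomial.C r := by
  rcases h with h | h
  · exact ⟨0, by rw [h, map_zero]⟩
  rcases h1 with h1 | h1
  · exact ⟨-1, by rw [eq_neg_of_add_eq_zero_left h1, map_neg, map_one]⟩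
  obtain ⟨a, n, hf⟩ := isUnit_laurent h
  obtain ⟨b, k, hg⟩ := isUnit_laurent h1
  by_cases hn : n = 0
  · exact ⟨a, by rw [hf, hn, LaurentPolynomial.T_zero, mul_one]⟩
  exfalso
  have e : (LaurentPolynomial.C (a : R) * LaurentPolynomial.T n + 1 : LaurentPolynomial R) =
      LaurentPolynomial.C (b : R) * LaurentPolynomial.T k := by rw [← hf, hg]
  rw [← LaurentPolynomial.single_eq_C_mul_T, ← LaurentPolynomial.single_eq_C_mul_T,
    ← LaurentPolynomial.single_zero_one_eq_one] at e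
  have e' := congrArg AddMonoidAlgebra.coeff e
  rw [AddMonoidAlgebra.coeff_add, AddMonoidAlgebra.coeff_single, AddMonoidAlgebra.coeff_single,
    AddMonoidAlgebra.coeff_single] at e'
  have e0 := DFunLike.congr_fun e' 0
  have en := DFunLike.congr_fun e' n
  rw [Finsupp.add_apply, Finsupp.single_apply, Finsupp.single_apply, Finsupp.single_apply] at e0 en
  rw [if_neg hn, if_pos rfl, zero_add] at e0
  rw [if_pos rfl, if_neg (Ne.symm hn), add_zero] at en
  by_cases hk : k = 0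
  · rw [hk, if_neg (Ne.symm hn)] at en
    exact a.ne_zero en
  · rw [if_neg hk] at e0
    exact one_ne_zero e0

theorem isUnit_of_isUnit_C {R : Type*} [CommRing R] {r : R}
    (h : IsUnit (LaurentPolynomial.C r : LaurentPolynomial R)) : IsUnit r := by
  have := h.map (LaurentPolynomial.eval₂ (RingHom.id R) (1 : Rˣ))
  rwa [LaurentPolynomial.eval₂_C] at this

end Laurent

end Pool.Agent.D5741.KL
end

section

/-!
# The fraction field of the twisted Laurent polynomials and its fixed field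
-/

set_option autoImplicit false

namespace Pool.Agent.D5741.KL

section Consts

variable {M : Type*} [Field M]

theorem algebraMap_AA (m : M) : algebraMap M (AA M) m = cc m := by
  rw [LaurentPolynomial.algebraMap_apply]
  rfl

/-- The field of fractions. -/
abbrev FF (M : Type*) [Field M] : Type _ := FractionRing (AA M)

theorem algebraMap_FF (m : M) : algebraMap M (FF M) m = algebraMap (AA M) (FF M) (cc m) := by
  rw [IsScalarTower.algebraMap_apply M (AA M) (FF M), algebraMap_AA]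

theorem laurent_C_injective {R : Type*} [CommRing R] :
    Function.Injective (LaurentPolynomial.C : R →+* LaurentPolynomial R) := by
  intro a b h
  have := congrArg (LaurentPolynomial.eval₂ (RingHom.id R) (1 : Rˣ)) h
  simpa only [LaurentPolynomial.eval₂_C, RingHom.id_apply] using this

theorem const_of_isAlgebraic {w : FF M} (hw : IsAlgebraic M w) :
    ∃ m : M, w = algebraMap M (FF M) m := by
  have key : ∀ w : FF M, IsAlgebraic M w → ∃ a : AA M, algebraMap (AA M) (FF M) a = w := by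
    intro w hw
    have h1 : IsIntegral M w := hw.isIntegral
    have h2 : IsIntegral (AA M) w := h1.tower_top
    exact IsIntegrallyClosed.isIntegral_iff.mp h2
  have key2 : ∀ a : AA M, IsAlgebraic M (algebraMap (AA M) (FF M) a) → a = 0 ∨ IsUnit a := by
    intro a ha
    by_cases h0 : a = 0
    · exact Or.inl h0
    right
    obtain ⟨b, hb⟩ := key _ ha.inv
    have h1 : a * b = 1 := by
      apply IsFractionRing.injective (AA M) (FF M)
      rw [map_mul, hb, map_one, mul_inv_cancel₀]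
      intro h
      exact h0 ((map_eq_zero_iff _ (IsFractionRing.injective (AA M) (FF M))).mp h)
    exact IsUnit.of_mul_eq_one _ h1
  obtain ⟨a, rfl⟩ := key w hw
  have h1 : IsAlgebraic M (algebraMap (AA M) (FF M) (a + 1)) := by
    rw [map_add, map_one]
    exact hw.add isAlgebraic_one
  obtain ⟨b, rfl⟩ := const_of_unit (key2 _ hw) (key2 _ h1)
  have aux : ∀ b : LaurentPolynomial M,
      (LaurentPolynomial.C b : AA M) = 0 ∨ IsUnit (LaurentPolynomial.C b : AA M) →
      b = 0 ∨ IsUnit b := by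
    intro b hb
    rcases hb with h | h
    · left
      apply laurent_C_injective
      rw [h, map_zero]
    · exact Or.inr (isUnit_of_isUnit_C h)
  have hb := aux b (key2 _ hw)
  have hb1 : b + 1 = 0 ∨ IsUnit (b + 1) := by
    apply aux
    rw [map_add, map_one]
    exact key2 _ h1
  obtain ⟨m, rfl⟩ := const_of_unit hb hb1
  exact ⟨m, by rw [algebraMap_FF]; rfl⟩

end Consts

section Fixed

variable {K M : Type*} [Field K] [Field M] [Algebra K M] (σ : M →ₐ[K] M) (δ : Mˣ)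
  (hδ : σ δ = δ) (hσ : ∀ m, σ (σ (σ m)) = m)

/-- The automorphism of the field of fractions. -/
noncomputable def SS : FF M ≃+* FF M :=
  IsFractionRing.ringEquivOfRingEquiv (rotE (σ : M →+* M) δ hδ hσ)

theorem SS_algebraMap (a : AA M) : SS σ δ hδ hσ (algebraMap (AA M) (FF M) a) =
    algebraMap (AA M) (FF M) (rot (σ : M →+* M) δ a) := by
  unfold SS
  rw [IsFractionRing.ringEquivOfRingEquiv_algebraMap]
  rfl

theorem SS_three (w : FF M) : SS σ δ hδ hσ (SS σ δ hδ hσ (SS σ δ hδ hσ w)) = w := by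
  obtain ⟨x, y, hy, rfl⟩ := IsFractionRing.div_surjective (AA M) w
  simp only [map_div₀, SS_algebraMap, rot_three (σ : M →+* M) δ hδ hσ]

theorem SS_M (m : M) : SS σ δ hδ hσ (algebraMap M (FF M) m) = algebraMap M (FF M) (σ m) := by
  rw [algebraMap_FF, SS_algebraMap, rot_cc, algebraMap_FF]
  rfl

theorem SS_K (k : K) : SS σ δ hδ hσ (algebraMap K (FF M) k) = algebraMap K (FF M) k := by
  rw [IsScalarTower.algebraMap_apply K M (FF M), SS_M, AlgHom.commutes]

/-- The fixed field. -/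
noncomputable def Fix : IntermediateField K (FF M) :=
  { (RingHom.eqLocusField (SS σ δ hδ hσ : FF M →+* FF M) (RingHom.id _)) with
    algebraMap_mem' := fun k => SS_K σ δ hδ hσ k }

theorem mem_Fix {w : FF M} : w ∈ Fix σ δ hδ hσ ↔ SS σ δ hδ hσ w = w := Iff.rfl

end Fixed

section Indep

variable (K M : Type*) [Field K] [Field M] [Algebra K M]

theorem coeff_aeval (p : MvPolynomial (Fin 2) K) : ∀ m : Fin 2 →₀ ℕ,
    ((MvPolynomial.aeval ![((uu : (AA M)ˣ) : AA M), ((vv : (AA M)ˣ) : AA M)] p).coeff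
      (m 1 : ℤ)).coeff (m 0 : ℤ) = algebraMap K M (p.coeff m) := by
  induction p using MvPolynomial.induction_on' with
  | monomial n a =>
    intro m
    have h1 : MvPolynomial.aeval ![((uu : (AA M)ˣ) : AA M), ((vv : (AA M)ˣ) : AA M)]
        (MvPolynomial.monomial n a) =
        AddMonoidAlgebra.single (n 1 : ℤ) (AddMonoidAlgebra.single (n 0 : ℤ) (algebraMap K M a)) := by
      rw [MvPolynomial.aeval_monomial, Finsupp.prod_fintype _ _ (fun i => pow_zero _),
        Fin.prod_univ_two, LaurentPolynomial.single_eq_C_mul_T, LaurentPolynomial.single_eq_C_mul_T,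
        map_mul, LaurentPolynomial.algebraMap_apply, LaurentPolynomial.algebraMap_apply]
      simp only [Matrix.cons_val_zero, Matrix.cons_val_one, coe_uu, coe_vv,
        ← map_pow, LaurentPolynomial.T_pow, mul_one]
      rw [mul_assoc]
    rw [h1, AddMonoidAlgebra.coeff_single, Finsupp.single_apply, MvPolynomial.coeff_monomial]
    by_cases h : n = m
    · subst h
      rw [if_pos rfl, if_pos rfl, AddMonoidAlgebra.coeff_single, Finsupp.single_apply, if_pos rfl]
    · rw [if_neg h, (algebraMap K M).map_zero]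
      by_cases h2 : n 1 = m 1
      · have h3 : n 0 ≠ m 0 := by
          intro h3
          apply h
          ext i
          fin_cases i
          · exact h3
          · exact h2
        rw [if_pos (by exact_mod_cast h2), AddMonoidAlgebra.coeff_single, Finsupp.single_apply,
          if_neg (by exact_mod_cast h3)]
      · rw [if_neg (by exact_mod_cast h2), AddMonoidAlgebra.coeff_zero, Finsupp.zero_apply]
  | add p q hp hq =>
    intro m
    rw [map_add, AddMonoidAlgebra.coeff_add, Finsupp.add_apply, AddMonoidAlgebra.coeff_add,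
      Finsupp.add_apply, hp, hq, MvPolynomial.coeff_add, map_add]

theorem algInd_AA : AlgebraicIndependent K ![((uu : (AA M)ˣ) : AA M), ((vv : (AA M)ˣ) : AA M)] := by
  rw [algebraicIndependent_iff]
  intro p hp
  ext m
  apply (algebraMap K M).injective
  rw [← coeff_aeval K M p m, hp]
  simp

theorem algInd_FF : AlgebraicIndependent K
    ![algebraMap (AA M) (FF M) (uu : (AA M)ˣ), algebraMap (AA M) (FF M) (vv : (AA M)ˣ)] := by
  have h := (AlgHom.algebraicIndependent_iff (IsScalarTower.toAlgHom K (AA M) (FF M))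
    (IsFractionRing.injective (AA M) (FF M))).mpr (algInd_AA K M)
  convert h using 1
  ext i
  fin_cases i <;> rfl

end Indep

end Pool.Agent.D5741.KL
end

section

/-!
# The Fourier transform of triples
-/

set_option autoImplicit false

namespace Pool.Agent.D5741

open scoped TensorProduct nonZeroDivisors

section Ring

variable {R : Type*} [CommRing R]

theorem cj_add (ω μ : R) (h h' : Fin 3 → R) (i : ℕ) :
    cj ω μ (h + h') i = cj ω μ h i + cj ω μ h' i := by
  unfold cj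
  simp only [Pi.add_apply]
  ring

theorem cj_mul (ω μ c : R) (h : Fin 3 → R) (i : ℕ) :
    cj ω μ (fun j => c * h j) i = c * cj ω μ h i := by
  unfold cj
  ring

theorem map_cj {S : Type*} [CommRing S] (f : R →+* S) (ω μ : R) (h : Fin 3 → R) (i : ℕ) :
    f (cj ω μ h i) = cj (f ω) (f μ) (fun j => f (h j)) i := by
  unfold cj
  simp only [map_add, map_mul, map_pow]

/-- The inverse Fourier transform; `μ'` is the inverse of `μ` and `c` the inverse of `3`. -/
def dft (ω μ' c : R) (w : Fin 3 → R) : Fin 3 → R :=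
  ![c * (w 0 + w 1 + w 2), c * μ' * (w 0 + ω ^ 2 * w 1 + ω * w 2),
    c * μ' ^ 2 * (w 0 + ω * w 1 + ω ^ 2 * w 2)]

theorem cj_dft {ω μ μ' c : R} (hω : ω ^ 2 + ω + 1 = 0) (hμ : μ * μ' = 1) (hc : 3 * c = 1)
    (w : Fin 3 → R) (i : Fin 3) : cj ω μ (dft ω μ' c w) i = w i := by
  have h3 : ω ^ 3 = 1 := by linear_combination (ω - 1) * hω
  have h4 : ω ^ 4 = ω := by linear_combination ω * h3
  have h2 : ω ^ 2 = -ω - 1 := by linear_combination hω
  have hm2 : μ ^ 2 * μ' ^ 2 = 1 := by rw [← mul_pow, hμ, one_pow]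
  have e0 : dft ω μ' c w 0 = c * (w 0 + w 1 + w 2) := rfl
  have e1 : dft ω μ' c w 1 = c * μ' * (w 0 + ω ^ 2 * w 1 + ω * w 2) := rfl
  have e2 : dft ω μ' c w 2 = c * μ' ^ 2 * (w 0 + ω * w 1 + ω ^ 2 * w 2) := rfl
  have key : ∀ i : ℕ, cj ω μ (dft ω μ' c w) i = c * (w 0 + w 1 + w 2) +
      ω ^ i * c * (w 0 + ω ^ 2 * w 1 + ω * w 2) +
      (ω ^ i) ^ 2 * c * (w 0 + ω * w 1 + ω ^ 2 * w 2) := by
    intro i
    unfold cj
    rw [e0, e1, e2]
    linear_combination (ω ^ i * c * (w 0 + ω ^ 2 * w 1 + ω * w 2)) * hμ +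
      ((ω ^ i) ^ 2 * c * (w 0 + ω * w 1 + ω ^ 2 * w 2)) * hm2
  rw [key]
  fin_cases i
  · simp only [Fin.zero_eta, Fin.isValue, Fin.val_zero, pow_zero, one_mul, one_pow]
    linear_combination (w 0) * hc + c * (w 1 + w 2) * hω
  · simp only [Fin.mk_one, Fin.isValue, Fin.val_one, pow_one]
    linear_combination (w 1) * hc + c * (w 0 + w 2) * hω +
      (2 * c * w 1 + c * w 2 * ω) * h3
  · simp only [Fin.reduceFinMk, Fin.isValue]
    linear_combination (w 2) * hc + c * (w 0 + w 1) * hω +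
      (c * w 0 * ω + c * w 1 * (ω + ω ^ 2) + c * w 2 * (ω ^ 3 + 1) + c * w 2) * h3

theorem dft_cj {ω μ μ' c : R} (hω : ω ^ 2 + ω + 1 = 0) (hμ : μ * μ' = 1) (hc : 3 * c = 1)
    (h : Fin 3 → R) : dft ω μ' c (fun i => cj ω μ h i) = h := by
  have h3 : ω ^ 3 = 1 := by linear_combination (ω - 1) * hω
  have hm2 : μ ^ 2 * μ' ^ 2 = 1 := by rw [← mul_pow, hμ, one_pow]
  have hm3 : μ ^ 2 * μ' = μ := by linear_combination μ * hμ
  have hm4 : μ * μ' ^ 2 = μ' := by linear_combination μ' * hμ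
  ext i
  fin_cases i
  · simp only [dft, cj, Fin.zero_eta, Fin.isValue, Fin.val_zero, pow_zero, one_mul, Fin.val_one,
      pow_one, Fin.val_two, Matrix.cons_val_zero]
    linear_combination (h 0) * hc + (c * μ * h 1 + c * μ ^ 2 * h 2) * hω +
      (c * μ ^ 2 * h 2 * ω) * h3
  · simp only [dft, cj, Fin.mk_one, Fin.isValue, Fin.val_zero, pow_zero, one_mul, Fin.val_one,
      pow_one, Fin.val_two, Matrix.cons_val_one, Matrix.cons_val_zero]
    linear_combination (h 1) * hc + (c * μ' * h 0) * hω + (c * h 1 * (1 + 2 * ω ^ 3)) * hμ +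
      (2 * c * h 1) * h3 + c * (h 2) * hm3 * (1 + ω ^ 4 + ω ^ 5) + c * μ * h 2 * ω * (1 + ω) * h3 +
      c * μ * h 2 * hω
  · simp only [dft, cj, Fin.reduceFinMk, Fin.isValue, Fin.val_zero, pow_zero, one_mul, Fin.val_one,
      pow_one, Fin.val_two, Matrix.cons_val]
    linear_combination (h 2) * hc + (c * μ' ^ 2 * h 0) * hω + (c * h 2 * (1 + ω ^ 3 + ω ^ 6)) * hm2 +
      (c * h 2 * (2 + ω ^ 3)) * h3 + c * h 1 * (1 + ω ^ 2 + ω ^ 4) * hm4 + c * h 1 * μ' * ω * h3 +
      c * h 1 * μ' * hω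

theorem cj_injective {ω μ μ' c : R} (hω : ω ^ 2 + ω + 1 = 0) (hμ : μ * μ' = 1) (hc : 3 * c = 1)
    {h h' : Fin 3 → R} (hh : ∀ i : Fin 3, cj ω μ h i = cj ω μ h' i) : h = h' := by
  rw [← dft_cj hω hμ hc h, ← dft_cj hω hμ hc h']
  congr 1
  ext i
  exact hh i

end Ring

end Pool.Agent.D5741
end

section

/-!
# The fractional ideals of a cocycle of norm `a`
-/

set_option autoImplicit false
set_option linter.unusedSectionVars false

namespace Pool.Agent.D5741

open scoped TensorProduct nonZeroDivisors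
open FractionalIdeal

section Z

variable {k 𝕃 : Type} [Field k] [Field 𝕃] [Algebra k 𝕃] (R : Subalgebra k 𝕃) [IsFractionRing R 𝕃]

theorem spanSingleton_const {c : k} (hc : c ≠ 0) :
    spanSingleton R⁰ (algebraMap k 𝕃 c) = 1 := by
  have h1 : algebraMap k 𝕃 c = algebraMap R 𝕃 (algebraMap k R c) := by
    rw [← IsScalarTower.algebraMap_apply]
  rw [h1, ← coeIdeal_span_singleton]
  have h2 : Ideal.span {algebraMap k R c} = ⊤ := by
    rw [Ideal.span_singleton_eq_top]
    exact (IsUnit.mk0 c hc).map _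
  rw [h2, coeIdeal_top]

theorem spanSingleton_mul_Zid (f : ℕ → 𝕃) (i : ℕ) {a : k} (ha : a ≠ 0)
    (h : f i * f (i + 1) * f (i + 2) = algebraMap k 𝕃 a) :
    spanSingleton R⁰ (f i) * Zid R f (i + 1) = Zid R f i := by
  unfold Zid
  rw [mul_add, mul_add, mul_one, spanSingleton_mul_spanSingleton, spanSingleton_mul_spanSingleton,
    show f i * (f (i + 1) * f (i + 1 + 1)) = algebraMap k 𝕃 a by rw [← h]; ring,
    spanSingleton_const R ha]
  ring

theorem one_le_Zid (f : ℕ → 𝕃) (i : ℕ) : 1 ≤ Zid R f i := by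
  unfold Zid
  rw [← sup_eq_add, ← sup_eq_add]
  exact le_sup_left.trans le_sup_left

theorem Zid_ne_zero (f : ℕ → 𝕃) (i : ℕ) : Zid R f i ≠ 0 := by
  intro h
  have h1 := one_le_Zid R f i
  rw [h, FractionalIdeal.le_zero_iff] at h1
  exact one_ne_zero h1

theorem mem_Zid_iff (f : ℕ → 𝕃) (i : ℕ) (x : 𝕃) : x ∈ Zid R f i ↔
    ∃ c₀ c₁ c₂ : R, x = c₀ + c₁ * f i + c₂ * (f i * f (i + 1)) := by
  unfold Zid
  rw [← sup_eq_add, ← sup_eq_add, ← mem_coe, coe_sup, coe_sup, Submodule.mem_sup]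
  constructor
  · rintro ⟨y, hy, z, hz, rfl⟩
    rw [Submodule.mem_sup] at hy
    obtain ⟨y₀, hy₀, y₁, hy₁, rfl⟩ := hy
    rw [mem_coe, mem_one_iff] at hy₀
    rw [mem_coe, mem_spanSingleton] at hy₁ hz
    obtain ⟨c₀, rfl⟩ := hy₀
    obtain ⟨c₁, rfl⟩ := hy₁
    obtain ⟨c₂, rfl⟩ := hz
    exact ⟨c₀, c₁, c₂, rfl⟩
  · rintro ⟨c₀, c₁, c₂, rfl⟩
    refine ⟨c₀ + c₁ * f i, ?_, c₂ * (f i * f (i + 1)), ?_, rfl⟩
    · rw [Submodule.mem_sup]
      refine ⟨c₀, ?_, c₁ * f i, ?_, rfl⟩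
      · rw [mem_coe, mem_one_iff]
        exact ⟨c₀, rfl⟩
      · rw [mem_coe, mem_spanSingleton]
        exact ⟨c₁, rfl⟩
    · rw [mem_coe, mem_spanSingleton]
      exact ⟨c₂, rfl⟩

end Z

section Tensor

variable {K L Ω : Type} [Field K] [CharZero K] [Field L] [Algebra K L] [Field Ω] [Algebra K Ω]

theorem tensor_omega {ω : K} (hω : ω ^ 2 + ω + 1 = 0) :
    (algebraMap K (Ω ⊗[K] L) ω) ^ 2 + algebraMap K (Ω ⊗[K] L) ω + 1 = 0 := by
  rw [← map_pow, ← map_add, ← map_one (algebraMap K (Ω ⊗[K] L)), ← map_add, hω, map_zero]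

theorem tensor_three : (3 : Ω ⊗[K] L) * algebraMap K (Ω ⊗[K] L) (3⁻¹) = 1 := by
  rw [← map_ofNat (algebraMap K (Ω ⊗[K] L)) 3, ← map_mul, mul_inv_cancel₀ (by norm_num), map_one]

theorem tensor_mu {α : K} (hα : α ≠ 0) {μ : Ω} (hμ : μ ^ 3 = algebraMap K Ω α) :
    ((μ ⊗ₜ 1 : Ω ⊗[K] L)) * (μ⁻¹ ⊗ₜ 1) = 1 := by
  have h0 : μ ≠ 0 := by
    rintro rfl
    rw [zero_pow (by norm_num), eq_comm, map_eq_zero] at hμ
    exact hα hμ
  rw [Algebra.TensorProduct.tmul_mul_tmul, mul_inv_cancel₀ h0, one_mul,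
    Algebra.TensorProduct.one_def]

theorem tensor_mu_cube {α : K} {μ : Ω} (hμ : μ ^ 3 = algebraMap K Ω α) :
    ((μ ⊗ₜ 1 : Ω ⊗[K] L)) ^ 3 = algebraMap K (Ω ⊗[K] L) α := by
  rw [Algebra.TensorProduct.tmul_pow, hμ, one_pow, Algebra.TensorProduct.algebraMap_apply]

/-- The inverse Fourier transform on `(Ω ⊗ L)^3`. -/
noncomputable def dftT (ω : K) (μ : Ω) (w : Fin 3 → Ω ⊗[K] L) : Fin 3 → Ω ⊗[K] L :=
  dft (algebraMap K (Ω ⊗[K] L) ω) (μ⁻¹ ⊗ₜ 1) (algebraMap K (Ω ⊗[K] L) (3⁻¹)) w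

theorem cjT_dftT {ω α : K} (hω : ω ^ 2 + ω + 1 = 0) (hα : α ≠ 0) {μ : Ω}
    (hμ : μ ^ 3 = algebraMap K Ω α) (w : Fin 3 → Ω ⊗[K] L) (i : Fin 3) :
    cjT ω μ (dftT ω μ w) i = w i :=
  cj_dft (tensor_omega hω) (tensor_mu hα hμ) tensor_three w i

theorem dftT_cjT {ω α : K} (hω : ω ^ 2 + ω + 1 = 0) (hα : α ≠ 0) {μ : Ω}
    (hμ : μ ^ 3 = algebraMap K Ω α) (h : Fin 3 → Ω ⊗[K] L) :
    dftT ω μ (fun i => cjT ω μ h i) = h :=
  dft_cj (tensor_omega hω) (tensor_mu hα hμ) tensor_three h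

theorem cjT_injective {ω α : K} (hω : ω ^ 2 + ω + 1 = 0) (hα : α ≠ 0) {μ : Ω}
    (hμ : μ ^ 3 = algebraMap K Ω α) {h h' : Fin 3 → Ω ⊗[K] L}
    (hh : ∀ i : Fin 3, cjT ω μ h i = cjT ω μ h' i) : h = h' :=
  cj_injective (tensor_omega hω) (tensor_mu hα hμ) tensor_three hh

theorem cjT_add (ω : K) (μ : Ω) (h h' : Fin 3 → Ω ⊗[K] L) (i : ℕ) :
    cjT ω μ (h + h') i = cjT ω μ h i + cjT ω μ h' i := cj_add _ _ _ _ _

theorem cjT_smul (ω : K) (μ c : Ω) (h : Fin 3 → Ω ⊗[K] L) (i : ℕ) :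
    cjT ω μ (c • h) i = c • cjT ω μ h i := by
  have h1 : c • h = fun j => algebraMap Ω (Ω ⊗[K] L) c * h j := by
    ext j
    rw [Pi.smul_apply, Algebra.smul_def]
  unfold cjT
  rw [h1, cj_mul, Algebra.smul_def]

theorem cjT_add_three {ω : K} (hω : ω ^ 2 + ω + 1 = 0) (μ : Ω) (h : Fin 3 → Ω ⊗[K] L) (i : ℕ) :
    cjT ω μ h (i + 3) = cjT ω μ h i := cj_add_three _ _ _ _ (tensor_omega hω)

theorem cjT_prod {ω α : K} (hω : ω ^ 2 + ω + 1 = 0) {μ : Ω} (hμ : μ ^ 3 = algebraMap K Ω α)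
    (h : Fin 3 → Ω ⊗[K] L) : cjT ω μ h 0 * cjT ω μ h 1 * cjT ω μ h 2 =
      nf (algebraMap K (Ω ⊗[K] L) α) (h 0) (h 1) (h 2) := by
  rw [← tensor_mu_cube hμ, nf_eq_prod_cj _ _ _ (tensor_omega hω)]
  rfl

theorem evp_cjT (p : L →ₐ[K] Ω) (ω : K) (μ : Ω) (h : Fin 3 → Ω ⊗[K] L) (i : ℕ) :
    evp p (cjT ω μ h i) = cj (algebraMap K Ω ω) μ (fun j => evp p (h j)) i := by
  unfold cjT
  have h1 := map_cj (evp p : Ω ⊗[K] L →+* Ω) (algebraMap K (Ω ⊗[K] L) ω) (μ ⊗ₜ 1) h i
  have h2 : evp p (algebraMap K (Ω ⊗[K] L) ω) = algebraMap K Ω ω := by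
    rw [IsScalarTower.algebraMap_apply K Ω (Ω ⊗[K] L), AlgHom.commutes]
    rfl
  have h3 : evp p (μ ⊗ₜ 1) = μ := by
    unfold evp
    rw [Algebra.TensorProduct.lift_tmul, map_one, mul_one]
    rfl
  simp only [RingHom.coe_coe, h2, h3] at h1
  exact h1

theorem evp_tmul (p : L →ₐ[K] Ω) (c : Ω) (l : L) : evp p (c ⊗ₜ l) = c * p l := by
  unfold evp
  rw [Algebra.TensorProduct.lift_tmul]
  rfl

theorem cjT_cst_prod {ω α a : K} (hω : ω ^ 2 + ω + 1 = 0) {μ : Ω} (hμ : μ ^ 3 = algebraMap K Ω α)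
    {θ : Fin 3 → L} (hθ : nf (algebraMap K L α) (θ 0) (θ 1) (θ 2) = algebraMap K L a) :
    cjT ω μ (cst Ω θ) 0 * cjT ω μ (cst Ω θ) 1 * cjT ω μ (cst Ω θ) 2 =
      algebraMap K (Ω ⊗[K] L) a := by
  rw [cjT_prod hω hμ]
  have h1 := map_nf (Algebra.TensorProduct.includeRight : L →ₐ[K] Ω ⊗[K] L).toRingHom
    (algebraMap K L α) (θ 0) (θ 1) (θ 2)
  rw [hθ] at h1
  simp only [AlgHom.toRingHom_eq_coe, RingHom.coe_coe, AlgHom.commutes] at h1
  rw [h1]
  rfl

variable [IsDomain (Ω ⊗[K] L)]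

theorem fth_add_three {ω : K} (hω : ω ^ 2 + ω + 1 = 0) (μ : Ω) (θ : Fin 3 → L) (i : ℕ) :
    (fth ω μ θ (i + 3) : LL K L Ω) = fth ω μ θ i := by
  unfold fth
  rw [cjT_add_three hω]

theorem fth_prod {ω α a : K} (hω : ω ^ 2 + ω + 1 = 0) {μ : Ω} (hμ : μ ^ 3 = algebraMap K Ω α)
    {θ : Fin 3 → L} (hθ : nf (algebraMap K L α) (θ 0) (θ 1) (θ 2) = algebraMap K L a) (i : ℕ) :
    (fth ω μ θ i * fth ω μ θ (i + 1) * fth ω μ θ (i + 2) : LL K L Ω) =
      algebraMap Ω (LL K L Ω) (algebraMap K Ω a) := by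
  have h0 : (fth ω μ θ 0 * fth ω μ θ 1 * fth ω μ θ 2 : LL K L Ω) =
      algebraMap Ω (LL K L Ω) (algebraMap K Ω a) := by
    unfold fth
    rw [← map_mul, ← map_mul, cjT_cst_prod hω hμ hθ,
      IsScalarTower.algebraMap_apply K Ω (Ω ⊗[K] L), ← IsScalarTower.algebraMap_apply Ω (Ω ⊗[K] L)]
  have key : ∀ i : ℕ, (fth ω μ θ (i + 1) * fth ω μ θ (i + 2) * fth ω μ θ (i + 3) : LL K L Ω) =
      fth ω μ θ i * fth ω μ θ (i + 1) * fth ω μ θ (i + 2) := by
    intro i
    rw [fth_add_three hω]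
    ring
  induction i with
  | zero => exact h0
  | succ i ih => rw [← ih, ← key i]

end Tensor

end Pool.Agent.D5741
end

section

/-!
# The cyclic (symbol) algebra of degree 3
-/

set_option autoImplicit false
open scoped TensorProduct

namespace Pool.Agent.D5741

namespace Cyc

section Gen

variable {K A : Type*} [Field K] [Ring A] [Algebra K A]

/-- The defining relations of the symbol algebra `(α, a)`. -/
structure Rel (ω α a : K) (u v : A) : Prop where
  hu : u ^ 3 = algebraMap K A α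
  hv : v ^ 3 = algebraMap K A a
  huv : v * u = ω • (u * v)

theorem Rel.map {F A B : Type*} [Field F] [Ring A] [Algebra F A] [Ring B] [Algebra F B]
    {ω α a : F} {u v : A}
    (h : Rel ω α a u v) (φ : A →ₐ[F] B) : Rel ω α a (φ u) (φ v) := by
  refine ⟨?_, ?_, ?_⟩
  · rw [← map_pow, h.hu, AlgHom.commutes]
  · rw [← map_pow, h.hv, AlgHom.commutes]
  · rw [← map_mul, h.huv, map_smul, map_mul]

theorem omega_cube {ω : K} (hω : ω ^ 2 + ω + 1 = 0) : ω ^ 3 = 1 := by
  linear_combination (ω - 1) * hω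

theorem Rel.v_mul_pow {ω α a : K} {u v : A} (h : Rel ω α a u v) (i : ℕ) :
    v * u ^ i = ω ^ i • (u ^ i * v) := by
  induction i with
  | zero => simp
  | succ i ih =>
    rw [pow_succ u, ← mul_assoc, ih, smul_mul_assoc, mul_assoc, h.huv, mul_smul_comm, smul_smul,
      pow_succ, mul_assoc]

theorem Rel.pow_mul_pow {ω α a : K} {u v : A} (h : Rel ω α a u v) (i j : ℕ) :
    v ^ j * u ^ i = ω ^ (i * j) • (u ^ i * v ^ j) := by
  induction j with
  | zero => simp
  | succ j ih =>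
    rw [pow_succ v, mul_assoc, h.v_mul_pow, mul_smul_comm, ← mul_assoc, ih, smul_mul_assoc,
      smul_smul, mul_assoc, ← pow_add, Nat.mul_succ, add_comm]

theorem Rel.mon_mul {ω α a : K} {u v : A} (h : Rel ω α a u v) (i j k l : ℕ) :
    (u ^ i * v ^ j) * (u ^ k * v ^ l) = ω ^ (k * j) • (u ^ (i + k) * v ^ (j + l)) := by
  rw [mul_assoc, ← mul_assoc (v ^ j), h.pow_mul_pow, smul_mul_assoc, mul_smul_comm, mul_assoc,
    ← mul_assoc, pow_add, pow_add]

theorem Rel.pow_mod {ω α a : K} {u v : A} (h : Rel ω α a u v) (n m : ℕ) :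
    u ^ n * v ^ m = (α ^ (n / 3) * a ^ (m / 3)) • (u ^ (n % 3) * v ^ (m % 3)) := by
  conv_lhs => rw [← Nat.div_add_mod n 3, ← Nat.div_add_mod m 3]
  rw [pow_add, pow_add, pow_mul, pow_mul, h.hu, h.hv, ← map_pow, ← map_pow,
    ← Algebra.smul_def, ← Algebra.smul_def, smul_mul_assoc, mul_smul_comm, smul_smul]

/-- The averaging operator that extracts an eigencomponent of conjugation by `w`. -/
def avg (ω : K) (w : A) (j : ℕ) (x : A) : A :=
  w ^ 3 * x + ω ^ (2 * j) • (w ^ 2 * x * w) + ω ^ (4 * j) • (w * x * w ^ 2)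

theorem avg_add (ω : K) (w : A) (j : ℕ) (x y : A) :
    avg ω w j (x + y) = avg ω w j x + avg ω w j y := by
  unfold avg
  simp only [mul_add, add_mul, smul_add]
  abel

theorem avg_eig {ω γ : K} {w : A} (hw : w ^ 3 = algebraMap K A γ) (j k : ℕ) {x : A}
    (hx : x * w = ω ^ k • (w * x)) :
    avg ω w j x = (γ * (1 + ω ^ (2 * j + k) + ω ^ (4 * j + 2 * k))) • x := by
  have h1 : w ^ 2 * x * w = (γ * ω ^ k) • x := by
    rw [mul_assoc, hx, mul_smul_comm, ← mul_assoc, ← pow_succ, hw, ← Algebra.smul_def, smul_smul,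
      mul_comm]
  have h2 : w * x * w ^ 2 = (γ * ω ^ (2 * k)) • x := by
    rw [pow_two w, ← mul_assoc, mul_assoc w x w, hx, mul_smul_comm, smul_mul_assoc, ← mul_assoc,
      ← pow_two, h1, smul_smul]
    ring_nf
  unfold avg
  rw [h1, h2, hw, ← Algebra.smul_def, smul_smul, smul_smul, ← add_smul, ← add_smul]
  ring_nf

theorem avg_fin {ω γ : K} (hω : ω ^ 2 + ω + 1 = 0) {w : A} (hw : w ^ 3 = algebraMap K A γ)
    (x : Fin 3 → A) (hx : ∀ k : Fin 3, x k * w = ω ^ (k : ℕ) • (w * x k)) (j : Fin 3) :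
    avg ω w j (x 0 + x 1 + x 2) = (3 * γ) • x j := by
  have h3 := omega_cube hω
  rw [avg_add, avg_add, avg_eig hw _ _ (hx 0), avg_eig hw _ _ (hx 1), avg_eig hw _ _ (hx 2)]
  have h4 : ω ^ 4 = ω := by linear_combination ω * h3
  have h5 : ω ^ 5 = ω ^ 2 := by linear_combination ω ^ 2 * h3
  have h6 : ω ^ 6 = 1 := by linear_combination (ω ^ 3 + 1) * h3
  have h8 : ω ^ 8 = ω ^ 2 := by linear_combination (ω ^ 5 + ω ^ 2) * h3
  have h10 : ω ^ 10 = ω := by linear_combination (ω ^ 7 + ω ^ 4 + ω) * h3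
  have h12 : ω ^ 12 = 1 := by linear_combination (ω ^ 9 + ω ^ 6 + ω ^ 3 + 1) * h3
  have z1 : 1 + ω + ω ^ 2 = 0 := by linear_combination hω
  have z2 : 1 + ω ^ 2 + ω = 0 := by linear_combination hω
  fin_cases j
  · simp [h4, z1, z2]
    congr 1
    ring
  · simp [h4, h6, h8, z1, z2, h3]
    congr 1
    ring
  · simp [h4, h5, h6, h8, h10, h12, z1, z2]
    congr 1
    ring

/-- The nine monomials. -/
def mon (u v : A) (p : Fin 3 × Fin 3) : A := u ^ (p.1 : ℕ) * v ^ (p.2 : ℕ)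

/-- The part of a combination of the nine monomials with fixed exponent of `v`. -/
def col (u v : A) (c : Fin 3 × Fin 3 → K) (j : Fin 3) : A := ∑ i, c (i, j) • mon u v (i, j)

theorem sum_col (u v : A) (c : Fin 3 × Fin 3 → K) :
    ∑ p, c p • mon u v p = col u v c 0 + col u v c 1 + col u v c 2 := by
  rw [Fintype.sum_prod_type_right, Fin.sum_univ_three]
  rfl

theorem Rel.mon_u {ω α a : K} {u v : A} (h : Rel ω α a u v) (p : Fin 3 × Fin 3) :
    mon u v p * u = ω ^ (p.2 : ℕ) • (u * mon u v p) := by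
  have h1 := h.mon_mul p.1 p.2 1 0
  have h2 := h.mon_mul 1 0 p.1 p.2
  simp only [pow_one, pow_zero, mul_one, one_mul, mul_zero, one_smul, add_zero, zero_add] at h1 h2
  unfold mon
  rw [h1, h2, add_comm]

theorem Rel.mon_v {ω α a : K} (hω : ω ^ 2 + ω + 1 = 0) {u v : A} (h : Rel ω α a u v)
    (p : Fin 3 × Fin 3) :
    mon u v p * v = (ω ^ 2) ^ (p.1 : ℕ) • (v * mon u v p) := by
  have h1 := h.mon_mul p.1 p.2 0 1
  have h2 := h.mon_mul 0 1 p.1 p.2
  simp only [pow_one, pow_zero, mul_one, one_mul, zero_mul, one_smul, add_zero, zero_add] at h1 h2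
  unfold mon
  rw [h1, h2, smul_smul, ← pow_mul, ← pow_add, add_comm 1]
  have : ω ^ (2 * (p.1 : ℕ) + p.1) = 1 := by
    rw [show 2 * (p.1 : ℕ) + p.1 = 3 * p.1 by ring, pow_mul, omega_cube hω, one_pow]
  rw [this, one_smul]

theorem Rel.col_u {ω α a : K} {u v : A} (h : Rel ω α a u v) (c : Fin 3 × Fin 3 → K) (j : Fin 3) :
    col u v c j * u = ω ^ (j : ℕ) • (u * col u v c j) := by
  unfold col
  rw [Finset.sum_mul, Finset.mul_sum, Finset.smul_sum]
  refine Finset.sum_congr rfl fun i _ => ?_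
  rw [smul_mul_assoc, h.mon_u, mul_smul_comm, smul_comm]

theorem avg_zero (ω : K) (w : A) (j : ℕ) : avg ω w j (0 : A) = 0 := by
  simp [avg]

theorem avg_central {ω γ : K} {w x : A} (hw : w ^ 3 = algebraMap K A γ) (j : ℕ)
    (hx : x * w = w * x) :
    avg ω w j x = (γ * (1 + ω ^ (2 * j) + ω ^ (4 * j))) • x := by
  have := avg_eig (ω := ω) hw j 0 (x := x) (by simpa using hx)
  simpa using this

/-- A two-sided-ideal-like set is closed under `avg`. -/
theorem avg_mem (I : TwoSidedIdeal A) (ω : K) (w : A) (j : ℕ) {x : A} (hx : x ∈ I) :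
    avg ω w j x ∈ I := by
  unfold avg
  refine I.add_mem (I.add_mem (I.mul_mem_left _ _ hx) ?_) ?_
  · rw [Algebra.smul_def]
    exact I.mul_mem_left _ _ (I.mul_mem_right _ _ (I.mul_mem_left _ _ hx))
  · rw [Algebra.smul_def]
    exact I.mul_mem_left _ _ (I.mul_mem_right _ _ (I.mul_mem_left _ _ hx))

theorem smul_mem_iff (I : TwoSidedIdeal A) {c : K} (hc : c ≠ 0) {x : A} :
    c • x ∈ I ↔ x ∈ I := by
  constructor
  · intro h
    have : x = algebraMap K A c⁻¹ * (c • x) := by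
      rw [← Algebra.smul_def, smul_smul, inv_mul_cancel₀ hc, one_smul]
    rw [this]
    exact I.mul_mem_left _ _ h
  · intro h
    rw [Algebra.smul_def]
    exact I.mul_mem_left _ _ h

theorem Rel.extract {ω α a : K} (hω : ω ^ 2 + ω + 1 = 0) (h3 : (3 : K) ≠ 0) (hα : α ≠ 0)
    (ha : a ≠ 0) {u v : A} (h : Rel ω α a u v) (I : TwoSidedIdeal A) (c : Fin 3 × Fin 3 → K)
    (hI : ∑ p, c p • mon u v p ∈ I) (p : Fin 3 × Fin 3) : c p • mon u v p ∈ I := by
  obtain ⟨i, j⟩ := p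
  rw [sum_col] at hI
  have h1 : col u v c j ∈ I := by
    have := avg_mem I ω u j hI
    rw [avg_fin hω h.hu (col u v c) (h.col_u c) j, smul_mem_iff I (mul_ne_zero h3 hα)] at this
    exact this
  have h2 : col u v c j = c (0, j) • mon u v (0, j) + c (1, j) • mon u v (1, j) +
      c (2, j) • mon u v (2, j) := by
    unfold col
    rw [Fin.sum_univ_three]
  rw [h2] at h1
  have hω' : (ω ^ 2) ^ 2 + ω ^ 2 + 1 = 0 := by
    linear_combination (ω ^ 2 - ω + 1) * hω
  have := avg_mem I (ω ^ 2) v i h1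
  rw [avg_fin hω' h.hv (fun i => c (i, j) • mon u v (i, j)) (fun k => ?_) i,
    smul_mem_iff I (mul_ne_zero h3 ha)] at this
  · exact this
  · rw [smul_mul_assoc, h.mon_v hω, mul_smul_comm, smul_comm]

theorem Rel.isUnit_u {ω α a : K} (hα : α ≠ 0) {u v : A} (h : Rel ω α a u v) : IsUnit u := by
  have : IsUnit (u ^ 3) := by
    rw [h.hu]
    exact (IsUnit.mk0 α hα).map (algebraMap K A)
  exact (isUnit_pow_iff (three_ne_zero)).mp this

theorem Rel.isUnit_v {ω α a : K} (ha : a ≠ 0) {u v : A} (h : Rel ω α a u v) : IsUnit v := by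
  have : IsUnit (v ^ 3) := by
    rw [h.hv]
    exact (IsUnit.mk0 a ha).map (algebraMap K A)
  exact (isUnit_pow_iff (three_ne_zero)).mp this

theorem Rel.isUnit_mon {ω α a : K} (hα : α ≠ 0) (ha : a ≠ 0) {u v : A} (h : Rel ω α a u v)
    (p : Fin 3 × Fin 3) : IsUnit (mon u v p) :=
  ((h.isUnit_u hα).pow _).mul ((h.isUnit_v ha).pow _)

theorem Rel.linearIndependent {ω α a : K} (hω : ω ^ 2 + ω + 1 = 0) (h3 : (3 : K) ≠ 0) (hα : α ≠ 0)
    (ha : a ≠ 0) {u v : A} (h : Rel ω α a u v) [Nontrivial A] :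
    LinearIndependent K (mon u v) := by
  rw [Fintype.linearIndependent_iff]
  intro c hc p
  have h1 := h.extract hω h3 hα ha (⊥ : TwoSidedIdeal A) c (by rw [hc]; exact zero_mem _) p
  rw [TwoSidedIdeal.mem_bot] at h1
  by_contra h2
  have h4 : mon u v p = 0 := by
    rcases smul_eq_zero.mp h1 with h5 | h5
    · exact absurd h5 h2
    · exact h5
  exact (h.isUnit_mon hα ha p).ne_zero h4

/-- The span of the nine monomials is a subalgebra. -/
theorem Rel.mon_mem_span {ω α a : K} {u v : A} (h : Rel ω α a u v) (n m : ℕ) :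
    u ^ n * v ^ m ∈ Submodule.span K (Set.range (mon u v)) := by
  rw [h.pow_mod]
  refine Submodule.smul_mem _ _ (Submodule.subset_span ⟨(⟨n % 3, Nat.mod_lt _ (by norm_num)⟩,
    ⟨m % 3, Nat.mod_lt _ (by norm_num)⟩), rfl⟩)

theorem Rel.span_mul {ω α a : K} {u v : A} (h : Rel ω α a u v) {x y : A}
    (hx : x ∈ Submodule.span K (Set.range (mon u v)))
    (hy : y ∈ Submodule.span K (Set.range (mon u v))) :
    x * y ∈ Submodule.span K (Set.range (mon u v)) := by
  induction hx using Submodule.span_induction with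
  | mem x hx =>
    obtain ⟨p, rfl⟩ := hx
    induction hy using Submodule.span_induction with
    | mem y hy =>
      obtain ⟨q, rfl⟩ := hy
      unfold mon
      rw [h.mon_mul]
      exact Submodule.smul_mem _ _ (h.mon_mem_span _ _)
    | zero => rw [mul_zero]; exact zero_mem _
    | add y z _ _ h1 h2 => rw [mul_add]; exact add_mem h1 h2
    | smul c y _ h1 => rw [mul_smul_comm]; exact Submodule.smul_mem _ _ h1
  | zero => rw [zero_mul]; exact zero_mem _
  | add y z _ _ h1 h2 => rw [add_mul]; exact add_mem h1 h2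
  | smul c y _ h1 => rw [smul_mul_assoc]; exact Submodule.smul_mem _ _ h1

theorem Rel.adjoin_le {ω α a : K} {u v : A} (h : Rel ω α a u v) {x : A}
    (hx : x ∈ Algebra.adjoin K ({u, v} : Set A)) :
    x ∈ Submodule.span K (Set.range (mon u v)) := by
  induction hx using Algebra.adjoin_induction with
  | mem x hx =>
    rcases hx with rfl | hx
    · simpa using h.mon_mem_span 1 0
    · rw [Set.mem_singleton_iff] at hx
      subst hx
      simpa using h.mon_mem_span 0 1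
  | algebraMap r =>
    rw [Algebra.algebraMap_eq_smul_one]
    exact Submodule.smul_mem _ _ (by simpa using h.mon_mem_span 0 0)
  | add x y _ _ h1 h2 => exact add_mem h1 h2
  | mul x y _ _ h1 h2 => exact h.span_mul h1 h2

theorem Rel.central {ω α a : K} (hω : ω ^ 2 + ω + 1 = 0) (h3 : (3 : K) ≠ 0) (hα : α ≠ 0)
    (ha : a ≠ 0) {u v : A} (h : Rel ω α a u v)
    (hspan : ∀ x : A, x ∈ Submodule.span K (Set.range (mon u v))) : Algebra.IsCentral K A := by
  constructor
  intro x hx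
  rw [Subalgebra.mem_center_iff] at hx
  obtain ⟨c, hc⟩ := (Submodule.mem_span_range_iff_exists_fun K).mp (hspan x)
  rw [sum_col] at hc
  have hcu : ∀ j : Fin 3, j ≠ 0 → col u v c j = 0 := by
    intro j hj
    have h1 := avg_fin hω h.hu (col u v c) (h.col_u c) j
    rw [hc, avg_central h.hu j (hx u).symm] at h1
    have h4 : (1 + ω ^ (2 * (j : ℕ)) + ω ^ (4 * (j : ℕ)) : K) = 0 := by
      have h3 := omega_cube hω
      fin_cases j
      · exact absurd rfl hj
      · change (1 + ω ^ (2 * 1) + ω ^ (4 * 1) : K) = 0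
        linear_combination ω * h3 + hω
      · change (1 + ω ^ (2 * 2) + ω ^ (4 * 2) : K) = 0
        linear_combination (ω ^ 5 + ω ^ 2 + ω) * h3 + hω
    rw [h4, mul_zero, zero_smul] at h1
    rcases smul_eq_zero.mp h1.symm with h5 | h5
    · exact absurd h5 (mul_ne_zero h3 hα)
    · exact h5
  rw [hcu 1 (by decide), hcu 2 (by decide), add_zero, add_zero] at hc
  have h2 : col u v c 0 = c (0, 0) • mon u v (0, 0) + c (1, 0) • mon u v (1, 0) +
      c (2, 0) • mon u v (2, 0) := by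
    unfold col
    rw [Fin.sum_univ_three]
  have hω' : (ω ^ 2) ^ 2 + ω ^ 2 + 1 = 0 := by
    linear_combination (ω ^ 2 - ω + 1) * hω
  have hcv : ∀ i : Fin 3, i ≠ 0 → c (i, 0) • mon u v (i, 0) = 0 := by
    intro i hi
    have h1 := avg_fin hω' h.hv (fun i => c (i, 0) • mon u v (i, 0)) (fun k => by
      rw [smul_mul_assoc, h.mon_v hω, mul_smul_comm, smul_comm]) i
    rw [← h2, hc, avg_central h.hv i (hx v).symm] at h1
    have h4 : (1 + (ω ^ 2) ^ (2 * (i : ℕ)) + (ω ^ 2) ^ (4 * (i : ℕ)) : K) = 0 := by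
      have h3 := omega_cube hω
      fin_cases i
      · exact absurd rfl hi
      · change (1 + (ω ^ 2) ^ (2 * 1) + (ω ^ 2) ^ (4 * 1) : K) = 0
        linear_combination (ω ^ 5 + ω ^ 2 + ω) * h3 + hω
      · change (1 + (ω ^ 2) ^ (2 * 2) + (ω ^ 2) ^ (4 * 2) : K) = 0
        linear_combination (ω ^ 13 + ω ^ 10 + ω ^ 7 + ω ^ 5 + ω ^ 4 + ω ^ 2 + ω) * h3 + hω
    rw [h4, mul_zero, zero_smul] at h1
    rcases smul_eq_zero.mp h1.symm with h5 | h5
    · exact absurd h5 (mul_ne_zero h3 ha)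
    · exact h5
  rw [h2, hcv 1 (by decide), hcv 2 (by decide), add_zero, add_zero] at hc
  rw [← hc]
  unfold mon
  simp only [Fin.val_zero, pow_zero, mul_one]
  exact Subalgebra.smul_mem _ (Subalgebra.one_mem _) _

theorem Rel.simple {ω α a : K} (hω : ω ^ 2 + ω + 1 = 0) (h3 : (3 : K) ≠ 0) (hα : α ≠ 0)
    (ha : a ≠ 0) {u v : A} (h : Rel ω α a u v) [Nontrivial A]
    (hspan : ∀ x : A, x ∈ Submodule.span K (Set.range (mon u v))) : IsSimpleRing A := by
  constructor
  constructor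
  intro I
  by_cases hI : I = ⊥
  · exact Or.inl hI
  · right
    obtain ⟨x, hx, hx0⟩ : ∃ x ∈ I, x ≠ 0 := by
      by_contra hcon
      push Not at hcon
      apply hI
      ext x
      rw [TwoSidedIdeal.mem_bot]
      exact ⟨hcon x, fun h0 => h0 ▸ zero_mem _⟩
    obtain ⟨c, hc⟩ := (Submodule.mem_span_range_iff_exists_fun K).mp (hspan x)
    obtain ⟨p, hp⟩ : ∃ p, c p ≠ 0 := by
      by_contra hcon
      push Not at hcon
      apply hx0
      rw [← hc]
      exact Finset.sum_eq_zero fun p _ => by rw [hcon p, zero_smul]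
    have h1 := h.extract hω h3 hα ha I c (by rw [hc]; exact hx) p
    rw [smul_mem_iff I hp] at h1
    obtain ⟨w, hw⟩ := h.isUnit_mon hα ha p
    rw [← hw] at h1
    have h2 := I.mul_mem_left (↑w⁻¹) _ h1
    rw [Units.inv_mul] at h2
    ext y
    constructor
    · intro _; trivial
    · intro _
      have := I.mul_mem_left y _ h2
      rwa [mul_one] at this

end Gen

section Norm

variable {L M : Type*} [Field L] [AddCommGroup M] [Module L M]

/-- If the relations hold in `End M` with `dim M = 3` then `a` is a norm. -/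
theorem isNm_of_rel [CharZero L] {ω α a : L} (hω : ω ^ 2 + ω + 1 = 0) (hα : α ≠ 0)
    (hM : Module.finrank L M = 3) {u v : Module.End L M} (h : Rel ω α a u v) : IsNm α a := by
  by_cases hc : ∃ γ : L, γ ^ 3 = α
  · obtain ⟨γ, rfl⟩ := hc
    exact IsNm.of_cube (by rintro rfl; simp at hα) a
  push Not at hc
  have : Nontrivial M := Module.nontrivial_of_finrank_pos (R := L) (by omega)
  obtain ⟨e, he⟩ := exists_ne (0 : M)
  have hu : ∀ w : M, u (u (u w)) = α • w := by
    intro w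
    have := congrArg (fun f : Module.End L M => f w) h.hu
    simpa [pow_succ, Module.End.mul_apply, Module.algebraMap_end_apply] using this
  have hv : ∀ w : M, v (v (v w)) = a • w := by
    intro w
    have := congrArg (fun f : Module.End L M => f w) h.hv
    simpa [pow_succ, Module.End.mul_apply, Module.algebraMap_end_apply] using this
  have huv : ∀ w : M, v (u w) = ω • u (v w) := by
    intro w
    have := congrArg (fun f : Module.End L M => f w) h.huv
    simpa [Module.End.mul_apply] using this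
  have key : ∀ c0 c1 c2 : L, c0 • e + c1 • u e + c2 • u (u e) = 0 → c0 = 0 ∧ c1 = 0 ∧ c2 = 0 := by
    intro c0 c1 c2 h0
    have h1 := congrArg u h0
    have h2 := congrArg u h1
    simp only [map_add, map_smul, hu, map_zero] at h1 h2
    have h3 : nf α c0 c1 c2 • e = 0 := by
      have : nf α c0 c1 c2 • e =
          (c0 ^ 2 - α * c1 * c2) • (c0 • e + c1 • u e + c2 • u (u e)) +
          (α * c2 ^ 2 - c0 * c1) • (c0 • u e + c1 • u (u e) + c2 • α • e) +
          (c1 ^ 2 - c0 * c2) • (c0 • u (u e) + c1 • α • e + c2 • α • u e) := by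
        unfold nf
        module
      rw [this, h0, h1, h2, smul_zero, smul_zero, smul_zero, add_zero, add_zero]
    have h4 : nf α c0 c1 c2 = 0 := by
      rcases smul_eq_zero.mp h3 with h5 | h5
      · exact h5
      · exact absurd h5 he
    exact (nf_eq_zero_iff hω hc).mp h4
  have hli : LinearIndependent L ![e, u e, u (u e)] := by
    rw [Fintype.linearIndependent_iff]
    intro g hg
    rw [Fin.sum_univ_three] at hg
    obtain ⟨h0, h1, h2⟩ := key (g 0) (g 1) (g 2) (by simpa using hg)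
    intro i
    fin_cases i
    · exact h0
    · exact h1
    · exact h2
  have hspan := hli.span_eq_top_of_card_eq_finrank (by simp [hM])
  obtain ⟨c, hc'⟩ := (Submodule.mem_span_range_iff_exists_fun L).mp
    (hspan ▸ Submodule.mem_top : v e ∈ Submodule.span L (Set.range ![e, u e, u (u e)]))
  rw [Fin.sum_univ_three] at hc'
  simp only [Matrix.cons_val_zero, Matrix.cons_val_one, Matrix.cons_val] at hc'
  set x := c 0
  set y := c 1
  set z := c 2
  have e1 : v (v e) = x • v e + (ω * y) • u (v e) + (ω ^ 2 * z) • u (u (v e)) := by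
    conv_lhs => rw [← hc']
    simp only [map_add, map_smul, huv]
    module
  have e2 : v (v (v e)) = x • v (v e) + (ω ^ 2 * y) • u (v (v e)) +
      (ω ^ 4 * z) • u (u (v (v e))) := by
    conv_lhs => rw [e1]
    simp only [map_add, map_smul, huv]
    module
  rw [hv, e1, ← hc'] at e2
  simp only [map_add, map_smul, hu] at e2
  have e3 := key
    (x * (x * x + α * (ω * y * z + ω ^ 2 * z * y)) +
      α * (ω ^ 2 * y * (x * z + ω * y * y + ω ^ 2 * z * x) +
        ω ^ 4 * z * (x * y + ω * y * x + α * (ω ^ 2 * z * z))) - a)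
    (x * (x * y + ω * y * x + α * (ω ^ 2 * z * z)) +
      ω ^ 2 * y * (x * x + α * (ω * y * z + ω ^ 2 * z * y)) +
      α * (ω ^ 4 * z * (x * z + ω * y * y + ω ^ 2 * z * x)))
    (x * (x * z + ω * y * y + ω ^ 2 * z * x) +
      ω ^ 2 * y * (x * y + ω * y * x + α * (ω ^ 2 * z * z)) +
      ω ^ 4 * z * (x * x + α * (ω * y * z + ω ^ 2 * z * y))) (by
        rw [← sub_eq_zero] at e2
        rw [← neg_eq_zero, ← e2]
        module)
  refine ⟨x, y, z, ?_⟩
  have e4 := e3.1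
  unfold nf
  linear_combination e4 - (α * y ^ 3 * (ω - 1) + α ^ 2 * z ^ 3 * (ω ^ 3 + 1) * (ω - 1) +
    α * x * y * z * (ω ^ 3 + ω ^ 2 - 2 * ω + 3)) * hω

/-- Multiplication by `x + y X + z X ^ 2` on `L[X] / (X ^ 3 - α)`. -/
def circ {R : Type*} [CommRing R] (α x y z : R) : Matrix (Fin 3) (Fin 3) R :=
  !![x, α * z, α * y; y, x, α * z; z, y, x]

theorem circ_mul {R : Type*} [CommRing R] (α x y z x' y' z' : R) :
    circ α x y z * circ α x' y' z' =
      circ α (x * x' + α * (y * z' + z * y')) (x * y' + y * x' + α * z * z')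
        (x * z' + y * y' + z * x') := by
  unfold circ
  ext i j
  fin_cases i <;> fin_cases j <;> simp [Matrix.mul_apply, Fin.sum_univ_three] <;> ring

/-- The diagonal matrix `X ↦ ω X`. -/
def dg {R : Type*} [CommRing R] (ω : R) : Matrix (Fin 3) (Fin 3) R :=
  !![1, 0, 0; 0, ω, 0; 0, 0, ω ^ 2]

theorem dg_circ {R : Type*} [CommRing R] {ω : R} (hω : ω ^ 2 + ω + 1 = 0) (α x y z : R) :
    dg ω * circ α x y z = circ α x (ω * y) (ω ^ 2 * z) * dg ω := by
  have h3 : ω ^ 3 = 1 := by linear_combination (ω - 1) * hω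
  unfold circ dg
  ext i j
  fin_cases i <;> fin_cases j <;> simp [Matrix.mul_apply, Fin.sum_univ_three]
  · linear_combination (-α * z) * h3
  · linear_combination (-α * y) * h3
  · ring
  · linear_combination (-α * ω * z) * h3
  · ring
  · ring

theorem dg_cube {R : Type*} [CommRing R] {ω : R} (hω : ω ^ 2 + ω + 1 = 0) :
    dg ω * dg ω * dg ω = 1 := by
  have h3 : ω ^ 3 = 1 := by linear_combination (ω - 1) * hω
  unfold dg
  ext i j
  fin_cases i <;> fin_cases j <;> simp [Matrix.mul_apply, Fin.sum_univ_three]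
  · linear_combination h3
  · linear_combination (ω ^ 3 + 1) * h3

theorem circ_scalar {R : Type*} [CommRing R] (α x : R) :
    circ α x 0 0 = algebraMap R (Matrix (Fin 3) (Fin 3) R) x := by
  unfold circ
  ext i j
  fin_cases i <;> fin_cases j <;> simp [Matrix.algebraMap_matrix_apply]

/-- If `a` is a norm then the symbol algebra acts on `L ^ 3`. -/
theorem exists_rel {ω α a : L} (hω : ω ^ 2 + ω + 1 = 0) (h : IsNm α a) :
    ∃ u v : Matrix (Fin 3) (Fin 3) L, Rel ω α a u v := by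
  obtain ⟨x, y, z, rfl⟩ := h
  have h3 := omega_cube hω
  refine ⟨circ α 0 1 0, circ α x y z * dg ω, ?_, ?_, ?_⟩
  · rw [pow_succ, pow_two, circ_mul, circ_mul, ← circ_scalar α]
    congr 1 <;> ring
  · have h1 : (circ α x y z * dg ω) ^ 3 = circ α x y z * (dg ω * circ α x y z) *
        (dg ω * circ α x y z) * dg ω := by
      simp only [pow_succ, pow_zero, one_mul, mul_assoc]
    rw [h1, dg_circ hω]
    have h2 : circ α x y z * (circ α x (ω * y) (ω ^ 2 * z) * dg ω) *
        (circ α x (ω * y) (ω ^ 2 * z) * dg ω) * dg ω =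
        circ α x y z * circ α x (ω * y) (ω ^ 2 * z) *
        (dg ω * circ α x (ω * y) (ω ^ 2 * z)) * dg ω * dg ω := by
      simp only [mul_assoc]
    rw [h2, dg_circ hω]
    have h4 : circ α x y z * circ α x (ω * y) (ω ^ 2 * z) *
        (circ α x (ω * (ω * y)) (ω ^ 2 * (ω ^ 2 * z)) * dg ω) * dg ω * dg ω =
        circ α x y z * circ α x (ω * y) (ω ^ 2 * z) *
        circ α x (ω * (ω * y)) (ω ^ 2 * (ω ^ 2 * z)) * (dg ω * dg ω * dg ω) := by
      simp only [mul_assoc]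
    rw [h4, dg_cube hω, mul_one, circ_mul, circ_mul, ← circ_scalar α]
    congr 1
    · unfold nf
      linear_combination (α * y ^ 3 * (ω - 1) + α ^ 2 * z ^ 3 * (ω ^ 3 + 1) * (ω - 1) +
        α * x * y * z * (ω ^ 3 + ω ^ 2 - 2 * ω + 3)) * hω
    · linear_combination (x ^ 2 * y + α * x * z ^ 2 * ω ^ 2 + α * y ^ 2 * z * ω ^ 2) * hω +
        (x * α * z ^ 2 * ω ^ 3 + α * y ^ 2 * z * ω ^ 2) * h3
    · linear_combination (x ^ 2 * z * (ω ^ 2 - ω + 1) + x * y ^ 2 * ω + α * y * z ^ 2 * ω ^ 4) * hω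
  · rw [mul_assoc, dg_circ hω, ← mul_assoc, circ_mul, ← mul_assoc (circ α 0 1 0), circ_mul,
      ← smul_mul_assoc]
    congr 1
    unfold circ
    ext i j
    fin_cases i <;> fin_cases j <;> simp <;> ring

end Norm

section Quot

/-- The relations of the symbol algebra inside the free algebra on two generators. -/
inductive FRel {K : Type} [Field K] (ω α a : K) :
    FreeAlgebra K (Fin 2) → FreeAlgebra K (Fin 2) → Prop
  | hu : FRel ω α a (FreeAlgebra.ι K 0 ^ 3) (algebraMap K _ α)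
  | hv : FRel ω α a (FreeAlgebra.ι K 1 ^ 3) (algebraMap K _ a)
  | huv : FRel ω α a (FreeAlgebra.ι K 1 * FreeAlgebra.ι K 0)
      (ω • (FreeAlgebra.ι K 0 * FreeAlgebra.ι K 1))

/-- The symbol algebra `(α, a)`. -/
abbrev Sym {K : Type} [Field K] (ω α a : K) : Type := RingQuot (FRel ω α a)

variable {K : Type} [Field K] {ω α a : K}

/-- The first generator. -/
noncomputable def gu (ω α a : K) : Sym ω α a :=
  RingQuot.mkAlgHom K (FRel ω α a) (FreeAlgebra.ι K 0)

/-- The second generator. -/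
noncomputable def gv (ω α a : K) : Sym ω α a :=
  RingQuot.mkAlgHom K (FRel ω α a) (FreeAlgebra.ι K 1)

theorem rel_sym (ω α a : K) : Rel ω α a (gu ω α a) (gv ω α a) := by
  unfold gu gv
  refine ⟨?_, ?_, ?_⟩
  · rw [← map_pow, RingQuot.mkAlgHom_rel K FRel.hu, AlgHom.commutes]
  · rw [← map_pow, RingQuot.mkAlgHom_rel K FRel.hv, AlgHom.commutes]
  · rw [← map_mul, RingQuot.mkAlgHom_rel K FRel.huv, map_smul, map_mul]

theorem exists_hom {B : Type*} [Ring B] [Algebra K B] {u v : B} (h : Rel ω α a u v) :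
    ∃ φ : Sym ω α a →ₐ[K] B, φ (gu ω α a) = u ∧ φ (gv ω α a) = v := by
  have hf : ∀ ⦃x y : FreeAlgebra K (Fin 2)⦄, FRel ω α a x y →
      FreeAlgebra.lift K ![u, v] x = FreeAlgebra.lift K ![u, v] y := by
    intro x y hxy
    cases hxy with
    | hu => simpa using h.hu
    | hv => simpa using h.hv
    | huv => simpa using h.huv
  refine ⟨RingQuot.liftAlgHom K ⟨FreeAlgebra.lift K ![u, v], hf⟩, ?_, ?_⟩
  · unfold gu
    rw [RingQuot.liftAlgHom_mkAlgHom_apply]
    simp
  · unfold gv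
    rw [RingQuot.liftAlgHom_mkAlgHom_apply]
    simp

theorem span_sym (x : Sym ω α a) :
    x ∈ Submodule.span K (Set.range (mon (gu ω α a) (gv ω α a))) := by
  apply (rel_sym ω α a).adjoin_le
  obtain ⟨y, rfl⟩ := RingQuot.mkAlgHom_surjective K (FRel ω α a) x
  have hy : y ∈ Algebra.adjoin K (Set.range (FreeAlgebra.ι K : Fin 2 → FreeAlgebra K (Fin 2))) := by
    rw [FreeAlgebra.adjoin_range_ι]
    trivial
  have h1 : RingQuot.mkAlgHom K (FRel ω α a) y ∈
      (Algebra.adjoin K (Set.range (FreeAlgebra.ι K : Fin 2 → FreeAlgebra K (Fin 2)))).map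
        (RingQuot.mkAlgHom K (FRel ω α a)) := ⟨y, hy, rfl⟩
  rw [AlgHom.map_adjoin] at h1
  refine Algebra.adjoin_mono ?_ h1
  rintro _ ⟨_, ⟨i, rfl⟩, rfl⟩
  fin_cases i
  · exact Or.inl rfl
  · exact Or.inr rfl

theorem Rel.baseChange {B L : Type*} [Field L] [Algebra K L] [Ring B] [Algebra L B] [Algebra K B]
    [IsScalarTower K L B] {u v : B} :
    Rel ω α a u v ↔ Rel (algebraMap K L ω) (algebraMap K L α) (algebraMap K L a) u v := by
  constructor
  · rintro ⟨h1, h2, h3⟩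
    refine ⟨?_, ?_, ?_⟩
    · rw [h1, IsScalarTower.algebraMap_apply K L B]
    · rw [h2, IsScalarTower.algebraMap_apply K L B]
    · rw [h3, algebraMap_smul]
  · rintro ⟨h1, h2, h3⟩
    refine ⟨?_, ?_, ?_⟩
    · rw [h1, IsScalarTower.algebraMap_apply K L B]
    · rw [h2, IsScalarTower.algebraMap_apply K L B]
    · rw [h3, algebraMap_smul]

theorem Rel.isNm_matrix {L : Type*} [Field L] [CharZero L] {ω α a : L} (hω : ω ^ 2 + ω + 1 = 0)
    (hα : α ≠ 0) {u v : Matrix (Fin 3) (Fin 3) L} (h : Rel ω α a u v) : IsNm α a :=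
  isNm_of_rel (M := Fin 3 → L) hω hα (by simp)
    (h.map (Matrix.toLinAlgEquiv' : Matrix (Fin 3) (Fin 3) L ≃ₐ[L] _).toAlgHom)

variable [CharZero K]

theorem nontrivial_sym (hω : ω ^ 2 + ω + 1 = 0) (hα : α ≠ 0) : Nontrivial (Sym ω α a) := by
  obtain ⟨μ, hμ⟩ := IsAlgClosed.exists_pow_nat_eq (algebraMap K (AlgebraicClosure K) α)
    (n := 3) (by norm_num)
  have hω' : (algebraMap K (AlgebraicClosure K) ω) ^ 2 + algebraMap K _ ω + 1 = 0 := by
    rw [← map_pow, ← map_add, ← map_one (algebraMap K (AlgebraicClosure K)), ← map_add, hω,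
      map_zero]
  have hα' : algebraMap K (AlgebraicClosure K) α ≠ 0 := by simpa using hα
  have hμ0 : μ ≠ 0 := by
    rintro rfl
    exact hα' (by rw [← hμ]; simp)
  obtain ⟨u, v, h⟩ := exists_rel (α := algebraMap K (AlgebraicClosure K) α)
    (a := algebraMap K (AlgebraicClosure K) a) hω' (by rw [← hμ]; exact IsNm.of_cube hμ0 _)
  obtain ⟨φ, -, -⟩ := exists_hom (Rel.baseChange.mpr h)
  exact φ.toRingHom.domain_nontrivial

theorem finrank_sym (hω : ω ^ 2 + ω + 1 = 0) (hα : α ≠ 0) (ha : a ≠ 0) :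
    Module.finrank K (Sym ω α a) = 9 := by
  have := nontrivial_sym (a := a) hω hα
  have hli := (rel_sym ω α a).linearIndependent hω (by norm_num) hα ha
  have b := Module.Basis.mk hli (fun x _ => span_sym x)
  rw [Module.finrank_eq_card_basis b]
  simp

omit [CharZero K] in
theorem finite_sym : Module.Finite K (Sym ω α a) :=
  ⟨⟨(Set.finite_range (mon (gu ω α a) (gv ω α a))).toFinset, by
    rw [Set.Finite.coe_toFinset, eq_top_iff]
    exact fun x _ => span_sym x⟩⟩

theorem split_iff (hω : ω ^ 2 + ω + 1 = 0) (hα : α ≠ 0) (ha : a ≠ 0) (L : Type) [Field L]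
    [Algebra K L] :
    Nonempty ((L ⊗[K] Sym ω α a) ≃ₐ[L] Matrix (Fin 3) (Fin 3) L) ↔
      IsNm (algebraMap K L α) (algebraMap K L a) := by
  have : CharZero L := charZero_of_injective_algebraMap (algebraMap K L).injective
  have hω' : (algebraMap K L ω) ^ 2 + algebraMap K L ω + 1 = 0 := by
    rw [← map_pow, ← map_add, ← map_one (algebraMap K L), ← map_add, hω, map_zero]
  have hα' : algebraMap K L α ≠ 0 := by simpa using hα
  have ha' : algebraMap K L a ≠ 0 := by simpa using ha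
  constructor
  · rintro ⟨e⟩
    have h1 : Rel ω α a ((1 : L) ⊗ₜ[K] gu ω α a) ((1 : L) ⊗ₜ[K] gv ω α a) :=
      (rel_sym ω α a).map (Algebra.TensorProduct.includeRight : Sym ω α a →ₐ[K] L ⊗[K] Sym ω α a)
    have h2 := (Rel.baseChange (L := L)).mp h1
    exact (h2.map e.toAlgHom).isNm_matrix hω' hα'
  · intro h
    obtain ⟨u, v, huv⟩ := exists_rel hω' h
    obtain ⟨φ, hu, hv⟩ := exists_hom (Rel.baseChange.mpr huv)
    have hcom : ∀ (x : L) (y : Sym ω α a),
        Commute (Algebra.ofId L (Matrix (Fin 3) (Fin 3) L) x) (φ y) := fun x y => by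
      rw [Algebra.ofId_apply]
      exact Algebra.commute_algebraMap_left x (φ y)
    obtain ⟨Φ, hΦ'⟩ : ∃ Φ : (L ⊗[K] Sym ω α a) →ₐ[L] Matrix (Fin 3) (Fin 3) L,
        ∀ y, Φ (1 ⊗ₜ y) = φ y :=
      ⟨Algebra.TensorProduct.lift (Algebra.ofId L _) φ hcom, fun y => by
        rw [Algebra.TensorProduct.lift_tmul, map_one, one_mul]⟩
    have hΦ : ∀ p, Φ (1 ⊗ₜ mon (gu ω α a) (gv ω α a) p) = mon u v p := by
      intro p
      rw [hΦ']
      unfold mon
      rw [map_mul, map_pow, map_pow, hu, hv]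
    have hli := huv.linearIndependent hω' (by norm_num) hα' ha'
    have hspan := hli.span_eq_top_of_card_eq_finrank (by
      rw [Module.finrank_matrix]
      simp)
    have hsurj : Function.Surjective Φ.toLinearMap := by
      rw [← LinearMap.range_eq_top, eq_top_iff, ← hspan, Submodule.span_le]
      rintro _ ⟨p, rfl⟩
      exact ⟨1 ⊗ₜ mon (gu ω α a) (gv ω α a) p, hΦ p⟩
    have := finite_sym (ω := ω) (α := α) (a := a)
    have hfr : Module.finrank L (L ⊗[K] Sym ω α a) =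
        Module.finrank L (Matrix (Fin 3) (Fin 3) L) := by
      rw [Module.finrank_baseChange, finrank_sym hω hα ha, Module.finrank_matrix]
      simp
    have hinj : Function.Injective Φ.toLinearMap :=
      (LinearMap.injective_iff_surjective_of_finrank_eq_finrank hfr).mpr hsurj
    exact ⟨AlgEquiv.ofBijective Φ ⟨hinj, hsurj⟩⟩

end Quot

end Cyc

/-- TASK CYC -/
theorem exists_cyclic (K : Type) [Field K] [CharZero K] (ω α a : K) (hω : ω ^ 2 + ω + 1 = 0)
    (hα : α ≠ 0) (ha : a ≠ 0) (h : ¬ IsNm α a) :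
    ∃ (D : Type) (_ : DivisionRing D) (_ : Algebra K D),
      Algebra.IsCentral K D ∧ Module.finrank K D = 9 ∧
      ∀ (L : Type) [Field L] [Algebra K L],
        Nonempty ((L ⊗[K] D) ≃ₐ[L] Matrix (Fin 3) (Fin 3) L) ↔
          IsNm (algebraMap K L α) (algebraMap K L a) := by
  have h3 : (3 : K) ≠ 0 := by norm_num
  have := Cyc.nontrivial_sym (a := a) hω hα
  have hs := (Cyc.rel_sym ω α a).simple hω h3 hα ha Cyc.span_sym
  have hcen := (Cyc.rel_sym ω α a).central hω h3 hα ha Cyc.span_sym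
  have hfin := Cyc.finite_sym (ω := ω) (α := α) (a := a)
  have hrank := Cyc.finrank_sym hω hα ha
  have : IsArtinianRing (Cyc.Sym ω α a) := IsArtinianRing.of_finite K _
  obtain ⟨n, hn, D, _, _, _, ⟨e⟩⟩ :=
    IsSimpleRing.exists_algEquiv_matrix_divisionRing_finite K (Cyc.Sym ω α a)
  have h9 : n * n * Module.finrank K D = 9 := by
    rw [← hrank, e.toLinearEquiv.finrank_eq, Module.finrank_matrix]
    simp
  have hn0 : 0 < n := Nat.pos_of_ne_zero hn.ne
  have hn3 : n ≤ 3 := by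
    by_contra hcon
    have : 4 * 4 ≤ n * n := Nat.mul_le_mul (by omega) (by omega)
    have hpos : 0 < Module.finrank K D := by
      rcases Nat.eq_zero_or_pos (Module.finrank K D) with h0 | h0
      · rw [h0] at h9; omega
      · exact h0
    nlinarith
  have hcases : n = 1 ∨ n = 2 ∨ n = 3 := by omega
  rcases hcases with rfl | rfl | rfl
  · have e1 : Matrix (Fin 1) (Fin 1) D ≃ₐ[K] D :=
      { toFun := fun M => M 0 0
        invFun := fun d => Matrix.of fun _ _ => d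
        left_inv := fun M => by
          ext i j
          rw [Subsingleton.elim i 0, Subsingleton.elim j 0]
          rfl
        right_inv := fun d => rfl
        map_mul' := fun M N => by simp [Matrix.mul_apply]
        map_add' := fun M N => rfl
        commutes' := fun r => by simp [Matrix.algebraMap_matrix_apply] }
    have e' : Cyc.Sym ω α a ≃ₐ[K] D := e.trans e1
    refine ⟨D, inferInstance, inferInstance, ?_, ?_, ?_⟩
    · exact Algebra.IsCentral.of_algEquiv K (Cyc.Sym ω α a) D e'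
    · omega
    · intro L _ _
      rw [← Cyc.split_iff hω hα ha L]
      have e2 : L ⊗[K] Cyc.Sym ω α a ≃ₐ[L] L ⊗[K] D :=
        Algebra.TensorProduct.congr AlgEquiv.refl e'
      exact ⟨fun ⟨f⟩ => ⟨e2.trans f⟩, fun ⟨f⟩ => ⟨e2.symm.trans f⟩⟩
  · omega
  · exfalso
    have h1 : Module.finrank K D = 1 := by omega
    have hinj : Function.Injective (Algebra.linearMap K D) := (algebraMap K D).injective
    have hsurj := (LinearMap.injective_iff_surjective_of_finrank_eq_finrank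
      (by rw [h1, Module.finrank_self])).mp hinj
    have eD : D ≃ₐ[K] K := (AlgEquiv.ofBijective (Algebra.ofId K D) ⟨hinj, hsurj⟩).symm
    have e3 : Cyc.Sym ω α a ≃ₐ[K] Matrix (Fin 3) (Fin 3) K := e.trans eD.mapMatrix
    exact h (((Cyc.rel_sym ω α a).map e3.toAlgHom).isNm_matrix hω hα)

end Pool.Agent.D5741
end

section

/-!
# The ideals of a norm-one cocycle: elementary facts
-/

set_option autoImplicit false

namespace Pool.Agent.D5741

open scoped TensorProduct nonZeroDivisors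

namespace Desc

section ideals

variable {k 𝕃 : Type} [Field k] [Field 𝕃] [Algebra k 𝕃]

theorem one_le_Zid (R : Subalgebra k 𝕃) [IsFractionRing R 𝕃] (f : ℕ → 𝕃) (i : ℕ) :
    1 ≤ Zid R f i := by
  unfold Zid
  exact (le_sup_left.trans le_sup_left : (1 : FractionalIdeal R⁰ 𝕃) ≤
    1 ⊔ FractionalIdeal.spanSingleton R⁰ (f i) ⊔ FractionalIdeal.spanSingleton R⁰ (f i * f (i + 1)))

theorem Zid_ne_zero' (R : Subalgebra k 𝕃) [IsFractionRing R 𝕃] (f : ℕ → 𝕃) (i : ℕ) :
    Zid R f i ≠ 0 := by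
  intro h0
  have h1 := one_le_Zid R f i
  rw [h0, FractionalIdeal.le_zero_iff] at h1
  exact one_ne_zero h1

theorem mem_one_iff' (R : Subalgebra k 𝕃) [IsFractionRing R 𝕃] (x : 𝕃) :
    x ∈ (1 : FractionalIdeal R⁰ 𝕃) ↔ x ∈ R := by
  rw [FractionalIdeal.mem_one_iff]
  constructor
  · rintro ⟨y, rfl⟩
    exact y.2
  · intro h
    exact ⟨⟨x, h⟩, rfl⟩

theorem mem_Zid (R : Subalgebra k 𝕃) [IsFractionRing R 𝕃] (f : ℕ → 𝕃) (i : ℕ) (x : 𝕃) :
    x ∈ Zid R f i ↔ ∃ r₀ ∈ R, ∃ r₁ ∈ R, ∃ r₂ ∈ R, x = r₀ + r₁ * f i + r₂ * (f i * f (i + 1)) := by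
  unfold Zid
  rw [← FractionalIdeal.sup_eq_add, ← FractionalIdeal.sup_eq_add]
  rw [← FractionalIdeal.mem_coe, FractionalIdeal.coe_sup, FractionalIdeal.coe_sup,
    Submodule.mem_sup]
  simp only [Submodule.mem_sup, FractionalIdeal.mem_coe, mem_one_iff',
    FractionalIdeal.mem_spanSingleton]
  constructor
  · rintro ⟨_, ⟨y, hy, _, ⟨z, rfl⟩, rfl⟩, _, ⟨w, rfl⟩, rfl⟩
    exact ⟨y, hy, z, z.2, w, w.2, rfl⟩
  · rintro ⟨r₀, h₀, r₁, h₁, r₂, h₂, rfl⟩
    exact ⟨_, ⟨r₀, h₀, _, ⟨⟨r₁, h₁⟩, rfl⟩, rfl⟩, _, ⟨⟨r₂, h₂⟩, rfl⟩, rfl⟩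

theorem spanSingleton_const (R : Subalgebra k 𝕃) [IsFractionRing R 𝕃] {a : k} (ha : a ≠ 0) :
    FractionalIdeal.spanSingleton R⁰ (algebraMap k 𝕃 a) = 1 := by
  rw [IsScalarTower.algebraMap_apply k R 𝕃, ← FractionalIdeal.coeIdeal_span_singleton,
    Ideal.span_singleton_eq_top.mpr ((IsUnit.mk0 a ha).map (algebraMap k R)),
    FractionalIdeal.coeIdeal_top]

theorem spanSingleton_mul_Zid (R : Subalgebra k 𝕃) [IsFractionRing R 𝕃] (f : ℕ → 𝕃) (i : ℕ)
    {a : k} (ha : a ≠ 0) (h : f i * f (i + 1) * f (i + 2) = algebraMap k 𝕃 a) :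
    FractionalIdeal.spanSingleton R⁰ (f i) * Zid R f (i + 1) = Zid R f i := by
  unfold Zid
  rw [mul_add, mul_add, mul_one, FractionalIdeal.spanSingleton_mul_spanSingleton,
    FractionalIdeal.spanSingleton_mul_spanSingleton, ← mul_assoc, h, spanSingleton_const R ha]
  rw [add_comm _ (1 : FractionalIdeal R⁰ 𝕃), add_assoc]

theorem Zid_period (R : Subalgebra k 𝕃) [IsFractionRing R 𝕃] (f : ℕ → 𝕃) (i : ℕ)
    (hf : ∀ i, f (i + 3) = f i) : Zid R f (i + 3) = Zid R f i := by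
  unfold Zid
  rw [show i + 3 + 1 = (i + 1) + 3 by ring, hf, hf]

/-- Ring homomorphisms and powers of fractional ideals. -/
theorem map_pow_mem (R : Subalgebra k 𝕃) [IsFractionRing R 𝕃] (T : 𝕃 →+* 𝕃)
    (hT : ∀ x ∈ R, T x ∈ R) (I J : FractionalIdeal R⁰ 𝕃) (hIJ : ∀ x ∈ I, T x ∈ J) (e : ℕ) :
    ∀ x ∈ I ^ e, T x ∈ J ^ e := by
  induction e with
  | zero =>
    intro x hx
    rw [pow_zero, mem_one_iff'] at hx ⊢
    exact hT x hx
  | succ e ih =>
    intro x hx
    rw [pow_succ] at hx ⊢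
    refine FractionalIdeal.mul_induction_on hx ?_ ?_
    · intro y hy z hz
      rw [map_mul]
      exact FractionalIdeal.mul_mem_mul (ih y hy) (hIJ z hz)
    · intro y z hy hz
      rw [map_add]
      exact Submodule.add_mem (J ^ e * J : FractionalIdeal R⁰ 𝕃).coeToSubmodule hy hz

/-- Subrings and powers of fractional ideals. -/
theorem pow_mem_range (R : Subalgebra k 𝕃) [IsFractionRing R 𝕃] (S : Subring 𝕃)
    (hR : ∀ x ∈ R, x ∈ S) (I : FractionalIdeal R⁰ 𝕃) (hI : ∀ x ∈ I, x ∈ S) (e : ℕ) :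
    ∀ x ∈ I ^ e, x ∈ S := by
  induction e with
  | zero =>
    intro x hx
    rw [pow_zero, mem_one_iff'] at hx
    exact hR x hx
  | succ e ih =>
    intro x hx
    rw [pow_succ] at hx
    refine FractionalIdeal.mul_induction_on hx ?_ ?_
    · intro y hy z hz
      exact S.mul_mem (ih y hy) (hI z hz)
    · intro y z hy hz
      exact S.add_mem hy hz

theorem map_Zid (R : Subalgebra k 𝕃) [IsFractionRing R 𝕃] (T : 𝕃 →+* 𝕃)
    (hT : ∀ x ∈ R, T x ∈ R) (f : ℕ → 𝕃) (i j : ℕ) (h0 : T (f i) = f j)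
    (h1 : T (f (i + 1)) = f (j + 1)) : ∀ x ∈ Zid R f i, T x ∈ Zid R f j := by
  intro x hx
  rw [mem_Zid] at hx ⊢
  obtain ⟨r₀, hr₀, r₁, hr₁, r₂, hr₂, rfl⟩ := hx
  refine ⟨T r₀, hT _ hr₀, T r₁, hT _ hr₁, T r₂, hT _ hr₂, ?_⟩
  rw [map_add, map_add, map_mul, map_mul, map_mul, h0, h1]

theorem mem_singleton_pow_mul (R : Subalgebra k 𝕃) [IsFractionRing R 𝕃] {u : 𝕃} (hu : u ≠ 0)
    (J : FractionalIdeal R⁰ 𝕃) (x : 𝕃) :
    x ∈ FractionalIdeal.spanSingleton R⁰ u * J ↔ u⁻¹ * x ∈ J := by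
  rw [FractionalIdeal.mem_singleton_mul]
  constructor
  · rintro ⟨y, hy, rfl⟩
    rwa [inv_mul_cancel_left₀ hu]
  · intro h
    exact ⟨_, h, by rw [mul_inv_cancel_left₀ hu]⟩

/-- The spaces `Z^e ∩ t^n Z'^e`. -/
noncomputable def Hs (R R' : Subalgebra k 𝕃) [IsFractionRing R 𝕃] [IsFractionRing R' 𝕃]
    (f : ℕ → 𝕃) (u : 𝕃) (e n i : ℕ) : Submodule k 𝕃 :=
  toK ((Zid R f i) ^ e) ⊓ toK (FractionalIdeal.spanSingleton R'⁰ (u ^ n) * (Zid R' f i) ^ e)

theorem mem_Hs (R R' : Subalgebra k 𝕃) [IsFractionRing R 𝕃] [IsFractionRing R' 𝕃]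
    (f : ℕ → 𝕃) {u : 𝕃} (hu : u ≠ 0) (e n i : ℕ) (x : 𝕃) :
    x ∈ Hs R R' f u e n i ↔ x ∈ (Zid R f i) ^ e ∧ u⁻¹ ^ n * x ∈ (Zid R' f i) ^ e := by
  unfold Hs
  rw [Submodule.mem_inf]
  refine and_congr Iff.rfl ?_
  have := mem_singleton_pow_mul R' (pow_ne_zero n hu) ((Zid R' f i) ^ e) x
  rw [← inv_pow] at this
  exact this

theorem Hs_succ (R R' : Subalgebra k 𝕃) [IsFractionRing R 𝕃] [IsFractionRing R' 𝕃]
    (f : ℕ → 𝕃) {u : 𝕃} (hu : u ≠ 0) (e n i : ℕ) {a : k} (ha : a ≠ 0)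
    (h : f i * f (i + 1) * f (i + 2) = algebraMap k 𝕃 a) :
    (Hs R R' f u e n (i + 1)).map (LinearMap.mulLeft k (f i ^ e)) = Hs R R' f u e n i := by
  have hfi : f i ≠ 0 := by
    intro h0
    rw [h0, zero_mul, zero_mul] at h
    exact ha ((algebraMap k 𝕃).injective (by rw [← h, map_zero]))
  have key : ∀ (A : Subalgebra k 𝕃) [IsFractionRing A 𝕃] (y : 𝕃),
      y ∈ (Zid A f (i + 1)) ^ e ↔ f i ^ e * y ∈ (Zid A f i) ^ e := by
    intro A _ y
    rw [← spanSingleton_mul_Zid A f i ha h, mul_pow, FractionalIdeal.spanSingleton_pow,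
      mem_singleton_pow_mul A (pow_ne_zero e hfi), inv_mul_cancel_left₀ (pow_ne_zero e hfi)]
  ext x
  rw [Submodule.mem_map]
  constructor
  · rintro ⟨y, hy, rfl⟩
    rw [mem_Hs R R' f hu] at hy ⊢
    rw [LinearMap.mulLeft_apply]
    refine ⟨(key R y).mp hy.1, ?_⟩
    have := (key R' _).mp hy.2
    rwa [mul_left_comm] at this
  · intro hx
    rw [mem_Hs R R' f hu] at hx
    refine ⟨(f i ^ e)⁻¹ * x, ?_, ?_⟩
    · rw [mem_Hs R R' f hu]
      refine ⟨(key R _).mpr ?_, (key R' _).mpr ?_⟩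
      · rw [mul_inv_cancel_left₀ (pow_ne_zero e hfi)]
        exact hx.1
      · rw [mul_left_comm, mul_inv_cancel_left₀ (pow_ne_zero e hfi)]
        exact hx.2
    · rw [LinearMap.mulLeft_apply, mul_inv_cancel_left₀ (pow_ne_zero e hfi)]

theorem finrank_Hs_succ (R R' : Subalgebra k 𝕃) [IsFractionRing R 𝕃] [IsFractionRing R' 𝕃]
    (f : ℕ → 𝕃) {u : 𝕃} (hu : u ≠ 0) (e n i : ℕ) {a : k} (ha : a ≠ 0)
    (h : f i * f (i + 1) * f (i + 2) = algebraMap k 𝕃 a) :
    Module.finrank k (Hs R R' f u e n (i + 1)) = Module.finrank k (Hs R R' f u e n i) ∧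
      (FiniteDimensional k (Hs R R' f u e n i) → FiniteDimensional k (Hs R R' f u e n (i + 1))) := by
  have hfi : f i ≠ 0 := by
    intro h0
    rw [h0, zero_mul, zero_mul] at h
    exact ha ((algebraMap k 𝕃).injective (by rw [← h, map_zero]))
  have hinj : Function.Injective (LinearMap.mulLeft k (f i ^ e)) := by
    intro x y hxy
    rw [LinearMap.mulLeft_apply, LinearMap.mulLeft_apply] at hxy
    exact mul_left_cancel₀ (pow_ne_zero e hfi) hxy
  have e1 : Hs R R' f u e n (i + 1) ≃ₗ[k]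
      (Hs R R' f u e n (i + 1)).map (LinearMap.mulLeft k (f i ^ e)) :=
    Submodule.equivMapOfInjective _ hinj _
  rw [Hs_succ R R' f hu e n i ha h] at e1
  exact ⟨e1.finrank_eq, fun _ => LinearEquiv.finiteDimensional e1.symm⟩

end ideals

end Desc

end Pool.Agent.D5741
end
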