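import Mathlib
import Pool.Agent.Lib.MP_d5741c_al.Basic
import Pool.Agent.Lib.MP_d5741c_al.Mg.G002

section

/-!
# Adjoining a generic point of the norm variety of a cubic Kummer extension
-/

set_option autoImplicit false
set_option linter.unusedSectionVars false

namespace Pool.Agent.D5741.KL

section Cubic

variable {K M : Type*} [Field K] [CharZero K] [Field M] [Algebra K M] {ω α : K}
  (hω : ω ^ 2 + ω + 1 = 0) {μ : M} (hμ : μ ^ 3 = algebraMap K M α)

include hω in
theorem cube_one : ω ^ 3 = 1 := by linear_combination (ω - 1) * hω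

include hω in
theorem ne_one : ω ≠ 1 := by
  intro h
  rw [h] at hω
  norm_num at hω

include hω in
theorem sq_ne_one : ω ^ 2 ≠ 1 := by
  intro h
  have h1 : ω = -2 := by linear_combination hω - h
  rw [h1] at h
  norm_num at h

include hω hμ in
theorem algebraMap_nf (x y z : K) : algebraMap K M (nf α x y z) =
    (algebraMap K M x + μ * algebraMap K M y + μ ^ 2 * algebraMap K M z) *
    (algebraMap K M x + algebraMap K M ω * μ * algebraMap K M y +
      algebraMap K M ω ^ 2 * μ ^ 2 * algebraMap K M z) *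
    (algebraMap K M x + algebraMap K M ω ^ 2 * μ * algebraMap K M y +
      algebraMap K M ω ^ 4 * μ ^ 2 * algebraMap K M z) := by
  rw [map_nf, ← hμ]
  apply nf_eq_prod
  rw [← map_pow, ← map_add, ← map_one (algebraMap K M), ← map_add, hω, map_zero]

include hω hμ in
theorem lin_indep (hα : ∀ x : K, x ^ 3 ≠ α) {x y z : K}
    (h : algebraMap K M x + μ * algebraMap K M y + μ ^ 2 * algebraMap K M z = 0) :
    x = 0 ∧ y = 0 ∧ z = 0 := by
  rw [← nf_eq_zero_iff hω hα]
  apply (algebraMap K M).injective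
  rw [algebraMap_nf hω hμ, h, zero_mul, zero_mul, map_zero]

variable (hspan : ∀ m : M, ∃ x y z : K,
  m = algebraMap K M x + μ * algebraMap K M y + μ ^ 2 * algebraMap K M z)
  {σ : M →ₐ[K] M} (hσμ : σ μ = algebraMap K M ω * μ)

include hσμ in
theorem sigma_apply (x y z : K) :
    σ (algebraMap K M x + μ * algebraMap K M y + μ ^ 2 * algebraMap K M z) =
    algebraMap K M x + algebraMap K M ω * μ * algebraMap K M y +
      algebraMap K M ω ^ 2 * μ ^ 2 * algebraMap K M z := by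
  simp only [map_add, map_mul, map_pow, AlgHom.commutes, hσμ]
  ring

include hσμ in
theorem sigma_sigma_apply (x y z : K) :
    σ (σ (algebraMap K M x + μ * algebraMap K M y + μ ^ 2 * algebraMap K M z)) =
    algebraMap K M x + algebraMap K M ω ^ 2 * μ * algebraMap K M y +
      algebraMap K M ω ^ 4 * μ ^ 2 * algebraMap K M z := by
  simp only [map_add, map_mul, map_pow, AlgHom.commutes, hσμ]
  ring

include hω hspan hσμ in
theorem sigma_three (m : M) : σ (σ (σ m)) = m := by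
  obtain ⟨x, y, z, rfl⟩ := hspan m
  have h3 : algebraMap K M ω ^ 3 = 1 := by rw [← map_pow, cube_one hω, map_one]
  rw [sigma_sigma_apply hσμ]
  simp only [map_add, map_mul, map_pow, AlgHom.commutes, hσμ]
  linear_combination (μ * algebraMap K M y +
    (algebraMap K M ω ^ 3 + 1) * μ ^ 2 * algebraMap K M z) * h3

include hω hμ hspan hσμ in
theorem exists_nf (m : M) : ∃ x y z : K, m * σ m * σ (σ m) = algebraMap K M (nf α x y z) := by
  obtain ⟨x, y, z, rfl⟩ := hspan m
  exact ⟨x, y, z, by rw [algebraMap_nf hω hμ, sigma_sigma_apply hσμ, sigma_apply hσμ]⟩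

include hω hμ hspan hσμ in
theorem mem_of_fixed (hα : ∀ x : K, x ^ 3 ≠ α) {m : M} (hm : σ m = m) :
    ∃ k : K, m = algebraMap K M k := by
  obtain ⟨x, y, z, rfl⟩ := hspan m
  rw [sigma_apply hσμ] at hm
  have h := lin_indep hω hμ hα (x := 0) (y := (ω - 1) * y) (z := (ω ^ 2 - 1) * z) (by
    simp only [map_zero, map_mul, map_sub, map_pow, map_one]
    linear_combination hm)
  have hy : y = 0 := by
    rcases mul_eq_zero.mp h.2.1 with h' | h'
    · exact absurd (sub_eq_zero.mp h') (ne_one hω)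
    · exact h'
  have hz : z = 0 := by
    rcases mul_eq_zero.mp h.2.2 with h' | h'
    · exact absurd (sub_eq_zero.mp h') (sq_ne_one hω)
    · exact h'
  exact ⟨x, by rw [hy, hz]; simp⟩

/-- The three conjugates of the generic element. -/
noncomputable def U0 (M : Type*) [Field M] : FF M := algebraMap (AA M) (FF M) (uu : (AA M)ˣ)

/-- Second conjugate. -/
noncomputable def U1 (M : Type*) [Field M] : FF M := algebraMap (AA M) (FF M) (vv : (AA M)ˣ)

/-- Third conjugate. -/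
noncomputable def U2 {M : Type*} [Field M] (δ : Mˣ) : FF M :=
  algebraMap (AA M) (FF M) ((cu δ * uu⁻¹ * vv⁻¹ : (AA M)ˣ) : AA M)

theorem prod_U (δ : Mˣ) : U0 M * U1 M * U2 δ = algebraMap M (FF M) (δ : M) := by
  unfold U0 U1 U2
  rw [← map_mul, ← map_mul, algebraMap_FF]
  congr 1
  have h2 : (uu * vv * (cu δ * uu⁻¹ * vv⁻¹) : (AA M)ˣ) = cu δ :=
    @grp_aux2 (AA M)ˣ _ uu vv (cu δ)
  have h3 := congrArg Units.val h2
  rw [Units.val_mul, Units.val_mul] at h3
  exact h3

section Gen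

variable (σ) (δ : Mˣ) (hδ : σ δ = δ) (hσ : ∀ m, σ (σ (σ m)) = m)

theorem SS_U0 : SS σ δ hδ hσ (U0 M) = U1 M := by
  unfold U0 U1
  rw [SS_algebraMap, rot_uu]

theorem SS_U1 : SS σ δ hδ hσ (U1 M) = U2 δ := by
  unfold U1 U2
  rw [SS_algebraMap, rot_vv]

theorem SS_U2 : SS σ δ hδ hσ (U2 δ) = U0 M := by
  rw [← SS_U1 σ δ hδ hσ, ← SS_U0 σ δ hδ hσ, SS_three]

end Gen

end Cubic

theorem three_ne (K M : Type*) [Field K] [CharZero K] [Field M] [Algebra K M] :
    (3 : FF M) ≠ 0 := by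
  have : CharZero (FF M) := charZero_of_injective_algebraMap (algebraMap K (FF M)).injective
  norm_num

section Coord

variable {K M : Type*} [Field K] [CharZero K] [Field M] [Algebra K M]

/-- First coordinate of the generic element. -/
noncomputable def XX (δ : Mˣ) : FF M := (U0 M + U1 M + U2 δ) / 3

/-- Second coordinate of the generic element. -/
noncomputable def YY (ω : K) (μ : M) (δ : Mˣ) : FF M :=
  (U0 M + algebraMap K (FF M) ω ^ 2 * U1 M + algebraMap K (FF M) ω * U2 δ) /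
    (3 * algebraMap M (FF M) μ)

/-- Third coordinate of the generic element. -/
noncomputable def ZZ (ω : K) (μ : M) (δ : Mˣ) : FF M :=
  (U0 M + algebraMap K (FF M) ω * U1 M + algebraMap K (FF M) ω ^ 2 * U2 δ) /
    (3 * algebraMap M (FF M) μ ^ 2)

variable {ω : K} (hω : ω ^ 2 + ω + 1 = 0) {μ : M} (hμ0 : μ ≠ 0) (δ : Mˣ)

include hω in
theorem omega_FF : algebraMap K (FF M) ω ^ 2 + algebraMap K (FF M) ω + 1 = 0 := by
  rw [← map_pow, ← map_add, ← map_one (algebraMap K (FF M)), ← map_add, hω, map_zero]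

include hω in
theorem omega_FF_three : algebraMap K (FF M) ω ^ 3 = 1 := by
  rw [← map_pow, cube_one hω, map_one]

include hμ0 in
theorem mu_FF_ne : algebraMap M (FF M) μ ≠ 0 := by
  intro h
  exact hμ0 ((map_eq_zero _).mp h)

include hω hμ0 in
theorem eqU0 : XX δ + algebraMap M (FF M) μ * YY ω μ δ + algebraMap M (FF M) μ ^ 2 * ZZ ω μ δ =
    U0 M := by
  have h1 := omega_FF (M := M) hω
  have h3 := three_ne K M
  have hm := mu_FF_ne hμ0
  unfold XX YY ZZ
  field_simp
  linear_combination (U1 M + U2 δ) * h1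

include hω hμ0 in
theorem eqU1 : XX δ + algebraMap K (FF M) ω * algebraMap M (FF M) μ * YY ω μ δ +
    algebraMap K (FF M) ω ^ 2 * algebraMap M (FF M) μ ^ 2 * ZZ ω μ δ = U1 M := by
  have h1 := omega_FF (M := M) hω
  have h2 := omega_FF_three (M := M) hω
  have h3 := three_ne K M
  have hm := mu_FF_ne hμ0
  unfold XX YY ZZ
  field_simp
  linear_combination (U0 M + U2 δ) * h1 + (2 * U1 M + algebraMap K (FF M) ω * U2 δ) * h2

include hω hμ0 in
theorem eqU2 : XX δ + algebraMap K (FF M) ω ^ 2 * algebraMap M (FF M) μ * YY ω μ δ +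
    algebraMap K (FF M) ω ^ 4 * algebraMap M (FF M) μ ^ 2 * ZZ ω μ δ = U2 δ := by
  have h1 := omega_FF (M := M) hω
  have h2 := omega_FF_three (M := M) hω
  have h3 := three_ne K M
  have hm := mu_FF_ne hμ0
  unfold XX YY ZZ
  field_simp
  linear_combination (U0 M + U1 M) * h1 + (algebraMap K (FF M) ω * U0 M +
    (algebraMap K (FF M) ω + algebraMap K (FF M) ω ^ 2) * U1 M
    + (2 + algebraMap K (FF M) ω ^ 3) * U2 δ) * h2

section Fix

variable {σ : M →ₐ[K] M} (hσμ : σ μ = algebraMap K M ω * μ) (hδ : σ δ = δ)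
  (hσ : ∀ m, σ (σ (σ m)) = m)

include hσμ in
theorem SS_mu : SS σ δ hδ hσ (algebraMap M (FF M) μ) =
    algebraMap K (FF M) ω * algebraMap M (FF M) μ := by
  rw [SS_M, hσμ, map_mul, ← IsScalarTower.algebraMap_apply]

theorem XX_mem : XX δ ∈ Fix σ δ hδ hσ := by
  rw [mem_Fix]
  unfold XX
  rw [map_div₀, map_add, map_add, SS_U0, SS_U1, SS_U2, map_ofNat]
  congr 1
  ring

include hω hμ0 hσμ in
theorem YY_mem : YY ω μ δ ∈ Fix σ δ hδ hσ := by
  have h2 := omega_FF_three (M := M) hω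
  have h3 := three_ne K M
  have hm := mu_FF_ne hμ0
  have hw : algebraMap K (FF M) ω ≠ 0 := by
    intro h
    rw [h] at h2
    norm_num at h2
  rw [mem_Fix]
  unfold YY
  rw [map_div₀, map_add, map_add, map_mul, map_mul, map_mul, map_pow, SS_U0, SS_U1, SS_U2, SS_K,
    SS_mu δ hσμ, map_ofNat]
  field_simp
  linear_combination (-U1 M) * h2

include hω hμ0 hσμ in
theorem ZZ_mem : ZZ ω μ δ ∈ Fix σ δ hδ hσ := by
  have h2 := omega_FF_three (M := M) hω
  have h3 := three_ne K M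
  have hm := mu_FF_ne hμ0
  have hw : algebraMap K (FF M) ω ≠ 0 := by
    intro h
    rw [h] at h2
    norm_num at h2
  rw [mem_Fix]
  unfold ZZ
  rw [map_div₀, map_add, map_add, map_mul, map_mul, map_mul, map_pow, map_pow, SS_U0, SS_U1, SS_U2,
    SS_K, SS_mu δ hσμ, map_ofNat]
  field_simp
  linear_combination (-U1 M - algebraMap K (FF M) ω * U2 δ) * h2

end Fix

end Coord

section Transfer

open Polynomial

/-- Algebraic independence of the two conjugates does not depend on the ambient field. -/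
theorem algInd_iff {K F T : Type*} [Field K] [Field F] [Algebra K F] [Field T] [Algebra K T]
    [Algebra F T] [IsScalarTower K F T] (ω α : K)
    [Fact (Irreducible (X ^ 3 - C (algebraMap K F α) : F[X]))] (x y z : F) (μ : T)
    (hμ : μ ^ 3 = algebraMap K T α) :
    AlgebraicIndependent K ![algebraMap F T x + μ * algebraMap F T y + μ ^ 2 * algebraMap F T z,
      algebraMap F T x + (algebraMap K T ω * μ) * algebraMap F T y +
        (algebraMap K T ω * μ) ^ 2 * algebraMap F T z] ↔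
    AlgebraicIndependent K
      ![(AdjoinRoot.of (X ^ 3 - C (algebraMap K F α) : F[X]) x +
          AdjoinRoot.root _ * AdjoinRoot.of _ y + AdjoinRoot.root _ ^ 2 * AdjoinRoot.of _ z :
          AdjoinRoot (X ^ 3 - C (algebraMap K F α) : F[X])),
        AdjoinRoot.of _ x +
          (algebraMap K (AdjoinRoot (X ^ 3 - C (algebraMap K F α) : F[X])) ω *
            AdjoinRoot.root _) * AdjoinRoot.of _ y +
          (algebraMap K (AdjoinRoot (X ^ 3 - C (algebraMap K F α) : F[X])) ω *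
            AdjoinRoot.root _) ^ 2 * AdjoinRoot.of _ z] := by
  have h0 : (X ^ 3 - C (algebraMap K F α) : F[X]).eval₂
      (IsScalarTower.toAlgHom K F T : F →+* T) μ = 0 := by
    rw [eval₂_sub, eval₂_pow, eval₂_X, eval₂_C, hμ]
    change _ - algebraMap F T (algebraMap K F α) = 0
    rw [← IsScalarTower.algebraMap_apply, sub_self]
  let ψ : AdjoinRoot (X ^ 3 - C (algebraMap K F α) : F[X]) →ₐ[K] T :=
    AdjoinRoot.liftAlgHom _ (IsScalarTower.toAlgHom K F T) μ h0
  have hψ : Function.Injective ψ := ψ.toRingHom.injective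
  rw [← AlgHom.algebraicIndependent_iff ψ hψ]
  have hof : ∀ w : F, ψ (AdjoinRoot.of _ w) = algebraMap F T w := fun w =>
    AdjoinRoot.liftAlgHom_of _ _ _ _ w
  have hroot : ψ (AdjoinRoot.root _) = μ := AdjoinRoot.liftAlgHom_root _ _ _ _
  have : (ψ ∘ ![(AdjoinRoot.of (X ^ 3 - C (algebraMap K F α) : F[X]) x +
          AdjoinRoot.root _ * AdjoinRoot.of _ y + AdjoinRoot.root _ ^ 2 * AdjoinRoot.of _ z :
          AdjoinRoot (X ^ 3 - C (algebraMap K F α) : F[X])),
        AdjoinRoot.of _ x +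
          (algebraMap K (AdjoinRoot (X ^ 3 - C (algebraMap K F α) : F[X])) ω *
            AdjoinRoot.root _) * AdjoinRoot.of _ y +
          (algebraMap K (AdjoinRoot (X ^ 3 - C (algebraMap K F α) : F[X])) ω *
            AdjoinRoot.root _) ^ 2 * AdjoinRoot.of _ z]) =
      ![algebraMap F T x + μ * algebraMap F T y + μ ^ 2 * algebraMap F T z,
      algebraMap F T x + (algebraMap K T ω * μ) * algebraMap F T y +
        (algebraMap K T ω * μ) ^ 2 * algebraMap F T z] := by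
    ext i
    fin_cases i
    · simp [hof, hroot]
    · simp [hof, hroot]
  rw [this]

end Transfer

section Kernel

variable {K M : Type*} [Field K] [CharZero K] [Field M] [Algebra K M] {ω α : K}
  (hω : ω ^ 2 + ω + 1 = 0) {μ : M} (hμ : μ ^ 3 = algebraMap K M α)
  (hspan : ∀ m : M, ∃ x y z : K,
    m = algebraMap K M x + μ * algebraMap K M y + μ ^ 2 * algebraMap K M z)
  {σ : M →ₐ[K] M} (hσμ : σ μ = algebraMap K M ω * μ)

include hω hμ hspan hσμ in
/-- The kernel of the norm residue map over the fixed field. -/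
theorem kernel (d : K) (δ : Mˣ) (hδd : (δ : M) = algebraMap K M d) (hδ : σ δ = δ)
    (hσ : ∀ m, σ (σ (σ m)) = m) (c : K) (hc : c ≠ 0) (w : FF M)
    (hw : w * SS σ δ hδ hσ w * SS σ δ hδ hσ (SS σ δ hδ hσ w) = algebraMap K (FF M) c) :
    ∃ j : ℕ, IsNm α (c * d ^ j) := by
  have hinj := IsFractionRing.injective (AA M) (FF M)
  obtain ⟨a, b, hb, rfl⟩ := IsFractionRing.div_surjective (AA M) w
  have hb0 : b ≠ 0 := nonZeroDivisors.ne_zero hb
  have hb1 : algebraMap (AA M) (FF M) b ≠ 0 := fun h => hb0 ((map_eq_zero_iff _ hinj).mp h)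
  have hc1 : algebraMap K (FF M) c ≠ 0 := fun h => hc ((map_eq_zero _).mp h)
  have ha0 : a ≠ 0 := by
    rintro rfl
    rw [map_zero, zero_div, zero_mul, zero_mul] at hw
    exact hc1 hw.symm
  have hcM : algebraMap K M c ≠ 0 := fun h => hc ((map_eq_zero _).mp h)
  have hnm : ∀ x : AA M, algebraMap (AA M) (FF M) (nm (rotE (σ : M →+* M) δ hδ hσ) x) =
      algebraMap (AA M) (FF M) x * SS σ δ hδ hσ (algebraMap (AA M) (FF M) x) *
        SS σ δ hδ hσ (SS σ δ hδ hσ (algebraMap (AA M) (FF M) x)) := by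
    intro x
    unfold nm
    simp only [map_mul, SS_algebraMap, rotE_apply]
  have key : nm (rotE (σ : M →+* M) δ hδ hσ) a =
      cc ((Units.mk0 _ hcM : Mˣ) : M) * nm (rotE (σ : M →+* M) δ hδ hσ) b := by
    apply hinj
    rw [map_mul, hnm, hnm, Units.val_mk0, ← algebraMap_FF, ← IsScalarTower.algebraMap_apply, ← hw]
    have h1 : SS σ δ hδ hσ (algebraMap (AA M) (FF M) b) ≠ 0 := by simpa using hb0
    have h2 : SS σ δ hδ hσ (SS σ δ hδ hσ (algebraMap (AA M) (FF M) b)) ≠ 0 := by simpa using hb0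
    simp only [map_div₀]
    field_simp
  obtain ⟨m, k, hmk⟩ := exists_of_nm_eq (σ : M →+* M) δ hδ hσ _ a b ha0 hb0 key
  obtain ⟨x, y, z, hxyz⟩ := exists_nf hω hμ hspan hσμ (m : M)
  rw [Units.val_mk0] at hmk
  change algebraMap K M c = (m : M) * σ m * σ (σ m) * _ at hmk
  rw [hxyz] at hmk
  obtain ⟨n, hn | hn⟩ := k.eq_nat_or_neg
  · refine ⟨2 * n, ?_⟩
    have h1 : c = nf α x y z * d ^ n := by
      apply (algebraMap K M).injective
      rw [hmk, hn, zpow_natCast, Units.val_pow_eq_pow_val, hδd, map_mul, map_pow]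
    have h2 : c * d ^ (2 * n) = nf α x y z * (d ^ n) ^ 3 := by
      rw [h1]
      ring
    rw [h2]
    exact (show IsNm α (nf α x y z) from ⟨x, y, z, rfl⟩).mul (IsNm.cube α _)
  · refine ⟨n, ?_⟩
    have h1 : c * d ^ n = nf α x y z := by
      apply (algebraMap K M).injective
      rw [map_mul, hmk, hn, map_pow, ← hδd, ← Units.val_pow_eq_pow_val, mul_assoc,
        ← Units.val_mul, zpow_neg, zpow_natCast, inv_mul_cancel, Units.val_one, mul_one]
    rw [h1]
    exact ⟨x, y, z, rfl⟩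

include hω hμ hspan hσμ in
theorem main_of_M (hα : ∀ x : K, x ^ 3 ≠ α) (d : K) (δ : Mˣ)
    (hδd : (δ : M) = algebraMap K M d) (hδ : σ δ = δ)
    (hσ : ∀ m, σ (σ (σ m)) = m) :
    ∃ (x y z : Fix σ δ hδ hσ),
      nf (algebraMap K (Fix σ δ hδ hσ) α) x y z = algebraMap K (Fix σ δ hδ hσ) d ∧
      (∀ c : K, c ≠ 0 → IsNm (algebraMap K (Fix σ δ hδ hσ) α) (algebraMap K (Fix σ δ hδ hσ) c) →
        ∃ j : ℕ, IsNm α (c * d ^ j)) ∧
      (∀ u : Fix σ δ hδ hσ, IsAlgebraic K u → u ∈ Set.range (algebraMap K (Fix σ δ hδ hσ))) ∧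
      (∀ (Ω : Type) [Field Ω] [Algebra K Ω] [Algebra (Fix σ δ hδ hσ) Ω]
        [IsScalarTower K (Fix σ δ hδ hσ) Ω] (μ : Ω),
        μ ^ 3 = algebraMap K Ω α →
        AlgebraicIndependent K
          ![algebraMap (Fix σ δ hδ hσ) Ω x + μ * algebraMap (Fix σ δ hδ hσ) Ω y +
              μ ^ 2 * algebraMap (Fix σ δ hδ hσ) Ω z,
            algebraMap (Fix σ δ hδ hσ) Ω x +
              (algebraMap K Ω ω * μ) * algebraMap (Fix σ δ hδ hσ) Ω y
              + (algebraMap K Ω ω * μ) ^ 2 * algebraMap (Fix σ δ hδ hσ) Ω z]) := by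
  have hα0 : α ≠ 0 := fun h => hα 0 (by rw [h]; norm_num)
  have hμ0 : μ ≠ 0 := by
    rintro rfl
    apply hα0
    apply (algebraMap K M).injective
    rw [← hμ, map_zero]
    norm_num
  have hμF : algebraMap M (FF M) μ ^ 3 = algebraMap K (FF M) α := by
    rw [← map_pow, hμ, ← IsScalarTower.algebraMap_apply]
  have hinjF : Function.Injective (algebraMap (Fix σ δ hδ hσ) (FF M)) :=
    (algebraMap (Fix σ δ hδ hσ) (FF M)).injective
  have halg : ∀ u : Fix σ δ hδ hσ, IsAlgebraic K u →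
      u ∈ Set.range (algebraMap K (Fix σ δ hδ hσ)) := by
    intro u hu
    have h1 : IsAlgebraic K (algebraMap (Fix σ δ hδ hσ) (FF M) u) := hu.algebraMap
    have h2 : IsAlgebraic M (algebraMap (Fix σ δ hδ hσ) (FF M) u) := h1.tower_top M
    obtain ⟨m, hm⟩ := const_of_isAlgebraic h2
    have h3 : SS σ δ hδ hσ (algebraMap (Fix σ δ hδ hσ) (FF M) u) =
        algebraMap (Fix σ δ hδ hσ) (FF M) u := u.2
    rw [hm, SS_M] at h3
    obtain ⟨k, hk⟩ := mem_of_fixed hω hμ hspan hσμ hα ((algebraMap M (FF M)).injective h3)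
    refine ⟨k, hinjF ?_⟩
    rw [hm, hk, ← IsScalarTower.algebraMap_apply, ← IsScalarTower.algebraMap_apply]
  refine ⟨⟨XX δ, XX_mem δ hδ hσ⟩, ⟨YY ω μ δ, YY_mem hω hμ0 δ hσμ hδ hσ⟩,
    ⟨ZZ ω μ δ, ZZ_mem hω hμ0 δ hσμ hδ hσ⟩, ?_, ?_, halg, ?_⟩
  · apply hinjF
    rw [map_nf, ← IsScalarTower.algebraMap_apply, ← IsScalarTower.algebraMap_apply]
    change nf (algebraMap K (FF M) α) (XX δ) (YY ω μ δ) (ZZ ω μ δ) = _
    rw [← hμF, nf_eq_prod (algebraMap K (FF M) ω) _ _ _ _ (omega_FF hω), eqU0 hω hμ0 δ,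
      eqU1 hω hμ0 δ, eqU2 hω hμ0 δ, prod_U, hδd, ← IsScalarTower.algebraMap_apply]
  · rintro c hc ⟨X, Y, Z, h⟩
    have hX : SS σ δ hδ hσ (X : FF M) = X := X.2
    have hY : SS σ δ hδ hσ (Y : FF M) = Y := Y.2
    have hZ : SS σ δ hδ hσ (Z : FF M) = Z := Z.2
    refine kernel hω hμ hspan hσμ d δ hδd hδ hσ c hc
      ((X : FF M) + algebraMap M (FF M) μ * Y + algebraMap M (FF M) μ ^ 2 * Z) ?_
    have h1 := congrArg (algebraMap (Fix σ δ hδ hσ) (FF M)) h
    rw [map_nf, ← IsScalarTower.algebraMap_apply, ← IsScalarTower.algebraMap_apply] at h1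
    change nf (algebraMap K (FF M) α) (X : FF M) (Y : FF M) (Z : FF M) = _ at h1
    rw [← hμF, nf_eq_prod (algebraMap K (FF M) ω) _ _ _ _ (omega_FF hω)] at h1
    rw [← h1]
    simp only [map_add, map_mul, map_pow, hX, hY, hZ, SS_mu δ hσμ hδ hσ, SS_K]
    ring
  · intro Ω _ _ _ _ μ' hμ'
    have hirr : Irreducible (Polynomial.X ^ 3 - Polynomial.C (algebraMap K (Fix σ δ hδ hσ) α) :
        Polynomial (Fix σ δ hδ hσ)) := by
      apply X_pow_sub_C_irreducible_of_prime Nat.prime_three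
      intro b hb
      have h1 : IsAlgebraic K b := by
        refine IsAlgebraic.of_pow (n := 3) (by norm_num) ?_
        rw [hb]
        exact isAlgebraic_algebraMap _
      obtain ⟨k, rfl⟩ := halg b h1
      apply hα k
      apply (algebraMap K (Fix σ δ hδ hσ)).injective
      rw [← hb, map_pow]
    have : Fact (Irreducible (Polynomial.X ^ 3 - Polynomial.C
      (algebraMap K (Fix σ δ hδ hσ) α) : Polynomial (Fix σ δ hδ hσ))) := ⟨hirr⟩
    rw [algInd_iff ω α _ _ _ μ' hμ', ← algInd_iff ω α _ _ _ (algebraMap M (FF M) μ) hμF]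
    have e0 := eqU0 hω hμ0 δ
    have e1 := eqU1 hω hμ0 δ
    rw [← mul_pow] at e1
    have hv : ![algebraMap (Fix σ δ hδ hσ) (FF M) ⟨XX δ, XX_mem δ hδ hσ⟩ +
          algebraMap M (FF M) μ * algebraMap (Fix σ δ hδ hσ) (FF M)
            ⟨YY ω μ δ, YY_mem hω hμ0 δ hσμ hδ hσ⟩ +
          algebraMap M (FF M) μ ^ 2 * algebraMap (Fix σ δ hδ hσ) (FF M)
            ⟨ZZ ω μ δ, ZZ_mem hω hμ0 δ hσμ hδ hσ⟩,
        algebraMap (Fix σ δ hδ hσ) (FF M) ⟨XX δ, XX_mem δ hδ hσ⟩ +
          (algebraMap K (FF M) ω * algebraMap M (FF M) μ) * algebraMap (Fix σ δ hδ hσ) (FF M)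
            ⟨YY ω μ δ, YY_mem hω hμ0 δ hσμ hδ hσ⟩ +
          (algebraMap K (FF M) ω * algebraMap M (FF M) μ) ^ 2 *
            algebraMap (Fix σ δ hδ hσ) (FF M) ⟨ZZ ω μ δ, ZZ_mem hω hμ0 δ hσμ hδ hσ⟩] =
        ![U0 M, U1 M] := by
      rw [← e0, ← e1]
      rfl
    rw [hv]
    exact algInd_FF K M

end Kernel

section Final

open Polynomial

theorem span_adjoinRoot {K : Type*} [Field K] (α : K) [Fact (Irreducible (X ^ 3 - C α : K[X]))]
    (m : AdjoinRoot (X ^ 3 - C α : K[X])) : ∃ x y z : K,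
    m = algebraMap K _ x + AdjoinRoot.root _ * algebraMap K _ y +
      AdjoinRoot.root _ ^ 2 * algebraMap K _ z := by
  have hm : (X ^ 3 - C α : K[X]).Monic := monic_X_pow_sub_C α (by norm_num)
  obtain ⟨f, hf, rfl⟩ := (AdjoinRoot.powerBasis' hm).exists_eq_aeval m
  rw [AdjoinRoot.powerBasis'_dim, natDegree_X_pow_sub_C] at hf
  refine ⟨f.coeff 0, f.coeff 1, f.coeff 2, ?_⟩
  rw [AdjoinRoot.powerBasis'_gen]
  conv_lhs => rw [f.as_sum_range' 3 hf]
  simp only [Finset.sum_range_succ, Finset.sum_range_zero, map_add, aeval_monomial, zero_add,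
    pow_zero, mul_one, pow_one]
  ring

end Final

end Pool.Agent.D5741.KL

namespace Pool.Agent.D5741

open Polynomial KL

/-- Adjoining a generic point of the norm variety `N(ξ) = d`. -/
theorem exists_generic_norm (K : Type) [Field K] [CharZero K] (ω α d : K)
    (hω : ω ^ 2 + ω + 1 = 0) (hα : ∀ x : K, x ^ 3 ≠ α) (hd : d ≠ 0) :
    ∃ (F : Type) (_ : Field F) (_ : Algebra K F) (x y z : F),
      nf (algebraMap K F α) x y z = algebraMap K F d ∧
      (∀ c : K, c ≠ 0 → IsNm (algebraMap K F α) (algebraMap K F c) →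
        ∃ j : ℕ, IsNm α (c * d ^ j)) ∧
      (∀ u : F, IsAlgebraic K u → u ∈ Set.range (algebraMap K F)) ∧
      (∀ (Ω : Type) [Field Ω] [Algebra K Ω] [Algebra F Ω] [IsScalarTower K F Ω] (μ : Ω),
        μ ^ 3 = algebraMap K Ω α →
        AlgebraicIndependent K
          ![algebraMap F Ω x + μ * algebraMap F Ω y + μ ^ 2 * algebraMap F Ω z,
            algebraMap F Ω x + (algebraMap K Ω ω * μ) * algebraMap F Ω y
              + (algebraMap K Ω ω * μ) ^ 2 * algebraMap F Ω z]) := by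
  have hirr : Irreducible (X ^ 3 - C α : K[X]) :=
    X_pow_sub_C_irreducible_of_prime Nat.prime_three hα
  have : Fact (Irreducible (X ^ 3 - C α : K[X])) := ⟨hirr⟩
  let M := AdjoinRoot (X ^ 3 - C α : K[X])
  let μ : M := AdjoinRoot.root (X ^ 3 - C α : K[X])
  have hμ : μ ^ 3 = algebraMap K M α := by
    have h := AdjoinRoot.eval₂_root (X ^ 3 - C α : K[X])
    rw [eval₂_sub, eval₂_pow, eval₂_X, eval₂_C] at h
    exact sub_eq_zero.mp h
  have h3 : algebraMap K M ω ^ 3 = 1 := by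
    rw [← map_pow, cube_one hω, map_one]
  have h0 : (X ^ 3 - C α : K[X]).eval₂ (Algebra.ofId K M : K →+* M)
      (algebraMap K M ω * μ) = 0 := by
    rw [eval₂_sub, eval₂_pow, eval₂_X, eval₂_C, mul_pow, h3, one_mul, hμ]
    exact sub_self _
  let σ : M →ₐ[K] M := AdjoinRoot.liftAlgHom _ (Algebra.ofId K M) (algebraMap K M ω * μ) h0
  have hσμ : σ μ = algebraMap K M ω * μ := AdjoinRoot.liftAlgHom_root _ _ _ _
  have hspan : ∀ m : M, ∃ x y z : K,
      m = algebraMap K M x + μ * algebraMap K M y + μ ^ 2 * algebraMap K M z :=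
    span_adjoinRoot α
  have hσ := sigma_three hω hspan hσμ
  have hdM : algebraMap K M d ≠ 0 := fun h => hd ((map_eq_zero _).mp h)
  have hδ : σ (Units.mk0 _ hdM : Mˣ) = (Units.mk0 _ hdM : Mˣ) := by
    rw [Units.val_mk0, AlgHom.commutes]
  exact ⟨Fix σ (Units.mk0 _ hdM) hδ hσ, inferInstance, inferInstance,
    main_of_M hω hμ hspan hσμ hα d _ (Units.val_mk0 _) hδ hσ⟩

end Pool.Agent.D5741
end

section

/-!
# Generic norms with prescribed conjugates
-/

set_option autoImplicit false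

namespace Pool.Agent.D5741

open IntermediateField

namespace Gne

/-- The inverse discrete Fourier transform. -/
noncomputable def ift {R : Type*} [Field R] (ω μ d v₀ v₁ : R) : Fin 3 → R :=
  ![(v₀ + v₁ + d / (v₀ * v₁)) / 3, (v₀ + ω ^ 2 * v₁ + ω * (d / (v₀ * v₁))) / (3 * μ),
    (v₀ + ω * v₁ + ω ^ 2 * (d / (v₀ * v₁))) / (3 * μ ^ 2)]

theorem map_ift {R S : Type*} [Field R] [Field S] (f : R →+* S) (ω μ d v₀ v₁ : R) (i : Fin 3) :
    f (ift ω μ d v₀ v₁ i) = ift (f ω) (f μ) (f d) (f v₀) (f v₁) i := by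
  fin_cases i <;>
  simp only [ift, Fin.zero_eta, Fin.mk_one, Fin.reduceFinMk, Matrix.cons_val, map_div₀, map_add,
    map_mul, map_pow, map_ofNat, Matrix.cons_val_zero, Matrix.cons_val_one]

theorem cj_ift {R : Type*} [Field R] [CharZero R] (ω μ d v₀ v₁ : R) (hω : ω ^ 2 + ω + 1 = 0)
    (hμ : μ ≠ 0) :
    cj ω μ (ift ω μ d v₀ v₁) 0 = v₀ ∧ cj ω μ (ift ω μ d v₀ v₁) 1 = v₁ ∧
      cj ω μ (ift ω μ d v₀ v₁) 2 = d / (v₀ * v₁) := by
  have h3 : ω ^ 3 = 1 := by linear_combination (ω - 1) * hω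
  set w := d / (v₀ * v₁) with hw
  simp only [cj, ift, Matrix.cons_val_zero, Matrix.cons_val_one, Matrix.cons_val]
  rw [← hw]
  refine ⟨?_, ?_, ?_⟩
  · field_simp
    linear_combination (v₁ + w) * hω
  · field_simp
    linear_combination (v₀ + w) * hω + (2 * v₁ + w * ω) * h3
  · field_simp
    linear_combination (v₀ + v₁) * hω + (v₀ * ω + v₁ * (ω + ω ^ 2) + w * (ω ^ 3 + 2)) * h3

/-- The inverse transform of the conjugates. -/
theorem ift_cj {R : Type*} [Field R] [CharZero R] (ω μ d : R) (h : Fin 3 → R)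
    (hω : ω ^ 2 + ω + 1 = 0) (hμ : μ ≠ 0) (hd : d ≠ 0) (hnf : nf (μ ^ 3) (h 0) (h 1) (h 2) = d) :
    ift ω μ d (cj ω μ h 0) (cj ω μ h 1) = h := by
  have h3 : ω ^ 3 = 1 := by linear_combination (ω - 1) * hω
  have hprod := nf_eq_prod_cj ω μ h hω
  rw [hnf] at hprod
  have hne : cj ω μ h 0 * cj ω μ h 1 ≠ 0 := by
    intro h0
    rw [h0, zero_mul] at hprod
    exact hd hprod
  have hw : d / (cj ω μ h 0 * cj ω μ h 1) = cj ω μ h 2 := by
    rw [div_eq_iff hne, hprod]
    ring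
  funext i
  rw [ift, hw]
  fin_cases i
  · simp only [Fin.zero_eta, Matrix.cons_val_zero, cj]
    field_simp
    linear_combination (μ * h 1 + μ ^ 2 * h 2) * hω + (μ ^ 2 * h 2 * ω) * h3
  · simp only [Fin.mk_one, Matrix.cons_val_one, Matrix.cons_val_zero, cj]
    field_simp
    linear_combination (h 0 + μ ^ 2 * h 2) * hω + (2 * h 1 * μ + μ ^ 2 * h 2 * (ω + ω ^ 2)) * h3
  · simp only [Fin.reduceFinMk, Matrix.cons_val, cj]
    field_simp
    linear_combination (h 0 + μ * h 1) * hω + (h 1 * μ * ω + μ ^ 2 * h 2 * (ω ^ 3 + 2)) * h3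

end Gne

open Gne in
/-- TASK GNE, from the statement of TASK KL -/
theorem Gne.exists_generic_norm_in_of (K : Type) [Field K] [CharZero K] (ω α d : K)
    (hω : ω ^ 2 + ω + 1 = 0) (hα : ∀ x : K, x ^ 3 ≠ α) (hd : d ≠ 0)
    (Ω : Type) [Field Ω] [IsAlgClosed Ω] [Algebra K Ω] (μ : Ω) (hμ : μ ^ 3 = algebraMap K Ω α)
    (v : Fin 2 → Ω) (hv : AlgebraicIndependent K v)
    (hKL : ∃ (F : Type) (_ : Field F) (_ : Algebra K F) (x y z : F),
      nf (algebraMap K F α) x y z = algebraMap K F d ∧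
      (∀ c : K, c ≠ 0 → IsNm (algebraMap K F α) (algebraMap K F c) →
        ∃ j : ℕ, IsNm α (c * d ^ j)) ∧
      (∀ u : F, IsAlgebraic K u → u ∈ Set.range (algebraMap K F)) ∧
      (∀ (Ω : Type) [Field Ω] [Algebra K Ω] [Algebra F Ω] [IsScalarTower K F Ω] (μ : Ω),
        μ ^ 3 = algebraMap K Ω α →
        AlgebraicIndependent K
          ![algebraMap F Ω x + μ * algebraMap F Ω y + μ ^ 2 * algebraMap F Ω z,
            algebraMap F Ω x + (algebraMap K Ω ω * μ) * algebraMap F Ω y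
              + (algebraMap K Ω ω * μ) ^ 2 * algebraMap F Ω z])) :
    ∃ ξ : Fin 3 → Ω, cj (algebraMap K Ω ω) μ ξ 0 = v 0 ∧ cj (algebraMap K Ω ω) μ ξ 1 = v 1 ∧
      nf (algebraMap K Ω α) (ξ 0) (ξ 1) (ξ 2) = algebraMap K Ω d ∧
      ∀ c : K, c ≠ 0 →
        IsNm (algebraMap K (IntermediateField.adjoin K (Set.range ξ)) α)
          (algebraMap K (IntermediateField.adjoin K (Set.range ξ)) c) →
        ∃ j : ℕ, IsNm α (c * d ^ j) := by
  obtain ⟨F, _, _, x, y, z, hnf, hF, -, hind⟩ := hKL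
  have : CharZero F := charZero_of_injective_algebraMap (algebraMap K F).injective
  have : CharZero Ω := charZero_of_injective_algebraMap (algebraMap K Ω).injective
  have hα0 : α ≠ 0 := fun h => hα 0 (by rw [h]; ring)
  -- the second algebraically closed field
  obtain ⟨Ω', _, _, _, _, _⟩ : ∃ (Ω' : Type) (_ : Field Ω') (_ : IsAlgClosed Ω')
      (_ : Algebra K Ω') (_ : Algebra F Ω'), IsScalarTower K F Ω' :=
    ⟨AlgebraicClosure F, inferInstance, inferInstance, inferInstance, inferInstance,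
      inferInstance⟩
  have : CharZero Ω' := charZero_of_injective_algebraMap (algebraMap K Ω').injective
  obtain ⟨μ', hμ'⟩ := IsAlgClosed.exists_pow_nat_eq (algebraMap K Ω' α) (n := 3) (by norm_num)
  have hωΩ : (algebraMap K Ω ω) ^ 2 + algebraMap K Ω ω + 1 = 0 := by
    rw [← map_pow, ← map_add, ← map_one (algebraMap K Ω), ← map_add, hω, map_zero]
  have hωΩ' : (algebraMap K Ω' ω) ^ 2 + algebraMap K Ω' ω + 1 = 0 := by
    rw [← map_pow, ← map_add, ← map_one (algebraMap K Ω'), ← map_add, hω, map_zero]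
  have hdΩ : algebraMap K Ω d ≠ 0 := by simpa using hd
  have hdΩ' : algebraMap K Ω' d ≠ 0 := by
    intro h
    exact hd ((algebraMap K Ω').injective (by rw [h, map_zero]))
  have hμ0 : μ ≠ 0 := by
    rintro rfl
    apply hα0
    apply (algebraMap K Ω).injective
    rw [← hμ, map_zero]; ring
  have hμ'0 : μ' ≠ 0 := by
    rintro rfl
    apply hα0
    apply (algebraMap K Ω').injective
    rw [← hμ', map_zero]; ring
  set h : Fin 3 → Ω' := ![algebraMap F Ω' x, algebraMap F Ω' y, algebraMap F Ω' z] with hh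
  set v' : Fin 2 → Ω' := ![cj (algebraMap K Ω' ω) μ' h 0, cj (algebraMap K Ω' ω) μ' h 1] with hv'
  have hv'ind : AlgebraicIndependent K v' := by
    have := hind Ω' μ' hμ'
    convert this using 2
    · simp only [cj, hh]
      simp
    · simp only [cj, hh]
      simp
  have hhnf : nf (μ' ^ 3) (h 0) (h 1) (h 2) = algebraMap K Ω' d := by
    rw [hμ']
    have h1 := congrArg (algebraMap F Ω') hnf
    rw [map_nf, ← IsScalarTower.algebraMap_apply, ← IsScalarTower.algebraMap_apply] at h1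
    exact h1
  -- the field generated by `μ`
  have hirr : Irreducible (Polynomial.X ^ 3 - Polynomial.C α) :=
    X_pow_sub_C_irreducible_of_prime Nat.prime_three hα
  have hmin : Polynomial.X ^ 3 - Polynomial.C α = minpoly K μ :=
    minpoly.eq_of_irreducible_of_monic hirr (by simp [hμ])
      (Polynomial.monic_X_pow_sub_C α (by norm_num))
  have hint : IsIntegral K μ := ⟨Polynomial.X ^ 3 - Polynomial.C α,
    Polynomial.monic_X_pow_sub_C α (by norm_num), by simp [hμ]⟩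
  let φ : K⟮μ⟯ →ₐ[K] Ω' := (algHomAdjoinIntegralEquiv K hint).symm ⟨μ', by
    rw [← hmin, Polynomial.mem_aroots]
    exact ⟨hirr.ne_zero, by simp [hμ']⟩⟩
  have hφ : φ (AdjoinSimple.gen K μ) = μ' := algHomAdjoinIntegralEquiv_symm_apply_gen K hint _
  let _ : Algebra K⟮μ⟯ Ω' := φ.toRingHom.toAlgebra
  have : IsScalarTower K K⟮μ⟯ Ω' := IsScalarTower.of_algebraMap_eq fun r => (φ.commutes r).symm
  have : FiniteDimensional K K⟮μ⟯ := adjoin.finiteDimensional hint
  have : Algebra.IsAlgebraic K K⟮μ⟯ := Algebra.IsAlgebraic.of_finite K K⟮μ⟯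
  have hvM : AlgebraicIndependent K⟮μ⟯ v := hv.extendScalars K⟮μ⟯
  have hv'M : AlgebraicIndependent K⟮μ⟯ v' := hv'ind.extendScalars K⟮μ⟯
  let N := FractionRing (MvPolynomial (Fin 2) K⟮μ⟯)
  let ψ : N →ₐ[K⟮μ⟯] Ω := (adjoin K⟮μ⟯ (Set.range v)).val.comp hvM.aevalEquivField.toAlgHom
  let ψ' : N →ₐ[K⟮μ⟯] Ω' := (adjoin K⟮μ⟯ (Set.range v')).val.comp hv'M.aevalEquivField.toAlgHom
  let w : Fin 2 → N := fun i => algebraMap (MvPolynomial (Fin 2) K⟮μ⟯) N (MvPolynomial.X i)
  have hψw : ∀ i, ψ (w i) = v i := by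
    intro i
    change ((hvM.aevalEquivField (w i) : adjoin K⟮μ⟯ (Set.range v)) : Ω) = v i
    rw [AlgebraicIndependent.aevalEquivField_algebraMap_apply_coe, MvPolynomial.aeval_X]
  have hψ'w : ∀ i, ψ' (w i) = v' i := by
    intro i
    change ((hv'M.aevalEquivField (w i) : adjoin K⟮μ⟯ (Set.range v')) : Ω') = v' i
    rw [AlgebraicIndependent.aevalEquivField_algebraMap_apply_coe, MvPolynomial.aeval_X]
  let ν : N := algebraMap K⟮μ⟯ N (AdjoinSimple.gen K μ)
  have hψν : ψ ν = μ := by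
    change ψ (algebraMap K⟮μ⟯ N (AdjoinSimple.gen K μ)) = μ
    rw [AlgHom.commutes, AdjoinSimple.algebraMap_gen]
  have hψ'ν : ψ' ν = μ' := by
    change ψ' (algebraMap K⟮μ⟯ N (AdjoinSimple.gen K μ)) = μ'
    rw [AlgHom.commutes]
    exact hφ
  let ψK : N →ₐ[K] Ω := ψ.restrictScalars K
  let ψ'K : N →ₐ[K] Ω' := ψ'.restrictScalars K
  let η : Fin 3 → N := ift (algebraMap K N ω) ν (algebraMap K N d) (w 0) (w 1)
  set ξ : Fin 3 → Ω := ift (algebraMap K Ω ω) μ (algebraMap K Ω d) (v 0) (v 1) with hξ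
  have hψη : ∀ i, ψK (η i) = ξ i := by
    intro i
    have := map_ift (ψK : N →+* Ω) (algebraMap K N ω) ν (algebraMap K N d) (w 0) (w 1) i
    have e1 : (ψK : N →+* Ω) ν = μ := hψν
    have e2 : (ψK : N →+* Ω) (w 0) = v 0 := hψw 0
    have e3 : (ψK : N →+* Ω) (w 1) = v 1 := hψw 1
    have e4 : (ψK : N →+* Ω) (algebraMap K N ω) = algebraMap K Ω ω := ψK.commutes ω
    have e5 : (ψK : N →+* Ω) (algebraMap K N d) = algebraMap K Ω d := ψK.commutes d
    rw [e1, e2, e3, e4, e5] at this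
    exact this
  have hψ'η : ∀ i, ψ'K (η i) = h i := by
    intro i
    have := map_ift (ψ'K : N →+* Ω') (algebraMap K N ω) ν (algebraMap K N d) (w 0) (w 1) i
    have e1 : (ψ'K : N →+* Ω') ν = μ' := hψ'ν
    have e2 : (ψ'K : N →+* Ω') (w 0) = v' 0 := hψ'w 0
    have e3 : (ψ'K : N →+* Ω') (w 1) = v' 1 := hψ'w 1
    have e4 : (ψ'K : N →+* Ω') (algebraMap K N ω) = algebraMap K Ω' ω := ψ'K.commutes ω
    have e5 : (ψ'K : N →+* Ω') (algebraMap K N d) = algebraMap K Ω' d := ψ'K.commutes d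
    rw [e1, e2, e3, e4, e5] at this
    have h2 : ψ'K (η i) = ift (algebraMap K Ω' ω) μ' (algebraMap K Ω' d) (v' 0) (v' 1) i := this
    rw [h2]
    exact congrFun (ift_cj (algebraMap K Ω' ω) μ' (algebraMap K Ω' d) h hωΩ' hμ'0 hdΩ' hhnf) i
  obtain ⟨hc0, hc1, hc2⟩ := cj_ift (algebraMap K Ω ω) μ (algebraMap K Ω d) (v 0) (v 1) hωΩ hμ0
  refine ⟨ξ, hc0, hc1, ?_, ?_⟩
  · have hv0 : v 0 ≠ 0 := hv.ne_zero 0
    have hv1 : v 1 ≠ 0 := hv.ne_zero 1
    rw [← hμ, nf_eq_prod_cj _ _ _ hωΩ, hc0, hc1, hc2]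
    field_simp
  · rintro c hc ⟨X, Y, Z, hXYZ⟩
    -- every element of `K(ξ)` comes from an element of `N` that is mapped into `F`
    have key : ∀ X : adjoin K (Set.range ξ), ∃ n : N, ∃ u : F,
        ψK n = (X : Ω) ∧ ψ'K n = algebraMap F Ω' u := by
      intro X
      have hX : (X : Ω) ∈ (adjoin K (Set.range η)).map ψK := by
        have h1 : (adjoin K (Set.range η)).map ψK = adjoin K (Set.range ξ) := by
          rw [adjoin_map, ← Set.range_comp]
          congr 2
          funext i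
          exact hψη i
        rw [h1]
        exact X.2
      obtain ⟨n, hn, hnX⟩ := (mem_map _).mp hX
      have h2 : (adjoin K (Set.range η)).map ψ'K ≤ (IsScalarTower.toAlgHom K F Ω').fieldRange := by
        rw [adjoin_map, adjoin_le_iff]
        rintro _ ⟨_, ⟨i, rfl⟩, rfl⟩
        change ψ'K (η i) ∈ (IsScalarTower.toAlgHom K F Ω').fieldRange
        rw [hψ'η i]
        fin_cases i
        · exact ⟨x, rfl⟩
        · exact ⟨y, rfl⟩
        · exact ⟨z, rfl⟩
      obtain ⟨u, hu⟩ := h2 ((mem_map _).mpr ⟨n, hn, rfl⟩)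
      exact ⟨n, u, hnX, hu.symm⟩
    obtain ⟨nX, uX, hX, hX'⟩ := key X
    obtain ⟨nY, uY, hY, hY'⟩ := key Y
    obtain ⟨nZ, uZ, hZ, hZ'⟩ := key Z
    have hN : nf (algebraMap K N α) nX nY nZ = algebraMap K N c := by
      apply ψK.toRingHom.injective
      have h1 := map_nf ψK.toRingHom (algebraMap K N α) nX nY nZ
      rw [h1]
      change nf (ψK (algebraMap K N α)) (ψK nX) (ψK nY) (ψK nZ) = ψK (algebraMap K N c)
      rw [hX, hY, hZ, ψK.commutes, ψK.commutes]
      have h2 := congrArg (algebraMap (adjoin K (Set.range ξ)) Ω) hXYZ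
      rw [map_nf, ← IsScalarTower.algebraMap_apply, ← IsScalarTower.algebraMap_apply] at h2
      exact h2
    refine hF c hc ⟨uX, uY, uZ, ?_⟩
    apply (algebraMap F Ω').injective
    rw [map_nf, ← IsScalarTower.algebraMap_apply, ← IsScalarTower.algebraMap_apply,
      ← hX', ← hY', ← hZ', ← ψ'K.commutes α, ← ψ'K.commutes c]
    have h1 := map_nf ψ'K.toRingHom (algebraMap K N α) nX nY nZ
    rw [hN] at h1
    exact h1.symm

end Pool.Agent.D5741
end

section

/-!
# Generic norms with prescribed conjugates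
-/

set_option autoImplicit false

namespace Pool.Agent.D5741

/-- TASK GNE -/
theorem exists_generic_norm_in (K : Type) [Field K] [CharZero K] (ω α d : K)
    (hω : ω ^ 2 + ω + 1 = 0) (hα : ∀ x : K, x ^ 3 ≠ α) (hd : d ≠ 0)
    (Ω : Type) [Field Ω] [IsAlgClosed Ω] [Algebra K Ω] (μ : Ω) (hμ : μ ^ 3 = algebraMap K Ω α)
    (v : Fin 2 → Ω) (hv : AlgebraicIndependent K v) :
    ∃ ξ : Fin 3 → Ω, cj (algebraMap K Ω ω) μ ξ 0 = v 0 ∧ cj (algebraMap K Ω ω) μ ξ 1 = v 1 ∧
      nf (algebraMap K Ω α) (ξ 0) (ξ 1) (ξ 2) = algebraMap K Ω d ∧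
      ∀ c : K, c ≠ 0 →
        IsNm (algebraMap K (IntermediateField.adjoin K (Set.range ξ)) α)
          (algebraMap K (IntermediateField.adjoin K (Set.range ξ)) c) →
        ∃ j : ℕ, IsNm α (c * d ^ j) :=
  Gne.exists_generic_norm_in_of K ω α d hω hα hd Ω μ hμ v hv
    (exists_generic_norm K ω α d hω hα hd)

end Pool.Agent.D5741
end
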