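import Mathlib
import Pool.Agent.Lib.MP_d5741c_al.Basic
import Pool.Agent.Lib.MP_d5741c_al.FF

section

/-!
# Automorphisms of algebraically closed fields and Galois descent for subspaces
-/

set_option autoImplicit false
open scoped TensorProduct

namespace Pool.Agent.D5741

namespace Aut

/-- An automorphism of the polynomial ring on a transcendence basis extends. -/
theorem exists_ext (K Ω : Type) [Field K] [Field Ω] [IsAlgClosed Ω] [Algebra K Ω]
    {ι : Type} (v : ι → Ω) (hv : IsTranscendenceBasis K v)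
    (ψ : MvPolynomial ι K ≃+* MvPolynomial ι K) :
    ∃ τ : Ω ≃+* Ω, ∀ p : MvPolynomial ι K, τ (MvPolynomial.aeval v p) =
      MvPolynomial.aeval v (ψ p) := by
  have := IsAlgClosed.isAlgClosure_of_transcendence_basis v hv
  let e : Algebra.adjoin K (Set.range v) ≃+* Algebra.adjoin K (Set.range v) :=
    (hv.1.aevalEquiv.symm.toRingEquiv.trans ψ).trans hv.1.aevalEquiv.toRingEquiv
  refine ⟨IsAlgClosure.equivOfEquiv Ω Ω e, ?_⟩
  intro p
  have h1 : MvPolynomial.aeval v p =
      algebraMap (Algebra.adjoin K (Set.range v)) Ω (hv.1.aevalEquiv p) := by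
    rw [AlgebraicIndependent.algebraMap_aevalEquiv]
  have h2 : MvPolynomial.aeval v (ψ p) =
      algebraMap (Algebra.adjoin K (Set.range v)) Ω (hv.1.aevalEquiv (ψ p)) := by
    rw [AlgebraicIndependent.algebraMap_aevalEquiv]
  rw [h1, h2, IsAlgClosure.equivOfEquiv_algebraMap]
  congr 1
  simp [e]

/-- The shift of one variable. -/
theorem exists_shift (K : Type) [Field K] {ι : Type} (i : ι) :
    ∃ ψ : MvPolynomial ι K ≃+* MvPolynomial ι K, (∀ c, ψ (MvPolynomial.C c) = MvPolynomial.C c) ∧
      ψ (MvPolynomial.X i) = MvPolynomial.X i + 1 := by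
  classical
  let f : MvPolynomial ι K →ₐ[K] MvPolynomial ι K :=
    MvPolynomial.aeval fun j => if j = i then MvPolynomial.X i + 1 else MvPolynomial.X j
  let g : MvPolynomial ι K →ₐ[K] MvPolynomial ι K :=
    MvPolynomial.aeval fun j => if j = i then MvPolynomial.X i - 1 else MvPolynomial.X j
  have hf : ∀ j, f (MvPolynomial.X j) = if j = i then MvPolynomial.X i + 1 else MvPolynomial.X j :=
    fun j => MvPolynomial.aeval_X _ j
  have hg : ∀ j, g (MvPolynomial.X j) = if j = i then MvPolynomial.X i - 1 else MvPolynomial.X j :=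
    fun j => MvPolynomial.aeval_X _ j
  have h1 : f.comp g = AlgHom.id K _ := by
    apply MvPolynomial.algHom_ext
    intro j
    rw [AlgHom.comp_apply, hg]
    split_ifs with h
    · rw [map_sub, hf, if_pos rfl, map_one, h]
      simp
    · rw [hf, if_neg h]
      simp
  have h2 : g.comp f = AlgHom.id K _ := by
    apply MvPolynomial.algHom_ext
    intro j
    rw [AlgHom.comp_apply, hf]
    split_ifs with h
    · rw [map_add, hg, if_pos rfl, map_one, h]
      simp
    · rw [hg, if_neg h]
      simp
  refine ⟨(AlgEquiv.ofAlgHom f g h1 h2).toRingEquiv, ?_, ?_⟩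
  · intro c
    exact f.commutes c
  · have := hf i
    rw [if_pos rfl] at this
    exact this

/-- The shift of a transcendental element extends to an automorphism. -/
theorem exists_aut_shift' (K Ω : Type) [Field K] [Field Ω] [IsAlgClosed Ω] [Algebra K Ω]
    (s : Ω) (hs : Transcendental K s) : ∃ τ : Ω ≃ₐ[K] Ω, τ s = s + 1 := by
  have h1 : AlgebraicIndepOn K id ({s} : Set Ω) := by
    let : Unique ({s} : Set Ω) := Set.uniqueSingleton s
    refine algebraicIndependent_unique_type_iff.mpr ?_
    exact hs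
  obtain ⟨B, hsB, hB⟩ := exists_isTranscendenceBasis_superset h1
  obtain ⟨ψ, hψ1, hψ2⟩ := exists_shift K (⟨s, hsB rfl⟩ : B)
  obtain ⟨τ, hτ⟩ := exists_ext K Ω _ hB ψ
  refine ⟨AlgEquiv.ofRingEquiv (f := τ) ?_, ?_⟩
  · intro c
    have := hτ (MvPolynomial.C c)
    rwa [hψ1, MvPolynomial.aeval_C] at this
  · have := hτ (MvPolynomial.X ⟨s, hsB rfl⟩)
    rw [hψ2, map_add, MvPolynomial.aeval_X, map_one] at this
    exact this

/-- An algebraic element outside `K` is moved by some automorphism. -/
theorem exists_aut_alg (K Ω : Type) [Field K] [CharZero K] [Field Ω] [IsAlgClosed Ω]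
    [Algebra K Ω] (c : Ω) (hc : IsAlgebraic K c) (hcK : c ∉ Set.range (algebraMap K Ω)) :
    ∃ τ : Ω ≃ₐ[K] Ω, τ c ≠ c := by
  -- the algebraic closure of `K` in `Ω`
  let E := algebraicClosure K Ω
  have : IsAlgClosure K E := algebraicClosure.isAlgClosure K Ω
  have : IsAlgClosed E := IsAlgClosure.isAlgClosed K
  have : Algebra.IsAlgebraic K E := IsAlgClosure.isAlgebraic
  have : IsGalois K E := by
    have : Normal K E := IsAlgClosure.normal K E
    exact ⟨⟩
  have hcE : c ∈ E := (mem_algebraicClosure_iff).mpr hc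
  obtain ⟨σ, hσ⟩ : ∃ σ : E ≃ₐ[K] E, σ ⟨c, hcE⟩ ≠ ⟨c, hcE⟩ := by
    by_contra hcon
    push Not at hcon
    have : (⟨c, hcE⟩ : E) ∈ Set.range (algebraMap K E) :=
      (InfiniteGalois.mem_range_algebraMap_iff_fixed _).mpr hcon
    obtain ⟨k, hk⟩ := this
    refine hcK ⟨k, ?_⟩
    have := congrArg (algebraMap E Ω) hk
    rwa [← IsScalarTower.algebraMap_apply] at this
  obtain ⟨B, hB⟩ := exists_isTranscendenceBasis E Ω
  obtain ⟨τ, hτ⟩ := exists_ext E Ω _ hB (MvPolynomial.mapEquiv B σ.toRingEquiv)
  have hτE : ∀ e : E, τ (algebraMap E Ω e) = algebraMap E Ω (σ e) := by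
    intro e
    have := hτ (MvPolynomial.C e)
    rw [MvPolynomial.aeval_C] at this
    rw [this]
    simp
  refine ⟨AlgEquiv.ofRingEquiv (f := τ) ?_, ?_⟩
  · intro k
    have := hτE (algebraMap K E k)
    rwa [σ.commutes, ← IsScalarTower.algebraMap_apply] at this
  · intro h
    apply hσ
    have h2 := hτE ⟨c, hcE⟩
    have h3 : algebraMap E Ω (σ ⟨c, hcE⟩) = algebraMap E Ω ⟨c, hcE⟩ := h2.symm.trans h
    exact (algebraMap E Ω).injective h3

end Aut

/-- TASK AUT (a) -/
theorem mem_range_of_fixed (K Ω : Type) [Field K] [CharZero K] [Field Ω] [IsAlgClosed Ω]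
    [Algebra K Ω] (c : Ω) (hc : ∀ τ : Ω ≃ₐ[K] Ω, τ c = c) : c ∈ Set.range (algebraMap K Ω) := by
  by_contra hcK
  by_cases h : IsAlgebraic K c
  · obtain ⟨τ, hτ⟩ := Aut.exists_aut_alg K Ω c h hcK
    exact hτ (hc τ)
  · obtain ⟨τ, hτ⟩ := Aut.exists_aut_shift' K Ω c h
    rw [hc τ] at hτ
    simp at hτ

/-- TASK AUT (b) -/
theorem exists_aut_shift (E Ω : Type) [Field E] [IsAlgClosed E] [Field Ω] [IsAlgClosed Ω]
    [Algebra E Ω] (s : Ω) (hs : s ∉ Set.range (algebraMap E Ω)) :
    ∃ τ : Ω ≃ₐ[E] Ω, τ s = s + 1 := by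
  refine Aut.exists_aut_shift' E Ω s ?_
  intro h
  exact hs (minpoly.mem_range_of_degree_eq_one E s
    (IsAlgClosed.degree_eq_one_of_irreducible E (minpoly.irreducible h.isIntegral)))

namespace Aut

section descent

variable {K Ω V : Type} [Field K] [Field Ω] [Algebra K Ω] [AddCommGroup V] [Module K V]

theorem repr_map {ι : Type} (b : Module.Basis ι K V) (τ : Ω ≃ₐ[K] Ω) (u : Ω ⊗[K] V) (i : ι) :
    (b.baseChange Ω).repr (TensorProduct.map τ.toLinearMap LinearMap.id u) i =
      τ ((b.baseChange Ω).repr u i) := by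
  induction u with
  | zero => simp
  | tmul x v => simp
  | add x y hx hy => simp only [map_add, Finsupp.add_apply, hx, hy]

theorem descent_aux
    (hfix : ∀ c : Ω, (∀ τ : Ω ≃ₐ[K] Ω, τ c = c) → c ∈ Set.range (algebraMap K Ω))
    (U : Submodule Ω (Ω ⊗[K] V))
    (hU : ∀ (τ : Ω ≃ₐ[K] Ω) (u : Ω ⊗[K] V), u ∈ U →
      TensorProduct.map τ.toLinearMap LinearMap.id u ∈ U)
    {ι : Type} (b : Module.Basis ι K V) (n : ℕ) :
    ∀ u ∈ U, ((b.baseChange Ω).repr u).support.card ≤ n →
      u ∈ Submodule.span Ω {u : Ω ⊗[K] V | u ∈ U ∧ ∃ v : V, u = 1 ⊗ₜ v} := by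
  classical
  induction n with
  | zero =>
    intro u _ hcard
    have h1 : (b.baseChange Ω).repr u = 0 := by
      rw [← Finsupp.support_eq_empty, ← Finset.card_eq_zero]
      omega
    have h2 : u = 0 := by simpa using h1
    rw [h2]
    exact Submodule.zero_mem _
  | succ n ih =>
    intro u hu hcard
    by_cases h0 : u = 0
    · rw [h0]
      exact Submodule.zero_mem _
    have h1 : (b.baseChange Ω).repr u ≠ 0 := by simpa using h0
    obtain ⟨i, hi⟩ := Finsupp.support_nonempty_iff.mpr h1
    rw [Finsupp.mem_support_iff] at hi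
    set a := (b.baseChange Ω).repr u i with ha
    -- normalise the coefficient at `i`
    obtain ⟨w, hw⟩ : ∃ w, w = a⁻¹ • u := ⟨_, rfl⟩
    have hwU : w ∈ U := hw ▸ U.smul_mem _ hu
    have hwi : (b.baseChange Ω).repr w i = 1 := by
      rw [hw, map_smul, Finsupp.smul_apply, ← ha, smul_eq_mul, inv_mul_cancel₀ hi]
    have hws : ((b.baseChange Ω).repr w).support ⊆ ((b.baseChange Ω).repr u).support := by
      rw [hw, map_smul]
      exact Finsupp.support_smul
    have huw : u = a • w := by
      rw [hw, smul_smul, mul_inv_cancel₀ hi, one_smul]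
    suffices hsuff : w ∈ Submodule.span Ω {u : Ω ⊗[K] V | u ∈ U ∧ ∃ v : V, u = 1 ⊗ₜ v} by
      rw [huw]
      exact Submodule.smul_mem _ _ hsuff
    by_cases hall : ∀ j, (b.baseChange Ω).repr w j ∈ Set.range (algebraMap K Ω)
    · choose k hk using hall
      refine Submodule.subset_span ⟨hwU, ∑ j ∈ ((b.baseChange Ω).repr w).support, k j • b j, ?_⟩
      rw [TensorProduct.tmul_sum]
      conv_lhs => rw [← (b.baseChange Ω).linearCombination_repr w]
      rw [Finsupp.linearCombination_apply, Finsupp.sum]
      refine Finset.sum_congr rfl ?_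
      intro j _
      rw [← hk j, Module.Basis.baseChange_apply, TensorProduct.tmul_smul, algebraMap_smul]
    · push Not at hall
      obtain ⟨j, hj⟩ := hall
      set c := (b.baseChange Ω).repr w j with hc
      obtain ⟨τ, hτ⟩ : ∃ τ : Ω ≃ₐ[K] Ω, τ c ≠ c := by
        by_contra hcon
        push Not at hcon
        exact hj (hfix c hcon)
      obtain ⟨w', hw'⟩ : ∃ w', w' = TensorProduct.map τ.toLinearMap LinearMap.id w - w := ⟨_, rfl⟩
      have hw'U : w' ∈ U := hw' ▸ U.sub_mem (hU τ w hwU) hwU
      have hrw' : ∀ l, (b.baseChange Ω).repr w' l =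
          τ ((b.baseChange Ω).repr w l) - (b.baseChange Ω).repr w l := by
        intro l
        rw [hw', map_sub, Finsupp.sub_apply, repr_map]
      have hw's : ((b.baseChange Ω).repr w').support ⊆
          ((b.baseChange Ω).repr w).support.erase i := by
        intro l hl
        rw [Finsupp.mem_support_iff, hrw'] at hl
        rw [Finset.mem_erase, Finsupp.mem_support_iff]
        refine ⟨?_, ?_⟩
        · rintro rfl
          rw [hwi, map_one, sub_self] at hl
          exact hl rfl
        · intro h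
          rw [h, map_zero, sub_self] at hl
          exact hl rfl
      have hcardw : ((b.baseChange Ω).repr w).support.card ≤ n + 1 :=
        (Finset.card_le_card hws).trans hcard
      have hmem_i : i ∈ ((b.baseChange Ω).repr w).support := by
        rw [Finsupp.mem_support_iff, hwi]
        exact one_ne_zero
      have hw'mem := ih w' hw'U (by
        have := Finset.card_le_card hw's
        rw [Finset.card_erase_of_mem hmem_i] at this
        omega)
      set e := c / (τ c - c) with he
      have hτc : τ c - c ≠ 0 := sub_ne_zero.mpr hτ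
      have hc0 : c ≠ 0 := by
        intro h
        rw [h, map_zero] at hτ
        exact hτ rfl
      have hmem_j : j ∈ ((b.baseChange Ω).repr w).support := by
        rw [Finsupp.mem_support_iff, ← hc]
        exact hc0
      have hx : w - e • w' ∈ Submodule.span Ω {u : Ω ⊗[K] V | u ∈ U ∧ ∃ v : V, u = 1 ⊗ₜ v} := by
        refine ih _ (U.sub_mem hwU (U.smul_mem _ hw'U)) ?_
        have hsub : ((b.baseChange Ω).repr (w - e • w')).support ⊆
            ((b.baseChange Ω).repr w).support.erase j := by
          intro l hl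
          rw [Finsupp.mem_support_iff, map_sub, map_smul, Finsupp.sub_apply,
            Finsupp.smul_apply, hrw'] at hl
          rw [Finset.mem_erase, Finsupp.mem_support_iff]
          refine ⟨?_, ?_⟩
          · rintro rfl
            rw [← hc, he, smul_eq_mul, div_mul_cancel₀ _ hτc, sub_self] at hl
            exact hl rfl
          · intro h
            rw [h, map_zero, sub_self, smul_zero, sub_self] at hl
            exact hl rfl
        have := Finset.card_le_card hsub
        rw [Finset.card_erase_of_mem hmem_j] at this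
        omega
      have : w = (w - e • w') + e • w' := by abel
      rw [this]
      exact Submodule.add_mem _ hx (Submodule.smul_mem _ _ hw'mem)

end descent

end Aut

/-- TASK AUT (c) -/
theorem descent (K Ω V : Type) [Field K] [Field Ω] [Algebra K Ω]
    (hfix : ∀ c : Ω, (∀ τ : Ω ≃ₐ[K] Ω, τ c = c) → c ∈ Set.range (algebraMap K Ω))
    [AddCommGroup V] [Module K V] (U : Submodule Ω (Ω ⊗[K] V))
    (hU : ∀ (τ : Ω ≃ₐ[K] Ω) (u : Ω ⊗[K] V), u ∈ U →
      TensorProduct.map τ.toLinearMap LinearMap.id u ∈ U) :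
    U = Submodule.span Ω {u : Ω ⊗[K] V | u ∈ U ∧ ∃ v : V, u = 1 ⊗ₜ v} := by
  apply le_antisymm
  · intro u hu
    exact Aut.descent_aux hfix U hU (Module.Basis.ofVectorSpace K V) _ u hu le_rfl
  · rw [Submodule.span_le]
    intro u hu
    exact hu.1

end Pool.Agent.D5741
end

section

/-!
# Base change of a function field: integral elements
-/

set_option autoImplicit false
open scoped TensorProduct nonZeroDivisors
open scoped IntermediateField.algebraAdjoinAdjoin
open Polynomial

namespace Pool.Agent.D5741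

namespace BC

theorem linInd_pow {K L : Type} [Field K] [Field L] [Algebra K L] {t : L}
    (ht : Transcendental K t) : LinearIndependent K (fun n : ℕ => t ^ n) := by
  have h1 := (Polynomial.basisMonomials K).linearIndependent.map' (aeval t).toLinearMap
    (LinearMap.ker_eq_bot.mpr (transcendental_iff_injective.mp ht))
  have h2 : (aeval t : K[X] →ₐ[K] L).toLinearMap ∘ (Polynomial.basisMonomials K) =
      fun n : ℕ => t ^ n := by
    ext n
    simp
  rwa [h2] at h1

theorem transc_of_linInd {K L : Type} [Field K] [Field L] [Algebra K L] {t : L}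
    (h : LinearIndependent K (fun n : ℕ => t ^ n)) : Transcendental K t := by
  rw [transcendental_iff]
  intro p hp
  rw [aeval_eq_sum_range] at hp
  have h1 := linearIndependent_iff'.mp h _ _ hp
  ext i
  by_cases hi : i ∈ Finset.range (p.natDegree + 1)
  · simpa using h1 i hi
  · rw [coeff_zero]
    apply coeff_eq_zero_of_natDegree_lt
    rw [Finset.mem_range] at hi
    omega

section core

variable {K L Ω 𝕃 : Type} [Field K] [Field L] [Algebra K L] [Field Ω] [Algebra K Ω] [Field 𝕃]
  [Algebra Ω 𝕃]

theorem map_adjoin (j : L →+* 𝕃)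
    (hj : ∀ k : K, j (algebraMap K L k) = algebraMap Ω 𝕃 (algebraMap K Ω k)) (t : L) (x : L)
    (hx : x ∈ IntermediateField.adjoin K {t}) : j x ∈ IntermediateField.adjoin Ω {j t} := by
  induction hx using IntermediateField.adjoin_induction with
  | mem y hy =>
    rw [Set.mem_singleton_iff] at hy
    rw [hy]
    exact IntermediateField.mem_adjoin_simple_self Ω (j t)
  | algebraMap k =>
    rw [hj]
    exact IntermediateField.algebraMap_mem _ _
  | add a b _ _ ha hb =>
    rw [map_add]
    exact add_mem ha hb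
  | inv a _ ha =>
    rw [map_inv₀]
    exact inv_mem ha
  | mul a b _ _ ha hb =>
    rw [map_mul]
    exact mul_mem ha hb

theorem gen_top (j : L →+* 𝕃)
    (hj : ∀ k : K, j (algebraMap K L k) = algebraMap Ω 𝕃 (algebraMap K Ω k)) (t θ : L)
    (hθ : IntermediateField.adjoin (IntermediateField.adjoin K {t}) {θ} = ⊤)
    (S : Subalgebra Ω 𝕃) (hS1 : ∀ S' : Subalgebra Ω 𝕃, (∀ l, j l ∈ S') → S ≤ S')
    (hS2 : ∀ x : 𝕃, ∃ a ∈ S, ∃ b ∈ S, x = a / b) :
    IntermediateField.adjoin (IntermediateField.adjoin Ω {j t}) {j θ} = ⊤ := by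
  have h1 : ∀ l : L, j l ∈ IntermediateField.adjoin (IntermediateField.adjoin Ω {j t}) {j θ} := by
    intro l
    have hl : l ∈ IntermediateField.adjoin (IntermediateField.adjoin K {t}) {θ} := by
      rw [hθ]
      trivial
    induction hl using IntermediateField.adjoin_induction with
    | mem y hy =>
      rw [Set.mem_singleton_iff] at hy
      rw [hy]
      exact IntermediateField.mem_adjoin_simple_self _ (j θ)
    | algebraMap k =>
      have h2 := map_adjoin j hj t k.1 k.2
      exact (IntermediateField.adjoin (IntermediateField.adjoin Ω {j t}) {j θ}).algebraMap_mem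
        ⟨_, h2⟩
    | add a b _ _ ha hb =>
      rw [map_add]
      exact add_mem ha hb
    | inv a _ ha =>
      rw [map_inv₀]
      exact inv_mem ha
    | mul a b _ _ ha hb =>
      rw [map_mul]
      exact mul_mem ha hb
  have h2 : S ≤ ((IntermediateField.adjoin (IntermediateField.adjoin Ω {j t})
      {j θ}).toSubalgebra.restrictScalars Ω) := hS1 _ h1
  rw [eq_top_iff]
  intro x _
  obtain ⟨a, ha, b, hb, rfl⟩ := hS2 x
  exact div_mem (h2 ha) (h2 hb)

theorem core [CharZero K] (j : L →+* 𝕃)
    (hj : ∀ k : K, j (algebraMap K L k) = algebraMap Ω 𝕃 (algebraMap K Ω k)) (t : L)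
    (ht : Transcendental K t) (hfin : FiniteDimensional (IntermediateField.adjoin K {t}) L)
    (hdisj : ∀ (ι : Type) (v : ι → L), LinearIndependent K v →
      LinearIndependent Ω (fun i => j (v i)))
    (S : Subalgebra Ω 𝕃) (hS0 : ∀ l, j l ∈ S)
    (hS1 : ∀ S' : Subalgebra Ω 𝕃, (∀ l, j l ∈ S') → S ≤ S')
    (hS2 : ∀ x : 𝕃, ∃ a ∈ S, ∃ b ∈ S, x = a / b) :
    Transcendental Ω (j t) ∧ FiniteDimensional (IntermediateField.adjoin Ω {j t}) 𝕃 ∧
      ∀ x : 𝕃, IsIntegral (Algebra.adjoin Ω {j t}) x → x ∈ S := by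
  -- transcendence
  have hT : Transcendental Ω (j t) := by
    apply transc_of_linInd
    have := hdisj ℕ _ (linInd_pow ht)
    simpa only [map_pow] using this
  have : CharZero Ω := charZero_of_injective_algebraMap (algebraMap K Ω).injective
  have : CharZero 𝕃 := charZero_of_injective_algebraMap (algebraMap Ω 𝕃).injective
  have : CharZero L := charZero_of_injective_algebraMap (algebraMap K L).injective
  have : CharZero (IntermediateField.adjoin K {t}) :=
    charZero_of_injective_algebraMap (algebraMap K _).injective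
  have : CharZero (IntermediateField.adjoin Ω {j t}) :=
    charZero_of_injective_algebraMap (algebraMap Ω _).injective
  -- primitive element
  obtain ⟨θ₀, hθ₀⟩ := Field.exists_primitive_element (IntermediateField.adjoin K {t}) L
  have halg : IsAlgebraic (Algebra.adjoin K {t}) θ₀ := by
    have : Algebra.IsAlgebraic (Algebra.adjoin K {t}) L :=
      Algebra.IsAlgebraic.trans (Algebra.adjoin K {t}) (IntermediateField.adjoin K {t}) L
    exact Algebra.IsAlgebraic.isAlgebraic θ₀
  obtain ⟨c, hc, hint⟩ := halg.exists_integral_multiple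
  set θ := c • θ₀ with hθdef
  have hc' : (c : L) ≠ 0 := by simpa using hc
  have hθ : IntermediateField.adjoin (IntermediateField.adjoin K {t}) {θ} = ⊤ := by
    rw [eq_top_iff, ← hθ₀, IntermediateField.adjoin_simple_le_iff]
    have h1 : θ₀ = (c : L)⁻¹ * θ := by
      rw [hθdef, Algebra.smul_def]
      change θ₀ = (c : L)⁻¹ * ((c : L) * θ₀)
      rw [inv_mul_cancel_left₀ hc']
    rw [h1]
    refine mul_mem (inv_mem ?_) (IntermediateField.mem_adjoin_simple_self _ θ)
    exact (IntermediateField.adjoin (IntermediateField.adjoin K {t}) {θ}).algebraMap_mem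
      ⟨(c : L), IntermediateField.algebra_adjoin_le_adjoin K {t} c.2⟩
  have htop := gen_top j hj t θ hθ S hS1 hS2
  -- integrality of the image of `θ`
  have hmapA : ∀ x : Algebra.adjoin K {t}, j (x : L) ∈ Algebra.adjoin Ω {j t} := by
    rintro ⟨x, hx⟩
    obtain ⟨p, rfl⟩ := Algebra.adjoin_mem_exists_aeval _ _ hx
    change j (aeval t p) ∈ _
    have h1 : j (aeval t p) = aeval (j t) (p.map (algebraMap K Ω)) := by
      rw [aeval_def, hom_eval₂, aeval_def, eval₂_map]
      congr 1
      ext k
      exact hj k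
    rw [h1]
    exact aeval_mem_adjoin_singleton _ _
  have hint' : IsIntegral (Algebra.adjoin Ω {j t}) (j θ) := by
    refine IsIntegral.map_of_comp_eq
      ((j.comp (algebraMap (Algebra.adjoin K {t}) L)).codRestrict
        (Algebra.adjoin Ω {j t}) hmapA) j ?_ hint
    ext x
    rfl
  -- linear independence of the powers of the image of `θ`
  set n := (minpoly (IntermediateField.adjoin K {t}) θ).natDegree with hn
  have hli0 : LinearIndependent (IntermediateField.adjoin K {t}) (fun i : Fin n => θ ^ (i : ℕ)) :=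
    linearIndependent_pow θ
  have hgen : Transcendental K (IntermediateField.AdjoinSimple.gen K t) := by
    rw [← transcendental_algebraMap_iff (algebraMap (IntermediateField.adjoin K {t}) L).injective]
    exact ht
  have hli1 := linearIndependent_smul (linInd_pow hgen) hli0
  have hli2 := hdisj _ _ hli1
  have hli3 : LinearIndependent (Algebra.adjoin Ω {j t}) (fun i : Fin n => j θ ^ (i : ℕ)) := by
    rw [Fintype.linearIndependent_iff]
    intro g hg i
    have hp : ∀ i, ∃ p : Polynomial Ω, aeval (j t) p = (g i : 𝕃) := fun i =>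
      Algebra.adjoin_mem_exists_aeval _ _ (g i).2
    choose p hp using hp
    obtain ⟨N, hN⟩ : ∃ N, ∀ i, (p i).natDegree < N :=
      ⟨∑ i, (p i).natDegree + 1, fun i => Nat.lt_succ_of_le
        (Finset.single_le_sum (f := fun i => (p i).natDegree) (fun _ _ => Nat.zero_le _)
          (Finset.mem_univ i))⟩
    have h1 : ∑ q ∈ Finset.range N ×ˢ (Finset.univ : Finset (Fin n)),
        (p q.2).coeff q.1 • j ((IntermediateField.AdjoinSimple.gen K t) ^ q.1 • θ ^ (q.2 : ℕ)) = 0 := by
      rw [Finset.sum_product_right]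
      rw [← hg]
      refine Finset.sum_congr rfl ?_
      intro i _
      have h2 : g i • j θ ^ (i : ℕ) = aeval (j t) (p i) * j θ ^ (i : ℕ) := by
        rw [hp]
        rfl
      rw [h2, aeval_eq_sum_range' (hN i), Finset.sum_mul]
      refine Finset.sum_congr rfl ?_
      intro m _
      rw [smul_mul_assoc]
      congr 1
      rw [Algebra.smul_def, map_mul, map_pow, map_pow, map_pow]
      rfl
    have h3 := linearIndependent_iff'.mp hli2 _ _ h1
    have h4 : p i = 0 := by
      ext m
      rw [coeff_zero]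
      by_cases hm : m < N
      · exact h3 (m, i) (Finset.mem_product.mpr ⟨Finset.mem_range.mpr hm, Finset.mem_univ _⟩)
      · apply coeff_eq_zero_of_natDegree_lt
        have := hN i
        omega
    have h5 := hp i
    rw [h4, map_zero] at h5
    exact Subtype.ext h5.symm
  have hli4 : LinearIndependent (IntermediateField.adjoin Ω {j t})
      (fun i : Fin n => j θ ^ (i : ℕ)) :=
    (LinearIndependent.iff_fractionRing (Algebra.adjoin Ω {j t})
      (IntermediateField.adjoin Ω {j t})).mp hli3
  -- the minimal polynomial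
  let φ : IntermediateField.adjoin K {t} →+* IntermediateField.adjoin Ω {j t} :=
    (j.comp (algebraMap (IntermediateField.adjoin K {t}) L)).codRestrict
      (IntermediateField.adjoin Ω {j t}) (fun x => map_adjoin j hj t x.1 x.2)
  have hφ : (algebraMap (IntermediateField.adjoin Ω {j t}) 𝕃).comp φ =
      j.comp (algebraMap (IntermediateField.adjoin K {t}) L) := by
    ext x
    rfl
  have haev : ∀ q : Polynomial (IntermediateField.adjoin K {t}), aeval (j θ) (q.map φ) = j (aeval θ q) := by
    intro q
    rw [aeval_def, eval₂_map, hφ, aeval_def, hom_eval₂]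
  have hθint : IsIntegral (IntermediateField.adjoin K {t}) θ := Algebra.IsIntegral.isIntegral θ
  have hmin : minpoly (IntermediateField.adjoin Ω {j t}) (j θ) =
      (minpoly (IntermediateField.adjoin K {t}) θ).map φ := by
    refine minpoly.eq_of_linearIndependent _ _ ((minpoly.monic hθint).map φ) ?_ n ?_ hli4
    · rw [haev, minpoly.aeval, map_zero]
    · rw [degree_map, degree_eq_natDegree (minpoly.ne_zero hθint)]
  -- finiteness
  have hΘint : IsIntegral (IntermediateField.adjoin Ω {j t}) (j θ) := hint'.tower_top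
  have hfin' : FiniteDimensional (IntermediateField.adjoin Ω {j t}) 𝕃 := by
    have h1 := IntermediateField.adjoin.finiteDimensional hΘint
    rw [htop] at h1
    exact LinearEquiv.finiteDimensional
      (IntermediateField.topEquiv (F := IntermediateField.adjoin Ω {j t}) (E := 𝕃)).toLinearEquiv
  refine ⟨hT, hfin', ?_⟩
  intro x hx
  have halgtop : Algebra.adjoin (IntermediateField.adjoin Ω {j t}) {j θ} = ⊤ := by
    rw [← IntermediateField.adjoin_simple_toSubalgebra_of_isAlgebraic hΘint.isAlgebraic, htop]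
    rfl
  have : IsIntegrallyClosed (Algebra.adjoin Ω {j t}) :=
    IsIntegrallyClosed.of_equiv (Polynomial.algEquivOfTranscendental Ω (j t) hT).toRingEquiv
  have hdual : x ∈ (Algebra.traceForm (IntermediateField.adjoin Ω {j t}) 𝕃).dualSubmodule
      (Subalgebra.toSubmodule (Algebra.adjoin (Algebra.adjoin Ω {j t}) {j θ})) := by
    rw [LinearMap.BilinForm.mem_dualSubmodule]
    intro y hy
    rw [Algebra.traceForm_apply]
    have hy' : IsIntegral (Algebra.adjoin Ω {j t}) y :=
      adjoin_le_integralClosure hint' hy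
    have h1 := Algebra.isIntegral_trace (L := IntermediateField.adjoin Ω {j t}) (hx.mul hy')
    obtain ⟨z, hz⟩ := IsIntegrallyClosed.isIntegral_iff.mp h1
    rw [Submodule.mem_one]
    exact ⟨z, hz⟩
  rw [traceForm_dualSubmodule_adjoin (Algebra.adjoin Ω {j t}) (IntermediateField.adjoin Ω {j t})
    halgtop hint'] at hdual
  rw [hmin, derivative_map, haev] at hdual
  obtain ⟨z, hz, rfl⟩ := hdual
  have hzS : z ∈ S := by
    have h1 : Algebra.adjoin Ω {j t} ≤ S := by
      rw [Algebra.adjoin_le_iff]
      intro y hy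
      rw [Set.mem_singleton_iff] at hy
      rw [hy]
      exact hS0 t
    obtain ⟨q, rfl⟩ := Algebra.adjoin_mem_exists_aeval _ _ hz
    rw [aeval_eq_sum_range]
    refine sum_mem ?_
    intro i _
    rw [Algebra.smul_def]
    exact mul_mem (h1 (q.coeff i).2) (pow_mem (hS0 θ) i)
  change (j _)⁻¹ * z ∈ S
  rw [← map_inv₀]
  exact mul_mem (hS0 _) hzS

end core

end BC

/-- TASK BC -/
theorem integral_mem_range (K L Ω 𝕃 : Type) [Field K] [CharZero K] [Field L] [Algebra K L] (t : L)
    (ht : Transcendental K t) (hfin : FiniteDimensional (IntermediateField.adjoin K {t}) L)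
    [Field Ω] [Algebra K Ω] [IsDomain (Ω ⊗[K] L)]
    [Field 𝕃] [Algebra (Ω ⊗[K] L) 𝕃] [IsFractionRing (Ω ⊗[K] L) 𝕃] [Algebra Ω 𝕃]
    [IsScalarTower Ω (Ω ⊗[K] L) 𝕃] :
    Transcendental Ω (algebraMap (Ω ⊗[K] L) 𝕃 (1 ⊗ₜ t)) ∧
    FiniteDimensional (IntermediateField.adjoin Ω {algebraMap (Ω ⊗[K] L) 𝕃 (1 ⊗ₜ t)}) 𝕃 ∧
    ∀ x ∈ Ofin Ω (algebraMap (Ω ⊗[K] L) 𝕃 (1 ⊗ₜ t)), ∃ y : Ω ⊗[K] L,
      algebraMap (Ω ⊗[K] L) 𝕃 y = x := by
  let j : L →+* 𝕃 := (algebraMap (Ω ⊗[K] L) 𝕃).comp
    (Algebra.TensorProduct.includeRight : L →ₐ[K] Ω ⊗[K] L).toRingHom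
  have hjdef : ∀ l, j l = algebraMap (Ω ⊗[K] L) 𝕃 (1 ⊗ₜ l) := fun l => rfl
  have hj : ∀ k : K, j (algebraMap K L k) = algebraMap Ω 𝕃 (algebraMap K Ω k) := by
    intro k
    rw [hjdef, IsScalarTower.algebraMap_apply Ω (Ω ⊗[K] L) 𝕃]
    congr 1
    rw [Algebra.TensorProduct.algebraMap_apply, Algebra.algebraMap_self_apply,
      Algebra.algebraMap_eq_smul_one, TensorProduct.tmul_smul, TensorProduct.smul_tmul',
      ← Algebra.algebraMap_eq_smul_one]
  have hdisj : ∀ (ι : Type) (v : ι → L), LinearIndependent K v →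
      LinearIndependent Ω (fun i => j (v i)) := by
    intro ι v hv
    have h1 : LinearIndependent Ω (fun i => (1 : Ω) ⊗ₜ[K] v i) :=
      Module.Flat.linearIndependent_one_tmul hv
    exact h1.map' (IsScalarTower.toAlgHom Ω (Ω ⊗[K] L) 𝕃).toLinearMap
      (LinearMap.ker_eq_bot.mpr (IsFractionRing.injective (Ω ⊗[K] L) 𝕃))
  obtain ⟨h1, h2, h3⟩ := BC.core j hj t ht hfin hdisj
    (IsScalarTower.toAlgHom Ω (Ω ⊗[K] L) 𝕃).range (fun l => ⟨1 ⊗ₜ l, rfl⟩)
    (by
      intro S' hS'
      rintro _ ⟨u, rfl⟩
      change IsScalarTower.toAlgHom Ω (Ω ⊗[K] L) 𝕃 u ∈ S'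
      induction u with
      | zero => rw [map_zero]; exact zero_mem _
      | tmul x l =>
        have : (IsScalarTower.toAlgHom Ω (Ω ⊗[K] L) 𝕃) (x ⊗ₜ l) = x • j l := by
          rw [hjdef, ← algebraMap_smul (Ω ⊗[K] L) x (algebraMap (Ω ⊗[K] L) 𝕃 (1 ⊗ₜ l)),
            Algebra.smul_def, ← map_mul]
          simp
        rw [this]
        exact S'.smul_mem (hS' l) x
      | add a b ha hb =>
        rw [map_add]
        exact add_mem ha hb)
    (by
      intro x
      obtain ⟨a, b, _, rfl⟩ := IsFractionRing.div_surjective (A := Ω ⊗[K] L) x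
      exact ⟨_, ⟨a, rfl⟩, _, ⟨b, rfl⟩, rfl⟩)
  refine ⟨h1, h2, ?_⟩
  intro x hx
  obtain ⟨y, hy⟩ := h3 x hx
  exact ⟨y, hy⟩

end Pool.Agent.D5741
end

section

/-!
# Modules over the cubic cyclic algebra; a count of algebraically independent elements
-/

set_option autoImplicit false

namespace Pool.Agent.D5741

namespace Nine

open Polynomial

section

variable {K W : Type} [Field K] [AddCommGroup W] [Module K W] (α : K)

/-- the polynomial `X ^ 3 - α` -/
noncomputable abbrev pol : K[X] := X ^ 3 - C α

/-- the field `K[X] / (X ^ 3 - α)` -/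
abbrev CF : Type := AdjoinRoot (pol α)

theorem pol_monic : (pol α).Monic := monic_X_pow_sub_C α (by norm_num)

theorem pol_natDegree : (pol α).natDegree = 3 := natDegree_X_pow_sub_C

theorem root_cube : (AdjoinRoot.root (pol α)) ^ 3 = algebraMap K (CF α) α := by
  have h := AdjoinRoot.eval₂_root (pol α)
  simp only [pol, eval₂_sub, eval₂_X_pow, eval₂_C] at h
  rw [sub_eq_zero] at h
  exact h

/-- every element of the cubic field has three coordinates -/
theorem exists_coord (x : CF α) : ∃ c : Fin 3 → K, x = algebraMap K (CF α) (c 0) +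
    AdjoinRoot.root (pol α) * algebraMap K (CF α) (c 1) +
      AdjoinRoot.root (pol α) ^ 2 * algebraMap K (CF α) (c 2) := by
  induction x using AdjoinRoot.induction_on with
  | ih p =>
    refine ⟨fun i => (p %ₘ pol α).coeff i, ?_⟩
    have h1 : AdjoinRoot.mk (pol α) p = AdjoinRoot.mk (pol α) (p %ₘ pol α) := by
      rw [AdjoinRoot.mk_eq_mk]
      have := modByMonic_add_div p (pol α)
      exact ⟨p /ₘ pol α, by linear_combination -this⟩
    have h2 : (p %ₘ pol α).natDegree < 3 := by
      rw [← pol_natDegree α]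
      refine natDegree_modByMonic_lt p (pol_monic α) ?_
      intro h
      have := pol_natDegree α
      rw [h] at this
      simp at this
    have h3 : p %ₘ pol α = ∑ i ∈ Finset.range 3, C ((p %ₘ pol α).coeff i) * X ^ i :=
      (p %ₘ pol α).as_sum_range_C_mul_X_pow' h2
    rw [h1]
    conv_lhs => rw [h3]
    simp only [Finset.sum_range_succ, Finset.sum_range_zero, zero_add, map_add, map_mul, pow_zero,
      mul_one, pow_one, map_pow, AdjoinRoot.mk_X, AdjoinRoot.mk_C]
    simp only [Fin.val_zero, Fin.val_one, Fin.val_two, AdjoinRoot.algebraMap_eq]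
    ring

theorem finrank_CF : Module.finrank K (CF α) = 3 := by
  rw [PowerBasis.finrank (AdjoinRoot.powerBasis (f := pol α) (pol_monic α).ne_zero),
    AdjoinRoot.powerBasis_dim, pol_natDegree]

/-- the automorphism `X ↦ ω X` -/
noncomputable def sg (ω : K) (hω : ω ^ 3 = 1) : CF α →ₐ[K] CF α :=
  AdjoinRoot.liftAlgHom (pol α) (Algebra.ofId K (CF α))
    (algebraMap K (CF α) ω * AdjoinRoot.root (pol α)) (by
      have h := root_cube α
      simp only [pol, eval₂_sub, eval₂_X_pow, eval₂_C] at h ⊢
      rw [mul_pow, ← map_pow, hω, map_one, one_mul, h]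
      exact sub_self _)

theorem sg_root (ω : K) (hω : ω ^ 3 = 1) : sg α ω hω (AdjoinRoot.root (pol α)) =
    algebraMap K (CF α) ω * AdjoinRoot.root (pol α) :=
  AdjoinRoot.liftAlgHom_root _ _ _ _

theorem norm_coord (ω : K) (hω : ω ^ 2 + ω + 1 = 0) (hω3 : ω ^ 3 = 1) (x : CF α) :
    ∃ c : Fin 3 → K, x * sg α ω hω3 x * sg α ω hω3 (sg α ω hω3 x) =
      algebraMap K (CF α) (nf α (c 0) (c 1) (c 2)) := by
  obtain ⟨c, hc⟩ := exists_coord α x
  refine ⟨c, ?_⟩
  have hω' : (algebraMap K (CF α) ω) ^ 2 + algebraMap K (CF α) ω + 1 = 0 := by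
    rw [← map_pow, ← map_one (algebraMap K (CF α)), ← map_add, ← map_add, hω, map_zero]
  rw [map_nf, ← root_cube, nf_eq_prod _ _ _ _ _ hω', hc]
  simp only [map_add, map_mul, map_pow, AlgHom.commutes, sg_root]
  ring

/-- the action of `K[X] / (X ^ 3 - α)` through an operator `U` with `U ^ 3 = α` -/
noncomputable def act (U : Module.End K W) (hU : U ^ 3 = α • (1 : Module.End K W)) :
    CF α →+* Module.End K W :=
  Ideal.Quotient.lift (Ideal.span {pol α}) (aeval U).toRingHom (by
    intro p hp
    rw [Ideal.mem_span_singleton] at hp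
    obtain ⟨r, rfl⟩ := hp
    change aeval U (pol α * r) = 0
    rw [map_mul]
    have : aeval U (pol α) = 0 := by
      simp only [pol, map_sub, map_pow, aeval_X, aeval_C]
      rw [hU, Algebra.algebraMap_eq_smul_one, sub_self]
    rw [this, zero_mul])

theorem act_mk (U : Module.End K W) (hU : U ^ 3 = α • (1 : Module.End K W)) (p : K[X]) :
    act α U hU (AdjoinRoot.mk (pol α) p) = aeval U p := rfl

end

end Nine

open Nine Polynomial in
/-- TASK NINE -/
theorem nine_dvd (K W : Type) [Field K] [CharZero K] [AddCommGroup W] [Module K W]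
    [FiniteDimensional K W] (ω α a : K) (hω : ω ^ 2 + ω + 1 = 0) (hα0 : α ≠ 0) (ha0 : a ≠ 0)
    (ha : ¬ IsNm α a) (U T : Module.End K W) (hU : U ^ 3 = α • (1 : Module.End K W))
    (hT : T ^ 3 = a • (1 : Module.End K W)) (hUT : T * U = ω • (U * T)) :
    9 ∣ Module.finrank K W := by
  have hω3 : ω ^ 3 = 1 := by linear_combination (ω - 1) * hω
  have hcube : ∀ b : K, b ^ 3 ≠ α := by
    intro b hb
    apply ha
    rw [← hb]
    refine IsNm.of_cube ?_ a
    rintro rfl
    apply hα0
    rw [← hb]
    ring
  have hirr : Irreducible (pol α) := X_pow_sub_C_irreducible_of_prime (by norm_num) hcube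
  have : Fact (Irreducible (pol α)) := ⟨hirr⟩
  let : Module (CF α) W := Module.compHom W (act α U hU)
  have hsmul : ∀ (m : CF α) (w : W), m • w = act α U hU m w := fun m w => rfl
  have : IsScalarTower K (CF α) W := by
    refine ⟨fun c m w => ?_⟩
    rw [hsmul, hsmul]
    induction m using AdjoinRoot.induction_on with
    | ih p =>
      have h1 : act α U hU (algebraMap K (CF α) c) = algebraMap K (Module.End K W) c :=
        aeval_C U c
      rw [Algebra.smul_def, map_mul, h1]
      rfl
  have : FiniteDimensional (CF α) W := Module.Finite.of_restrictScalars_finite K (CF α) W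
  have hfin : 3 * Module.finrank (CF α) W = Module.finrank K W := by
    rw [← finrank_CF α]
    exact Module.finrank_mul_finrank K (CF α) W
  set r := Module.finrank (CF α) W with hr
  -- `T` is semilinear
  have hsemi : ∀ (m : CF α) (w : W), T (m • w) = sg α ω hω3 m • T w := by
    intro m
    induction m using AdjoinRoot.induction_on with
    | ih p =>
      induction p using Polynomial.induction_on with
      | C c =>
        intro w
        have h1 : AdjoinRoot.mk (pol α) (C c) = algebraMap K (CF α) c := rfl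
        rw [h1, AlgHom.commutes, algebraMap_smul, algebraMap_smul, map_smul]
      | add p q hp hq =>
        intro w
        rw [map_add, add_smul, map_add, hp, hq, map_add, add_smul]
      | monomial n c ih =>
        intro w
        have h1 : AdjoinRoot.mk (pol α) (C c * X ^ (n + 1)) =
            AdjoinRoot.mk (pol α) (C c * X ^ n) * AdjoinRoot.root (pol α) := by
          rw [pow_succ, ← mul_assoc, map_mul, AdjoinRoot.mk_X]
        have h2 : ∀ w : W, AdjoinRoot.root (pol α) • w = U w := by
          intro w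
          rw [hsmul, ← AdjoinRoot.mk_X, act_mk, aeval_X]
        rw [h1, mul_smul, ih, map_mul (sg α ω hω3) _ (AdjoinRoot.root (pol α)), mul_smul, sg_root,
          mul_smul, h2, h2, algebraMap_smul]
        congr 1
        have h3 := LinearMap.congr_fun hUT w
        exact h3
  -- the matrix of `T`
  let b := Module.finBasis (CF α) W
  let A : Matrix (Fin r) (Fin r) (CF α) := fun i j => b.repr (T (b j)) i
  have hrepr : ∀ (w : W) (i : Fin r),
      b.repr (T w) i = ∑ j, A i j * sg α ω hω3 (b.repr w j) := by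
    intro w i
    conv_lhs => rw [← b.sum_repr w]
    rw [map_sum, map_sum, Finsupp.finsetSum_apply]
    refine Finset.sum_congr rfl fun j _ => ?_
    rw [hsemi, map_smul, Finsupp.smul_apply, smul_eq_mul, mul_comm]
  let σ : CF α →+* CF α := (sg α ω hω3).toRingHom
  have hmat : A * A.map σ * (A.map σ).map σ = (algebraMap K (CF α) a) • (1 : Matrix _ _ (CF α)) := by
    ext i j
    have h1 : b.repr (T (T (T (b j)))) i = (algebraMap K (CF α) a) * (if i = j then 1 else 0) := by
      have h2 : T (T (T (b j))) = a • b j := by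
        have := LinearMap.congr_fun hT (b j)
        exact this
      rw [h2, ← algebraMap_smul (CF α) a (b j), map_smul, Finsupp.smul_apply, smul_eq_mul,
        Module.Basis.repr_self, Finsupp.single_apply]
      congr 1
      simp only [eq_comm]
    have h3 : b.repr (T (T (T (b j)))) i = (A * A.map σ * (A.map σ).map σ) i j := by
      rw [hrepr, Matrix.mul_assoc, Matrix.mul_apply]
      refine Finset.sum_congr rfl fun k _ => ?_
      congr 1
      rw [hrepr, map_sum, Matrix.mul_apply]
      refine Finset.sum_congr rfl fun l _ => ?_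
      rw [map_mul]
      rfl
    rw [← h3, h1, Matrix.smul_apply, smul_eq_mul, Matrix.one_apply]
  have hdet := congrArg Matrix.det hmat
  rw [Matrix.det_mul, Matrix.det_mul, Matrix.det_smul, Matrix.det_one, mul_one, Fintype.card_fin]
    at hdet
  have hd1 : (A.map σ).det = σ A.det := (RingHom.map_det σ A).symm
  have hd2 : ((A.map σ).map σ).det = σ (A.map σ).det := (RingHom.map_det σ _).symm
  rw [hd2, hd1] at hdet
  obtain ⟨c, hc⟩ := norm_coord α ω hω hω3 A.det
  have hnm : IsNm α (a ^ r) := by
    refine ⟨c 0, c 1, c 2, ?_⟩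
    apply (algebraMap K (CF α)).injective
    rw [← hc, map_pow]
    exact hdet
  have h3r : 3 ∣ r := by
    by_contra hcon
    exact ha (IsNm.of_pow ha0 hcon hnm)
  obtain ⟨k, hk⟩ := h3r
  exact ⟨k, by rw [← hfin, hk]; ring⟩

/-- TASK COUNT -/
theorem algInd_of_count (K Ω : Type) [Field K] [Field Ω] [Algebra K Ω] (ι : Type) [Finite ι]
    (g m : ℕ) (hm : m ≤ g) (q : Fin g → Ω) (y : Fin m → Ω) (w : ι → Ω)
    (h : AlgebraicIndependent K (Sum.elim q w))
    (hq : ∀ i, IsAlgebraic (IntermediateField.adjoin K (Set.range (Sum.elim y w))) (q i)) :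
    m = g ∧ AlgebraicIndependent K (Sum.elim y w) := by
  set s : Set Ω := Set.range (Sum.elim y w) with hs
  set I : Set Ω := Set.range (Sum.elim q w) with hI
  let M := AlgebraicIndependent.matroid K Ω
  have hind : M.Indep I := by
    rw [AlgebraicIndependent.matroid_indep_iff]
    exact h.to_subtype_range
  have hsub : I ⊆ M.closure s := by
    rw [AlgebraicIndependent.matroid_closure_eq]
    rintro x ⟨i | i, rfl⟩
    · exact IntermediateField.isAlgebraic_adjoin_iff.1 (hq i)
    · have h1 : w i ∈ Algebra.adjoin K s := Algebra.subset_adjoin ⟨Sum.inr i, rfl⟩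
      exact isAlgebraic_algebraMap (⟨w i, h1⟩ : Algebra.adjoin K s)
  have h1 : I.encard ≤ s.encard := by
    refine (hind.encard_le_eRk_of_subset hsub).trans ?_
    rw [Matroid.eRk_closure_eq]
    exact M.eRk_le_encard s
  have hfinι : Fintype ι := Fintype.ofFinite ι
  have hIc : I.encard = ((g + Fintype.card ι : ℕ) : ℕ∞) := by
    rw [hI, ← Set.image_univ, h.injective.encard_image, Set.encard_univ, ENat.card_sum,
      ENat.card_eq_coe_fintype_card, ENat.card_eq_coe_fintype_card, Fintype.card_fin]
    norm_cast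
  have hsc : s.encard ≤ ((m + Fintype.card ι : ℕ) : ℕ∞) := by
    rw [hs, ← Set.image_univ]
    refine (Set.encard_image_le _ _).trans ?_
    rw [Set.encard_univ, ENat.card_sum,
      ENat.card_eq_coe_fintype_card, ENat.card_eq_coe_fintype_card, Fintype.card_fin]
    norm_cast
  have hmg : m = g := by
    have h2 := (hIc.symm.le.trans h1).trans hsc
    have h3 : g + Fintype.card ι ≤ m + Fintype.card ι := by exact_mod_cast h2
    omega
  subst hmg
  refine ⟨rfl, ?_⟩
  have hsfin : s.Finite := Set.finite_range _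
  have hseq : s.encard = ((m + Fintype.card ι : ℕ) : ℕ∞) :=
    le_antisymm hsc (hIc.symm.le.trans h1)
  have hrk : M.eRk s = s.encard := by
    refine le_antisymm (M.eRk_le_encard s) ?_
    rw [hseq, ← hIc, ← Matroid.eRk_closure_eq]
    exact hind.encard_le_eRk_of_subset hsub
  have hsind : M.Indep s := (Matroid.indep_iff_eRk_eq_encard_of_finite hsfin).2 hrk
  rw [AlgebraicIndependent.matroid_indep_iff] at hsind
  refine AlgebraicIndependent.of_subtype_range ?_ hsind
  have hcard : Set.ncard (Set.range (Sum.elim y w)) = Nat.card (Fin m ⊕ ι) := by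
    rw [← hs, Set.ncard, hseq, ENat.toNat_natCast, Nat.card_sum, Nat.card_eq_fintype_card,
      Nat.card_eq_fintype_card, Fintype.card_fin]
  rw [← Set.image_univ] at hcard
  have h2 : Set.InjOn (Sum.elim y w) Set.univ := by
    rw [← Set.ncard_image_iff, hcard, Set.ncard_univ]
  exact Set.injOn_univ.1 h2

end Pool.Agent.D5741
end
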