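import Mathlib
import Pool.Agent.Lib.MP_d5741c_al.Basic
import Pool.Agent.Lib.MP_d5741c_al.FF
import Pool.Agent.Lib.MP_d5741c_al.Curve
import Pool.Agent.Lib.MP_d5741c_al.DTA
import Pool.Agent.Lib.MP_d5741c_al.Mg.G001
import Pool.Agent.Lib.MP_d5741c_al.Mg.G004
import Pool.Agent.Lib.MP_d5741c_al.Mg.G002

section

set_option autoImplicit false
open scoped TensorProduct nonZeroDivisors

namespace Pool.Agent.D5741

section Abstract

variable {k 𝕃 : Type} [Field k] [Field 𝕃] [Algebra k 𝕃]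

/-- TASK CHI (1) -/
theorem chi_symm (I J : Submodule k 𝕃) : chi I J = chi J I := by
  unfold chi h0 h1
  rw [inf_comm, sup_comm]

namespace ChiAux

lemma fd_of_covBy {A B : Submodule k 𝕃} (h : A ⋖ B) :
    (FiniteDimensional k A ↔ FiniteDimensional k B) ∧
    (FiniteDimensional k B → Module.finrank k B = Module.finrank k A + 1) := by
  obtain ⟨x, hxB, hxA⟩ := SetLike.exists_of_lt h.lt
  have hB : B = A ⊔ Submodule.span k {x} := by
    rcases h.eq_or_eq (c := A ⊔ Submodule.span k {x}) le_sup_left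
      (sup_le h.le (by rw [Submodule.span_singleton_le_iff_mem]; exact hxB)) with h1 | h1
    · exact absurd (h1 ▸ (le_sup_right : Submodule.span k {x} ≤ _)
        (Submodule.mem_span_singleton_self x)) hxA
    · exact h1.symm
  constructor
  · constructor
    · intro hA
      rw [hB]
      infer_instance
    · intro hB'
      exact Submodule.finiteDimensional_of_le h.le
  · intro hB'
    have hs : IsSimpleModule k (B ⧸ Submodule.comap B.subtype A) :=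
      (covBy_iff_quot_is_simple h.le).mp h
    have h1 := isSimpleModule_iff_finrank_eq_one.mp hs
    have h2 := Submodule.finrank_quotient_add_finrank (Submodule.comap B.subtype A)
    have h3 : Module.finrank k (Submodule.comap B.subtype A) = Module.finrank k A :=
      (Submodule.comapSubtypeEquivOfLe h.le).finrank_eq
    omega

lemma quot_fd_of_covBy {A B : Submodule k 𝕃} (h : A ⋖ B) :
    (FiniteDimensional k (𝕃 ⧸ A) ↔ FiniteDimensional k (𝕃 ⧸ B)) ∧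
    (FiniteDimensional k (𝕃 ⧸ A) → Module.finrank k (𝕃 ⧸ A) = Module.finrank k (𝕃 ⧸ B) + 1) := by
  obtain ⟨x, hxB, hxA⟩ := SetLike.exists_of_lt h.lt
  have hB : B = A ⊔ Submodule.span k {x} := by
    rcases h.eq_or_eq (c := A ⊔ Submodule.span k {x}) le_sup_left
      (sup_le h.le (by rw [Submodule.span_singleton_le_iff_mem]; exact hxB)) with h1 | h1
    · exact absurd (h1 ▸ (le_sup_right : Submodule.span k {x} ≤ _)
        (Submodule.mem_span_singleton_self x)) hxA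
    · exact h1.symm
  have hmap : B.map A.mkQ = Submodule.span k {A.mkQ x} := by
    rw [hB, Submodule.map_sup, Submodule.mkQ_map_self, bot_sup_eq, Submodule.map_span,
      Set.image_singleton]
  have hx0 : A.mkQ x ≠ 0 := by
    rw [Ne, Submodule.mkQ_apply, Submodule.Quotient.mk_eq_zero]
    exact hxA
  have hfr : Module.finrank k (B.map A.mkQ) = 1 := by
    rw [hmap]; exact finrank_span_singleton hx0
  have hfd : FiniteDimensional k (B.map A.mkQ) := by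
    rw [hmap]; infer_instance
  have e := Submodule.quotientQuotientEquivQuotient A B h.le
  constructor
  · constructor
    · intro hA
      exact Module.Finite.equiv e
    · intro hB'
      have : FiniteDimensional k ((𝕃 ⧸ A) ⧸ B.map A.mkQ) := Module.Finite.equiv e.symm
      exact Module.Finite.of_submodule_quotient (B.map A.mkQ)
  · intro hA
    have h2 := Submodule.finrank_quotient_add_finrank (B.map A.mkQ)
    rw [hfr, e.finrank_eq] at h2
    omega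

end ChiAux

/-- TASK CHI (2) -/
theorem chi_covBy {I' I : Submodule k 𝕃} (h : I' ⋖ I) (J : Submodule k 𝕃) :
    (FiniteDimensional k ↥(I' ⊓ J) ↔ FiniteDimensional k ↥(I ⊓ J)) ∧
    (FiniteDimensional k (𝕃 ⧸ (I' ⊔ J)) ↔ FiniteDimensional k (𝕃 ⧸ (I ⊔ J))) ∧
    (Good I J → (h0 I J = h0 I' J + 1 ∧ h1 I' J = h1 I J) ∨
      (h0 I J = h0 I' J ∧ h1 I' J = h1 I J + 1)) := by
  rcases h.eq_or_eq (c := I' ⊔ (I ⊓ J)) le_sup_left (sup_le h.le inf_le_left) with hc | hc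
  · -- the intersection does not change
    have h1' : I ⊓ J ≤ I' := by rw [← hc]; exact le_sup_right
    have h2 : I' ⊓ J = I ⊓ J := le_antisymm (inf_le_inf_right _ h.le) (le_inf h1' inf_le_right)
    have h3 : (I' ⊔ J) ⋖ (I ⊔ J) := by
      have h4 : I ⊓ (I' ⊔ J) = I' := by
        rw [inf_comm, sup_inf_assoc_of_le J h.le, inf_comm J I]
        exact hc
      have h5 : I ⊔ (I' ⊔ J) = I ⊔ J := by rw [← sup_assoc, sup_eq_left.mpr h.le]
      rw [← h5]
      apply covBy_sup_of_inf_covBy_left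
      rw [h4]; exact h
    obtain ⟨q1, q2⟩ := ChiAux.quot_fd_of_covBy h3
    refine ⟨by rw [h2], q1, ?_⟩
    intro hg
    right
    refine ⟨by unfold h0; rw [h2], q2 (q1.mpr hg.2)⟩
  · -- the intersection changes
    have h1' : I' ⊔ J = I ⊔ J := by
      apply le_antisymm (sup_le_sup_right h.le _)
      apply sup_le _ le_sup_right
      rw [← hc]
      exact sup_le_sup_left inf_le_right _
    have h3 : (I' ⊓ J) ⋖ (I ⊓ J) := by
      have h4 : I' ⊓ (I ⊓ J) = I' ⊓ J := by rw [← inf_assoc, inf_eq_left.mpr h.le]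
      rw [← h4]
      apply inf_covBy_of_covBy_sup_left
      rw [hc]; exact h
    obtain ⟨q1, q2⟩ := ChiAux.fd_of_covBy h3
    refine ⟨q1, by rw [h1'], ?_⟩
    intro hg
    left
    exact ⟨q2 hg.1, by unfold h1; rw [h1']⟩

/-- TASK CHI (3) -/
theorem toK_covBy [IsAlgClosed k] (R : Subalgebra k 𝕃) [IsDedekindDomain R] [IsFractionRing R 𝕃]
    (hfd : ∀ a : R, a ≠ 0 → FiniteDimensional k (R ⧸ Ideal.span {a}))
    (I : FractionalIdeal R⁰ 𝕃) (hI : I ≠ 0) (P : Ideal R) (hP : P.IsMaximal) (hP0 : P ≠ ⊥) :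
    toK (I * (P : FractionalIdeal R⁰ 𝕃)) ⋖ toK I := by
  -- residue field
  have hres : ∀ r : R, ∃ c : k, r - algebraMap k R c ∈ P := by
    obtain ⟨a, haP, ha0⟩ := Submodule.exists_mem_ne_zero_of_ne_bot hP0
    have := hfd a ha0
    have : FiniteDimensional k (R ⧸ P) := by
      refine Module.Finite.of_surjective
        (Ideal.Quotient.factorₐ k (I := Ideal.span {a}) (J := P)
          ((Ideal.span_singleton_le_iff_mem P).mpr haP)).toLinearMap ?_
      intro y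
      obtain ⟨r, rfl⟩ := Ideal.Quotient.mk_surjective y
      exact ⟨Ideal.Quotient.mk _ r, rfl⟩
    intro r
    obtain ⟨c, hc⟩ := (IsAlgClosed.algebraMap_bijective_of_isIntegral (k := k) (K := R ⧸ P)).2
      (Ideal.Quotient.mk P r)
    refine ⟨c, ?_⟩
    rw [← Ideal.Quotient.eq_zero_iff_mem, map_sub, ← hc, sub_eq_zero]
    rfl
  have hPle : (P : FractionalIdeal R⁰ 𝕃) ≤ 1 := FractionalIdeal.coeIdeal_le_one
  have hIP : I * (P : FractionalIdeal R⁰ 𝕃) ≤ I := by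
    calc I * (P : FractionalIdeal R⁰ 𝕃) ≤ I * 1 := by gcongr
      _ = I := mul_one I
  have hne : I * (P : FractionalIdeal R⁰ 𝕃) ≠ I := by
    intro h
    have h1 : (P : FractionalIdeal R⁰ 𝕃) = 1 := by
      have := congrArg (fun x => I⁻¹ * x) h
      simpa [← mul_assoc, inv_mul_cancel₀ hI] using this
    rw [FractionalIdeal.coeIdeal_eq_one] at h1
    exact hP.ne_top (by rw [h1]; exact Ideal.one_eq_top)
  obtain ⟨x, hxI, hxP⟩ := SetLike.exists_of_lt (lt_of_le_of_ne hIP hne)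
  -- I = R x + I P
  have hN : FractionalIdeal.spanSingleton R⁰ x + I * (P : FractionalIdeal R⁰ 𝕃) = I := by
    set N := FractionalIdeal.spanSingleton R⁰ x + I * (P : FractionalIdeal R⁰ 𝕃) with hNdef
    have hNI : N ≤ I := by
      rw [hNdef, ← FractionalIdeal.sup_eq_add]
      exact sup_le (FractionalIdeal.spanSingleton_le_iff_mem.mpr hxI) hIP
    have hle1 : I⁻¹ * N ≤ 1 := by
      calc I⁻¹ * N ≤ I⁻¹ * I := by gcongr
        _ = 1 := inv_mul_cancel₀ hI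
    obtain ⟨𝔟, h𝔟⟩ := FractionalIdeal.le_one_iff_exists_coeIdeal.mp hle1
    have hN2 : N = I * (𝔟 : FractionalIdeal R⁰ 𝕃) := by
      rw [h𝔟, ← mul_assoc, mul_inv_cancel₀ hI, one_mul]
    have hP𝔟 : P ≤ 𝔟 := by
      rw [← FractionalIdeal.coeIdeal_le_coeIdeal 𝕃, h𝔟]
      calc (P : FractionalIdeal R⁰ 𝕃) = I⁻¹ * (I * (P : FractionalIdeal R⁰ 𝕃)) := by
            rw [← mul_assoc, inv_mul_cancel₀ hI, one_mul]
        _ ≤ I⁻¹ * N := by
            gcongr
            rw [hNdef, ← FractionalIdeal.sup_eq_add]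
            exact le_sup_right
    rcases eq_or_lt_of_le hP𝔟 with h1 | h1
    · exfalso
      apply hxP
      rw [h1, ← hN2, hNdef, ← FractionalIdeal.sup_eq_add]
      exact (le_sup_left : FractionalIdeal.spanSingleton R⁰ x ≤ _)
        (FractionalIdeal.mem_spanSingleton_self R⁰ x)
    · have h2 := hP.eq_of_le (J := 𝔟)
      by_cases ht : 𝔟 = ⊤
      · rw [hN2, ht, FractionalIdeal.coeIdeal_top, mul_one]
      · exact absurd (h2 ht hP𝔟) (ne_of_lt h1)
  have hdec : ∀ y ∈ I, ∃ c : k, y - c • x ∈ I * (P : FractionalIdeal R⁰ 𝕃) := by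
    intro y hy
    rw [← hN, FractionalIdeal.mem_add] at hy
    obtain ⟨u, hu, v, hv, rfl⟩ := hy
    obtain ⟨r, rfl⟩ := (FractionalIdeal.mem_spanSingleton R⁰).mp hu
    obtain ⟨c, hc⟩ := hres r
    refine ⟨c, ?_⟩
    have h3 : r • x + v - c • x = x * ((r - algebraMap k R c : R) : 𝕃) + v := by
      rw [Algebra.smul_def, Algebra.smul_def]
      have h4 : ((r - algebraMap k R c : R) : 𝕃) = (r : 𝕃) - algebraMap k 𝕃 c := rfl
      have h5 : algebraMap R 𝕃 r = (r : 𝕃) := rfl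
      rw [h4, h5]; ring
    rw [h3]
    apply Submodule.add_mem (I * (P : FractionalIdeal R⁰ 𝕃) : FractionalIdeal R⁰ 𝕃).coeToSubmodule _ hv
    exact FractionalIdeal.mul_mem_mul hxI ((FractionalIdeal.mem_coeIdeal R⁰).mpr ⟨_, hc, rfl⟩)
  constructor
  · refine lt_of_le_of_ne (fun z hz => hIP hz) ?_
    intro h
    apply hxP
    have : x ∈ toK I := hxI
    rw [← h] at this
    exact this
  · intro S hS1 hS2
    obtain ⟨s, hsS, hsn⟩ := SetLike.exists_of_lt hS1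
    obtain ⟨c, hc⟩ := hdec s (hS2.le hsS)
    have hc0 : c ≠ 0 := by
      rintro rfl
      apply hsn
      have h1 : s ∈ I * (P : FractionalIdeal R⁰ 𝕃) := by simpa using hc
      exact h1
    have hxS : x ∈ S := by
      have h1 : c • x ∈ S := by
        have h2 : s - c • x ∈ S := hS1.le hc
        have := S.sub_mem hsS h2
        simpa using this
      have := S.smul_mem c⁻¹ h1
      rwa [smul_smul, inv_mul_cancel₀ hc0, one_smul] at this
    apply hS2.not_ge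
    intro y hy
    obtain ⟨d, hd⟩ := hdec y hy
    have h1 : y - d • x ∈ S := hS1.le hd
    have := S.add_mem h1 (S.smul_mem d hxS)
    simpa using this

/-- TASK CHI (4) -/
theorem chi_mul [IsAlgClosed k] (R : Subalgebra k 𝕃) [IsDedekindDomain R] [IsFractionRing R 𝕃]
    (hfd : ∀ a : R, a ≠ 0 → FiniteDimensional k (R ⧸ Ideal.span {a}))
    (I : FractionalIdeal R⁰ 𝕃) (hI : I ≠ 0) (𝔞 : Ideal R) (h𝔞 : 𝔞 ≠ ⊥) (J : Submodule k 𝕃) :
    (FiniteDimensional k ↥(toK (I * (𝔞 : FractionalIdeal R⁰ 𝕃)) ⊓ J) ↔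
      FiniteDimensional k ↥(toK I ⊓ J)) ∧
    (FiniteDimensional k (𝕃 ⧸ (toK (I * (𝔞 : FractionalIdeal R⁰ 𝕃)) ⊔ J)) ↔
      FiniteDimensional k (𝕃 ⧸ (toK I ⊔ J))) ∧
    (Good (toK I) J → chi (toK (I * (𝔞 : FractionalIdeal R⁰ 𝕃))) J = chi (toK I) J - nfac 𝔞) := by
  revert h𝔞
  refine UniqueFactorizationMonoid.induction_on_prime 𝔞 (fun h => absurd rfl h) ?_ ?_
  · intro 𝔲 hu _
    rw [Ideal.isUnit_iff] at hu
    subst hu
    rw [FractionalIdeal.coeIdeal_top, mul_one]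
    refine ⟨Iff.rfl, Iff.rfl, fun _ => ?_⟩
    have : nfac (⊤ : Ideal R) = 0 := by
      unfold nfac
      rw [← Ideal.one_eq_top, UniqueFactorizationMonoid.normalizedFactors_one]
      rfl
    rw [this]; simp
  · intro 𝔟 p hb0 hp ih _
    obtain ⟨i1, i2, i3⟩ := ih hb0
    have hp0 : p ≠ ⊥ := hp.ne_zero
    have hpp : p.IsPrime := Ideal.isPrime_of_prime hp
    have hpm : p.IsMaximal := hpp.isMaximal hp0
    have hIb : I * (𝔟 : FractionalIdeal R⁰ 𝕃) ≠ 0 :=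
      mul_ne_zero hI (by rwa [Ne, FractionalIdeal.coeIdeal_eq_zero])
    have hcov := toK_covBy R hfd (I * (𝔟 : FractionalIdeal R⁰ 𝕃)) hIb p hpm hp0
    have he : I * ((p * 𝔟 : Ideal R) : FractionalIdeal R⁰ 𝕃) =
        I * (𝔟 : FractionalIdeal R⁰ 𝕃) * (p : FractionalIdeal R⁰ 𝕃) := by
      rw [FractionalIdeal.coeIdeal_mul, mul_assoc, mul_comm (p : FractionalIdeal R⁰ 𝕃)]
    rw [he]
    obtain ⟨c1, c2, c3⟩ := chi_covBy hcov J
    refine ⟨c1.trans i1, c2.trans i2, fun hg => ?_⟩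
    have hn : nfac (p * 𝔟) = nfac 𝔟 + 1 := by
      unfold nfac
      rw [UniqueFactorizationMonoid.normalizedFactors_mul hp0 hb0,
        UniqueFactorizationMonoid.normalizedFactors_irreducible hp.irreducible]
      simp [add_comm]
    have h1' := i3 hg
    have hg' : Good (toK (I * (𝔟 : FractionalIdeal R⁰ 𝕃))) J := ⟨i1.mpr hg.1, i2.mpr hg.2⟩
    have h2 := c3 hg'
    rw [hn]
    push_cast
    unfold chi at h1' ⊢
    rcases h2 with ⟨a1, a2⟩ | ⟨a1, a2⟩ <;> omega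

/-- TASK CHI (5) -/
theorem chi_smul (u : 𝕃) (hu : u ≠ 0) (I J : Submodule k 𝕃) :
    chi (I.map (LinearMap.mulLeft k u)) (J.map (LinearMap.mulLeft k u)) = chi I J := by
  let e : 𝕃 ≃ₗ[k] 𝕃 := LinearEquiv.ofBijective (LinearMap.mulLeft k u)
    ⟨mul_right_injective₀ hu, fun y => ⟨u⁻¹ * y, by
      simp [LinearMap.mulLeft_apply, mul_inv_cancel_left₀ hu]⟩⟩
  have he : (e : 𝕃 →ₗ[k] 𝕃) = LinearMap.mulLeft k u := rfl
  unfold chi h0 h1
  congr 2
  · rw [← Submodule.map_inf _ (mul_right_injective₀ hu), ← he]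
    exact LinearEquiv.finrank_map_eq e _
  · rw [← Submodule.map_sup, ← he]
    exact (Submodule.Quotient.equiv _ _ e rfl).finrank_eq.symm

namespace ChiAux

lemma fd_iff_one [IsAlgClosed k] (R : Subalgebra k 𝕃) [IsDedekindDomain R] [IsFractionRing R 𝕃]
    (hfd : ∀ a : R, a ≠ 0 → FiniteDimensional k (R ⧸ Ideal.span {a}))
    (I : FractionalIdeal R⁰ 𝕃) (hI : I ≠ 0) (J : Submodule k 𝕃) :
    (FiniteDimensional k ↥(toK I ⊓ J) ↔
      FiniteDimensional k ↥(toK (1 : FractionalIdeal R⁰ 𝕃) ⊓ J)) ∧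
    (FiniteDimensional k (𝕃 ⧸ (toK I ⊔ J)) ↔
      FiniteDimensional k (𝕃 ⧸ (toK (1 : FractionalIdeal R⁰ 𝕃) ⊔ J))) := by
  obtain ⟨a, aI, ha, hIa⟩ := FractionalIdeal.exists_eq_spanSingleton_mul I
  have ha' : algebraMap R 𝕃 a ≠ 0 := by
    intro h
    exact ha ((IsFractionRing.injective R 𝕃) (by rw [h, map_zero]))
  set c : FractionalIdeal R⁰ 𝕃 := FractionalIdeal.spanSingleton R⁰ (algebraMap R 𝕃 a)⁻¹ with hc
  have hc0 : c ≠ 0 := by
    rw [hc, Ne, FractionalIdeal.spanSingleton_eq_zero_iff]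
    exact inv_ne_zero ha'
  have haI : aI ≠ ⊥ := by
    rintro rfl
    apply hI
    rw [hIa, FractionalIdeal.coeIdeal_bot, mul_zero]
  obtain ⟨p1, p2, -⟩ := chi_mul R hfd c hc0 aI haI J
  obtain ⟨q1, q2, -⟩ := chi_mul R hfd c hc0 (Ideal.span {a}) (by simpa using ha) J
  have h1 : c * ((Ideal.span {a} : Ideal R) : FractionalIdeal R⁰ 𝕃) = 1 := by
    rw [hc, FractionalIdeal.coeIdeal_span_singleton, FractionalIdeal.spanSingleton_mul_spanSingleton,
      inv_mul_cancel₀ ha', FractionalIdeal.spanSingleton_one]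
  rw [h1] at q1 q2
  rw [← hIa] at p1 p2
  exact ⟨p1.trans q1.symm, p2.trans q2.symm⟩

end ChiAux

/-- TASK CHI (6) -/
theorem good_of_ne_zero [IsAlgClosed k] [CharZero k] (t : 𝕃) (ht : Transcendental k t)
    (hfin : FiniteDimensional (IntermediateField.adjoin k {t}) 𝕃)
    [IsDedekindDomain (Ofin k t)] [IsFractionRing (Ofin k t) 𝕃]
    [IsDedekindDomain (Oinf k t)] [IsFractionRing (Oinf k t) 𝕃]
    (I : FractionalIdeal (Ofin k t)⁰ 𝕃) (hI : I ≠ 0) (J : FractionalIdeal (Oinf k t)⁰ 𝕃)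
    (hJ : J ≠ 0) : Good (toK I) (toK J) := by
  obtain ⟨f1, f2⟩ := dta_finite k 𝕃 t ht hfin
  obtain ⟨g1, -, g3⟩ := dta_inf k 𝕃 t ht hfin
  have ht0 : t ≠ 0 := by
    rintro rfl
    exact ht (isAlgebraic_zero)
  obtain ⟨a1, a2⟩ := ChiAux.fd_iff_one (Ofin k t) f1 I hI (toK J)
  obtain ⟨b1, b2⟩ := ChiAux.fd_iff_one (Oinf k t) f2 J hJ
    (toK (1 : FractionalIdeal (Ofin k t)⁰ 𝕃))
  rw [inf_comm, inf_comm (toK (1 : FractionalIdeal (Oinf k t)⁰ 𝕃))] at b1
  rw [sup_comm, sup_comm (toK (1 : FractionalIdeal (Oinf k t)⁰ 𝕃))] at b2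
  refine ⟨a1.mpr (b1.mpr ?_), a2.mpr (b2.mpr ?_)⟩
  · have hle : (toK (1 : FractionalIdeal (Ofin k t)⁰ 𝕃) ⊓
        toK (1 : FractionalIdeal (Oinf k t)⁰ 𝕃)) ≤ Submodule.span k {(1 : 𝕃)} := by
      rintro x ⟨hx1, hx2⟩
      obtain ⟨y1, hy1⟩ := (FractionalIdeal.mem_one_iff (Ofin k t)⁰).mp hx1
      obtain ⟨y2, hy2⟩ := (FractionalIdeal.mem_one_iff (Oinf k t)⁰).mp hx2
      have m1 : x ∈ Ofin k t := by rw [← hy1]; exact y1.2
      have m2 : x ∈ Oinf k t := by rw [← hy2]; exact y2.2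
      obtain ⟨c, hc⟩ := g1 x m1 m2
      rw [Submodule.mem_span_singleton]
      exact ⟨c, by rw [← hc, Algebra.smul_def, mul_one]⟩
    exact Submodule.finiteDimensional_of_le hle
  · obtain ⟨n, hn⟩ := g3 1 1 one_ne_zero one_ne_zero
    have hn' := hn n le_rfl
    have htn : t ^ n ≠ 0 := pow_ne_zero _ ht0
    obtain ⟨-, c2⟩ := ChiAux.fd_iff_one (Oinf k t) f2
      (FractionalIdeal.spanSingleton (Oinf k t)⁰ (t ^ n))
      (by rw [Ne, FractionalIdeal.spanSingleton_eq_zero_iff]; exact htn)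
      (toK (1 : FractionalIdeal (Ofin k t)⁰ 𝕃))
    rw [sup_comm, sup_comm (toK (1 : FractionalIdeal (Oinf k t)⁰ 𝕃))] at c2
    apply c2.mp
    have htop : toK (1 : FractionalIdeal (Ofin k t)⁰ 𝕃) ⊔
        toK (FractionalIdeal.spanSingleton (Oinf k t)⁰ (t ^ n)) = ⊤ := by
      rw [eq_top_iff]
      rintro x -
      obtain ⟨u, hu, v, hv, hx⟩ := hn' x
      rw [Submodule.mem_sup]
      refine ⟨u, ?_, t ^ n * v, ?_, by rw [hx]; ring⟩
      · exact (FractionalIdeal.mem_one_iff (Ofin k t)⁰).mpr ⟨⟨u, hu⟩, rfl⟩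
      · exact (FractionalIdeal.mem_spanSingleton (Oinf k t)⁰).mpr
          ⟨⟨v, hv⟩, by rw [Algebra.smul_def, mul_comm]; rfl⟩
    rw [htop]
    infer_instance

end Abstract

end Pool.Agent.D5741
end

section

/-!
# Divisibility by three of the degree of the ideals of a cocycle
-/

set_option autoImplicit false
set_option linter.unusedSectionVars false

open scoped TensorProduct nonZeroDivisors

namespace Pool.Agent.D5741.Deg3

section Cubic

variable {R : Type*} [CommRing R]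

/-- Multiplication of the cubic algebra `R[X]/(X^3 - α)`. -/
def m3 (α : R) (x y : Fin 3 → R) : Fin 3 → R :=
  ![x 0 * y 0 + α * (x 1 * y 2 + x 2 * y 1), x 0 * y 1 + x 1 * y 0 + α * x 2 * y 2,
    x 0 * y 2 + x 1 * y 1 + x 2 * y 0]

/-- The automorphism `X ↦ ω X`. -/
def sg (ω : R) (w : Fin 3 → R) : Fin 3 → R := ![w 0, ω * w 1, ω ^ 2 * w 2]

/-- Multiplication by `X`. -/
def ub (α : R) (w : Fin 3 → R) : Fin 3 → R := ![α * w 2, w 0, w 1]

theorem m3_zero (α : R) (x y : Fin 3 → R) :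
    m3 α x y 0 = x 0 * y 0 + α * (x 1 * y 2 + x 2 * y 1) := rfl

theorem m3_one (α : R) (x y : Fin 3 → R) :
    m3 α x y 1 = x 0 * y 1 + x 1 * y 0 + α * x 2 * y 2 := rfl

theorem m3_two (α : R) (x y : Fin 3 → R) :
    m3 α x y 2 = x 0 * y 2 + x 1 * y 1 + x 2 * y 0 := rfl

theorem sg_zero (ω : R) (w : Fin 3 → R) : sg ω w 0 = w 0 := rfl

theorem sg_one (ω : R) (w : Fin 3 → R) : sg ω w 1 = ω * w 1 := rfl

theorem sg_two (ω : R) (w : Fin 3 → R) : sg ω w 2 = ω ^ 2 * w 2 := rfl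

theorem ub_zero (α : R) (w : Fin 3 → R) : ub α w 0 = α * w 2 := rfl

theorem ub_one (α : R) (w : Fin 3 → R) : ub α w 1 = w 0 := rfl

theorem ub_two (α : R) (w : Fin 3 → R) : ub α w 2 = w 1 := rfl

theorem cube_eq_one {ω : R} (hω : ω ^ 2 + ω + 1 = 0) : ω ^ 3 = 1 := by
  linear_combination (ω - 1) * hω

theorem cj_m3 (ω μ : R) (hω : ω ^ 3 = 1) (x y : Fin 3 → R) (i : ℕ) :
    cj ω μ (m3 (μ ^ 3) x y) i = cj ω μ x i * cj ω μ y i := by
  have h : (ω ^ i * μ) ^ 3 = μ ^ 3 := by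
    rw [mul_pow, ← pow_mul, mul_comm i 3, pow_mul, hω, one_pow, one_mul]
  unfold cj
  rw [m3_zero, m3_one, m3_two, ← h]
  ring

theorem cj_sg (ω μ : R) (w : Fin 3 → R) (i : ℕ) :
    cj ω μ (sg ω w) i = cj ω μ w (i + 1) := by
  unfold cj
  rw [sg_zero, sg_one, sg_two]
  ring

theorem cj_ub (ω μ : R) (hω : ω ^ 3 = 1) (w : Fin 3 → R) (i : ℕ) :
    cj ω μ (ub (μ ^ 3) w) i = ω ^ i * μ * cj ω μ w i := by
  have h : (ω ^ i * μ) ^ 3 = μ ^ 3 := by
    rw [mul_pow, ← pow_mul, mul_comm i 3, pow_mul, hω, one_pow, one_mul]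
  unfold cj
  rw [ub_zero, ub_one, ub_two, ← h]
  ring

theorem m3_assoc (α : R) (x y z : Fin 3 → R) :
    m3 α (m3 α x y) z = m3 α x (m3 α y z) := by
  funext j
  fin_cases j
  · simp only [m3_zero, m3_one, m3_two, Fin.zero_eta]; ring
  · simp only [m3_zero, m3_one, m3_two, Fin.mk_one]; ring
  · simp only [m3_zero, m3_one, m3_two, Fin.reduceFinMk]; ring

theorem sg_m3 (α ω : R) (hω : ω ^ 3 = 1) (x y : Fin 3 → R) :
    sg ω (m3 α x y) = m3 α (sg ω x) (sg ω y) := by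
  funext j
  fin_cases j
  · simp only [m3_zero, sg_zero, sg_one, sg_two, Fin.zero_eta]
    linear_combination (-α * (x 1 * y 2 + x 2 * y 1)) * hω
  · simp only [m3_one, sg_zero, sg_one, sg_two, Fin.mk_one]
    linear_combination (-α * x 2 * y 2 * ω) * hω
  · simp only [m3_two, sg_zero, sg_one, sg_two, Fin.reduceFinMk]
    ring

theorem sg_three (ω : R) (hω : ω ^ 3 = 1) (x : Fin 3 → R) : sg ω (sg ω (sg ω x)) = x := by
  funext j
  fin_cases j
  · simp only [sg_zero, Fin.zero_eta]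
  · simp only [sg_one, Fin.mk_one]
    linear_combination x 1 * hω
  · simp only [sg_two, Fin.reduceFinMk]
    linear_combination x 2 * (ω ^ 3 + 1) * hω

theorem m3_nf (α ω : R) (hω : ω ^ 2 + ω + 1 = 0) (x : Fin 3 → R) :
    m3 α x (m3 α (sg ω x) (sg ω (sg ω x))) = ![nf α (x 0) (x 1) (x 2), 0, 0] := by
  have hω3 := cube_eq_one hω
  funext j
  fin_cases j
  · simp only [m3_zero, m3_one, m3_two, sg_zero, sg_one, sg_two, Fin.zero_eta, Matrix.cons_val_zero,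
      nf]
    grind
  · change m3 α x (m3 α (sg ω x) (sg ω (sg ω x))) 1 = 0
    simp only [m3_zero, m3_one, m3_two, sg_zero, sg_one, sg_two]
    grind
  · change m3 α x (m3 α (sg ω x) (sg ω (sg ω x))) 2 = 0
    simp only [m3_zero, m3_one, m3_two, sg_zero, sg_one, sg_two]
    grind

theorem m3_scalar (α c : R) (x : Fin 3 → R) : m3 α ![c, 0, 0] x = fun j => c * x j := by
  funext j
  fin_cases j
  · change c * x 0 + α * (0 * x 2 + 0 * x 1) = c * x 0
    ring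
  · change c * x 1 + 0 * x 0 + α * 0 * x 2 = c * x 1
    ring
  · change c * x 2 + 0 * x 1 + 0 * x 0 = c * x 2
    ring

theorem top_three (α ω : R) (hω : ω ^ 2 + ω + 1 = 0) (τ w : Fin 3 → R) :
    m3 α τ (sg ω (m3 α τ (sg ω (m3 α τ (sg ω w))))) = fun j => nf α (τ 0) (τ 1) (τ 2) * w j := by
  have hω3 := cube_eq_one hω
  rw [sg_m3 α ω hω3, sg_m3 α ω hω3, sg_m3 α ω hω3, sg_three ω hω3, ← m3_assoc, ← m3_assoc,
    m3_assoc α τ, m3_nf α ω hω, m3_scalar]

theorem ub_three (α : R) (w : Fin 3 → R) : ub α (ub α (ub α w)) = fun j => α * w j := by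
  funext j
  fin_cases j
  · rfl
  · rfl
  · rfl

theorem top_ub (α ω : R) (hω : ω ^ 3 = 1) (τ w : Fin 3 → R) :
    m3 α τ (sg ω (ub α w)) = fun j => ω * ub α (m3 α τ (sg ω w)) j := by
  funext j
  fin_cases j
  · change m3 α τ (sg ω (ub α w)) 0 = ω * ub α (m3 α τ (sg ω w)) 0
    simp only [m3_zero, m3_two, sg_zero, sg_one, sg_two, ub_zero, ub_one, ub_two]
    linear_combination (-α * τ 0 * w 2) * hω
  · change m3 α τ (sg ω (ub α w)) 1 = ω * ub α (m3 α τ (sg ω w)) 1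
    simp only [m3_zero, m3_one, sg_zero, sg_one, sg_two, ub_zero, ub_one, ub_two]
    linear_combination (-α * τ 1 * w 2) * hω
  · change m3 α τ (sg ω (ub α w)) 2 = ω * ub α (m3 α τ (sg ω w)) 2
    simp only [m3_one, m3_two, sg_zero, sg_one, sg_two, ub_zero, ub_one, ub_two]
    linear_combination (-α * τ 2 * w 2) * hω

theorem nf_m3 (α : R) (x y : Fin 3 → R) :
    nf α (m3 α x y 0) (m3 α x y 1) (m3 α x y 2) =
      nf α (x 0) (x 1) (x 2) * nf α (y 0) (y 1) (y 2) := by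
  rw [m3_zero, m3_one, m3_two]
  unfold nf
  ring

end Cubic

section Ideals

variable {k 𝕃 : Type} [Field k] [Field 𝕃] [Algebra k 𝕃] (R : Subalgebra k 𝕃)

theorem smul_mem_frac (I : FractionalIdeal R⁰ 𝕃) (c : k) {x : 𝕃} (hx : x ∈ I) :
    algebraMap k 𝕃 c * x ∈ I := by
  have h := I.coeToSubmodule.smul_mem (algebraMap k R c) (FractionalIdeal.mem_coe.mpr hx)
  rw [FractionalIdeal.mem_coe] at h
  exact h

variable [IsFractionRing R 𝕃]

theorem Zid_period (f : ℕ → 𝕃) (hf : ∀ i, f (i + 3) = f i) (i : ℕ) :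
    Zid R f (i + 3) = Zid R f i := by
  unfold Zid
  rw [hf, show i + 3 + 1 = (i + 1) + 3 by ring, hf]

theorem mem_shift (f : ℕ → 𝕃) (i : ℕ) (c : k) (hc : c ≠ 0)
    (h : f i * f (i + 1) * f (i + 2) = algebraMap k 𝕃 c) (e : ℕ) {x : 𝕃}
    (hx : x ∈ (Zid R f (i + 1)) ^ e) : f i ^ e * x ∈ (Zid R f i) ^ e := by
  rw [← spanSingleton_mul_Zid R f i hc h, mul_pow, FractionalIdeal.spanSingleton_pow]
  exact FractionalIdeal.mul_mem_mul (FractionalIdeal.mem_spanSingleton_self _ _) hx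

end Ideals

section Dims

variable {k 𝕃 : Type} [Field k] [Field 𝕃] [Algebra k 𝕃]

theorem mem_toK {R : Subalgebra k 𝕃} (I : FractionalIdeal R⁰ 𝕃) (x : 𝕃) :
    x ∈ toK I ↔ x ∈ I := Iff.rfl

theorem h1_eq_zero {I J : Submodule k 𝕃} (h : I ⊔ J = ⊤) : h1 I J = 0 := by
  unfold h1
  rw [h]
  have : Subsingleton (𝕃 ⧸ (⊤ : Submodule k 𝕃)) := Submodule.Quotient.subsingleton_iff.mpr rfl
  exact Module.finrank_zero_of_subsingleton

theorem good_symm {I J : Submodule k 𝕃} (h : Good I J) : Good J I := by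
  unfold Good at h ⊢
  rw [inf_comm, sup_comm]
  exact h

theorem dims [IsAlgClosed k] [CharZero k] (t : 𝕃) (ht : Transcendental k t)
    (hfin : FiniteDimensional (IntermediateField.adjoin k {t}) 𝕃)
    [IsDedekindDomain (Ofin k t)] [IsFractionRing (Ofin k t) 𝕃]
    [IsDedekindDomain (Oinf k t)] [IsFractionRing (Oinf k t) 𝕃]
    (Z : FractionalIdeal (Ofin k t)⁰ 𝕃) (Z' : FractionalIdeal (Oinf k t)⁰ 𝕃)
    (hZ : 1 ≤ Z) (hZ' : 1 ≤ Z') (𝔫 : Ideal (Ofin k t)) (𝔫' : Ideal (Oinf k t))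
    (h𝔫 : (𝔫 : FractionalIdeal (Ofin k t)⁰ 𝕃) * Z = 1)
    (h𝔫' : (𝔫' : FractionalIdeal (Oinf k t)⁰ 𝕃) * Z' = 1)
    (h3 : ∀ e n : ℕ, e = 1 ∨ e = 2 → 3 ∣ h0 (toK (Z ^ e))
      (toK (FractionalIdeal.spanSingleton _ (t ^ n) * Z' ^ e))) :
    3 ∣ nfac 𝔫 + nfac 𝔫' := by
  obtain ⟨n, hn⟩ := (dta_inf k 𝕃 t ht hfin).2.2 1 1 one_ne_zero one_ne_zero
  have hn := hn n le_rfl
  have hZ0 : Z ≠ 0 := by
    rintro rfl
    rw [mul_zero] at h𝔫
    exact zero_ne_one h𝔫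
  have hZ0' : Z' ≠ 0 := by
    rintro rfl
    rw [mul_zero] at h𝔫'
    exact zero_ne_one h𝔫'
  have h𝔫0 : 𝔫 ≠ ⊥ := by
    rintro rfl
    rw [FractionalIdeal.coeIdeal_bot, zero_mul] at h𝔫
    exact zero_ne_one h𝔫
  have h𝔫0' : 𝔫' ≠ ⊥ := by
    rintro rfl
    rw [FractionalIdeal.coeIdeal_bot, zero_mul] at h𝔫'
    exact zero_ne_one h𝔫'
  have ht0 : t ^ n ≠ 0 := pow_ne_zero _ (DTA.ne_zero_of_transcendental ht)
  have hs0 : FractionalIdeal.spanSingleton (Oinf k t)⁰ (t ^ n) ≠ 0 :=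
    FractionalIdeal.spanSingleton_ne_zero_iff.mpr ht0
  have hh1 : ∀ e : ℕ, h1 (toK (Z ^ e)) (toK (FractionalIdeal.spanSingleton _ (t ^ n) * Z' ^ e)) = 0 := by
    intro e
    apply h1_eq_zero
    rw [eq_top_iff]
    intro x _
    obtain ⟨u, hu, v, hv, rfl⟩ := hn x
    refine Submodule.add_mem_sup ?_ ?_
    · rw [mem_toK, one_mul]
      refine one_le_pow₀ hZ ?_
      rw [FractionalIdeal.mem_one_iff]
      exact ⟨⟨u, hu⟩, rfl⟩
    · rw [mem_toK, one_mul]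
      refine FractionalIdeal.mul_mem_mul (FractionalIdeal.mem_spanSingleton_self _ _) ?_
      refine one_le_pow₀ hZ' ?_
      rw [FractionalIdeal.mem_one_iff]
      exact ⟨⟨v, hv⟩, rfl⟩
  have hchi : ∀ e : ℕ, chi (toK (Z ^ e)) (toK (FractionalIdeal.spanSingleton _ (t ^ n) * Z' ^ e)) =
      h0 (toK (Z ^ e)) (toK (FractionalIdeal.spanSingleton _ (t ^ n) * Z' ^ e)) := by
    intro e
    unfold chi
    rw [hh1]
    simp
  have e1 : Z ^ 2 * (𝔫 : FractionalIdeal (Ofin k t)⁰ 𝕃) = Z ^ 1 := by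
    rw [pow_two, mul_assoc, mul_comm Z (𝔫 : FractionalIdeal (Ofin k t)⁰ 𝕃), h𝔫, mul_one, pow_one]
  have e2 : FractionalIdeal.spanSingleton _ (t ^ n) * Z' ^ 2 *
      (𝔫' : FractionalIdeal (Oinf k t)⁰ 𝕃) =
      FractionalIdeal.spanSingleton _ (t ^ n) * Z' ^ 1 := by
    rw [mul_assoc, pow_two, mul_assoc, mul_comm Z' (𝔫' : FractionalIdeal (Oinf k t)⁰ 𝕃), h𝔫',
      mul_one, pow_one]
  have c1 := (chi_mul (Ofin k t) (dta_finite k 𝕃 t ht hfin).1 (Z ^ 2) (pow_ne_zero _ hZ0) 𝔫 h𝔫0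
    (toK (FractionalIdeal.spanSingleton _ (t ^ n) * Z' ^ 2))).2.2
    (good_of_ne_zero t ht hfin _ (pow_ne_zero _ hZ0) _ (mul_ne_zero hs0 (pow_ne_zero _ hZ0')))
  have c2 := (chi_mul (Oinf k t) (dta_finite k 𝕃 t ht hfin).2
    (FractionalIdeal.spanSingleton _ (t ^ n) * Z' ^ 2) (mul_ne_zero hs0 (pow_ne_zero _ hZ0'))
    𝔫' h𝔫0' (toK (Z ^ 1))).2.2
    (good_symm (good_of_ne_zero t ht hfin _ (pow_ne_zero _ hZ0) _
      (mul_ne_zero hs0 (pow_ne_zero _ hZ0'))))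
  rw [e1] at c1
  rw [e2, chi_symm, chi_symm _ (toK (Z ^ 1)), c1, hchi, hchi] at c2
  have d1 := h3 1 n (Or.inl rfl)
  have d2 := h3 2 n (Or.inr rfl)
  omega

end Dims

section Operators

variable {K L : Type} [Field K] [Field L] [Algebra K L]

/-- Multiplication by the cube root as a linear map. -/
def uop (α : K) : (Fin 3 → L) →ₗ[K] (Fin 3 → L) where
  toFun w := ub (algebraMap K L α) w
  map_add' x y := by
    funext j
    fin_cases j
    · change algebraMap K L α * (x 2 + y 2) = algebraMap K L α * x 2 + algebraMap K L α * y 2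
      ring
    · rfl
    · rfl
  map_smul' c x := by
    funext j
    fin_cases j
    · change algebraMap K L α * (c • x 2) = c • (algebraMap K L α * x 2)
      rw [mul_smul_comm]
    · rfl
    · rfl

/-- The semilinear operator `w ↦ τ * σ(w)` as a linear map. -/
def top (ω α : K) (τ : Fin 3 → L) : (Fin 3 → L) →ₗ[K] (Fin 3 → L) where
  toFun w := m3 (algebraMap K L α) τ (sg (algebraMap K L ω) w)
  map_add' x y := by
    funext j
    simp only [m3, sg, Pi.add_apply]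
    fin_cases j <;> simp <;> ring
  map_smul' c x := by
    funext j
    simp only [m3, sg, Pi.smul_apply, RingHom.id_apply, Algebra.smul_def]
    fin_cases j <;> simp <;> ring

theorem uop_apply (α : K) (w : Fin 3 → L) : uop α w = ub (algebraMap K L α) w := rfl

theorem top_apply (ω α : K) (τ w : Fin 3 → L) :
    top ω α τ w = m3 (algebraMap K L α) τ (sg (algebraMap K L ω) w) := rfl

/-- The dimension of a finite-dimensional space stable under both operators is divisible by 9. -/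
theorem nine_dvd_of_stable [CharZero K] (ω α a : K) (hω : ω ^ 2 + ω + 1 = 0) (hα0 : α ≠ 0)
    (ha0 : a ≠ 0) (ha : ¬ IsNm α a) (τ : Fin 3 → L)
    (hτ : nf (algebraMap K L α) (τ 0) (τ 1) (τ 2) = algebraMap K L a)
    (W : Submodule K (Fin 3 → L)) (hfd : FiniteDimensional K W)
    (hU : ∀ w ∈ W, uop α w ∈ W) (hT : ∀ w ∈ W, top ω α τ w ∈ W) :
    9 ∣ Module.finrank K W := by
  have hωL : (algebraMap K L ω) ^ 2 + algebraMap K L ω + 1 = 0 := by
    rw [← map_pow, ← map_add, ← map_one (algebraMap K L), ← map_add, hω, map_zero]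
  refine nine_dvd K W ω α a hω hα0 ha0 ha ((uop α).restrict hU) ((top ω α τ).restrict hT) ?_ ?_ ?_
  · ext1 ⟨w, hw⟩
    apply Subtype.ext
    rw [pow_three]
    change ub (algebraMap K L α) (ub (algebraMap K L α) (ub (algebraMap K L α) w)) = α • w
    rw [ub_three]
    funext j
    rw [Pi.smul_apply, Algebra.smul_def]
  · ext1 ⟨w, hw⟩
    apply Subtype.ext
    rw [pow_three]
    change m3 (algebraMap K L α) τ (sg (algebraMap K L ω) (m3 (algebraMap K L α) τ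
      (sg (algebraMap K L ω) (m3 (algebraMap K L α) τ (sg (algebraMap K L ω) w))))) = a • w
    rw [top_three _ _ hωL, hτ]
    funext j
    rw [Pi.smul_apply, Algebra.smul_def]
  · ext1 ⟨w, hw⟩
    apply Subtype.ext
    change m3 (algebraMap K L α) τ (sg (algebraMap K L ω) (ub (algebraMap K L α) w)) =
      ω • ub (algebraMap K L α) (m3 (algebraMap K L α) τ (sg (algebraMap K L ω) w))
    rw [top_ub _ _ (cube_eq_one hωL)]
    funext j
    rw [Pi.smul_apply, Algebra.smul_def]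

end Operators

section Tensor

variable {K L Ω : Type} [Field K] [CharZero K] [Field L] [Algebra K L] [Field Ω] [Algebra K Ω]

theorem cst_m3 (α : K) (x y : Fin 3 → L) :
    cst Ω (m3 (algebraMap K L α) x y) =
      m3 (algebraMap K (Ω ⊗[K] L) α) (cst Ω x) (cst Ω y) := by
  let g : L →ₐ[K] Ω ⊗[K] L := Algebra.TensorProduct.includeRight
  have hg : ∀ l, (1 : Ω) ⊗ₜ[K] l = g l := fun _ => rfl
  have hα : algebraMap K (Ω ⊗[K] L) α = g (algebraMap K L α) := (g.commutes α).symm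
  funext j
  fin_cases j
  · simp only [cst, m3, hg, hα]
    simp
  · simp only [cst, m3, hg, hα]
    simp
  · simp only [cst, m3, hg, hα]
    simp

theorem cst_sg (ω : K) (x : Fin 3 → L) :
    cst Ω (sg (algebraMap K L ω) x) = sg (algebraMap K (Ω ⊗[K] L) ω) (cst Ω x) := by
  let g : L →ₐ[K] Ω ⊗[K] L := Algebra.TensorProduct.includeRight
  have hg : ∀ l, (1 : Ω) ⊗ₜ[K] l = g l := fun _ => rfl
  have hα : algebraMap K (Ω ⊗[K] L) ω = g (algebraMap K L ω) := (g.commutes ω).symm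
  funext j
  fin_cases j
  · simp only [cst, sg, hg, hα]
    simp
  · simp only [cst, sg, hg, hα]
    simp
  · simp only [cst, sg, hg, hα]
    simp

theorem cst_ub (α : K) (x : Fin 3 → L) :
    cst Ω (ub (algebraMap K L α) x) = ub (algebraMap K (Ω ⊗[K] L) α) (cst Ω x) := by
  let g : L →ₐ[K] Ω ⊗[K] L := Algebra.TensorProduct.includeRight
  have hg : ∀ l, (1 : Ω) ⊗ₜ[K] l = g l := fun _ => rfl
  have hα : algebraMap K (Ω ⊗[K] L) α = g (algebraMap K L α) := (g.commutes α).symm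
  funext j
  fin_cases j
  · simp only [cst, ub, hg, hα]
    simp
  · simp only [cst, ub, hg, hα]
    simp
  · simp only [cst, ub, hg, hα]
    simp

theorem cjT_cst_top {ω α : K} (hω : ω ^ 2 + ω + 1 = 0) {μ : Ω} (hμ : μ ^ 3 = algebraMap K Ω α)
    (τ w : Fin 3 → L) (i : ℕ) : cjT ω μ (cst Ω (top ω α τ w)) i =
      cjT ω μ (cst Ω τ) i * cjT ω μ (cst Ω w) (i + 1) := by
  rw [top_apply, cst_m3, cst_sg, ← tensor_mu_cube hμ]
  unfold cjT
  rw [cj_m3 _ _ (cube_eq_one (tensor_omega hω)), cj_sg]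

theorem cjT_cst_uop {ω α : K} (hω : ω ^ 2 + ω + 1 = 0) {μ : Ω} (hμ : μ ^ 3 = algebraMap K Ω α)
    (w : Fin 3 → L) (i : ℕ) : cjT ω μ (cst Ω (uop α w)) i =
      algebraMap Ω (Ω ⊗[K] L) ((algebraMap K Ω ω) ^ i * μ) * cjT ω μ (cst Ω w) i := by
  rw [uop_apply, cst_ub, ← tensor_mu_cube hμ]
  unfold cjT
  rw [cj_ub _ _ (cube_eq_one (tensor_omega hω)), map_mul, map_pow,
    ← IsScalarTower.algebraMap_apply K Ω (Ω ⊗[K] L)]
  rfl

theorem cjT_cst_m3 {ω α : K} (hω : ω ^ 2 + ω + 1 = 0) {μ : Ω} (hμ : μ ^ 3 = algebraMap K Ω α)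
    (x y : Fin 3 → L) (i : ℕ) : cjT ω μ (cst Ω (m3 (algebraMap K L α) x y)) i =
      cjT ω μ (cst Ω x) i * cjT ω μ (cst Ω y) i := by
  rw [cst_m3, ← tensor_mu_cube hμ]
  unfold cjT
  rw [cj_m3 _ _ (cube_eq_one (tensor_omega hω))]

variable [IsDomain (Ω ⊗[K] L)]

theorem mem_Sp_nat {ω : K} (hω : ω ^ 2 + ω + 1 = 0) (μ : Ω) (θ : Fin 3 → L) (t : L)
    [IsFractionRing (Ofin Ω (tt K Ω t)) (LL K L Ω)] [IsFractionRing (Oinf Ω (tt K Ω t)) (LL K L Ω)]
    (e n : ℕ) (h : Fin 3 → Ω ⊗[K] L) (hh : h ∈ Sp ω μ θ t e n) (i : ℕ) :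
    algebraMap (Ω ⊗[K] L) (LL K L Ω) (cjT ω μ h i) ∈ (Zid (Ofin Ω (tt K Ω t)) (fth ω μ θ) i) ^ e ∧
    (tt K Ω t)⁻¹ ^ n * algebraMap (Ω ⊗[K] L) (LL K L Ω) (cjT ω μ h i) ∈
      (Zid (Oinf Ω (tt K Ω t)) (fth ω μ θ) i) ^ e := by
  induction i using Nat.strong_induction_on with
  | _ i ih =>
    by_cases hi : i < 3
    · exact hh ⟨i, hi⟩
    · obtain ⟨k, rfl⟩ : ∃ k, i = k + 3 := ⟨i - 3, by omega⟩
      rw [Zid_period _ _ (fth_add_three hω μ θ), Zid_period _ _ (fth_add_three hω μ θ),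
        cjT_add_three hω]
      exact ih k (by omega)

theorem three_dvd_h0 (t : L) [IsAlgClosed Ω] (ht : Transcendental K t)
    (hfin : FiniteDimensional (IntermediateField.adjoin K {t}) L)
    [IsDedekindDomain (Ofin Ω (tt K Ω t))] [IsFractionRing (Ofin Ω (tt K Ω t)) (LL K L Ω)]
    [IsDedekindDomain (Oinf Ω (tt K Ω t))] [IsFractionRing (Oinf Ω (tt K Ω t)) (LL K L Ω)]
    (ω α a : K) (hω : ω ^ 2 + ω + 1 = 0) (ha0 : a ≠ 0) (hα0 : α ≠ 0)
    (hna : ¬ IsNm α a) (θ : Fin 3 → L)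
    (hθ : nf (algebraMap K L α) (θ 0) (θ 1) (θ 2) = algebraMap K L a)
    (μ : Ω) (hμ : μ ^ 3 = algebraMap K Ω α) (e n : ℕ)
    (hdesc : ∃ W : Submodule K (Fin 3 → L),
      (∀ w : Fin 3 → L, w ∈ W ↔ cst Ω w ∈ Sp ω μ θ t e n) ∧ FiniteDimensional K W ∧
      Module.finrank K W = 3 * h0 (toK ((Zid (Ofin Ω (tt K Ω t)) (fth ω μ θ) 0) ^ e))
        (toK (FractionalIdeal.spanSingleton _ (tt K Ω t ^ n) *
          (Zid (Oinf Ω (tt K Ω t)) (fth ω μ θ) 0) ^ e)))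
    (he : ¬ 3 ∣ e) (τ : Fin 3 → L)
    (hτ : nf (algebraMap K L α) (τ 0) (τ 1) (τ 2) = algebraMap K L (a ^ e))
    (hτf : ∀ i : ℕ, algebraMap (Ω ⊗[K] L) (LL K L Ω) (cjT ω μ (cst Ω τ) i) = fth ω μ θ i ^ e) :
    3 ∣ h0 (toK ((Zid (Ofin Ω (tt K Ω t)) (fth ω μ θ) 0) ^ e))
        (toK (FractionalIdeal.spanSingleton _ (tt K Ω t ^ n) *
          (Zid (Oinf Ω (tt K Ω t)) (fth ω μ θ) 0) ^ e)) := by
  obtain ⟨W, hW, hfd, hrank⟩ := hdesc
  have h9 : 9 ∣ Module.finrank K W := by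
    refine nine_dvd_of_stable ω α (a ^ e) hω hα0 (pow_ne_zero _ ha0)
      (fun h => hna (IsNm.of_pow ha0 he h)) τ hτ W hfd ?_ ?_
    · intro w hw
      rw [hW] at hw ⊢
      have hw' := mem_Sp_nat hω μ θ t e n _ hw
      intro i
      rw [cjT_cst_uop hω hμ, map_mul, ← IsScalarTower.algebraMap_apply Ω (Ω ⊗[K] L) (LL K L Ω),
        mul_left_comm]
      exact ⟨smul_mem_frac _ _ _ (hw' i).1, smul_mem_frac _ _ _ (hw' i).2⟩
    · intro w hw
      rw [hW] at hw ⊢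
      have hw' := mem_Sp_nat hω μ θ t e n _ hw
      intro i
      rw [cjT_cst_top hω hμ, map_mul, hτf, mul_left_comm]
      exact ⟨mem_shift _ _ _ (algebraMap K Ω a) ((map_ne_zero _).mpr ha0) (fth_prod hω hμ hθ i) e
          (hw' _).1,
        mem_shift _ _ _ (algebraMap K Ω a) ((map_ne_zero _).mpr ha0) (fth_prod hω hμ hθ i) e
          (hw' _).2⟩
  rw [hrank] at h9
  omega

end Tensor

end Pool.Agent.D5741.Deg3

namespace Pool.Agent.D5741

/-- TASK DEG3, with the conclusion of `descent_Sp` as a hypothesis. -/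
theorem three_dvd_deg_of (K L Ω : Type) [Field K] [CharZero K] [Field L] [Algebra K L] (t : L)
    [Field Ω] [IsAlgClosed Ω] [Algebra K Ω] [IsDomain (Ω ⊗[K] L)]
    (ht : Transcendental K t) (hfin : FiniteDimensional (IntermediateField.adjoin K {t}) L)
    [IsDedekindDomain (Ofin Ω (tt K Ω t))] [IsFractionRing (Ofin Ω (tt K Ω t)) (LL K L Ω)]
    [IsDedekindDomain (Oinf Ω (tt K Ω t))] [IsFractionRing (Oinf Ω (tt K Ω t)) (LL K L Ω)]
    (ω α a : K) (hω : ω ^ 2 + ω + 1 = 0) (ha0 : a ≠ 0) (hα0 : α ≠ 0)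
    (hna : ¬ IsNm α a)
    (θ : Fin 3 → L) (hθ : nf (algebraMap K L α) (θ 0) (θ 1) (θ 2) = algebraMap K L a)
    (μ : Ω) (hμ : μ ^ 3 = algebraMap K Ω α)
    (hdesc : ∀ e n : ℕ, ∃ W : Submodule K (Fin 3 → L),
      (∀ w : Fin 3 → L, w ∈ W ↔ cst Ω w ∈ Sp ω μ θ t e n) ∧ FiniteDimensional K W ∧
      Module.finrank K W = 3 * h0 (toK ((Zid (Ofin Ω (tt K Ω t)) (fth ω μ θ) 0) ^ e))
        (toK (FractionalIdeal.spanSingleton _ (tt K Ω t ^ n) *
          (Zid (Oinf Ω (tt K Ω t)) (fth ω μ θ) 0) ^ e)))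
    (𝔫 : Ideal (Ofin Ω (tt K Ω t))) (𝔫' : Ideal (Oinf Ω (tt K Ω t)))
    (h𝔫 : (𝔫 : FractionalIdeal (Ofin Ω (tt K Ω t))⁰ (LL K L Ω)) *
      Zid (Ofin Ω (tt K Ω t)) (fth ω μ θ) 0 = 1)
    (h𝔫' : (𝔫' : FractionalIdeal (Oinf Ω (tt K Ω t))⁰ (LL K L Ω)) *
      Zid (Oinf Ω (tt K Ω t)) (fth ω μ θ) 0 = 1) :
    3 ∣ nfac 𝔫 + nfac 𝔫' := by
  have hΩ : CharZero Ω := charZero_of_injective_algebraMap (algebraMap K Ω).injective
  obtain ⟨htr, hfd, -⟩ := integral_mem_range K L Ω (LL K L Ω) t ht hfin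
  refine Deg3.dims (tt K Ω t) htr hfd _ _ (one_le_Zid _ _ _) (one_le_Zid _ _ _) 𝔫 𝔫' h𝔫 h𝔫' ?_
  rintro e n (rfl | rfl)
  · refine Deg3.three_dvd_h0 t ht hfin ω α a hω ha0 hα0 hna θ hθ μ hμ 1 n (hdesc 1 n)
      (by norm_num) θ ?_ ?_
    · rw [hθ, pow_one]
    · intro i
      rw [pow_one]
      rfl
  · refine Deg3.three_dvd_h0 t ht hfin ω α a hω ha0 hα0 hna θ hθ μ hμ 2 n (hdesc 2 n)
      (by norm_num)
      (Deg3.m3 (algebraMap K L α) θ θ) ?_ ?_
    · rw [Deg3.nf_m3, hθ, map_pow, pow_two]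
    · intro i
      rw [Deg3.cjT_cst_m3 hω hμ, map_mul, pow_two]
      rfl

end Pool.Agent.D5741
end
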