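import Mathlib
import Pool.Agent.Lib.MP_d5741c_al.Basic
import Pool.Agent.Lib.MP_d5741c_al.FF
import Pool.Agent.Lib.MP_d5741c_al.Curve
import Pool.Agent.Lib.MP_d5741c_al.Mg.G002

section

/-!
# Conjugates of triples in the tensor product
-/

set_option autoImplicit false

namespace Pool.Agent.D5741

open scoped TensorProduct nonZeroDivisors

namespace Desc

section Ring

variable {R : Type*} [CommRing R]

theorem cj_prod (ω μ : R) (h : Fin 3 → R) (i : ℕ) (hω : ω ^ 2 + ω + 1 = 0) :
    cj ω μ h i * cj ω μ h (i + 1) * cj ω μ h (i + 2) = nf (μ ^ 3) (h 0) (h 1) (h 2) := by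
  have h3 : ω ^ 3 = 1 := by linear_combination (ω - 1) * hω
  have key : ∀ j : ℕ, cj ω μ h (i + j) = cj ω (ω ^ i * μ) h j := by
    intro j
    unfold cj
    rw [pow_add]
    ring
  have h1 := nf_eq_prod_cj ω (ω ^ i * μ) h hω
  have h4 : (ω ^ i * μ) ^ 3 = μ ^ 3 := by
    rw [mul_pow, ← pow_mul, mul_comm i 3, pow_mul, h3, one_pow, one_mul]
  rw [h4] at h1
  rw [h1, ← key 0, ← key 1, ← key 2, add_zero]

/-- Replacing `μ` by `ω^c μ` shifts the conjugates. -/
theorem cj_shift (ω μ : R) (h : Fin 3 → R) (c i : ℕ) :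
    cj ω (ω ^ c * μ) h i = cj ω μ h (i + c) := by
  unfold cj
  rw [pow_add]
  ring

end Ring

section tensor

variable {K L Ω : Type} [Field K] [Field L] [Algebra K L] [Field Ω] [Algebra K Ω]

theorem omega_tensor {ω : K} (hω : ω ^ 2 + ω + 1 = 0) :
    (algebraMap K (Ω ⊗[K] L) ω) ^ 2 + algebraMap K (Ω ⊗[K] L) ω + 1 = 0 := by
  rw [← map_pow, ← map_add, ← map_one (algebraMap K (Ω ⊗[K] L)), ← map_add, hω, map_zero]

theorem cjT_period {ω : K} (hω : ω ^ 2 + ω + 1 = 0) (μ : Ω) (h : Fin 3 → Ω ⊗[K] L) (i : ℕ) :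
    cjT ω μ h (i + 3) = cjT ω μ h i :=
  cj_add_three _ _ _ _ (omega_tensor hω)

theorem algebraMap_K_tensor (c : K) :
    algebraMap K (Ω ⊗[K] L) c = (algebraMap K Ω c) ⊗ₜ[K] (1 : L) := by
  rw [Algebra.TensorProduct.algebraMap_apply]

theorem algebraMap_K_tensor' (c : K) :
    algebraMap K (Ω ⊗[K] L) c = (1 : Ω) ⊗ₜ[K] (algebraMap K L c) := by
  rw [algebraMap_K_tensor, Algebra.algebraMap_eq_smul_one, Algebra.algebraMap_eq_smul_one,
    TensorProduct.smul_tmul]

theorem cjT_prod {ω α : K} (hω : ω ^ 2 + ω + 1 = 0) {μ : Ω} (hμ : μ ^ 3 = algebraMap K Ω α)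
    (h : Fin 3 → Ω ⊗[K] L) (i : ℕ) :
    cjT ω μ h i * cjT ω μ h (i + 1) * cjT ω μ h (i + 2) =
      nf (algebraMap K (Ω ⊗[K] L) α) (h 0) (h 1) (h 2) := by
  unfold cjT
  rw [cj_prod _ _ _ _ (omega_tensor hω)]
  congr 1
  rw [Algebra.TensorProduct.tmul_pow, one_pow, hμ, algebraMap_K_tensor]

theorem nf_cst {α a : K} (θ : Fin 3 → L)
    (hθ : nf (algebraMap K L α) (θ 0) (θ 1) (θ 2) = algebraMap K L a) :
    nf (algebraMap K (Ω ⊗[K] L) α) (cst Ω θ 0) (cst Ω θ 1) (cst Ω θ 2) =
      algebraMap K (Ω ⊗[K] L) a := by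
  have h1 := congrArg (Algebra.TensorProduct.includeRight : L →ₐ[K] Ω ⊗[K] L).toRingHom hθ
  rw [map_nf] at h1
  rw [algebraMap_K_tensor', algebraMap_K_tensor']
  exact h1

/-- The conjugates as linear maps. -/
noncomputable def cjL (ω : K) (μ : Ω) (i : ℕ) : (Fin 3 → Ω ⊗[K] L) →ₗ[Ω] Ω ⊗[K] L where
  toFun h := cjT ω μ h i
  map_add' h h' := cj_add _ _ _ _ _
  map_smul' c h := by
    have : c • h = fun j => algebraMap Ω (Ω ⊗[K] L) c * h j := by
      ext j
      rw [Pi.smul_apply, Algebra.smul_def]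
    rw [this]
    unfold cjT
    rw [cj_mul, RingHom.id_apply, Algebra.smul_def]

@[simp]
theorem cjL_apply (ω : K) (μ : Ω) (i : ℕ) (h : Fin 3 → Ω ⊗[K] L) :
    cjL ω μ i h = cjT ω μ h i := rfl

theorem three_tensor [CharZero K] :
    (3 : Ω ⊗[K] L) * algebraMap K (Ω ⊗[K] L) (3⁻¹) = 1 := by
  have h3 : (3 : Ω ⊗[K] L) = algebraMap K (Ω ⊗[K] L) 3 := by rw [map_ofNat]
  rw [h3, ← map_mul, mul_inv_cancel₀ (by norm_num), map_one]

theorem mu_tensor {μ : Ω} (hμ : μ ≠ 0) :
    (μ ⊗ₜ[K] (1 : L)) * (μ⁻¹ ⊗ₜ[K] (1 : L)) = 1 := by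
  rw [Algebra.TensorProduct.tmul_mul_tmul, mul_inv_cancel₀ hμ, one_mul]
  rfl

theorem cjT_injective [CharZero K] {ω : K} (hω : ω ^ 2 + ω + 1 = 0) {μ : Ω} (hμ : μ ≠ 0)
    {h h' : Fin 3 → Ω ⊗[K] L} (hh : ∀ i : Fin 3, cjT ω μ h i = cjT ω μ h' i) : h = h' :=
  cj_injective (omega_tensor hω) (mu_tensor hμ) three_tensor hh

theorem cjT_surjective [CharZero K] {ω : K} (hω : ω ^ 2 + ω + 1 = 0) {μ : Ω} (hμ : μ ≠ 0)
    (w : Fin 3 → Ω ⊗[K] L) : ∃ h : Fin 3 → Ω ⊗[K] L, ∀ i : Fin 3, cjT ω μ h i = w i :=
  ⟨_, cj_dft (omega_tensor hω) (mu_tensor hμ) three_tensor w⟩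

/-- `τ ⊗ id` on the conjugates. -/
theorem map_cjT (τ : Ω ≃ₐ[K] Ω) {ω : K} (μ : Ω) (c : ℕ) (hc : τ μ = algebraMap K Ω ω ^ c * μ)
    (h : Fin 3 → Ω ⊗[K] L) (i : ℕ) :
    Algebra.TensorProduct.map τ.toAlgHom (AlgHom.id K L) (cjT ω μ h i) =
      cjT ω μ (fun j => Algebra.TensorProduct.map τ.toAlgHom (AlgHom.id K L) (h j)) (i + c) := by
  unfold cjT
  have h1 := map_cj (Algebra.TensorProduct.map τ.toAlgHom (AlgHom.id K L)).toRingHom
    (algebraMap K (Ω ⊗[K] L) ω) (μ ⊗ₜ 1) h i
  rw [← cj_shift]
  refine h1.trans ?_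
  have h2 : (Algebra.TensorProduct.map τ.toAlgHom (AlgHom.id K L)).toRingHom
      (algebraMap K (Ω ⊗[K] L) ω) = algebraMap K (Ω ⊗[K] L) ω :=
    (Algebra.TensorProduct.map τ.toAlgHom (AlgHom.id K L)).commutes ω
  have h3 : (Algebra.TensorProduct.map τ.toAlgHom (AlgHom.id K L)).toRingHom (μ ⊗ₜ 1) =
      algebraMap K (Ω ⊗[K] L) ω ^ c * (μ ⊗ₜ 1) := by
    have : (Algebra.TensorProduct.map τ.toAlgHom (AlgHom.id K L)).toRingHom (μ ⊗ₜ 1) =
      (τ μ) ⊗ₜ 1 := rfl
    rw [this, hc, algebraMap_K_tensor, Algebra.TensorProduct.tmul_pow, one_pow,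
      Algebra.TensorProduct.tmul_mul_tmul, one_mul]
  rw [h2, h3]
  rfl

/-- The images of a cube root under an automorphism. -/
theorem exists_shift_mu (τ : Ω ≃ₐ[K] Ω) {ω α : K} (hω : ω ^ 2 + ω + 1 = 0) {μ : Ω}
    (hμ : μ ^ 3 = algebraMap K Ω α) : ∃ c : ℕ, c ≤ 3 ∧ τ μ = algebraMap K Ω ω ^ c * μ := by
  have hω' : (algebraMap K Ω ω) ^ 2 + algebraMap K Ω ω + 1 = 0 := by
    rw [← map_pow, ← map_add, ← map_one (algebraMap K Ω), ← map_add, hω, map_zero]
  have h1 : (τ μ) ^ 3 = μ ^ 3 := by
    rw [← map_pow, hμ, τ.commutes]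
  have h2 : (τ μ - μ) * (τ μ - algebraMap K Ω ω * μ) * (τ μ - algebraMap K Ω ω ^ 2 * μ) = 0 := by
    have h3 : algebraMap K Ω ω ^ 3 = 1 := by linear_combination (algebraMap K Ω ω - 1) * hω'
    linear_combination h1 - μ * (τ μ) ^ 2 * hω' + (algebraMap K Ω ω) * μ ^ 2 * τ μ * hω' -
      μ ^ 3 * h3
  rw [mul_eq_zero, mul_eq_zero, sub_eq_zero, sub_eq_zero, sub_eq_zero] at h2
  rcases h2 with (h2 | h2) | h2
  · exact ⟨0, by norm_num, by rw [h2, pow_zero, one_mul]⟩
  · exact ⟨1, by norm_num, by rw [h2, pow_one]⟩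
  · exact ⟨2, by norm_num, h2⟩

end tensor

end Desc

end Pool.Agent.D5741
end

section

/-!
# Embeddings of a function field with prescribed value of `t`
-/

set_option autoImplicit false
set_option linter.style.haveILetI false

namespace Pool.Agent.D5741

open Polynomial
open scoped IntermediateField.algebraAdjoinAdjoin

theorem isAlgebraic_adjoin_of_finite (K L : Type) [Field K] [Field L] [Algebra K L] (t : L)
    (hfin : FiniteDimensional (IntermediateField.adjoin K {t}) L) (l : L) :
    IsAlgebraic (Algebra.adjoin K {t}) l := by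
  have h1 : IsAlgebraic (IntermediateField.adjoin K {t}) l := Algebra.IsAlgebraic.isAlgebraic l
  exact (IsFractionRing.isAlgebraic_iff (Algebra.adjoin K {t}) (IntermediateField.adjoin K {t}) L).mpr h1

/-- `L` has an embedding into an algebraically closed field with `t ↦ s`, `s` transcendental. -/
theorem exists_emb (K L Ω : Type) [Field K] [Field L] [Algebra K L] [Field Ω] [IsAlgClosed Ω]
    [Algebra K Ω] (t : L) (ht : Transcendental K t)
    (hfin : FiniteDimensional (IntermediateField.adjoin K {t}) L) (s : Ω)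
    (hs : Transcendental K s) : ∃ p : L →ₐ[K] Ω, p t = s := by
  letI i1 : Algebra K[X] L := (aeval t : K[X] →ₐ[K] L).toRingHom.toAlgebra
  letI i2 : Algebra K[X] Ω := (aeval s : K[X] →ₐ[K] Ω).toRingHom.toAlgebra
  have e1 : ∀ q : K[X], algebraMap K[X] L q = aeval t q := fun q => rfl
  have e2 : ∀ q : K[X], algebraMap K[X] Ω q = aeval s q := fun q => rfl
  haveI : FaithfulSMul K[X] L := by
    rw [faithfulSMul_iff_algebraMap_injective]
    exact transcendental_iff_injective.mp ht
  haveI : FaithfulSMul K[X] Ω := by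
    rw [faithfulSMul_iff_algebraMap_injective]
    exact transcendental_iff_injective.mp hs
  haveI : Algebra.IsAlgebraic K[X] L := by
    constructor
    intro l
    have h1 := isAlgebraic_adjoin_of_finite K L t hfin l
    obtain ⟨q, hq0, hq⟩ := h1
    have hinj : Function.Injective (aeval t : K[X] →ₐ[K] L) := transcendental_iff_injective.mp ht
    let e : K[X] ≃ₐ[K] (aeval t : K[X] →ₐ[K] L).range := AlgEquiv.ofInjective _ hinj
    have hr : Algebra.adjoin K {t} = (aeval t : K[X] →ₐ[K] L).range :=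
      Algebra.adjoin_singleton_eq_range_aeval K t
    let e' : Algebra.adjoin K {t} ≃ₐ[K] K[X] := (Subalgebra.equivOfEq _ _ hr).trans e.symm
    have he' : ∀ y : Algebra.adjoin K {t}, aeval t (e' y) = (y : L) := by
      intro y
      have h2 : e (e' y) = Subalgebra.equivOfEq _ _ hr y := by
        simp only [e', AlgEquiv.trans_apply, AlgEquiv.apply_symm_apply]
      have h3 := congrArg Subtype.val h2
      exact h3
    refine ⟨q.map e'.toRingEquiv.toRingHom, ?_, ?_⟩
    · rwa [Ne, Polynomial.map_eq_zero_iff]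
      exact e'.injective
    · rw [aeval_def, eval₂_map]
      rw [aeval_def] at hq
      have h4 : (algebraMap K[X] L).comp e'.toRingEquiv.toRingHom =
          algebraMap (Algebra.adjoin K {t}) L := by
        ext y
        exact he' y
      rw [h4]
      exact hq
  let p : L →ₐ[K[X]] Ω := IsAlgClosed.lift
  have hp : ∀ q : K[X], p (aeval t q) = aeval s q := by
    intro q
    rw [← e1, ← e2]
    exact p.commutes q
  refine ⟨{ p.toRingHom with commutes' := ?_ }, ?_⟩
  · intro c
    have h1 := hp (C c)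
    rw [aeval_C, aeval_C] at h1
    exact h1
  · have h1 := hp X
    rw [aeval_X, aeval_X] at h1
    exact h1

end Pool.Agent.D5741
end

section

set_option autoImplicit false
open scoped TensorProduct nonZeroDivisors

namespace Pool.Agent.D5741.ExtAux

open Polynomial

/-- All values of `j` are algebraic over the field generated by the `x i`, `i ∈ T`. -/
def Inv (K : Type) {Ω ι : Type} [Field K] [Field Ω] [Algebra K Ω] (x : ι → Ω) (T : Set ι)
    {E : Type} (j : E → Ω) : Prop :=
  ∀ e, IsAlgebraic (IntermediateField.adjoin K (x '' T)) (j e)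

theorem transc {K Ω ι E : Type} [Field K] [Field Ω] [Algebra K Ω] [Field E]
    {x : ι → Ω} (hx : AlgebraicIndependent K x) {T : Set ι} {s : ι} (hs : s ∉ T) (j : E →+* Ω)
    (hj : Inv K x T j) (q : E[X]) (hq : q.eval₂ j (x s) = 0) : q = 0 := by
  by_contra hq0
  set F := IntermediateField.adjoin K (x '' T) with hF
  set C := algebraicClosure F Ω with hC
  have hmem : ∀ e, j e ∈ C := fun e => mem_algebraicClosure_iff.mpr (hj e)
  let jC : E →+* C := j.codRestrict C.toSubfield hmem
  have h1 : IsAlgebraic C (x s) := by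
    refine ⟨q.map jC, (Polynomial.map_ne_zero_iff jC.injective).mpr hq0, ?_⟩
    rw [aeval_def, eval₂_map]
    exact hq
  have h2 : IsAlgebraic F (x s) := h1.restrictScalars F
  have h3 := hx.transcendental_adjoin hs
  rw [← IntermediateField.transcendental_adjoin_iff] at h3
  exact h3 h2

theorem inj_prod {K L Ω E : Type} [Field K] [Field L] [Algebra K L] [Field Ω] [Algebra K Ω]
    [Field E] [Algebra K E] [IsDomain (E ⊗[K] L)] (t : L)
    (halg : ∀ l : L, IsAlgebraic (Algebra.adjoin K {t}) l) (j : E →ₐ[K] Ω) (p : L →ₐ[K] Ω)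
    (htr : ∀ q : E[X], q.eval₂ (j : E →+* Ω) (p t) = 0 → q = 0) :
    Function.Injective (Algebra.TensorProduct.productMap j p) := by
  rw [injective_iff_map_eq_zero]
  intro u hu
  by_contra hu0
  set B : Subalgebra E (E ⊗[K] L) := Algebra.adjoin E ({1 ⊗ₜ t} : Set (E ⊗[K] L)) with hB
  have hmem : ∀ y : Algebra.adjoin K ({t} : Set L), (1 : E) ⊗ₜ[K] (y : L) ∈ B := by
    rintro ⟨y, hy⟩
    rw [Algebra.adjoin_singleton_eq_range_aeval] at hy
    obtain ⟨q, rfl⟩ := hy
    have h1 : (1 : E) ⊗ₜ[K] (aeval t q) = aeval ((1 : E) ⊗ₜ[K] t) q := by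
      have := aeval_algHom_apply (Algebra.TensorProduct.includeRight : L →ₐ[K] E ⊗[K] L) t q
      simpa using this.symm
    show (1 : E) ⊗ₜ[K] (aeval t q) ∈ B
    rw [h1]
    have h2 : aeval ((1 : E) ⊗ₜ[K] t) q = aeval ((1 : E) ⊗ₜ[K] t) (q.map (algebraMap K E)) := by
      rw [aeval_map_algebraMap]
    rw [h2, hB, Algebra.adjoin_singleton_eq_range_aeval]
    exact ⟨_, rfl⟩
  let f : Algebra.adjoin K ({t} : Set L) →+* B :=
    ((Algebra.TensorProduct.includeRight : L →ₐ[K] E ⊗[K] L).toRingHom.comp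
      (Algebra.adjoin K ({t} : Set L)).val.toRingHom).codRestrict B.toSubring hmem
  have hinc : Function.Injective (Algebra.TensorProduct.includeRight : L →ₐ[K] E ⊗[K] L) :=
    (Algebra.TensorProduct.includeRight : L →ₐ[K] E ⊗[K] L).toRingHom.injective
  have hf : Function.Injective f := by
    intro a b hab
    have h1 : (f a : E ⊗[K] L) = f b := congrArg _ hab
    exact Subtype.ext (hinc h1)
  have hN : ∀ n : E ⊗[K] L, IsAlgebraic B n := by
    intro n
    induction n using TensorProduct.induction_on with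
    | zero => exact isAlgebraic_zero
    | add a b ha hb => exact ha.add hb
    | tmul e l =>
      have h1 : e ⊗ₜ[K] l = (algebraMap E (E ⊗[K] L) e) * (1 ⊗ₜ[K] l) := by
        simp
      rw [h1]
      refine IsAlgebraic.mul ?_ ?_
      · exact isAlgebraic_algebraMap (algebraMap E B e)
      · exact (halg l).ringHom_of_comp_eq f
          (Algebra.TensorProduct.includeRight : L →ₐ[K] E ⊗[K] L).toRingHom hf rfl
  obtain ⟨⟨r, hr⟩, hr0, hdvd⟩ := (hN u).exists_nonzero_dvd (mem_nonZeroDivisors_of_ne_zero hu0)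
  have hr1 := hr
  rw [hB, Algebra.adjoin_singleton_eq_range_aeval] at hr1
  obtain ⟨q, hq⟩ := hr1
  obtain ⟨w, hw⟩ := hdvd
  have h1 : Algebra.TensorProduct.productMap j p r = 0 := by
    have h2 : r = u * w := hw
    rw [h2, map_mul, hu, zero_mul]
  have h3 : q.eval₂ (j : E →+* Ω) (p t) = 0 := by
    rw [← h1, ← hq]
    have h4 := Polynomial.hom_eval₂ q (algebraMap E (E ⊗[K] L))
      (Algebra.TensorProduct.productMap j p).toRingHom ((1 : E) ⊗ₜ[K] t)
    have h5 : (Algebra.TensorProduct.productMap j p).toRingHom.comp (algebraMap E (E ⊗[K] L)) =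
        (j : E →+* Ω) := by
      ext e
      simp
    rw [h5] at h4
    have h6 : (Algebra.TensorProduct.productMap j p).toRingHom ((1 : E) ⊗ₜ[K] t) = p t := by
      simp
    rw [h6] at h4
    exact h4.symm
  have h7 := htr q h3
  rw [h7] at hq
  have h8 : r = 0 := by
    rw [← hq]
    simp
  exact hr0 (Subtype.ext h8)

theorem alg_mono {K Ω ι : Type} [Field K] [Field Ω] [Algebra K Ω] {x : ι → Ω} {T T' : Set ι}
    (hT : T ⊆ T') {z : Ω} (h : IsAlgebraic (IntermediateField.adjoin K (x '' T)) z) :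
    IsAlgebraic (IntermediateField.adjoin K (x '' T')) z := by
  have hle : IntermediateField.adjoin K (x '' T) ≤ IntermediateField.adjoin K (x '' T') :=
    IntermediateField.adjoin.mono K _ _ (Set.image_mono hT)
  exact h.ringHom_of_comp_eq (IntermediateField.inclusion hle).toRingHom (RingHom.id Ω)
    (IntermediateField.inclusion hle).toRingHom.injective rfl

theorem alg_emb {K L Ω ι : Type} [Field K] [Field L] [Algebra K L] [Field Ω] [Algebra K Ω]
    {x : ι → Ω} {T : Set ι} (t : L) (p : L →ₐ[K] Ω)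
    (hpt : p t ∈ IntermediateField.adjoin K (x '' T)) {l : L}
    (h : IsAlgebraic (Algebra.adjoin K {t}) l) :
    IsAlgebraic (IntermediateField.adjoin K (x '' T)) (p l) := by
  have hmem : ∀ y : Algebra.adjoin K ({t} : Set L), p y ∈ IntermediateField.adjoin K (x '' T) := by
    rintro ⟨y, hy⟩
    rw [Algebra.adjoin_singleton_eq_range_aeval] at hy
    obtain ⟨q, rfl⟩ := hy
    have h1 : p (aeval t q) = aeval (p t) q := (aeval_algHom_apply p t q).symm
    show p (aeval t q) ∈ IntermediateField.adjoin K (x '' T)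
    rw [h1]
    have h2 := aeval_algHom_apply (IntermediateField.adjoin K (x '' T)).val ⟨p t, hpt⟩ q
    have h3 : (IntermediateField.adjoin K (x '' T)).val ⟨p t, hpt⟩ = p t := rfl
    rw [h3] at h2
    rw [h2]
    exact (aeval (⟨p t, hpt⟩ : IntermediateField.adjoin K (x '' T)) q).2
  let f : Algebra.adjoin K ({t} : Set L) →+* IntermediateField.adjoin K (x '' T) :=
    (p.toRingHom.comp (Algebra.adjoin K ({t} : Set L)).val.toRingHom).codRestrict
      (IntermediateField.adjoin K (x '' T)).toSubfield hmem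
  have hf : Function.Injective f := by
    intro a b hab
    have h1 : (f a : Ω) = f b := congrArg _ hab
    exact Subtype.ext (p.toRingHom.injective h1)
  exact h.ringHom_of_comp_eq f p.toRingHom hf rfl

theorem step {K Ω Ω' ι N : Type} [Field K] [Field Ω] [Algebra K Ω] [Field Ω'] [Algebra K Ω']
    [CommRing N] [IsDomain N] [Algebra K N] {x : ι → Ω} {x' : ι → Ω'} {T : Set ι}
    (φ : N →ₐ[K] Ω) (φ' : N →ₐ[K] Ω') (hφ : Function.Injective φ) (hφ' : Function.Injective φ')
    (hinv : Inv K x T φ) (hinv' : Inv K x' T φ') :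
    ∃ (E' : Type) (_ : Field E') (_ : Algebra K E') (b : N →ₐ[K] E') (j : E' →ₐ[K] Ω)
      (j' : E' →ₐ[K] Ω'), (∀ n, j (b n) = φ n) ∧ (∀ n, j' (b n) = φ' n) ∧
      Inv K x T j ∧ Inv K x' T j' := by
  have key : ∀ (Θ : Type) [Field Θ] [Algebra K Θ] (y : ι → Θ) (ψ : N →ₐ[K] Θ)
      (hψ : Function.Injective ψ), Inv K y T ψ →
      Inv K y T (IsFractionRing.liftAlgHom hψ : FractionRing N →ₐ[K] Θ) := by
    intro Θ _ _ y ψ hψ hi z
    obtain ⟨a, b, hb, rfl⟩ := IsFractionRing.div_surjective (A := N) z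
    rw [map_div₀]
    have h1 : ∀ n : N, (IsFractionRing.liftAlgHom hψ : FractionRing N →ₐ[K] Θ)
        (algebraMap N (FractionRing N) n) = ψ n := by
      intro n
      rw [IsFractionRing.liftAlgHom_apply, IsFractionRing.lift_algebraMap]
      rfl
    rw [h1, h1]
    have h2 := mem_algebraicClosure_iff.mpr (hi a)
    have h3 := mem_algebraicClosure_iff.mpr (hi b)
    exact mem_algebraicClosure_iff.mp (div_mem h2 h3)
  refine ⟨FractionRing N, inferInstance, inferInstance, IsScalarTower.toAlgHom K N (FractionRing N),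
    IsFractionRing.liftAlgHom hφ, IsFractionRing.liftAlgHom hφ', ?_, ?_, key Ω x φ hφ hinv,
    key Ω' x' φ' hφ' hinv'⟩
  · intro n
    rw [IsFractionRing.liftAlgHom_apply]
    exact IsFractionRing.lift_algebraMap _ n
  · intro n
    rw [IsFractionRing.liftAlgHom_apply]
    exact IsFractionRing.lift_algebraMap _ n

end Pool.Agent.D5741.ExtAux

namespace Pool.Agent.D5741

open Polynomial ExtAux

/-- TASK EXT -/
theorem exists_ext_hom (K L : Type) [Field K] [CharZero K] [Field L] [Algebra K L] (t : L)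
    (ht : Transcendental K t) (hfin : FiniteDimensional (IntermediateField.adjoin K {t}) L)
    (hreg : ∀ (F : Type) [Field F] [Algebra K F], IsDomain (F ⊗[K] L))
    (Ω Ω' : Type) [Field Ω] [IsAlgClosed Ω] [Algebra K Ω] [Field Ω'] [IsAlgClosed Ω'] [Algebra K Ω']
    (g₀ : algebraicClosure K Ω →ₐ[K] Ω') (I V : Type) [Finite I] [Finite V]
    (p : I → (L →ₐ[K] Ω)) (p' : I → (L →ₐ[K] Ω')) (v : V → Ω) (v' : V → Ω')
    (hind : AlgebraicIndependent K (Sum.elim (fun i => p i t) v))
    (hind' : AlgebraicIndependent K (Sum.elim (fun i => p' i t) v')) :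
    ∃ (E : IntermediateField K Ω) (hE : algebraicClosure K Ω ≤ E) (g : E →ₐ[K] Ω'),
      (∀ x : algebraicClosure K Ω, g ⟨x, hE x.2⟩ = g₀ x) ∧
      (∀ i l, ∃ h : p i l ∈ E, g ⟨p i l, h⟩ = p' i l) ∧
      (∀ i, ∃ h : v i ∈ E, g ⟨v i, h⟩ = v' i) := by
  classical
  have halg : ∀ l : L, IsAlgebraic (Algebra.adjoin K {t}) l := by
    intro l
    rw [← IntermediateField.isAlgebraic_adjoin_iff]
    exact (Algebra.IsAlgebraic.isAlgebraic l)
  set x : I ⊕ V → Ω := Sum.elim (fun i => p i t) v with hx
  set x' : I ⊕ V → Ω' := Sum.elim (fun i => p' i t) v' with hx'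
  have main : ∀ T : Finset (I ⊕ V), ∃ (E : Type) (_ : Field E) (_ : Algebra K E) (j : E →ₐ[K] Ω)
      (j' : E →ₐ[K] Ω') (a : algebraicClosure K Ω →ₐ[K] E), (∀ e, j (a e) = e) ∧
      (∀ e, j' (a e) = g₀ e) ∧ (∀ i, Sum.inl i ∈ T → ∀ l, ∃ e, j e = p i l ∧ j' e = p' i l) ∧
      (∀ i, Sum.inr i ∈ T → ∃ e, j e = v i ∧ j' e = v' i) ∧ Inv K x (T : Set (I ⊕ V)) j ∧
      Inv K x' (T : Set (I ⊕ V)) j' := by
    intro T
    induction T using Finset.induction_on with
    | empty =>
      refine ⟨algebraicClosure K Ω, inferInstance, inferInstance, (algebraicClosure K Ω).val, g₀,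
        AlgHom.id K _, fun e => rfl, fun e => rfl, fun i hi => by simp at hi,
        fun i hi => by simp at hi, ?_, ?_⟩
      · intro e
        exact (mem_algebraicClosure_iff.mp e.2).tower_top _
      · intro e
        have h1 : IsAlgebraic K e := Algebra.IsAlgebraic.isAlgebraic e
        exact (h1.algHom g₀).tower_top _
    | insert s T hs ih =>
      obtain ⟨E, _, _, j, j', a, ha, ha', h1, h2, hi, hi'⟩ := ih
      have hsT : s ∉ (T : Set (I ⊕ V)) := by exact_mod_cast hs
      have htr : ∀ q : E[X], q.eval₂ (j : E →+* Ω) (x s) = 0 → q = 0 :=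
        transc hind hsT (j : E →+* Ω) hi
      have htr' : ∀ q : E[X], q.eval₂ (j' : E →+* Ω') (x' s) = 0 → q = 0 :=
        transc hind' hsT (j' : E →+* Ω') hi'
      have hsub : (T : Set (I ⊕ V)) ⊆ (insert s T : Finset (I ⊕ V)) := by
        simp
      have hsmem : s ∈ ((insert s T : Finset (I ⊕ V)) : Set (I ⊕ V)) := by simp
      have hxs : x s ∈ IntermediateField.adjoin K
          (x '' ((insert s T : Finset (I ⊕ V)) : Set (I ⊕ V))) :=
        IntermediateField.subset_adjoin K _ ⟨s, hsmem, rfl⟩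
      have hxs' : x' s ∈ IntermediateField.adjoin K
          (x' '' ((insert s T : Finset (I ⊕ V)) : Set (I ⊕ V))) :=
        IntermediateField.subset_adjoin K _ ⟨s, hsmem, rfl⟩
      rcases s with s | s
      · have := hreg E
        have hinj : Function.Injective (Algebra.TensorProduct.productMap j (p s)) :=
          inj_prod t halg j (p s) htr
        have hinj' : Function.Injective (Algebra.TensorProduct.productMap j' (p' s)) :=
          inj_prod t halg j' (p' s) htr'
        have hv1 : Inv K x ((insert (Sum.inl s) T : Finset (I ⊕ V)) : Set (I ⊕ V))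
            (Algebra.TensorProduct.productMap j (p s)) := by
          intro n
          induction n using TensorProduct.induction_on with
          | zero => rw [map_zero]; exact isAlgebraic_zero
          | add a b ha hb => rw [map_add]; exact ha.add hb
          | tmul e l =>
            rw [Algebra.TensorProduct.productMap_apply_tmul]
            exact (alg_mono hsub (hi e)).mul (alg_emb t (p s) hxs (halg l))
        have hv2 : Inv K x' ((insert (Sum.inl s) T : Finset (I ⊕ V)) : Set (I ⊕ V))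
            (Algebra.TensorProduct.productMap j' (p' s)) := by
          intro n
          induction n using TensorProduct.induction_on with
          | zero => rw [map_zero]; exact isAlgebraic_zero
          | add a b ha hb => rw [map_add]; exact ha.add hb
          | tmul e l =>
            rw [Algebra.TensorProduct.productMap_apply_tmul]
            exact (alg_mono hsub (hi' e)).mul (alg_emb t (p' s) hxs' (halg l))
        obtain ⟨E', _, _, b, k, k', hk, hk', hI, hI'⟩ := step
          (Algebra.TensorProduct.productMap j (p s)) (Algebra.TensorProduct.productMap j' (p' s))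
          hinj hinj' hv1 hv2
        · refine ⟨E', _, _, k, k',
            (b.comp (Algebra.TensorProduct.includeLeft : E →ₐ[K] E ⊗[K] L)).comp a, ?_, ?_, ?_, ?_,
            hI, hI'⟩
          · intro e
            simp only [AlgHom.comp_apply, hk]
            simp [ha]
          · intro e
            simp only [AlgHom.comp_apply, hk']
            simp [ha']
          · intro i hi l
            rw [Finset.mem_insert] at hi
            rcases hi with hi | hi
            · have hi : i = s := Sum.inl_injective hi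
              subst hi
              refine ⟨b (1 ⊗ₜ l), ?_, ?_⟩
              · rw [hk]; simp
              · rw [hk']; simp
            · obtain ⟨e, he, he'⟩ := h1 i hi l
              refine ⟨b (e ⊗ₜ 1), ?_, ?_⟩
              · rw [hk]; simp [he]
              · rw [hk']; simp [he']
          · intro i hi
            rw [Finset.mem_insert] at hi
            rcases hi with hi | hi
            · simp at hi
            · obtain ⟨e, he, he'⟩ := h2 i hi
              refine ⟨b (e ⊗ₜ 1), ?_, ?_⟩
              · rw [hk]; simp [he]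
              · rw [hk']; simp [he']
      · have key : ∀ (Θ : Type) [Field Θ] [Algebra K Θ] (i : E →ₐ[K] Θ) (y : Θ),
            ∃ φ : E[X] →ₐ[K] Θ, (∀ q, φ q = q.eval₂ (i : E →+* Θ) y) := by
          intro Θ _ _ i y
          refine ⟨{ Polynomial.eval₂RingHom (i : E →+* Θ) y with commutes' := ?_ }, fun q => rfl⟩
          intro r
          simp
        obtain ⟨φ, hφ⟩ := key Ω j (v s)
        obtain ⟨φ', hφ'⟩ := key Ω' j' (v' s)
        have hinj : Function.Injective φ := by
          rw [injective_iff_map_eq_zero]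
          intro q hq
          rw [hφ] at hq
          exact htr q hq
        have hinj' : Function.Injective φ' := by
          rw [injective_iff_map_eq_zero]
          intro q hq
          rw [hφ'] at hq
          exact htr' q hq
        have hC : ∀ e, φ (C e) = j e := fun e => by rw [hφ, eval₂_C]; rfl
        have hC' : ∀ e, φ' (C e) = j' e := fun e => by rw [hφ', eval₂_C]; rfl
        have hX : φ X = v s := by rw [hφ, eval₂_X]
        have hX' : φ' X = v' s := by rw [hφ', eval₂_X]
        have hv1 : Inv K x ((insert (Sum.inr s) T : Finset (I ⊕ V)) : Set (I ⊕ V)) φ := by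
          intro q
          induction q using Polynomial.induction_on' with
          | add q r hq hr => rw [map_add]; exact hq.add hr
          | monomial n e =>
            rw [← C_mul_X_pow_eq_monomial, map_mul, map_pow, hC, hX]
            refine (alg_mono hsub (hi e)).mul (IsAlgebraic.pow ?_ n)
            exact isAlgebraic_algebraMap (⟨v s, hxs⟩ : IntermediateField.adjoin K _)
        have hv2 : Inv K x' ((insert (Sum.inr s) T : Finset (I ⊕ V)) : Set (I ⊕ V)) φ' := by
          intro q
          induction q using Polynomial.induction_on' with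
          | add q r hq hr => rw [map_add]; exact hq.add hr
          | monomial n e =>
            rw [← C_mul_X_pow_eq_monomial, map_mul, map_pow, hC', hX']
            refine (alg_mono hsub (hi' e)).mul (IsAlgebraic.pow ?_ n)
            exact isAlgebraic_algebraMap (⟨v' s, hxs'⟩ : IntermediateField.adjoin K _)
        obtain ⟨E', _, _, b, k, k', hk, hk', hI, hI'⟩ := step φ φ' hinj hinj' hv1 hv2
        · refine ⟨E', _, _, k, k', (b.comp (Polynomial.CAlgHom (R := K) (A := E))).comp a,
            ?_, ?_, ?_, ?_, hI, hI'⟩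
          · intro e
            simp only [AlgHom.comp_apply, hk, CAlgHom_apply, hC, ha]
          · intro e
            simp only [AlgHom.comp_apply, hk', CAlgHom_apply, hC', ha']
          · intro i hi l
            rw [Finset.mem_insert] at hi
            rcases hi with hi | hi
            · simp at hi
            · obtain ⟨e, he, he'⟩ := h1 i hi l
              exact ⟨b (C e), by rw [hk, hC, he], by rw [hk', hC', he']⟩
          · intro i hi
            rw [Finset.mem_insert] at hi
            rcases hi with hi | hi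
            · have hi : i = s := Sum.inr_injective hi
              subst hi
              exact ⟨b X, by rw [hk, hX], by rw [hk', hX']⟩
            · obtain ⟨e, he, he'⟩ := h2 i hi
              exact ⟨b (C e), by rw [hk, hC, he], by rw [hk', hC', he']⟩
  have : Fintype (I ⊕ V) := Fintype.ofFinite _
  obtain ⟨E, _, _, j, j', a, ha, ha', h1, h2, -, -⟩ := main Finset.univ
  let e : E ≃ₐ[K] j.fieldRange := AlgEquiv.ofInjectiveField j
  have he : ∀ y (h : j y ∈ j.fieldRange), e.symm ⟨j y, h⟩ = y := by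
    intro y h
    rw [AlgEquiv.symm_apply_eq]
    rfl
  have hval : ∀ (z : Ω) (h : z ∈ j.fieldRange) (y : E), j y = z →
      (j'.comp e.symm.toAlgHom) ⟨z, h⟩ = j' y := by
    intro z h y hy
    subst hy
    show j' (e.symm ⟨j y, h⟩) = j' y
    rw [he]
  have hmem : ∀ (z : Ω) (y : E), j y = z → z ∈ j.fieldRange := by
    intro z y hy
    rw [← hy]
    exact ⟨y, rfl⟩
  refine ⟨j.fieldRange, ?_, j'.comp e.symm.toAlgHom, ?_, ?_, ?_⟩
  · intro z hz
    exact hmem z (a ⟨z, hz⟩) (ha ⟨z, hz⟩)
  · intro z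
    exact (hval z _ (a z) (ha z)).trans (ha' z)
  · intro i l
    obtain ⟨y, hy, hy'⟩ := h1 i (Finset.mem_univ _) l
    exact ⟨hmem _ y hy, (hval _ _ y hy).trans hy'⟩
  · intro i
    obtain ⟨y, hy, hy'⟩ := h2 i (Finset.mem_univ _)
    exact ⟨hmem _ y hy, (hval _ _ y hy).trans hy'⟩

end Pool.Agent.D5741
end
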