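import Mathlib
import Pool.Agent.Lib.MP_d5741c_al.Basic
import Pool.Agent.Lib.MP_d5741c_al.FF
import Pool.Agent.Lib.MP_d5741c_al.Curve
import Pool.Agent.Lib.MP_d5741c_al.Mg.G005
import Pool.Agent.Lib.MP_d5741c_al.DTA
import Pool.Agent.Lib.MP_d5741c_al.RRCore
import Pool.Agent.Lib.MP_d5741c_al.Mg.G002
import Pool.Agent.Lib.MP_d5741c_al.Mg.G006
import Pool.Agent.Lib.MP_d5741c_al.Mg.G004
import Pool.Agent.Lib.MP_d5741c_al.Gal
import Pool.Agent.Lib.MP_d5741c_al.Mg.G007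
import Pool.Agent.Lib.MP_d5741c_al.Desc

section

/-!
# Riemann-Roch type existence statements for the two rings of a function field
-/

set_option autoImplicit false
open scoped TensorProduct nonZeroDivisors

namespace Pool.Agent.D5741

section Abstract

variable {k 𝕃 : Type} [Field k] [Field 𝕃] [Algebra k 𝕃]

theorem RR.good_symm {I J : Submodule k 𝕃} (h : Good I J) : Good J I := by
  unfold Good at *
  rw [inf_comm, sup_comm]
  exact h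

theorem RR.tr_ne_zero {t : 𝕃} (ht : Transcendental k t) : t ≠ 0 := by
  rintro rfl
  exact ht isAlgebraic_zero

theorem RR.pair [IsAlgClosed k] [CharZero k] (t : 𝕃) (ht : Transcendental k t)
    (hfin : FiniteDimensional (IntermediateField.adjoin k {t}) 𝕃)
    [IsDedekindDomain (Ofin k t)] [IsFractionRing (Ofin k t) 𝕃]
    [IsDedekindDomain (Oinf k t)] [IsFractionRing (Oinf k t) 𝕃] :
    RR.Pair (Ofin k t) (Oinf k t) := by
  obtain ⟨hA, hB⟩ := dta_finite k 𝕃 t ht hfin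
  obtain ⟨hi, -, -⟩ := dta_inf k 𝕃 t ht hfin
  have hg : ∀ (I : FractionalIdeal (Ofin k t)⁰ 𝕃) (J : FractionalIdeal (Oinf k t)⁰ 𝕃), I ≠ 0 →
      J ≠ 0 → Good (toK I) (toK J) := fun I J hI hJ => good_of_ne_zero t ht hfin I hI J hJ
  refine ⟨hg, ?_, ?_, ?_, ?_, hi⟩
  · intro I J 𝔞 hI hJ h𝔞
    exact (chi_mul (Ofin k t) hA I hI 𝔞 h𝔞 (toK J)).2.2 (hg I J hI hJ)
  · intro I J 𝔟 hI hJ h𝔟
    rw [chi_symm, chi_symm (toK I)]
    exact (chi_mul (Oinf k t) hB J hJ 𝔟 h𝔟 (toK I)).2.2 (RR.good_symm (hg I J hI hJ))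
  · intro I J P hI hJ hP hP0
    have h1 := toK_covBy (Ofin k t) hA I hI P hP hP0
    rcases (chi_covBy h1 (toK J)).2.2 (hg I J hI hJ) with h2 | h2
    · exact Or.inl h2.2
    · exact Or.inr h2.2
  · intro u hu I J
    exact chi_smul u hu I J

/-- TASK RR: `g = h1 (Ofin, Oinf)` -/
theorem exists_phi [IsAlgClosed k] [CharZero k] (t : 𝕃) (ht : Transcendental k t)
    (hfin : FiniteDimensional (IntermediateField.adjoin k {t}) 𝕃)
    [IsDedekindDomain (Ofin k t)] [IsFractionRing (Ofin k t) 𝕃]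
    [IsDedekindDomain (Oinf k t)] [IsFractionRing (Oinf k t) 𝕃]
    (g : ℕ) (hg : g = h1 (Subalgebra.toSubmodule (Ofin k t)) (Subalgebra.toSubmodule (Oinf k t)))
    (P : ℕ → Ideal (Ofin k t)) (hPm : ∀ i, (P i).IsMaximal) (hPi : Function.Injective P)
    (𝔫 z : Ideal (Ofin k t)) (𝔫' : Ideal (Oinf k t)) (h𝔫 : 𝔫 ≠ ⊥) (hz : z ≠ ⊥) (h𝔫' : 𝔫' ≠ ⊥)
    (hdeg : nfac z = nfac 𝔫 + nfac 𝔫') :
    ∃ (J : Fin g ↪ ℕ) (φ : 𝕃) (m : ℕ) (Q : Fin m → Ideal (Ofin k t)) (J₁ : Ideal (Oinf k t)),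
      φ ≠ 0 ∧ m ≤ g ∧ (∀ i, (Q i).IsMaximal) ∧ J₁ ≠ ⊥ ∧ (m = g → J₁ = ⊤) ∧
      FractionalIdeal.spanSingleton _ φ * (𝔫 : FractionalIdeal (Ofin k t)⁰ 𝕃) *
          ((∏ i, P (J i) : Ideal (Ofin k t)) : FractionalIdeal (Ofin k t)⁰ 𝕃) =
        ((∏ i, Q i : Ideal (Ofin k t)) : FractionalIdeal (Ofin k t)⁰ 𝕃) *
          (z : FractionalIdeal (Ofin k t)⁰ 𝕃) ∧
      FractionalIdeal.spanSingleton _ φ * (𝔫' : FractionalIdeal (Oinf k t)⁰ 𝕃) =
        (J₁ : FractionalIdeal (Oinf k t)⁰ 𝕃) ∧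
      (∃ N : ℕ, ∃ h : t⁻¹ ^ N ∈ Oinf k t, (⟨t⁻¹ ^ N, h⟩ : Oinf k t) ∈ J₁) ∧
      (∀ u : 𝕃, u ∈ ((∏ i, P (J i) : Ideal (Ofin k t)) : FractionalIdeal (Ofin k t)⁰ 𝕃)⁻¹ →
        u ∈ Oinf k t → u ∈ Set.range (algebraMap k 𝕃)) := by
  obtain ⟨-, ⟨htB, htm⟩, hsum⟩ := dta_inf k 𝕃 t ht hfin
  have ht0 : t ≠ 0 := RR.tr_ne_zero ht
  obtain ⟨n, hn⟩ := hsum 1 1 one_ne_zero one_ne_zero
  have hP0 : ∀ i, P i ≠ ⊥ := by
    intro i h
    have h1 : P i = P (i + 1) := (hPm i).eq_of_le (hPm (i + 1)).ne_top (by rw [h]; exact bot_le)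
    have h2 := hPi h1
    omega
  refine RR.exists_phi_abs (RR.pair t ht hfin) t ht0 htB htm n ?_ g ?_ P hP0 hPm hPi 𝔫 z 𝔫' h𝔫 hz
    h𝔫' hdeg
  · intro x
    obtain ⟨u, hu, v, hv, h⟩ := hn n le_rfl x
    exact ⟨u, hu, v, hv, by rw [h, one_mul, one_mul]⟩
  · rw [hg, RR.toK_one, RR.toK_one]

/-- TASK RR (2) -/
theorem exists_ne_zero_mem [IsAlgClosed k] [CharZero k] (t : 𝕃) (ht : Transcendental k t)
    (hfin : FiniteDimensional (IntermediateField.adjoin k {t}) 𝕃)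
    [IsDedekindDomain (Ofin k t)] [IsFractionRing (Ofin k t) 𝕃]
    [IsDedekindDomain (Oinf k t)] [IsFractionRing (Oinf k t) 𝕃] (d : ℕ) :
    ∃ n₀ : ℕ, ∀ n ≥ n₀, ∀ 𝔞 : Ideal (Ofin k t), 𝔞 ≠ ⊥ → nfac 𝔞 ≤ d →
      ∃ u : 𝕃, u ≠ 0 ∧ (∃ h : u ∈ Ofin k t, (⟨u, h⟩ : Ofin k t) ∈ 𝔞) ∧ t⁻¹ ^ n * u ∈ Oinf k t := by
  obtain ⟨-, ⟨htB, htm⟩, -⟩ := dta_inf k 𝕃 t ht hfin
  exact RR.exists_ne_zero_mem_abs (RR.pair t ht hfin) t (RR.tr_ne_zero ht) htB htm d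

end Abstract

end Pool.Agent.D5741
end

section

/-!
# Membership in the spaces `VSub` in terms of ideals
-/

set_option autoImplicit false
set_option linter.unusedSectionVars false

namespace Pool.Agent.D5741

open scoped TensorProduct nonZeroDivisors
open FractionalIdeal

section

variable {K L Ω : Type} [Field K] [CharZero K] [Field L] [Algebra K L]
    [Field Ω] [IsAlgClosed Ω] [Algebra K Ω] [IsDomain (Ω ⊗[K] L)]

variable (K L Ω) in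
/-- The map `l ↦ 1 ⊗ l` into the fraction field. -/
noncomputable def incR : L →+* LL K L Ω :=
  (algebraMap (Ω ⊗[K] L) (LL K L Ω)).comp
    (Algebra.TensorProduct.includeRight : L →ₐ[K] Ω ⊗[K] L).toRingHom

theorem incR_apply (l : L) : incR K L Ω l = algebraMap (Ω ⊗[K] L) (LL K L Ω) (1 ⊗ₜ l) := rfl

theorem incR_Rfin (t l : L) (hl : l ∈ Rfin K t) : incR K L Ω l ∈ Rfin Ω (tt K Ω t) := by
  unfold Rfin at hl ⊢
  induction hl using Algebra.adjoin_induction with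
  | mem x hx =>
    rw [Set.mem_singleton_iff] at hx
    rw [hx]
    exact Algebra.subset_adjoin rfl
  | algebraMap r =>
    have h1 : incR K L Ω (algebraMap K L r) = algebraMap Ω (LL K L Ω) (algebraMap K Ω r) := by
      rw [incR_apply]
      have h2 : (1 : Ω) ⊗ₜ[K] algebraMap K L r = algebraMap Ω (Ω ⊗[K] L) (algebraMap K Ω r) := by
        rw [Algebra.TensorProduct.algebraMap_apply, Algebra.algebraMap_eq_smul_one,
          TensorProduct.tmul_smul, TensorProduct.smul_tmul', Algebra.algebraMap_eq_smul_one,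
          algebraMap_smul]
      rw [h2, ← IsScalarTower.algebraMap_apply]
    rw [h1]
    exact Subalgebra.algebraMap_mem _ _
  | add x y _ _ hx hy => rw [map_add]; exact add_mem hx hy
  | mul x y _ _ hx hy => rw [map_mul]; exact mul_mem hx hy

theorem incR_Ofin (t l : L) (hl : l ∈ Ofin K t) : incR K L Ω l ∈ Ofin Ω (tt K Ω t) := by
  have h1 : IsIntegral (Rfin K t) l := hl
  have h2 : IsIntegral (Rfin Ω (tt K Ω t)) (incR K L Ω l) := by
    let g : Rfin K t →+* Rfin Ω (tt K Ω t) :=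
      ((incR K L Ω).comp (Rfin K t).val.toRingHom).codRestrict (Rfin Ω (tt K Ω t)).toSubring
        (fun x => incR_Rfin t _ x.2)
    obtain ⟨q, hq, hq'⟩ := h1
    refine ⟨q.map g, hq.map _, ?_⟩
    rw [Polynomial.eval₂_map]
    have h3 : (algebraMap (Rfin Ω (tt K Ω t)) (LL K L Ω)).comp g =
        (incR K L Ω).comp (algebraMap (Rfin K t) L) := by
      ext x
      rfl
    rw [h3, ← Polynomial.hom_eval₂, hq', map_zero]
  exact h2

/-- Clearing denominators in `L`. -/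
theorem exists_denom (t : L) (hfin : FiniteDimensional (IntermediateField.adjoin K {t}) L)
    (l : L) : ∃ s : L, s ≠ 0 ∧ s ∈ Rfin K t ∧ s * l ∈ Ofin K t := by
  have h1 : IsAlgebraic (Algebra.adjoin K {t}) l := isAlgebraic_adjoin_of_finite K L t hfin l
  obtain ⟨y, hy0, hy⟩ := h1.exists_integral_multiple
  refine ⟨y, ?_, y.2, ?_⟩
  · intro h
    exact hy0 (Subtype.ext h)
  · have h2 : y • l = (y : L) * l := rfl
    rw [h2] at hy
    exact hy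

theorem exists_denom₃ (t : L) (hfin : FiniteDimensional (IntermediateField.adjoin K {t}) L)
    (θ : Fin 3 → L) : ∃ s : L, s ≠ 0 ∧ s ∈ Rfin K t ∧ ∀ j, s * θ j ∈ Ofin K t := by
  choose s hs0 hs hs' using fun j => exists_denom t hfin (θ j)
  have hle : ∀ x ∈ Rfin K t, x ∈ Ofin K t := by
    intro x hx
    exact isIntegral_algebraMap (R := Rfin K t) (x := ⟨x, hx⟩)
  refine ⟨s 0 * s 1 * s 2, mul_ne_zero (mul_ne_zero (hs0 0) (hs0 1)) (hs0 2),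
    mul_mem (mul_mem (hs 0) (hs 1)) (hs 2), ?_⟩
  intro j
  fin_cases j
  · have : s 0 * s 1 * s 2 * θ 0 = (s 1 * s 2) * (s 0 * θ 0) := by ring
    simp only [Fin.zero_eta, Fin.isValue, this]
    exact mul_mem (mul_mem (hle _ (hs 1)) (hle _ (hs 2))) (hs' 0)
  · have : s 0 * s 1 * s 2 * θ 1 = (s 0 * s 2) * (s 1 * θ 1) := by ring
    simp only [Fin.mk_one, Fin.isValue, this]
    exact mul_mem (mul_mem (hle _ (hs 0)) (hle _ (hs 2))) (hs' 1)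
  · have : s 0 * s 1 * s 2 * θ 2 = (s 0 * s 1) * (s 2 * θ 2) := by ring
    simp only [Fin.reduceFinMk, Fin.isValue, this]
    exact mul_mem (mul_mem (hle _ (hs 0)) (hle _ (hs 1))) (hs' 2)

theorem algebraMap_mem_Ofin (t : L) (c : Ω) : algebraMap Ω (LL K L Ω) c ∈ Ofin Ω (tt K Ω t) :=
  Subalgebra.algebraMap_mem _ c

/-- `s f_i` is integral. -/
theorem denom_mul_fth (t : L) (ω : K) (μ : Ω) (θ : Fin 3 → L) (s : L)
    (hs : ∀ j, s * θ j ∈ Ofin K t) (i : ℕ) :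
    incR K L Ω s * fth ω μ θ i ∈ Ofin Ω (tt K Ω t) := by
  have h1 : incR K L Ω s * fth ω μ θ i =
      incR K L Ω (s * θ 0) + algebraMap Ω (LL K L Ω) (algebraMap K Ω ω ^ i * μ) *
        incR K L Ω (s * θ 1) + algebraMap Ω (LL K L Ω) ((algebraMap K Ω ω ^ i * μ) ^ 2) *
        incR K L Ω (s * θ 2) := by
    unfold fth cjT cj cst
    have h2 : ∀ c : Ω, algebraMap Ω (LL K L Ω) c = algebraMap (Ω ⊗[K] L) (LL K L Ω) (c ⊗ₜ 1) := by
      intro c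
      rw [IsScalarTower.algebraMap_apply Ω (Ω ⊗[K] L), Algebra.TensorProduct.algebraMap_apply]
      rfl
    have h3 : algebraMap K (Ω ⊗[K] L) ω = (algebraMap K Ω ω) ⊗ₜ 1 :=
      Algebra.TensorProduct.algebraMap_apply _
    simp only [incR_apply, h2, h3, ← map_mul, ← map_add]
    congr 1
    simp only [Algebra.TensorProduct.tmul_pow, Algebra.TensorProduct.tmul_mul_tmul, mul_add,
      one_pow, one_mul, mul_one]
  rw [h1]
  exact add_mem (add_mem (incR_Ofin t _ (hs 0)) (mul_mem (algebraMap_mem_Ofin t _)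
    (incR_Ofin t _ (hs 1)))) (mul_mem (algebraMap_mem_Ofin t _) (incR_Ofin t _ (hs 2)))

variable (t : L) (ht : Transcendental K t)
    (hfin : FiniteDimensional (IntermediateField.adjoin K {t}) L)
    [IsDedekindDomain (Ofin Ω (tt K Ω t))] [IsFractionRing (Ofin Ω (tt K Ω t)) (LL K L Ω)]
    [IsDedekindDomain (Oinf Ω (tt K Ω t))] [IsFractionRing (Oinf Ω (tt K Ω t)) (LL K L Ω)]

include ht hfin

theorem Zid_range (ω : K) (μ : Ω) (θ : Fin 3 → L) (i : ℕ) (x : LL K L Ω)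
    (hx : x ∈ Zid (Ofin Ω (tt K Ω t)) (fth ω μ θ) i) :
    ∃ y : Ω ⊗[K] L, algebraMap _ (LL K L Ω) y = x := by
  have hr := (integral_mem_range K L Ω (LL K L Ω) t ht hfin).2.2
  rw [mem_Zid_iff] at hx
  obtain ⟨c₀, c₁, c₂, rfl⟩ := hx
  obtain ⟨y₀, hy₀⟩ := hr c₀ c₀.2
  obtain ⟨y₁, hy₁⟩ := hr c₁ c₁.2
  obtain ⟨y₂, hy₂⟩ := hr c₂ c₂.2
  refine ⟨y₀ + y₁ * cjT ω μ (cst Ω θ) i +
    y₂ * (cjT ω μ (cst Ω θ) i * cjT ω μ (cst Ω θ) (i + 1)), ?_⟩
  rw [map_add, map_add, map_mul, map_mul, map_mul, hy₀, hy₁, hy₂]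
  rfl

/-- a denominator for the ideals `Zid i` -/
theorem exists_denom_Zid (ω : K) (μ : Ω) (θ : Fin 3 → L) :
    ∃ s : L, s ≠ 0 ∧ s ∈ Rfin K t ∧ ∀ i, ∀ x ∈ Zid (Ofin Ω (tt K Ω t)) (fth ω μ θ) i,
      algebraMap (Ω ⊗[K] L) (LL K L Ω) (1 ⊗ₜ s) * x ∈ Ofin Ω (tt K Ω t) := by
  obtain ⟨s, hs0, hs, hs'⟩ := exists_denom₃ t hfin θ
  refine ⟨s * s, mul_ne_zero hs0 hs0, mul_mem hs hs, ?_⟩
  intro i x hx
  rw [mem_Zid_iff] at hx
  obtain ⟨c₀, c₁, c₂, rfl⟩ := hx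
  have hsO : incR K L Ω s ∈ Ofin Ω (tt K Ω t) := by
    refine incR_Ofin t _ ?_
    exact isIntegral_algebraMap (R := Rfin K t) (x := ⟨s, hs⟩)
  have h1 : algebraMap (Ω ⊗[K] L) (LL K L Ω) (1 ⊗ₜ (s * s)) *
      (c₀ + c₁ * fth ω μ θ i + c₂ * (fth ω μ θ i * fth ω μ θ (i + 1))) =
      incR K L Ω s * incR K L Ω s * c₀ + incR K L Ω s * c₁ * (incR K L Ω s * fth ω μ θ i) +
        c₂ * ((incR K L Ω s * fth ω μ θ i) * (incR K L Ω s * fth ω μ θ (i + 1))) := by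
    have h2 : algebraMap (Ω ⊗[K] L) (LL K L Ω) (1 ⊗ₜ (s * s)) =
        incR K L Ω s * incR K L Ω s := by
      rw [← map_mul, incR_apply]
    rw [h2]
    ring
  rw [h1]
  have e1 := denom_mul_fth (Ω := Ω) t ω μ θ s hs' i
  have e2 := denom_mul_fth (Ω := Ω) t ω μ θ s hs' (i + 1)
  exact add_mem (add_mem (mul_mem (mul_mem hsO hsO) c₀.2) (mul_mem (mul_mem hsO c₁.2) e1))
    (mul_mem c₂.2 (mul_mem e1 e2))

end

end Pool.Agent.D5741
end
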