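import Mathlib
import Pool.Agent.Lib.MP_d5741c_al.Mg.G008
import Pool.Agent.Lib.MP_d5741c_al.Mg.G004

section

/-!
# The spaces `VSub` and the bijection given by the function `φ`
-/

set_option autoImplicit false
set_option linter.unusedSectionVars false

namespace Pool.Agent.D5741

open scoped TensorProduct nonZeroDivisors
open FractionalIdeal

section Z

variable {k 𝕃 : Type} [Field k] [Field 𝕃] [Algebra k 𝕃] (R : Subalgebra k 𝕃) [IsFractionRing R 𝕃]

theorem Zid_step (f : ℕ → 𝕃) (i : ℕ) {a : k} (ha : a ≠ 0)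
    (h : f i * f (i + 1) * f (i + 2) = algebraMap k 𝕃 a) (hf : f i ≠ 0) (ψ : 𝕃)
    (I J : FractionalIdeal R⁰ 𝕃) (h1 : spanSingleton _ ψ * I = Zid R f i * J) :
    spanSingleton _ (ψ / f i) * I = Zid R f (i + 1) * J := by
  have h2 := spanSingleton_mul_Zid R f i ha h
  have h3 : spanSingleton R⁰ (f i) * (spanSingleton R⁰ (ψ / f i) * I) =
      spanSingleton R⁰ (f i) * (Zid R f (i + 1) * J) := by
    rw [← mul_assoc, ← mul_assoc, h2, spanSingleton_mul_spanSingleton, mul_div_cancel₀ _ hf, h1]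
  have h4 : spanSingleton R⁰ (f i)⁻¹ * spanSingleton R⁰ (f i) = 1 := by
    rw [spanSingleton_mul_spanSingleton, inv_mul_cancel₀ hf, spanSingleton_one]
  have h5 := congrArg (fun x => spanSingleton R⁰ (f i)⁻¹ * x) h3
  simp only [← mul_assoc] at h5
  rwa [h4, one_mul, one_mul] at h5

theorem Zid_step' (f : ℕ → 𝕃) (i : ℕ) {a : k} (ha : a ≠ 0)
    (h : f i * f (i + 1) * f (i + 2) = algebraMap k 𝕃 a) (hf : f i ≠ 0) (ψ : 𝕃)
    (h1 : spanSingleton _ ψ = Zid R f i) :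
    spanSingleton _ (ψ / f i) = Zid R f (i + 1) := by
  have := Zid_step R f i ha h hf ψ 1 1 (by rw [mul_one, mul_one, h1])
  rwa [mul_one, mul_one] at this

end Z

section

variable {K L Ω : Type} [Field K] [CharZero K] [Field L] [Algebra K L]
    [Field Ω] [IsAlgClosed Ω] [Algebra K Ω] [IsDomain (Ω ⊗[K] L)]

theorem field_mu {α : K} (hα : α ≠ 0) {μ : Ω} (hμ : μ ^ 3 = algebraMap K Ω α) : μ * μ⁻¹ = 1 := by
  apply mul_inv_cancel₀
  rintro rfl
  rw [zero_pow (by norm_num), eq_comm, map_eq_zero] at hμ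
  exact hα hμ

theorem field_omega {ω : K} (hω : ω ^ 2 + ω + 1 = 0) :
    (algebraMap K Ω ω) ^ 2 + algebraMap K Ω ω + 1 = 0 := by
  rw [← map_pow, ← map_add, ← map_one (algebraMap K Ω), ← map_add, hω, map_zero]

theorem field_three : (3 : Ω) * algebraMap K Ω (3⁻¹) = 1 := by
  rw [← map_ofNat (algebraMap K Ω) 3, ← map_mul, mul_inv_cancel₀ (by norm_num), map_one]

theorem evp_all_iff {ω α : K} (hω : ω ^ 2 + ω + 1 = 0) (hα : α ≠ 0) {μ : Ω}
    (hμ : μ ^ 3 = algebraMap K Ω α) (p : L →ₐ[K] Ω) (h : Fin 3 → Ω ⊗[K] L) :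
    (∀ j, evp p (h j) = 0) ↔ ∀ i : Fin 3, evp p (cjT ω μ h i) = 0 := by
  constructor
  · intro h1 i
    rw [evp_cjT]
    unfold cj
    simp only [h1]
    ring
  · intro h1
    have h2 : (fun j => evp p (h j)) = fun _ => 0 := by
      refine cj_injective (field_omega hω) (field_mu hα hμ) (field_three (K := K)) ?_
      intro i
      rw [← evp_cjT, h1]
      unfold cj
      ring
    intro j
    exact congrFun h2 j

variable (t : L) (ht : Transcendental K t)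
    (hfin : FiniteDimensional (IntermediateField.adjoin K {t}) L)
    [IsDedekindDomain (Ofin Ω (tt K Ω t))] [IsFractionRing (Ofin Ω (tt K Ω t)) (LL K L Ω)]
    [IsDedekindDomain (Oinf Ω (tt K Ω t))] [IsFractionRing (Oinf Ω (tt K Ω t)) (LL K L Ω)]

include ht hfin

theorem mem_VSub_iff {ω α : K} (hω : ω ^ 2 + ω + 1 = 0) (hα : α ≠ 0) {μ : Ω}
    (hμ : μ ^ 3 = algebraMap K Ω α) (θ : Fin 3 → L) (e : ℕ) (he : e = 0 ∨ e = 1) (n : ℕ)
    (W : Submodule K (Fin 3 → L))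
    (hW : ∀ h : Fin 3 → Ω ⊗[K] L, h ∈ Sp ω μ θ t e n ↔
        h ∈ Submodule.span Ω {h : Fin 3 → Ω ⊗[K] L | ∃ w ∈ W, ∀ j, h j = 1 ⊗ₜ w j})
    (P : (L →ₐ[K] Ω) → Ideal (Ofin Ω (tt K Ω t)))
    (hPm : ∀ p, (P p).IsMaximal)
    (hP : ∀ (p : L →ₐ[K] Ω) (x : Ofin Ω (tt K Ω t)) (y : Ω ⊗[K] L),
      algebraMap _ (LL K L Ω) y = x → (x ∈ P p ↔ evp p y = 0))
    {ι : Type} [Fintype ι] (p : ι → (L →ₐ[K] Ω)) (hp : ∀ i, Transcendental K (p i t))
    (hinj : Function.Injective fun i => p i t) (h : Fin 3 → Ω ⊗[K] L) :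
    h ∈ VSub W p ↔ ∀ i : Fin 3,
      algebraMap (Ω ⊗[K] L) (LL K L Ω) (cjT ω μ h i) ∈ (Zid (Ofin Ω (tt K Ω t)) (fth ω μ θ) i) ^ e *
        ((∏ i, P (p i) : Ideal (Ofin Ω (tt K Ω t))) :
          FractionalIdeal (Ofin Ω (tt K Ω t))⁰ (LL K L Ω)) ∧
      (tt K Ω t)⁻¹ ^ n * algebraMap (Ω ⊗[K] L) (LL K L Ω) (cjT ω μ h i) ∈
        (Zid (Oinf Ω (tt K Ω t)) (fth ω μ θ) i) ^ e := by
  have h0 : h ∈ VSub W p ↔ h ∈ Sp ω μ θ t e n ∧ ∀ (x : ι) (i : Fin 3), evp (p x) (cjT ω μ h i) = 0 := by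
    have h1 : h ∈ VSub W p ↔ h ∈ Submodule.span Ω {h : Fin 3 → Ω ⊗[K] L | ∃ w ∈ W, ∀ j, h j = 1 ⊗ₜ w j} ∧
      ∀ i j, evp (p i) (h j) = 0 := Iff.rfl
    rw [h1, ← hW]
    refine and_congr_right fun _ => forall_congr' fun x => evp_all_iff hω hα hμ (p x) h
  rw [h0]
  -- properties of the ideals
  obtain ⟨s, hs0, hs, hs'⟩ := exists_denom_Zid (Ω := Ω) t ht hfin ω μ θ
  have f1 : ∀ i : Fin 3, 1 ≤ (Zid (Ofin Ω (tt K Ω t)) (fth ω μ θ) i) ^ e := by
    intro i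
    rcases he with rfl | rfl
    · rw [pow_zero]
    · rw [pow_one]; exact one_le_Zid _ _ _
  have f2 : ∀ i : Fin 3, ∀ x ∈ (Zid (Ofin Ω (tt K Ω t)) (fth ω μ θ) i) ^ e,
      ∃ y : Ω ⊗[K] L, algebraMap _ (LL K L Ω) y = x := by
    intro i x hx
    rcases he with rfl | rfl
    · rw [pow_zero, mem_one_iff] at hx
      obtain ⟨y, rfl⟩ := hx
      exact (integral_mem_range K L Ω (LL K L Ω) t ht hfin).2.2 y y.2
    · rw [pow_one] at hx
      exact Zid_range t ht hfin ω μ θ i x hx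
  have f3 : ∀ i : Fin 3, ∀ x ∈ (Zid (Ofin Ω (tt K Ω t)) (fth ω μ θ) i) ^ e,
      algebraMap (Ω ⊗[K] L) (LL K L Ω) (1 ⊗ₜ s) * x ∈ Ofin Ω (tt K Ω t) := by
    intro i x hx
    rcases he with rfl | rfl
    · rw [pow_zero] at hx
      exact hs' i x (one_le_Zid _ _ _ hx)
    · rw [pow_one] at hx
      exact hs' i x hx
  have key : ∀ (i : Fin 3), algebraMap (Ω ⊗[K] L) (LL K L Ω) (cjT ω μ h i) ∈
      (Zid (Ofin Ω (tt K Ω t)) (fth ω μ θ) i) ^ e →
      (algebraMap (Ω ⊗[K] L) (LL K L Ω) (cjT ω μ h i) ∈ (Zid (Ofin Ω (tt K Ω t)) (fth ω μ θ) i) ^ e *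
        ((∏ i, P (p i) : Ideal (Ofin Ω (tt K Ω t))) :
          FractionalIdeal (Ofin Ω (tt K Ω t))⁰ (LL K L Ω)) ↔ ∀ x, evp (p x) (cjT ω μ h i) = 0) := by
    intro i hi
    exact mem_mul_iff K L Ω t ht hfin P hPm hP _ (f1 i) (f2 i) s hs0 hs (f3 i) ι p hp hinj _ hi _ rfl
  constructor
  · rintro ⟨h1, h2⟩ i
    refine ⟨?_, (h1 i).2⟩
    rw [key i (h1 i).1]
    exact fun x => h2 x i
  · intro h1
    have h2 : ∀ i : Fin 3, algebraMap (Ω ⊗[K] L) (LL K L Ω) (cjT ω μ h i) ∈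
        (Zid (Ofin Ω (tt K Ω t)) (fth ω μ θ) i) ^ e := by
      intro i
      have h3 := (h1 i).1
      have h4 : (Zid (Ofin Ω (tt K Ω t)) (fth ω μ θ) i) ^ e *
        ((∏ i, P (p i) : Ideal (Ofin Ω (tt K Ω t))) :
          FractionalIdeal (Ofin Ω (tt K Ω t))⁰ (LL K L Ω)) ≤
          (Zid (Ofin Ω (tt K Ω t)) (fth ω μ θ) i) ^ e := by
        calc _ ≤ (Zid (Ofin Ω (tt K Ω t)) (fth ω μ θ) i) ^ e * 1 :=
              mul_le_mul_right coeIdeal_le_one _
          _ = _ := mul_one _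
      exact h4 h3
    exact ⟨fun i => ⟨h2 i, (h1 i).2⟩, fun x i => (key i (h2 i)).mp (h1 i).1 x⟩

omit ht hfin in
/-- the functions `φ_i` -/
theorem phi_ideals {ω α a : K} (hω : ω ^ 2 + ω + 1 = 0) (ha : a ≠ 0) {μ : Ω}
    (hμ : μ ^ 3 = algebraMap K Ω α) {θ : Fin 3 → L}
    (hθ : nf (algebraMap K L α) (θ 0) (θ 1) (θ 2) = algebraMap K L a)
    (𝔞₁ 𝔞₂ : Ideal (Ofin Ω (tt K Ω t))) (φ : LL K L Ω) (hφ : φ ≠ 0)
    (e0 : spanSingleton _ φ * (𝔞₁ : FractionalIdeal (Ofin Ω (tt K Ω t))⁰ (LL K L Ω)) =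
      Zid (Ofin Ω (tt K Ω t)) (fth ω μ θ) 0 *
      (𝔞₂ : FractionalIdeal (Ofin Ω (tt K Ω t))⁰ (LL K L Ω)))
    (e1 : spanSingleton _ φ = Zid (Oinf Ω (tt K Ω t)) (fth ω μ θ) 0) :
    ∃ φ' : Fin 3 → LL K L Ω, (∀ i, φ' i ≠ 0) ∧
      φ' 0 = φ' 1 * algebraMap _ (LL K L Ω) (cjT ω μ (cst Ω θ) 0) ∧
      φ' 1 = φ' 2 * algebraMap _ (LL K L Ω) (cjT ω μ (cst Ω θ) 1) ∧
      ∀ i : Fin 3, spanSingleton _ (φ' i) *
        (𝔞₁ : FractionalIdeal (Ofin Ω (tt K Ω t))⁰ (LL K L Ω)) =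
          Zid (Ofin Ω (tt K Ω t)) (fth ω μ θ) i *
          (𝔞₂ : FractionalIdeal (Ofin Ω (tt K Ω t))⁰ (LL K L Ω)) ∧
        spanSingleton _ (φ' i) = Zid (Oinf Ω (tt K Ω t)) (fth ω μ θ) i := by
  have haΩ : algebraMap K Ω a ≠ 0 := by rwa [Ne, map_eq_zero]
  have hp := fth_prod (L := L) hω hμ hθ
  have hf : ∀ i, (fth ω μ θ i : LL K L Ω) ≠ 0 := by
    intro i h0
    have h1 := hp i
    rw [h0, zero_mul, zero_mul, eq_comm, map_eq_zero, map_eq_zero] at h1
    exact ha h1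
  have hf0 := hf 0
  have hf1 := hf 1
  have g1 := Zid_step _ (fth ω μ θ) 0 haΩ (hp 0) hf0 φ _ _ e0
  have g2 := Zid_step _ (fth ω μ θ) 1 haΩ (hp 1) hf1 _ _ _ g1
  have g1' := Zid_step' _ (fth ω μ θ) 0 haΩ (hp 0) hf0 φ e1
  have g2' := Zid_step' _ (fth ω μ θ) 1 haΩ (hp 1) hf1 _ g1'
  refine ⟨![φ, φ / fth ω μ θ 0, φ / fth ω μ θ 0 / fth ω μ θ 1], ?_, ?_, ?_, ?_⟩
  · intro i
    fin_cases i
    · exact hφ
    · exact div_ne_zero hφ (hf 0)
    · exact div_ne_zero (div_ne_zero hφ (hf 0)) (hf 1)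
  · show φ = φ / fth ω μ θ 0 * fth ω μ θ 0
    rw [div_mul_cancel₀ _ (hf 0)]
  · show φ / fth ω μ θ 0 = φ / fth ω μ θ 0 / fth ω μ θ 1 * fth ω μ θ 1
    rw [div_mul_cancel₀ _ (hf 1)]
  · intro i
    fin_cases i
    · exact ⟨e0, e1⟩
    · exact ⟨g1, g1'⟩
    · exact ⟨g2, g2'⟩

theorem VSub_bij {ω α : K} (hω : ω ^ 2 + ω + 1 = 0) (hα : α ≠ 0) {μ : Ω}
    (hμ : μ ^ 3 = algebraMap K Ω α) (θ : Fin 3 → L) (n : ℕ)
    (V₁ V₂ : Submodule Ω (Fin 3 → Ω ⊗[K] L))
    (𝔞₁ 𝔞₂ : Ideal (Ofin Ω (tt K Ω t)))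
    (hV₁ : ∀ h, h ∈ V₁ ↔ ∀ i : Fin 3,
      algebraMap (Ω ⊗[K] L) (LL K L Ω) (cjT ω μ h i) ∈ (Zid (Ofin Ω (tt K Ω t)) (fth ω μ θ) i) ^ 0 *
        (𝔞₁ : FractionalIdeal (Ofin Ω (tt K Ω t))⁰ (LL K L Ω)) ∧
      (tt K Ω t)⁻¹ ^ n * algebraMap (Ω ⊗[K] L) (LL K L Ω) (cjT ω μ h i) ∈
        (Zid (Oinf Ω (tt K Ω t)) (fth ω μ θ) i) ^ 0)
    (hV₂ : ∀ h, h ∈ V₂ ↔ ∀ i : Fin 3,
      algebraMap (Ω ⊗[K] L) (LL K L Ω) (cjT ω μ h i) ∈ (Zid (Ofin Ω (tt K Ω t)) (fth ω μ θ) i) ^ 1 *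
        (𝔞₂ : FractionalIdeal (Ofin Ω (tt K Ω t))⁰ (LL K L Ω)) ∧
      (tt K Ω t)⁻¹ ^ n * algebraMap (Ω ⊗[K] L) (LL K L Ω) (cjT ω μ h i) ∈
        (Zid (Oinf Ω (tt K Ω t)) (fth ω μ θ) i) ^ 1)
    (φ' : Fin 3 → LL K L Ω) (hφ' : ∀ i, φ' i ≠ 0)
    (hφi : ∀ i : Fin 3, spanSingleton _ (φ' i) *
        (𝔞₁ : FractionalIdeal (Ofin Ω (tt K Ω t))⁰ (LL K L Ω)) =
          Zid (Ofin Ω (tt K Ω t)) (fth ω μ θ) i *
          (𝔞₂ : FractionalIdeal (Ofin Ω (tt K Ω t))⁰ (LL K L Ω)) ∧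
        spanSingleton _ (φ' i) = Zid (Oinf Ω (tt K Ω t)) (fth ω μ θ) i) :
    (∀ h ∈ V₁, ∃ h' ∈ V₂, ∀ i : Fin 3,
        algebraMap _ (LL K L Ω) (cjT ω μ h' i) = φ' i * algebraMap _ (LL K L Ω) (cjT ω μ h i)) ∧
    (∀ h' ∈ V₂, ∃ h ∈ V₁, ∀ i : Fin 3,
        algebraMap _ (LL K L Ω) (cjT ω μ h' i) = φ' i * algebraMap _ (LL K L Ω) (cjT ω μ h i)) := by
  have hle : ∀ (I : FractionalIdeal (Ofin Ω (tt K Ω t))⁰ (LL K L Ω)) (𝔞 : Ideal (Ofin Ω (tt K Ω t))),
      I * (𝔞 : FractionalIdeal (Ofin Ω (tt K Ω t))⁰ (LL K L Ω)) ≤ I := by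
    intro I 𝔞
    calc _ ≤ I * 1 := mul_le_mul_right coeIdeal_le_one _
      _ = _ := mul_one _
  constructor
  · intro h hh
    rw [hV₁] at hh
    have h1 : ∀ i : Fin 3, φ' i * algebraMap _ (LL K L Ω) (cjT ω μ h i) ∈
        Zid (Ofin Ω (tt K Ω t)) (fth ω μ θ) i *
          (𝔞₂ : FractionalIdeal (Ofin Ω (tt K Ω t))⁰ (LL K L Ω)) := by
      intro i
      rw [← (hφi i).1, mem_singleton_mul]
      have h2 := (hh i).1
      rw [pow_zero, one_mul] at h2
      exact ⟨_, h2, rfl⟩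
    choose y hy using fun i => Zid_range t ht hfin ω μ θ (i : Fin 3) _ (hle _ _ (h1 i))
    refine ⟨dftT ω μ y, ?_, ?_⟩
    · rw [hV₂]
      intro i
      rw [cjT_dftT hω hα hμ, hy, pow_one, pow_one]
      refine ⟨h1 i, ?_⟩
      rw [← (hφi i).2]
      have h2 := (hh i).2
      rw [pow_zero, mem_one_iff] at h2
      obtain ⟨b, hb⟩ := h2
      rw [mem_spanSingleton]
      refine ⟨b, ?_⟩
      rw [Algebra.smul_def, hb]
      ring
    · intro i
      rw [cjT_dftT hω hα hμ, hy]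
  · intro h' hh'
    rw [hV₂] at hh'
    have h1 : ∀ i : Fin 3, ∃ x ∈ (𝔞₁ : FractionalIdeal (Ofin Ω (tt K Ω t))⁰ (LL K L Ω)),
        algebraMap _ (LL K L Ω) (cjT ω μ h' i) = φ' i * x := by
      intro i
      have h2 := (hh' i).1
      rw [pow_one, ← (hφi i).1, mem_singleton_mul] at h2
      exact h2
    choose x hx hx' using h1
    have h2 : ∀ i, ∃ y : Ω ⊗[K] L, algebraMap _ (LL K L Ω) y = x i := by
      intro i
      have h3 := coeIdeal_le_one (hx i)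
      rw [mem_one_iff] at h3
      obtain ⟨c, hc⟩ := h3
      rw [← hc]
      exact (integral_mem_range K L Ω (LL K L Ω) t ht hfin).2.2 c c.2
    choose y hy using h2
    refine ⟨dftT ω μ y, ?_, ?_⟩
    · rw [hV₁]
      intro i
      rw [cjT_dftT hω hα hμ, hy, pow_zero, pow_zero, one_mul]
      refine ⟨hx i, ?_⟩
      have h3 := (hh' i).2
      rw [pow_one, ← (hφi i).2, hx', mem_spanSingleton] at h3
      obtain ⟨b, hb⟩ := h3
      rw [mem_one_iff]
      refine ⟨b, ?_⟩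
      rw [Algebra.smul_def] at hb
      apply mul_left_cancel₀ (hφ' i)
      rw [mul_comm, hb]
      ring
    · intro i
      rw [cjT_dftT hω hα hμ, hy, hx']

end

end Pool.Agent.D5741
end

section

/-!
# Auxiliary statements for the D-theory
-/

set_option autoImplicit false
set_option linter.unusedSectionVars false

namespace Pool.Agent.D5741

open scoped TensorProduct nonZeroDivisors
open FractionalIdeal

section A

variable {k 𝕃 : Type} [Field k] [Field 𝕃] [Algebra k 𝕃]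

theorem exists_tinv_pow_mem [IsAlgClosed k] [CharZero k] (t : 𝕃) (ht : Transcendental k t)
    (hfin : FiniteDimensional (IntermediateField.adjoin k {t}) 𝕃)
    [IsDedekindDomain (Oinf k t)] (J : Ideal (Oinf k t)) (hJ : J ≠ ⊥) :
    ∃ (N : ℕ) (h : t⁻¹ ^ N ∈ Oinf k t), (⟨t⁻¹ ^ N, h⟩ : Oinf k t) ∈ J := by
  obtain ⟨h, hmax⟩ := (dta_inf k 𝕃 t ht hfin).2.1
  have h1 : (⟨t⁻¹, h⟩ : Oinf k t) ∈ J.radical := by
    rw [Ideal.radical_eq_sInf, Ideal.mem_sInf]
    intro P hP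
    obtain ⟨hJP, hPp⟩ := hP
    have hP0 : P ≠ ⊥ := by
      rintro rfl
      exact hJ (le_bot_iff.mp hJP)
    exact hmax P (hPp.isMaximal hP0)
  obtain ⟨N, hN⟩ := h1
  exact ⟨N, pow_mem h N, hN⟩

theorem exists_inv_ideal (R : Subalgebra k 𝕃) [IsDedekindDomain R] [IsFractionRing R 𝕃]
    (Z : FractionalIdeal R⁰ 𝕃) (hZ : 1 ≤ Z) :
    ∃ 𝔫 : Ideal R, 𝔫 ≠ ⊥ ∧ (𝔫 : FractionalIdeal R⁰ 𝕃) * Z = 1 ∧
      ∀ c : R, (∀ x ∈ Z, (c : 𝕃) * x ∈ R) → c ∈ 𝔫 := by
  have hZ0 : Z ≠ 0 := by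
    intro h
    rw [h, FractionalIdeal.le_zero_iff] at hZ
    exact one_ne_zero hZ
  have h1 : Z⁻¹ ≤ 1 := by
    calc Z⁻¹ = Z⁻¹ * 1 := (mul_one _).symm
      _ ≤ Z⁻¹ * Z := mul_le_mul_right hZ _
      _ = 1 := inv_mul_cancel₀ hZ0
  rw [le_one_iff_exists_coeIdeal] at h1
  obtain ⟨𝔫, h𝔫⟩ := h1
  refine ⟨𝔫, ?_, ?_, ?_⟩
  · rintro rfl
    rw [coeIdeal_bot] at h𝔫
    exact inv_ne_zero hZ0 h𝔫.symm
  · rw [h𝔫, inv_mul_cancel₀ hZ0]
  · intro c hc
    have h2 : (c : 𝕃) ∈ (𝔫 : FractionalIdeal R⁰ 𝕃) := by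
      rw [h𝔫, mem_inv_iff hZ0]
      intro y hy
      rw [mem_one_iff]
      exact ⟨⟨_, hc y hy⟩, rfl⟩
    rw [mem_coeIdeal] at h2
    obtain ⟨c', hc', hcc⟩ := h2
    have h3 : c' = c := Subtype.ext hcc
    rwa [← h3]

theorem nfac_mul {R : Type} [CommRing R] [IsDedekindDomain R] (I J : Ideal R) (hI : I ≠ ⊥)
    (hJ : J ≠ ⊥) : nfac (I * J) = nfac I + nfac J := by
  unfold nfac
  rw [UniqueFactorizationMonoid.normalizedFactors_mul hI hJ, Multiset.card_add]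

theorem nfac_maximal {R : Type} [CommRing R] [IsDedekindDomain R] (P : Ideal R)
    (hP : P.IsMaximal) (hP0 : P ≠ ⊥) : nfac P = 1 := by
  have h2 : Irreducible P := (Ideal.prime_of_isPrime hP0 hP.isPrime).irreducible
  unfold nfac
  rw [UniqueFactorizationMonoid.normalizedFactors_irreducible h2, Multiset.card_singleton]

theorem nfac_prod {R : Type} [CommRing R] [IsDedekindDomain R] {ι : Type} [Fintype ι]
    (P : ι → Ideal R) (hP : ∀ i, (P i).IsMaximal) (hP0 : ∀ i, P i ≠ ⊥) :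
    nfac (∏ i, P i) = Fintype.card ι ∧ ∏ i, P i ≠ ⊥ := by
  classical
  have key : ∀ s : Finset ι, nfac (∏ i ∈ s, P i) = s.card ∧ ∏ i ∈ s, P i ≠ ⊥ := by
    intro s
    induction s using Finset.induction_on with
    | empty =>
      refine ⟨?_, ?_⟩
      · rw [Finset.prod_empty, Finset.card_empty]
        unfold nfac
        rw [UniqueFactorizationMonoid.normalizedFactors_one, Multiset.card_zero]
      · rw [Finset.prod_empty]
        exact one_ne_zero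
    | insert i s hi ih =>
      rw [Finset.prod_insert hi, Finset.card_insert_of_notMem hi, nfac_mul _ _ (hP0 i) ih.2,
        nfac_maximal _ (hP i) (hP0 i), ih.1]
      exact ⟨by ring, mul_ne_zero (hP0 i) ih.2⟩
  exact key Finset.univ

end A

section B

variable {K Ω : Type} [Field K] [Field Ω] [IsAlgClosed Ω] [Algebra K Ω]

/-- The algebraic closure of `K(S)` in `Ω`. -/
noncomputable def acl (S : Set Ω) : IntermediateField K Ω :=
  (algebraicClosure (IntermediateField.adjoin K S) Ω).restrictScalars K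

theorem mem_acl (S : Set Ω) (x : Ω) :
    x ∈ (acl S : IntermediateField K Ω) ↔ IsAlgebraic (IntermediateField.adjoin K S) x := by
  unfold acl
  rw [IntermediateField.mem_restrictScalars, mem_algebraicClosure_iff]

instance acl_closed (S : Set Ω) : IsAlgClosed (acl S : IntermediateField K Ω) := by
  unfold acl
  have : IsAlgClosed (algebraicClosure (IntermediateField.adjoin K S) Ω) :=
    (algebraicClosure.isAlgClosure (IntermediateField.adjoin K S) Ω).isAlgClosed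
  exact this

theorem subset_acl (S : Set Ω) (x : Ω) (hx : x ∈ S) : x ∈ (acl S : IntermediateField K Ω) := by
  rw [mem_acl]
  exact isAlgebraic_algebraMap (⟨x, IntermediateField.subset_adjoin K S hx⟩ :
    IntermediateField.adjoin K S)

end B

end Pool.Agent.D5741
end

section

/-!
# Points, products and the assembly
-/

set_option autoImplicit false
set_option linter.unusedSectionVars false

namespace Pool.Agent.D5741

open scoped TensorProduct nonZeroDivisors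
open FractionalIdeal

section Comb

variable {g δ : ℕ} {A : Type*}

/-- triples built from one family of `g` and one of `2g` objects -/
def tri₁ (q : Fin g → A) (r : Fin g × Fin 2 → A) : Fin g × Fin 3 → A :=
  fun x => ![q x.1, r (x.1, 0), r (x.1, 1)] x.2

/-- adding `δ` further triples -/
def tri₂ (q : Fin g → A) (r : Fin g × Fin 2 → A) (z : Fin δ × Fin 3 → A) :
    Fin (g + δ) × Fin 3 → A :=
  fun x => Fin.addCases (fun i => ![q i, r (i, 0), r (i, 1)] x.2) (fun j => z (j, x.2)) x.1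

theorem prod_tri₁ {M : Type*} [CommMonoid M] (f : A → M) (q : Fin g → A)
    (r : Fin g × Fin 2 → A) :
    ∏ x, f (tri₁ q r x) = (∏ i, f (q i)) * ∏ x, f (r x) := by
  rw [Fintype.prod_prod_type, Fintype.prod_prod_type, ← Finset.prod_mul_distrib]
  refine Finset.prod_congr rfl fun i _ => ?_
  rw [Fin.prod_univ_three, Fin.prod_univ_two, ← mul_assoc]
  rfl

theorem prod_tri₂ {M : Type*} [CommMonoid M] (f : A → M) (q : Fin g → A)
    (r : Fin g × Fin 2 → A) (z : Fin δ × Fin 3 → A) :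
    ∏ x, f (tri₂ q r z x) = (∏ i, f (q i)) * (∏ x, f (r x)) * ∏ x, f (z x) := by
  rw [← prod_tri₁, Fintype.prod_prod_type, Fin.prod_univ_add, Fintype.prod_prod_type,
    Fintype.prod_prod_type (fun x => f (z x))]
  congr 1
  · refine Finset.prod_congr rfl fun i _ => Finset.prod_congr rfl fun j _ => ?_
    unfold tri₂ tri₁
    simp only [Fin.addCases_left]
  · refine Finset.prod_congr rfl fun i _ => Finset.prod_congr rfl fun j _ => ?_
    unfold tri₂
    simp only [Fin.addCases_right]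

theorem map_tri₁ {B : Type*} (f : A → B) (q : Fin g → A) (r : Fin g × Fin 2 → A)
    (x : Fin g × Fin 3) : f (tri₁ q r x) = tri₁ (fun i => f (q i)) (fun i => f (r i)) x := by
  obtain ⟨i, j⟩ := x
  unfold tri₁
  fin_cases j <;> rfl

theorem map_tri₂ {B : Type*} (f : A → B) (q : Fin g → A) (r : Fin g × Fin 2 → A)
    (z : Fin δ × Fin 3 → A) (x : Fin (g + δ) × Fin 3) :
    f (tri₂ q r z x) = tri₂ (fun i => f (q i)) (fun i => f (r i)) (fun i => f (z i)) x := by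
  obtain ⟨i, j⟩ := x
  unfold tri₂
  induction i using Fin.addCases with
  | left i =>
    simp only [Fin.addCases_left]
    fin_cases j <;> rfl
  | right i => simp only [Fin.addCases_right]

theorem tri₁_injective {q : Fin g → A} {r : Fin g × Fin 2 → A}
    (h : Function.Injective (Sum.elim q r)) : Function.Injective (tri₁ q r) := by
  have hq : Function.Injective q := fun i j hij =>
    Sum.inl_injective (h (a₁ := Sum.inl i) (a₂ := Sum.inl j) hij)
  have hr : Function.Injective r := fun i j hij =>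
    Sum.inr_injective (h (a₁ := Sum.inr i) (a₂ := Sum.inr j) hij)
  have hqr : ∀ i j, q i ≠ r j := fun i j hij => by
    have := h (a₁ := Sum.inl i) (a₂ := Sum.inr j) hij
    cases this
  rintro ⟨i, j⟩ ⟨i', j'⟩ hij
  unfold tri₁ at hij
  fin_cases j <;> fin_cases j' <;>
    simp only [Fin.zero_eta, Fin.mk_one, Fin.reduceFinMk, Matrix.cons_val_zero,
      Matrix.cons_val_one, Matrix.cons_val, Fin.isValue] at hij
  · rw [hq hij]
  · exact absurd hij (hqr _ _)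
  · exact absurd hij (hqr _ _)
  · exact absurd hij.symm (hqr _ _)
  · have := hr hij; rw [Prod.mk.injEq] at this; rw [this.1]
  · have := hr hij; rw [Prod.mk.injEq] at this; exact absurd this.2 (by decide)
  · exact absurd hij.symm (hqr _ _)
  · have := hr hij; rw [Prod.mk.injEq] at this; exact absurd this.2 (by decide)
  · have := hr hij; rw [Prod.mk.injEq] at this; rw [this.1]

theorem tri₂_injective {q : Fin g → A} {r : Fin g × Fin 2 → A} {z : Fin δ × Fin 3 → A}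
    (h : Function.Injective (Sum.elim q (Sum.elim r z))) : Function.Injective (tri₂ q r z) := by
  have h1 : Function.Injective (tri₁ q r) := by
    apply tri₁_injective
    intro x y hxy
    have h2 := h (a₁ := Sum.map id Sum.inl x) (a₂ := Sum.map id Sum.inl y) (by
      rcases x with x | x <;> rcases y with y | y <;> exact hxy)
    rcases x with x | x <;> rcases y with y | y <;> simp at h2 <;> rw [h2]
  have hz : Function.Injective z := fun i j hij => by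
    have := h (a₁ := Sum.inr (Sum.inr i)) (a₂ := Sum.inr (Sum.inr j)) hij
    simpa using this
  have hqz : ∀ x j, tri₁ q r x ≠ z j := by
    rintro ⟨i, j⟩ k hk
    unfold tri₁ at hk
    fin_cases j <;>
      simp only [Fin.zero_eta, Fin.mk_one, Fin.reduceFinMk, Matrix.cons_val_zero,
        Matrix.cons_val_one, Matrix.cons_val, Fin.isValue] at hk
    · have := h (a₁ := Sum.inl i) (a₂ := Sum.inr (Sum.inr k)) hk
      cases this
    · have := h (a₁ := Sum.inr (Sum.inl (i, 0))) (a₂ := Sum.inr (Sum.inr k)) hk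
      simp at this
    · have := h (a₁ := Sum.inr (Sum.inl (i, 1))) (a₂ := Sum.inr (Sum.inr k)) hk
      simp at this
  rintro ⟨i, j⟩ ⟨i', j'⟩ hij
  unfold tri₂ at hij
  induction i using Fin.addCases with
  | left i =>
    induction i' using Fin.addCases with
    | left i' =>
      simp only [Fin.addCases_left] at hij
      have h3 := h1 (a₁ := (i, j)) (a₂ := (i', j')) hij
      rw [Prod.mk.injEq] at h3
      rw [h3.1, h3.2]
    | right i' =>
      simp only [Fin.addCases_left, Fin.addCases_right] at hij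
      exact absurd hij (hqz (i, j) _)
  | right i =>
    induction i' using Fin.addCases with
    | left i' =>
      simp only [Fin.addCases_left, Fin.addCases_right] at hij
      exact absurd hij.symm (hqz (i', j') _)
    | right i' =>
      simp only [Fin.addCases_right] at hij
      have h3 := hz hij
      rw [Prod.mk.injEq] at h3
      rw [h3.1, h3.2]

theorem tri₁_ne {q : Fin g → A} {r : Fin g × Fin 2 → A} {c : A} (hq : ∀ i, q i ≠ c)
    (hr : ∀ x, r x ≠ c) (x : Fin g × Fin 3) : tri₁ q r x ≠ c := by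
  obtain ⟨i, j⟩ := x
  unfold tri₁
  fin_cases j
  · exact hq i
  · exact hr _
  · exact hr _

theorem tri₂_ne {q : Fin g → A} {r : Fin g × Fin 2 → A} {z : Fin δ × Fin 3 → A} {c : A}
    (hq : ∀ i, q i ≠ c) (hr : ∀ x, r x ≠ c) (hz : ∀ x, z x ≠ c) (x : Fin (g + δ) × Fin 3) :
    tri₂ q r z x ≠ c := by
  obtain ⟨i, j⟩ := x
  unfold tri₂
  induction i using Fin.addCases with
  | left i =>
    simp only [Fin.addCases_left]
    exact tri₁_ne hq hr (i, j)
  | right i =>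
    simp only [Fin.addCases_right]
    exact hz _

end Comb

end Pool.Agent.D5741
end
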