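import Mathlib
import Pool.Agent.Lib.MP_d5741c_al.Mg.G004
import Pool.Agent.Lib.MP_d5741c_al.DTA
import Pool.Agent.Lib.MP_d5741c_al.Curve
import Pool.Agent.Lib.MP_d5741c_al.Basic
import Pool.Agent.Lib.MP_d5741c_al.Mg.G001
import Pool.Agent.Lib.MP_d5741c_al.Mg.G003

section

/-!
# Points of the curve and maximal ideals
-/

set_option autoImplicit false
open scoped TensorProduct nonZeroDivisors

namespace Pool.Agent.D5741

namespace Pts

lemma exists_residue_aux {Ω A : Type} [Field Ω] [IsAlgClosed Ω] [CommRing A] [Algebra Ω A]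
    (Q : Ideal A) (hQ : Q.IsMaximal) (a : A) (ha : a ∈ Q)
    (h1 : Module.Finite Ω (A ⧸ Ideal.span {a})) :
    ∃ χ : A →ₐ[Ω] Ω, ∀ x, x ∈ Q ↔ χ x = 0 := by
  have h2 : Module.Finite Ω (A ⧸ Q) := by
    let f : (A ⧸ Ideal.span {a}) →ₐ[Ω] (A ⧸ Q) :=
      Ideal.Quotient.factorₐ Ω (by rwa [Ideal.span_singleton_le_iff_mem])
    refine Module.Finite.of_surjective f.toLinearMap ?_
    intro x
    obtain ⟨x, rfl⟩ := Ideal.Quotient.mk_surjective x
    exact ⟨Ideal.Quotient.mk _ x, rfl⟩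
  have h3 : Function.Bijective (algebraMap Ω (A ⧸ Q)) :=
    IsAlgClosed.algebraMap_bijective_of_isIntegral
  let e : Ω ≃ₐ[Ω] (A ⧸ Q) := AlgEquiv.ofBijective (Algebra.ofId _ _) h3
  refine ⟨e.symm.toAlgHom.comp (Ideal.Quotient.mkₐ Ω Q), fun x => ?_⟩
  change _ ↔ e.symm (Ideal.Quotient.mk Q x) = 0
  rw [map_eq_zero_iff _ e.symm.injective, Ideal.Quotient.eq_zero_iff_mem]

section Frac

variable {A F : Type} [CommRing A] [Field F] [Algebra A F]

lemma frac_aux (I : FractionalIdeal A⁰ F) (hI : 1 ≤ I) (M : Ideal A) (hM : M.IsMaximal) (σ : A)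
    (hσ : σ ∉ M) (w : F) (hw : w ∈ I) (b : A) (hb : b ∈ M)
    (e : algebraMap A F b = algebraMap A F σ * w) : w ∈ I * (M : FractionalIdeal A⁰ F) := by
  obtain ⟨u, v, hv, huv⟩ := hM.exists_inv hσ
  have e1 : w = algebraMap A F (u * b) + w * algebraMap A F v := by
    have h1 := congrArg (algebraMap A F) huv
    rw [map_add, map_mul, map_one] at h1
    rw [map_mul, e]
    linear_combination (-w) * h1
  rw [e1]
  refine Submodule.add_mem (I * (M : FractionalIdeal A⁰ F) : FractionalIdeal A⁰ F).val ?_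
    (FractionalIdeal.mul_mem_mul hw (FractionalIdeal.mem_coeIdeal_of_mem _ hv))
  have h3 : (M : FractionalIdeal A⁰ F) ≤ I * (M : FractionalIdeal A⁰ F) :=
    le_mul_of_one_le_left' hI
  exact h3 (FractionalIdeal.mem_coeIdeal_of_mem _ (Ideal.mul_mem_left _ _ hb))

lemma cop_aux (I : FractionalIdeal A⁰ F) (M N : Ideal A) (h : IsCoprime M N) (w : F)
    (h1 : w ∈ I * (M : FractionalIdeal A⁰ F)) (h2 : w ∈ I * (N : FractionalIdeal A⁰ F)) :
    w ∈ I * ((M * N : Ideal A) : FractionalIdeal A⁰ F) := by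
  obtain ⟨e, he, e', he', hee⟩ := Ideal.isCoprime_iff_exists.1 h
  have e1 : w = algebraMap A F e * w + algebraMap A F e' * w := by
    rw [← add_mul, ← map_add, hee, map_one, one_mul]
  rw [e1, FractionalIdeal.coeIdeal_mul]
  refine Submodule.add_mem (I * ((M : FractionalIdeal A⁰ F) * (N : FractionalIdeal A⁰ F)) :
    FractionalIdeal A⁰ F).val ?_ ?_
  · change _ ∈ I * ((M : FractionalIdeal A⁰ F) * (N : FractionalIdeal A⁰ F))
    rw [mul_left_comm]
    exact FractionalIdeal.mul_mem_mul (FractionalIdeal.mem_coeIdeal_of_mem _ he) h2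
  · change _ ∈ I * ((M : FractionalIdeal A⁰ F) * (N : FractionalIdeal A⁰ F))
    rw [← mul_assoc, mul_comm]
    exact FractionalIdeal.mul_mem_mul (FractionalIdeal.mem_coeIdeal_of_mem _ he') h1

end Frac

section Basic

variable {K L Ω : Type} [Field K] [Field L] [Algebra K L] [Field Ω] [Algebra K Ω]

@[simp] lemma evp_tmul (p : L →ₐ[K] Ω) (c : Ω) (l : L) : evp p (c ⊗ₜ l) = c * p l := by
  rw [evp, Algebra.TensorProduct.lift_tmul]
  rfl

variable (K L Ω) in
/-- The inclusion of the tensor product in its fraction field. -/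
noncomputable def ψ : Ω ⊗[K] L →ₐ[Ω] LL K L Ω := IsScalarTower.toAlgHom Ω (Ω ⊗[K] L) (LL K L Ω)

lemma ψ_inj : Function.Injective (ψ K L Ω) := IsFractionRing.injective (Ω ⊗[K] L) (LL K L Ω)

lemma ψ_apply (x : Ω ⊗[K] L) : ψ K L Ω x = algebraMap (Ω ⊗[K] L) (LL K L Ω) x := rfl

variable (Ω) in
/-- The inclusion of `L` in the fraction field of the tensor product. -/
noncomputable def jj (l : L) : LL K L Ω := ψ K L Ω (1 ⊗ₜ l)

lemma jj_add (l l' : L) : jj Ω (l + l') = jj (K := K) Ω l + jj Ω l' := by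
  rw [jj, TensorProduct.tmul_add, map_add]
  rfl

lemma jj_mul (l l' : L) : jj Ω (l * l') = jj (K := K) Ω l * jj Ω l' := by
  rw [jj, jj, jj, ← map_mul, Algebra.TensorProduct.tmul_mul_tmul, one_mul]

end Basic

section Dom

variable {K L Ω : Type} [Field K] [Field L] [Algebra K L] [Field Ω] [Algebra K Ω]
  [IsDomain (Ω ⊗[K] L)]

lemma tt_mem (t : L) : tt K Ω t ∈ Ofin Ω (tt K Ω t) :=
  DTA.mem_Oc_of_mem (Algebra.self_mem_adjoin_singleton _ _)

/-- Elements of `K[t]` map to elements of `Ω[t]`. -/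
lemma jj_mem_Rfin (t l : L) (hl : l ∈ Rfin K t) : jj Ω l ∈ Rfin Ω (tt K Ω t) := by
  rw [Rfin, Algebra.adjoin_singleton_eq_range_aeval] at hl
  obtain ⟨f, rfl⟩ := hl
  induction f using Polynomial.induction_on' with
  | add f g hf hg =>
    change jj Ω (Polynomial.aeval t (f + g)) ∈ _
    rw [map_add, jj_add]
    exact add_mem hf hg
  | monomial n c =>
    change jj Ω (Polynomial.aeval t (Polynomial.monomial n c)) ∈ _
    rw [Polynomial.aeval_monomial]
    have : jj Ω (algebraMap K L c * t ^ n) = algebraMap K Ω c • (tt K Ω t) ^ n := by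
      rw [tt, ← ψ_apply, ← map_pow, ← map_smul, jj, Algebra.TensorProduct.tmul_pow, one_pow,
        TensorProduct.smul_tmul', smul_eq_mul, mul_one, ← Algebra.smul_def,
        TensorProduct.tmul_smul, TensorProduct.smul_tmul', Algebra.smul_def, mul_one]
    rw [this]
    exact Subalgebra.smul_mem _ (pow_mem (Algebra.self_mem_adjoin_singleton _ _) _) _

/-- The map from `K[t]` to `Ω[t]`. -/
noncomputable def jR (Ω : Type) [Field Ω] [Algebra K Ω] [IsDomain (Ω ⊗[K] L)] (t : L) :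
    Rfin K t →+* Rfin Ω (tt K Ω t) where
  toFun l := ⟨jj Ω l, jj_mem_Rfin t l l.2⟩
  map_one' := Subtype.ext (by
    change jj Ω ((1 : Rfin K t) : L) = 1
    rw [OneMemClass.coe_one, jj, ← Algebra.TensorProduct.one_def, map_one])
  map_mul' a b := Subtype.ext (jj_mul _ _)
  map_zero' := Subtype.ext (by
    change jj Ω ((0 : Rfin K t) : L) = 0
    rw [ZeroMemClass.coe_zero, jj, TensorProduct.tmul_zero, map_zero])
  map_add' a b := Subtype.ext (jj_add _ _)

/-- Elements of the integral closure map to elements of the integral closure. -/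
lemma jj_mem_Ofin (t l : L) (hl : l ∈ Ofin K t) : jj Ω l ∈ Ofin Ω (tt K Ω t) := by
  have h1 : IsIntegral (Rfin K t) l := hl
  have h2 : IsIntegral (Rfin Ω (tt K Ω t)) (((ψ K L Ω).toRingHom.comp
      (Algebra.TensorProduct.includeRight : L →ₐ[K] Ω ⊗[K] L).toRingHom) l) := by
    refine IsIntegral.map_of_comp_eq (jR Ω t) _ ?_ h1
    ext x
    rfl
  exact h2

/-- The inverse of the inclusion of `Ω ⊗ L` on the integral elements. -/
noncomputable def rr (t : L)
    (hr : ∀ x ∈ Ofin Ω (tt K Ω t), ∃ y : Ω ⊗[K] L, algebraMap (Ω ⊗[K] L) (LL K L Ω) y = x) :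
    Ofin Ω (tt K Ω t) →ₐ[Ω] Ω ⊗[K] L :=
  (AlgEquiv.ofInjective (ψ K L Ω) ψ_inj).symm.toAlgHom.comp
    (Subalgebra.inclusion (show Ofin Ω (tt K Ω t) ≤ (ψ K L Ω).range from fun x hx => hr x hx))

lemma ψ_rr (t : L)
    (hr : ∀ x ∈ Ofin Ω (tt K Ω t), ∃ y : Ω ⊗[K] L, algebraMap (Ω ⊗[K] L) (LL K L Ω) y = x)
    (x : Ofin Ω (tt K Ω t)) : ψ K L Ω (rr t hr x) = x := by
  have := (AlgEquiv.ofInjective (ψ K L Ω) ψ_inj).apply_symm_apply
    (Subalgebra.inclusion (show Ofin Ω (tt K Ω t) ≤ (ψ K L Ω).range from fun x hx => hr x hx) x)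
  exact congrArg Subtype.val this

lemma rr_eq (t : L)
    (hr : ∀ x ∈ Ofin Ω (tt K Ω t), ∃ y : Ω ⊗[K] L, algebraMap (Ω ⊗[K] L) (LL K L Ω) y = x)
    (x : Ofin Ω (tt K Ω t)) (y : Ω ⊗[K] L) (h : algebraMap (Ω ⊗[K] L) (LL K L Ω) y = x) :
    rr t hr x = y := ψ_inj ((ψ_rr t hr x).trans h.symm)

/-- The maximal ideal of a point. -/
noncomputable def PP (t : L)
    (hr : ∀ x ∈ Ofin Ω (tt K Ω t), ∃ y : Ω ⊗[K] L, algebraMap (Ω ⊗[K] L) (LL K L Ω) y = x)
    (p : L →ₐ[K] Ω) : Ideal (Ofin Ω (tt K Ω t)) :=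
  RingHom.ker ((evp p).comp (rr t hr))

lemma PP_isMaximal (t : L)
    (hr : ∀ x ∈ Ofin Ω (tt K Ω t), ∃ y : Ω ⊗[K] L, algebraMap (Ω ⊗[K] L) (LL K L Ω) y = x)
    (p : L →ₐ[K] Ω) : (PP t hr p).IsMaximal := by
  apply RingHom.ker_isMaximal_of_surjective
  intro c
  exact ⟨algebraMap Ω _ c, AlgHom.commutes _ c⟩

lemma mem_PP (t : L)
    (hr : ∀ x ∈ Ofin Ω (tt K Ω t), ∃ y : Ω ⊗[K] L, algebraMap (Ω ⊗[K] L) (LL K L Ω) y = x)
    (p : L →ₐ[K] Ω) (x : Ofin Ω (tt K Ω t)) (y : Ω ⊗[K] L)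
    (h : algebraMap (Ω ⊗[K] L) (LL K L Ω) y = x) : x ∈ PP t hr p ↔ evp p y = 0 := by
  rw [PP, RingHom.mem_ker, ← rr_eq t hr x y h]
  rfl

lemma sub_mem_Ofin (t : L) (s : Ω) :
    tt K Ω t - algebraMap Ω (LL K L Ω) s ∈ Ofin Ω (tt K Ω t) :=
  sub_mem (tt_mem t) (Subalgebra.algebraMap_mem _ s)

omit [IsDomain (Ω ⊗[K] L)] in
lemma ψ_sub (t : L) (s : Ω) : algebraMap (Ω ⊗[K] L) (LL K L Ω) (1 ⊗ₜ t - s ⊗ₜ 1) =
    tt K Ω t - algebraMap Ω (LL K L Ω) s := by
  rw [map_sub, tt, IsScalarTower.algebraMap_apply Ω (Ω ⊗[K] L) (LL K L Ω)]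
  rfl

lemma not_isField (t : L) (hT : Transcendental Ω (tt K Ω t)) :
    ¬ IsField (Ofin Ω (tt K Ω t)) := by
  intro h
  have h0 : IsField (integralClosure (Rfin Ω (tt K Ω t)) (LL K L Ω)) := h
  have hinj : Function.Injective (algebraMap (Rfin Ω (tt K Ω t))
      (integralClosure (Rfin Ω (tt K Ω t)) (LL K L Ω))) := by
    intro x y hxy
    have := congrArg (algebraMap (integralClosure (Rfin Ω (tt K Ω t)) (LL K L Ω)) (LL K L Ω)) hxy
    exact Subtype.ext this
  have h1 : IsField (Rfin Ω (tt K Ω t)) :=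
    isField_of_isIntegral_of_isField (R := Rfin Ω (tt K Ω t))
      (S := integralClosure (Rfin Ω (tt K Ω t)) (LL K L Ω)) hinj h0
  have h2 : Function.Injective (DTA.φfin Ω (tt K Ω t)) := by
    intro f g hfg
    apply DTA.aeval_inj hT
    rw [← DTA.coe_φfin, hfg, DTA.coe_φfin]
  have h3 : IsField (Polynomial Ω) :=
    MulEquiv.isField h1
      (RingEquiv.ofBijective (DTA.φfin Ω (tt K Ω t)) ⟨h2, DTA.φfin_surj _⟩).toMulEquiv
  exact Polynomial.not_isField Ω h3

end Dom

section Main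

variable {K L Ω : Type} [Field K] [CharZero K] [Field L] [Algebra K L] (t : L)
    [Field Ω] [IsAlgClosed Ω] [Algebra K Ω] [IsDomain (Ω ⊗[K] L)]
    (ht : Transcendental K t)
    (hfin : FiniteDimensional (IntermediateField.adjoin K {t}) L)

include ht hfin

/-- The residue map of a maximal ideal. -/
lemma exists_residue (Q : Ideal (Ofin Ω (tt K Ω t))) (hQ : Q.IsMaximal) :
    ∃ χ : Ofin Ω (tt K Ω t) →ₐ[Ω] Ω, ∀ x, x ∈ Q ↔ χ x = 0 := by
  obtain ⟨hT, hF, hr⟩ := integral_mem_range K L Ω (LL K L Ω) t ht hfin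
  have : CharZero Ω := charZero_of_injective_algebraMap (algebraMap K Ω).injective
  have hQ0 : Q ≠ ⊥ := by
    rintro rfl
    exact not_isField t hT (Ring.isField_iff_maximal_bot.2 hQ)
  obtain ⟨a, ha, ha0⟩ := Submodule.exists_mem_ne_zero_of_ne_bot hQ0
  have h1 := (dta_finite Ω (LL K L Ω) (tt K Ω t) hT hF).1 a ha0
  exact exists_residue_aux Q hQ a ha h1

omit [CharZero K] [IsAlgClosed Ω] [IsDomain (Ω ⊗[K] L)] ht hfin in
lemma jj_algebraMap (c : K) :
    jj Ω (algebraMap K L c) = algebraMap Ω (LL K L Ω) (algebraMap K Ω c) := by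
  rw [IsScalarTower.algebraMap_apply Ω (Ω ⊗[K] L) (LL K L Ω), jj, ψ_apply]
  congr 1
  rw [Algebra.TensorProduct.algebraMap_apply, Algebra.algebraMap_self_apply,
    Algebra.algebraMap_eq_smul_one, TensorProduct.tmul_smul, TensorProduct.smul_tmul',
    ← Algebra.algebraMap_eq_smul_one]

omit [CharZero K] [IsAlgClosed Ω] ht hfin in
/-- The restriction of a residue map to `L`. -/
lemma exists_pi (χ : Ofin Ω (tt K Ω t) →ₐ[Ω] Ω) : ∃ π : Ofin K t →ₐ[K] Ω,
    ∀ l : Ofin K t, π l = χ ⟨jj Ω l, jj_mem_Ofin t l l.2⟩ :=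
  ⟨{ toFun := fun l => χ ⟨jj Ω l, jj_mem_Ofin t l l.2⟩
     map_one' := by
      rw [← map_one χ]
      congr 1
      apply Subtype.ext
      change jj Ω ((1 : Ofin K t) : L) = 1
      rw [OneMemClass.coe_one, jj, ← Algebra.TensorProduct.one_def, map_one]
     map_mul' := fun a b => by
      rw [← map_mul χ]
      congr 1
      exact Subtype.ext (jj_mul _ _)
     map_zero' := by
      rw [← map_zero χ]
      congr 1
      apply Subtype.ext
      change jj Ω ((0 : Ofin K t) : L) = 0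
      rw [ZeroMemClass.coe_zero, jj, TensorProduct.tmul_zero, map_zero]
     map_add' := fun a b => by
      rw [← map_add χ]
      congr 1
      exact Subtype.ext (jj_add _ _)
     commutes' := fun c => by
      refine Eq.trans ?_ (χ.commutes (algebraMap K Ω c))
      congr 1
      exact Subtype.ext (jj_algebraMap c) }, fun _ => rfl⟩

omit [CharZero K] [IsAlgClosed Ω] ht hfin in
lemma pi_injective (χ : Ofin Ω (tt K Ω t) →ₐ[Ω] Ω) (hs : Transcendental K (χ ⟨_, tt_mem t⟩))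
    (π : Ofin K t →ₐ[K] Ω) (hπ : ∀ l : Ofin K t, π l = χ ⟨jj Ω l, jj_mem_Ofin t l l.2⟩) :
    Function.Injective π := by
  rw [injective_iff_map_eq_zero]
  intro l hl
  by_contra hl0
  let l' : integralClosure (Rfin K t) L := l
  have hint : IsIntegral (Rfin K t) l' := Algebra.IsIntegral.isIntegral l'
  have h2 := Ideal.comap_ne_bot_of_integral_mem (I := Ideal.span {l'}) hl0
    (Ideal.mem_span_singleton_self l') hint
  obtain ⟨c, hc, hc0⟩ := Submodule.exists_mem_ne_zero_of_ne_bot h2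
  rw [Ideal.mem_comap, Ideal.mem_span_singleton] at hc
  obtain ⟨d, hd⟩ := hc
  obtain ⟨f, rfl⟩ := DTA.φfin_surj t c
  have ht' : t ∈ Ofin K t := DTA.mem_Oc_of_mem (Algebra.self_mem_adjoin_singleton _ _)
  have h3 : Polynomial.aeval (⟨t, ht'⟩ : Ofin K t) f = l * (show Ofin K t from d) := by
    apply Subtype.ext
    rw [← Subalgebra.coe_val, ← Polynomial.aeval_algHom_apply]
    have := congrArg Subtype.val hd
    rw [← DTA.coe_φfin] 
    exact this
  have h4 := congrArg π h3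
  rw [map_mul, hl, zero_mul, ← Polynomial.aeval_algHom_apply, hπ] at h4
  by_cases hf : f = 0
  · rw [hf, map_zero] at hc0
    exact hc0 rfl
  · exact hs ⟨f, hf, h4⟩

omit [IsAlgClosed Ω] ht in
lemma exists_point (χ : Ofin Ω (tt K Ω t) →ₐ[Ω] Ω)
    (hs : Transcendental K (χ ⟨_, tt_mem t⟩)) :
    ∃ p : L →ₐ[K] Ω, p t = χ ⟨_, tt_mem t⟩ ∧
      ∀ (x : Ofin Ω (tt K Ω t)) (y : Ω ⊗[K] L), algebraMap (Ω ⊗[K] L) (LL K L Ω) y = x →
        χ x = evp p y := by
  obtain ⟨π, hπ⟩ := exists_pi t χ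
  have hinj := pi_injective t χ hs π hπ
  have hG := DTA.good_fin (k := K) t
  have : IsFractionRing (Ofin K t) L := hG.dedekind.2
  let p : L →ₐ[K] Ω := IsFractionRing.liftAlgHom hinj
  have hp : ∀ l : Ofin K t, p (l : L) = π l := fun l => IsFractionRing.lift_algebraMap hinj l
  have ht' : t ∈ Ofin K t := DTA.mem_Oc_of_mem (Algebra.self_mem_adjoin_singleton _ _)
  have key : ∀ y : Ω ⊗[K] L, ∃ s0 : L, s0 ≠ 0 ∧ ∃ (hs0 : s0 ∈ Ofin K t)
      (h : jj Ω s0 * algebraMap (Ω ⊗[K] L) (LL K L Ω) y ∈ Ofin Ω (tt K Ω t)),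
      χ ⟨_, h⟩ = p s0 * evp p y := by
    intro y
    induction y with
    | zero =>
      have e1 : jj Ω (1 : L) * algebraMap (Ω ⊗[K] L) (LL K L Ω) 0 = 0 := by
        rw [map_zero, mul_zero]
      have hm : jj Ω (1 : L) * algebraMap (Ω ⊗[K] L) (LL K L Ω) 0 ∈ Ofin Ω (tt K Ω t) := by
        rw [e1]
        exact zero_mem _
      refine ⟨1, one_ne_zero, one_mem _, hm, ?_⟩
      have e2 : (⟨_, hm⟩ : Ofin Ω (tt K Ω t)) = 0 := Subtype.ext e1
      rw [e2, map_zero, map_zero, mul_zero]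
    | tmul c l =>
      obtain ⟨s0, hs0, hs00, hs0l⟩ := hG.clear l
      have e1 : jj Ω s0 * algebraMap (Ω ⊗[K] L) (LL K L Ω) (c ⊗ₜ l) =
          algebraMap Ω (LL K L Ω) c * jj Ω (s0 * l) := by
        rw [jj_mul, IsScalarTower.algebraMap_apply Ω (Ω ⊗[K] L) (LL K L Ω), jj, jj, ψ_apply,
          ψ_apply, ← map_mul, ← map_mul, ← map_mul,
          Algebra.TensorProduct.algebraMap_apply, Algebra.algebraMap_self_apply,
          Algebra.TensorProduct.tmul_mul_tmul, Algebra.TensorProduct.tmul_mul_tmul,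
          Algebra.TensorProduct.tmul_mul_tmul, one_mul, one_mul, mul_one, one_mul]
      have hm : jj Ω s0 * algebraMap (Ω ⊗[K] L) (LL K L Ω) (c ⊗ₜ l) ∈ Ofin Ω (tt K Ω t) := by
        rw [e1]
        exact mul_mem (Subalgebra.algebraMap_mem _ c) (jj_mem_Ofin t _ hs0l)
      refine ⟨s0, hs00, DTA.mem_Oc_of_mem hs0, hm, ?_⟩
      have e2 : (⟨_, hm⟩ : Ofin Ω (tt K Ω t)) =
          algebraMap Ω _ c * ⟨jj Ω (s0 * l), jj_mem_Ofin t _ hs0l⟩ := Subtype.ext e1
      rw [e2, map_mul, AlgHom.commutes, Algebra.algebraMap_self_apply,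
        ← hπ ⟨s0 * l, hs0l⟩, ← hp, evp_tmul]
      change c * p (s0 * l) = _
      rw [map_mul]
      ring
    | add y y' hy hy' =>
      obtain ⟨s0, h0, hs0, h, he⟩ := hy
      obtain ⟨s0', h0', hs0', h', he'⟩ := hy'
      have e1 : jj Ω (s0 * s0') * algebraMap (Ω ⊗[K] L) (LL K L Ω) (y + y') =
          jj Ω s0' * (jj Ω s0 * algebraMap (Ω ⊗[K] L) (LL K L Ω) y) +
          jj Ω s0 * (jj Ω s0' * algebraMap (Ω ⊗[K] L) (LL K L Ω) y') := by
        rw [jj_mul, map_add]
        ring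
      have hm : jj Ω (s0 * s0') * algebraMap (Ω ⊗[K] L) (LL K L Ω) (y + y') ∈
          Ofin Ω (tt K Ω t) := by
        rw [e1]
        exact add_mem (mul_mem (jj_mem_Ofin t _ hs0') h) (mul_mem (jj_mem_Ofin t _ hs0) h')
      refine ⟨s0 * s0', mul_ne_zero h0 h0', mul_mem hs0 hs0', hm, ?_⟩
      have e2 : (⟨_, hm⟩ : Ofin Ω (tt K Ω t)) =
          ⟨jj Ω s0', jj_mem_Ofin t _ hs0'⟩ * ⟨_, h⟩ + ⟨jj Ω s0, jj_mem_Ofin t _ hs0⟩ * ⟨_, h'⟩ :=
        Subtype.ext e1
      rw [e2, map_add, map_mul, map_mul, he, he', ← hπ ⟨s0', hs0'⟩, ← hπ ⟨s0, hs0⟩, ← hp, ← hp,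
        map_add, map_mul]
      ring
  refine ⟨p, ?_, ?_⟩
  · have := hp ⟨t, ht'⟩
    rw [hπ] at this
    exact this
  · intro x y hxy
    obtain ⟨s0, h0, hs0, h, he⟩ := key y
    have e2 : (⟨_, h⟩ : Ofin Ω (tt K Ω t)) = ⟨jj Ω s0, jj_mem_Ofin t _ hs0⟩ * x := by
      apply Subtype.ext
      change jj Ω s0 * algebraMap (Ω ⊗[K] L) (LL K L Ω) y = jj Ω s0 * (x : LL K L Ω)
      rw [hxy]
    rw [e2, map_mul, ← hπ ⟨s0, hs0⟩, ← hp] at he
    exact mul_left_cancel₀ (by
      change p s0 ≠ 0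
      rw [Ne, map_eq_zero]
      exact h0) he

end Main

end Pts

section Tensor

variable (K L Ω : Type) [Field K] [CharZero K] [Field L] [Algebra K L] (t : L)
    [Field Ω] [IsAlgClosed Ω] [Algebra K Ω] [IsDomain (Ω ⊗[K] L)]
    (ht : Transcendental K t)
    (hfin : FiniteDimensional (IntermediateField.adjoin K {t}) L)
    [IsDedekindDomain (Ofin Ω (tt K Ω t))] [IsFractionRing (Ofin Ω (tt K Ω t)) (LL K L Ω)]
    [IsDedekindDomain (Oinf Ω (tt K Ω t))] [IsFractionRing (Oinf Ω (tt K Ω t)) (LL K L Ω)]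

include ht hfin

set_option linter.unusedSectionVars false in
/-- TASK PTS (1) -/
theorem exists_points : ∃ P : (L →ₐ[K] Ω) → Ideal (Ofin Ω (tt K Ω t)),
    (∀ p, (P p).IsMaximal) ∧
    (∀ p, P p ≠ ⊥) ∧
    (∀ (p : L →ₐ[K] Ω) (x : Ofin Ω (tt K Ω t)) (y : Ω ⊗[K] L),
      algebraMap _ (LL K L Ω) y = x → (x ∈ P p ↔ evp p y = 0)) ∧
    (∀ Q : Ideal (Ofin Ω (tt K Ω t)), Q.IsMaximal → ∃ s : Ω,
      (∃ h : tt K Ω t - algebraMap Ω (LL K L Ω) s ∈ Ofin Ω (tt K Ω t),
        (⟨_, h⟩ : Ofin Ω (tt K Ω t)) ∈ Q) ∧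
      (Transcendental K s → ∃ p : L →ₐ[K] Ω, p t = s ∧ Q = P p)) := by
  obtain ⟨hT, hF, hr⟩ := integral_mem_range K L Ω (LL K L Ω) t ht hfin
  refine ⟨Pts.PP t hr, Pts.PP_isMaximal t hr, ?_, Pts.mem_PP t hr, ?_⟩
  · intro p h0
    have h1 : (⟨_, Pts.sub_mem_Ofin t (p t)⟩ : Ofin Ω (tt K Ω t)) ∈ Pts.PP t hr p := by
      rw [Pts.mem_PP t hr p _ (1 ⊗ₜ t - p t ⊗ₜ 1) (Pts.ψ_sub t (p t)), map_sub, Pts.evp_tmul,
        Pts.evp_tmul, map_one, one_mul, mul_one, sub_self]
    rw [h0, Ideal.mem_bot] at h1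
    have h2 : tt K Ω t = algebraMap Ω (LL K L Ω) (p t) := sub_eq_zero.1 (congrArg Subtype.val h1)
    apply hT
    change IsAlgebraic Ω (tt K Ω t)
    rw [h2]
    exact isAlgebraic_algebraMap _
  · intro Q hQ
    obtain ⟨χ, hχ⟩ := Pts.exists_residue t ht hfin Q hQ
    refine ⟨χ ⟨_, Pts.tt_mem t⟩, ⟨Pts.sub_mem_Ofin t _, ?_⟩, ?_⟩
    · rw [hχ]
      have : (⟨_, Pts.sub_mem_Ofin t (χ ⟨_, Pts.tt_mem t⟩)⟩ : Ofin Ω (tt K Ω t)) =
          ⟨_, Pts.tt_mem t⟩ - algebraMap Ω _ (χ ⟨_, Pts.tt_mem t⟩) := rfl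
      rw [this, map_sub, AlgHom.commutes, Algebra.algebraMap_self_apply, sub_self]
    · intro hs
      obtain ⟨p, hp, hpx⟩ := Pts.exists_point t hfin χ hs
      refine ⟨p, hp, ?_⟩
      ext x
      obtain ⟨y, hy⟩ := hr x x.2
      rw [hχ, Pts.mem_PP t hr p x y hy, hpx x y hy]

set_option linter.unusedSectionVars false in
set_option linter.unusedVariables false in
/-- TASK PTS (2) -/
theorem mem_mul_iff (P : (L →ₐ[K] Ω) → Ideal (Ofin Ω (tt K Ω t)))
    (hPm : ∀ p, (P p).IsMaximal)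
    (hP : ∀ (p : L →ₐ[K] Ω) (x : Ofin Ω (tt K Ω t)) (y : Ω ⊗[K] L),
      algebraMap _ (LL K L Ω) y = x → (x ∈ P p ↔ evp p y = 0))
    (I : FractionalIdeal (Ofin Ω (tt K Ω t))⁰ (LL K L Ω)) (hI : 1 ≤ I)
    (hIr : ∀ x ∈ I, ∃ y : Ω ⊗[K] L, algebraMap _ (LL K L Ω) y = x)
    (s : L) (hs0 : s ≠ 0) (hs : s ∈ Rfin K t)
    (hsI : ∀ x ∈ I, algebraMap (Ω ⊗[K] L) (LL K L Ω) (1 ⊗ₜ s) * x ∈ Ofin Ω (tt K Ω t))
    (ι : Type) [Fintype ι] (p : ι → (L →ₐ[K] Ω)) (hp : ∀ i, Transcendental K (p i t))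
    (hinj : Function.Injective fun i => p i t)
    (w : LL K L Ω) (hw : w ∈ I) (y : Ω ⊗[K] L) (hy : algebraMap _ (LL K L Ω) y = w) :
    w ∈ I * ((∏ i, P (p i) : Ideal (Ofin Ω (tt K Ω t))) :
      FractionalIdeal (Ofin Ω (tt K Ω t))⁰ (LL K L Ω)) ↔ ∀ i, evp (p i) y = 0 := by
  classical
  obtain ⟨hT, hF, hr⟩ := integral_mem_range K L Ω (LL K L Ω) t ht hfin
  -- one point
  have one : ∀ i, evp (p i) y = 0 → w ∈ I * ((P (p i) : Ideal (Ofin Ω (tt K Ω t))) :
      FractionalIdeal (Ofin Ω (tt K Ω t))⁰ (LL K L Ω)) := by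
    intro i hi
    have hsA : Pts.jj Ω s ∈ Ofin Ω (tt K Ω t) := Pts.jj_mem_Ofin t s (DTA.mem_Oc_of_mem hs)
    have hsP : (⟨_, hsA⟩ : Ofin Ω (tt K Ω t)) ∉ P (p i) := by
      rw [hP (p i) _ (1 ⊗ₜ s) rfl, Pts.evp_tmul, one_mul, map_eq_zero]
      exact hs0
    have hb : (⟨_, hsI w hw⟩ : Ofin Ω (tt K Ω t)) ∈ P (p i) := by
      rw [hP (p i) _ ((1 ⊗ₜ s) * y) (by rw [map_mul, hy]), map_mul, hi, mul_zero]
    exact Pts.frac_aux I hI _ (hPm (p i)) _ hsP w hw _ hb rfl
  constructor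
  · intro h i
    have h1 : I * ((∏ i, P (p i) : Ideal (Ofin Ω (tt K Ω t))) :
      FractionalIdeal (Ofin Ω (tt K Ω t))⁰ (LL K L Ω)) ≤ I * ((P (p i) : Ideal _) :
      FractionalIdeal (Ofin Ω (tt K Ω t))⁰ (LL K L Ω)) := by
      apply mul_le_mul_right
      rw [FractionalIdeal.coeIdeal_le_coeIdeal]
      exact Ideal.le_of_dvd (Finset.dvd_prod_of_mem _ (Finset.mem_univ i))
    have h2 := h1 h
    have key : ∃ y' : Ω ⊗[K] L, algebraMap _ (LL K L Ω) y' = w ∧ evp (p i) y' = 0 := by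
      refine FractionalIdeal.mul_induction_on h2 ?_ ?_
      · intro a ha b hb
        obtain ⟨y1, hy1⟩ := hIr a ha
        obtain ⟨b', hb', rfl⟩ := (FractionalIdeal.mem_coeIdeal _).1 hb
        obtain ⟨y2, hy2⟩ := hr b' b'.2
        refine ⟨y1 * y2, ?_, ?_⟩
        · rw [map_mul, hy1, hy2]
          rfl
        · rw [map_mul, (hP (p i) b' y2 hy2).1 hb', mul_zero]
      · rintro a b ⟨y1, h1, h1'⟩ ⟨y2, h2, h2'⟩
        exact ⟨y1 + y2, by rw [map_add, h1, h2], by rw [map_add, h1', h2', add_zero]⟩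
    obtain ⟨y', hy', hy''⟩ := key
    have : y' = y := Pts.ψ_inj (hy'.trans hy.symm)
    rwa [this] at hy''
  · intro h
    have key : ∀ F : Finset ι, w ∈ I * ((∏ i ∈ F, P (p i) : Ideal (Ofin Ω (tt K Ω t))) :
        FractionalIdeal (Ofin Ω (tt K Ω t))⁰ (LL K L Ω)) := by
      intro F
      induction F using Finset.induction_on with
      | empty =>
        rw [Finset.prod_empty, Ideal.one_eq_top, FractionalIdeal.coeIdeal_top, mul_one]
        exact hw
      | insert a F ha ih =>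
        rw [Finset.prod_insert ha]
        have hcop : IsCoprime (P (p a)) (∏ i ∈ F, P (p i)) := by
          apply IsCoprime.prod_right
          intro i hi
          rw [Ideal.isCoprime_iff_sup_eq]
          apply Ideal.IsMaximal.coprime_of_ne (hPm _) (hPm _)
          intro heq
          have h1 : (⟨_, Pts.sub_mem_Ofin t (p a t)⟩ : Ofin Ω (tt K Ω t)) ∈ P (p a) := by
            rw [hP (p a) _ (1 ⊗ₜ t - p a t ⊗ₜ 1) (Pts.ψ_sub t (p a t)), map_sub, Pts.evp_tmul,
              Pts.evp_tmul, map_one, one_mul, mul_one, sub_self]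
          rw [heq, hP (p i) _ (1 ⊗ₜ t - p a t ⊗ₜ 1) (Pts.ψ_sub t (p a t)), map_sub, Pts.evp_tmul,
              Pts.evp_tmul, map_one, one_mul, mul_one, sub_eq_zero] at h1
          exact ha (hinj h1 ▸ hi)
        exact Pts.cop_aux I _ _ hcop w (one a (h a)) ih
    exact key _

end Tensor

end Pool.Agent.D5741
end

section

/-!
# The standard model

Independent twisted points over the Laurent series field of a purely transcendental extension of a
generic splitting field of the norm form.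
-/

set_option autoImplicit false

namespace Pool.Agent.D5741.Std

/-- Twisting of Laurent series: `∑ aₙ Xⁿ ↦ ∑ f(aₙ) cⁿ Xⁿ`. -/
noncomputable def tw {R S : Type*} [Field R] [Field S] (f : R →+* S) (c : S) (hc : c ≠ 0) :
    LaurentSeries R →+* LaurentSeries S where
  toFun x :=
    { coeff := fun n => f (x.coeff n) * c ^ n
      isPWO_support' := by
        refine x.isPWO_support.mono ?_
        intro n hn
        rw [Function.mem_support] at hn
        rw [HahnSeries.mem_support]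
        intro h
        apply hn
        rw [h, map_zero, zero_mul] }
  map_zero' := by
    ext n
    simp
  map_add' x y := by
    ext n
    simp [add_mul]
  map_one' := by
    ext n
    simp only [HahnSeries.coeff_one]
    split_ifs with h
    · simp [h]
    · simp
  map_mul' x y := by
    ext n
    have hsupp : ∀ z : LaurentSeries R, ∀ m : ℤ, f (z.coeff m) * c ^ m ≠ 0 ↔ z.coeff m ≠ 0 := by
      intro z m
      rw [not_iff_not, mul_eq_zero, map_eq_zero]
      constructor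
      · rintro (h | h)
        · exact h
        · exact absurd h (zpow_ne_zero m hc)
      · intro h
        exact Or.inl h
    rw [HahnSeries.coeff_mul]
    simp only [HahnSeries.coeff_mul, map_sum, Finset.sum_mul]
    refine Finset.sum_congr ?_ ?_
    · ext ⟨i, j⟩
      simp only [Finset.mem_antidiagonal, HahnSeries.mem_support, hsupp]
    · rintro ⟨i, j⟩ hij
      simp only [Finset.mem_antidiagonal] at hij
      rw [map_mul, ← hij.2.2, zpow_add₀ hc]
      ring

@[simp]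
theorem tw_coeff {R S : Type*} [Field R] [Field S] (f : R →+* S) (c : S) (hc : c ≠ 0)
    (x : LaurentSeries R) (n : ℤ) : (tw f c hc x).coeff n = f (x.coeff n) * c ^ n := rfl

theorem tw_C {R S : Type*} [Field R] [Field S] (f : R →+* S) (c : S) (hc : c ≠ 0)
    (a : R) : tw f c hc (HahnSeries.C a) = HahnSeries.C (f a) := by
  ext n
  rw [tw_coeff, HahnSeries.C_apply, HahnSeries.C_apply, HahnSeries.coeff_single,
    HahnSeries.coeff_single]
  split_ifs with h
  · rw [h, zpow_zero, mul_one]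
  · rw [map_zero, zero_mul]

theorem tw_X {R S : Type*} [Field R] [Field S] (f : R →+* S) (c : S) (hc : c ≠ 0) :
    tw f c hc (HahnSeries.single 1 1) = HahnSeries.C c * HahnSeries.single 1 1 := by
  ext n
  rw [tw_coeff, HahnSeries.C_mul_eq_smul, HahnSeries.coeff_smul, HahnSeries.coeff_single,
    HahnSeries.coeff_single]
  split_ifs with h
  · rw [h, zpow_one, map_one, one_mul, smul_eq_mul, mul_one]
  · rw [map_zero, zero_mul, smul_zero]

theorem tw_one_range {R S : Type*} [Field R] [Field S] (f : R →+* S) (x : LaurentSeries S)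
    (hx : ∀ n, x.coeff n ∈ Set.range f) : x ∈ Set.range (tw f 1 one_ne_zero) := by
  choose g hg using hx
  refine ⟨⟨g, ?_⟩, ?_⟩
  · refine x.isPWO_support.mono ?_
    intro n hn
    rw [Function.mem_support] at hn
    rw [HahnSeries.mem_support]
    intro h
    apply hn
    have h2 := hg n
    rw [h, map_eq_zero] at h2
    exact h2
  · ext n
    rw [tw_coeff, one_zpow, mul_one]
    exact hg n


open scoped nonZeroDivisors in
/-- A constant which is a cube in a purely transcendental extension is a cube. -/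
theorem exists_cube_of_fractionRing (F ι : Type) [Field F] (b : F)
    (g : FractionRing (MvPolynomial ι F))
    (hg : g ^ 3 = algebraMap F (FractionRing (MvPolynomial ι F)) b) : ∃ c : F, c ^ 3 = b := by
  have hint : IsIntegral (MvPolynomial ι F) g := by
    refine IsIntegral.of_pow (n := 3) (by norm_num) ?_
    rw [hg, IsScalarTower.algebraMap_apply F (MvPolynomial ι F) (FractionRing (MvPolynomial ι F))]
    exact isIntegral_algebraMap
  obtain ⟨f, hf⟩ := IsIntegrallyClosed.isIntegral_iff.mp hint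
  rw [← hf, ← map_pow, IsScalarTower.algebraMap_apply F (MvPolynomial ι F)
    (FractionRing (MvPolynomial ι F))] at hg
  have h2 := IsFractionRing.injective (MvPolynomial ι F) (FractionRing (MvPolynomial ι F)) hg
  refine ⟨MvPolynomial.eval 0 f, ?_⟩
  rw [← map_pow, h2, MvPolynomial.algebraMap_eq, MvPolynomial.eval_C]

/-- The same when the constant lies in a subfield that is algebraically closed in `F`. -/
theorem not_cube (K F ι : Type) [Field K] [Field F] [Algebra K F] (b : K)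
    (hb : ∀ x : K, x ^ 3 ≠ b)
    (hcl : ∀ u : F, IsAlgebraic K u → u ∈ Set.range (algebraMap K F))
    (g : FractionRing (MvPolynomial ι F)) :
    g ^ 3 ≠ algebraMap F (FractionRing (MvPolynomial ι F)) (algebraMap K F b) := by
  intro hg
  obtain ⟨c, hc⟩ := exists_cube_of_fractionRing F ι _ g hg
  have hint : IsIntegral K c := by
    refine IsIntegral.of_pow (n := 3) (by norm_num) ?_
    rw [hc]
    exact isIntegral_algebraMap
  obtain ⟨k, hk⟩ := hcl c hint.isAlgebraic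
  apply hb k
  apply (algebraMap K F).injective
  rw [map_pow, hk, hc]

/-- The cubic Kummer extension, its automorphisms and the trace. -/
theorem exists_kummer (κ : Type) [Field κ] [CharZero κ] (w b : κ) (hw : w ^ 2 + w + 1 = 0)
    (hb : ∀ x : κ, x ^ 3 ≠ b) :
    ∃ (κβ : Type) (_ : Field κβ) (_ : Algebra κ κβ) (ν₁ : κβ) (φ : ℕ → (κβ →ₐ[κ] κβ)),
      ν₁ ^ 3 = algebraMap κ κβ b ∧ (∀ r, φ r ν₁ = (algebraMap κ κβ w) ^ r * ν₁) ∧
      ∀ (s : ℕ) (e : κβ), ∑ r : Fin 3, φ (r + s) e ∈ (algebraMap κ κβ).range := by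
  have hirr : Irreducible (Polynomial.X ^ 3 - Polynomial.C b : Polynomial κ) :=
    X_pow_sub_C_irreducible_of_prime Nat.prime_three hb
  have : Fact (Irreducible (Polynomial.X ^ 3 - Polynomial.C b : Polynomial κ)) := ⟨hirr⟩
  have hw3 : w ^ 3 = 1 := by linear_combination (w - 1) * hw
  have hroot : (AdjoinRoot.root (Polynomial.X ^ 3 - Polynomial.C b : Polynomial κ)) ^ 3 =
      algebraMap κ (AdjoinRoot (Polynomial.X ^ 3 - Polynomial.C b : Polynomial κ)) b := by
    have h := AdjoinRoot.eval₂_root (Polynomial.X ^ 3 - Polynomial.C b : Polynomial κ)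
    rw [Polynomial.eval₂_sub, Polynomial.eval₂_pow, Polynomial.eval₂_X, Polynomial.eval₂_C,
      sub_eq_zero] at h
    exact h
  have hroot' : ∀ r : ℕ, Polynomial.eval₂
      (algebraMap κ (AdjoinRoot (Polynomial.X ^ 3 - Polynomial.C b : Polynomial κ)))
      ((algebraMap κ (AdjoinRoot (Polynomial.X ^ 3 - Polynomial.C b : Polynomial κ)) w) ^ r *
        AdjoinRoot.root _)
      (Polynomial.X ^ 3 - Polynomial.C b : Polynomial κ) = 0 := by
    intro r
    rw [Polynomial.eval₂_sub, Polynomial.eval₂_pow, Polynomial.eval₂_X, Polynomial.eval₂_C,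
      mul_pow, hroot, ← pow_mul, mul_comm r 3, pow_mul, ← map_pow, hw3, map_one, one_pow, one_mul,
      sub_self]
  refine ⟨AdjoinRoot (Polynomial.X ^ 3 - Polynomial.C b : Polynomial κ), inferInstance,
    inferInstance, AdjoinRoot.root _,
    fun r => AdjoinRoot.liftAlgHom _ (Algebra.ofId _ _)
      ((algebraMap κ (AdjoinRoot (Polynomial.X ^ 3 - Polynomial.C b : Polynomial κ)) w) ^ r *
        AdjoinRoot.root _) (hroot' r), hroot, ?_, ?_⟩
  · intro r
    simp
  · intro s e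
    induction e using AdjoinRoot.induction_on with
    | ih p =>
      induction p using Polynomial.induction_on' with
      | add p q hp hq =>
        simp only [map_add, Finset.sum_add_distrib]
        exact add_mem hp hq
      | monomial n a =>
        simp only [AdjoinRoot.liftAlgHom_mk]
        set W := algebraMap κ (AdjoinRoot (Polynomial.X ^ 3 - Polynomial.C b : Polynomial κ)) w
          with hWdef
        have hW : W ^ 2 + W + 1 = 0 := by
          rw [hWdef, ← map_pow, ← map_add, ← map_one (algebraMap κ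
            (AdjoinRoot (Polynomial.X ^ 3 - Polynomial.C b : Polynomial κ))), ← map_add, hw,
            map_zero]
        have hW3 : W ^ 3 = 1 := by linear_combination (W - 1) * hW
        have hterm : ∀ r : ℕ, Polynomial.eval₂ (↑(Algebra.ofId κ
            (AdjoinRoot (Polynomial.X ^ 3 - Polynomial.C b : Polynomial κ))))
            (W ^ r * AdjoinRoot.root (Polynomial.X ^ 3 - Polynomial.C b : Polynomial κ))
            (Polynomial.monomial n a) =
            algebraMap κ (AdjoinRoot (Polynomial.X ^ 3 - Polynomial.C b : Polynomial κ)) a *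
            ((W ^ n) ^ r * AdjoinRoot.root _ ^ n) := by
          intro r
          rw [Polynomial.eval₂_monomial, mul_pow, ← pow_mul, ← pow_mul, mul_comm n r]
          rfl
        rw [Fin.sum_univ_three]
        rw [hterm, hterm, hterm]
        obtain ⟨q, k, hk, rfl⟩ : ∃ q k : ℕ, k < 3 ∧ n = 3 * q + k :=
          ⟨n / 3, n % 3, Nat.mod_lt _ (by norm_num), (Nat.div_add_mod n 3).symm⟩
        have e1 : W ^ (3 * q + k) = W ^ k := by
          rw [pow_add, pow_mul, hW3, one_pow, one_mul]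
        rw [e1]
        interval_cases k
        · rw [pow_zero, one_pow, one_pow, one_pow, one_mul, add_zero, pow_mul, hroot, ← map_pow,
            ← map_mul]
          exact add_mem (add_mem ⟨_, rfl⟩ ⟨_, rfl⟩) ⟨_, rfl⟩
        · have e2 : (W ^ 1) ^ (((0 : Fin 3) : ℕ) + s) + (W ^ 1) ^ (((1 : Fin 3) : ℕ) + s) +
              (W ^ 1) ^ (((2 : Fin 3) : ℕ) + s) = 0 := by
            simp only [pow_one, Fin.val_zero, Fin.val_one, Fin.val_two, pow_add]
            linear_combination W ^ s * hW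
          convert zero_mem (algebraMap κ
            (AdjoinRoot (Polynomial.X ^ 3 - Polynomial.C b : Polynomial κ))).range using 1
          linear_combination algebraMap κ
            (AdjoinRoot (Polynomial.X ^ 3 - Polynomial.C b : Polynomial κ)) a *
            AdjoinRoot.root (Polynomial.X ^ 3 - Polynomial.C b : Polynomial κ) ^ (3 * q + 1) * e2
        · have e2 : (W ^ 2) ^ (((0 : Fin 3) : ℕ) + s) + (W ^ 2) ^ (((1 : Fin 3) : ℕ) + s) +
              (W ^ 2) ^ (((2 : Fin 3) : ℕ) + s) = 0 := by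
            simp only [pow_one, Fin.val_zero, Fin.val_one, Fin.val_two, pow_add, pow_zero]
            linear_combination (W ^ 2) ^ s * hW + (W ^ 2) ^ s * W * hW3
          convert zero_mem (algebraMap κ
            (AdjoinRoot (Polynomial.X ^ 3 - Polynomial.C b : Polynomial κ))).range using 1
          linear_combination algebraMap κ
            (AdjoinRoot (Polynomial.X ^ 3 - Polynomial.C b : Polynomial κ)) a *
            AdjoinRoot.root (Polynomial.X ^ 3 - Polynomial.C b : Polynomial κ) ^ (3 * q + 2) * e2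


/-- An algebra with a root of the minimal polynomial receives the Kummer extension. -/
theorem exists_hom (K Kβ κβ : Type) [Field K] [Field Kβ] [Algebra K Kβ] [Field κβ] [Algebra K κβ]
    (b : K) (hb : ∀ x : K, x ^ 3 ≠ b) (ν₀ : Kβ) (hν₀ : ν₀ ^ 3 = algebraMap K Kβ b)
    (hgen : IntermediateField.adjoin K {ν₀} = ⊤) (ν₁ : κβ) (hν₁ : ν₁ ^ 3 = algebraMap K κβ b) :
    Nonempty (Kβ →ₐ[K] κβ) := by
  have hirr : Irreducible (Polynomial.X ^ 3 - Polynomial.C b : Polynomial K) :=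
    X_pow_sub_C_irreducible_of_prime Nat.prime_three hb
  have hmonic : (Polynomial.X ^ 3 - Polynomial.C b : Polynomial K).Monic :=
    Polynomial.monic_X_pow_sub_C b (by norm_num)
  have hmin : (Polynomial.X ^ 3 - Polynomial.C b : Polynomial K) = minpoly K ν₀ := by
    refine minpoly.eq_of_irreducible_of_monic hirr ?_ hmonic
    simp [hν₀]
  have hint : IsIntegral K ν₀ := by
    refine ⟨_, hmonic, ?_⟩
    simp [hν₀]
  have hmem : ν₁ ∈ (minpoly K ν₀).aroots κβ := by
    rw [← hmin, Polynomial.mem_aroots]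
    refine ⟨hmonic.ne_zero, ?_⟩
    simp [hν₁]
  have e : Kβ ≃ₐ[K] IntermediateField.adjoin K {ν₀} :=
    (IntermediateField.topEquiv.symm).trans (IntermediateField.equivOfEq hgen.symm)
  exact ⟨((IntermediateField.algHomAdjoinIntegralEquiv K hint).symm ⟨ν₁, hmem⟩).comp
    (e : Kβ →ₐ[K] IntermediateField.adjoin K {ν₀})⟩

theorem algebraMap_laurent (K R : Type) [Field K] [Field R] [Algebra K R] (x : K) :
    algebraMap K (LaurentSeries R) x = HahnSeries.C (algebraMap K R x) := by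
  rw [HahnSeries.algebraMap_apply', PowerSeries.algebraMap_apply, HahnSeries.ofPowerSeries_C]

/-- The variable of a Laurent series field is transcendental. -/
theorem transcendental_X (F : Type) [Field F] :
    Transcendental F (HahnSeries.single 1 1 : LaurentSeries F) := by
  rw [transcendental_iff_injective]
  have h : ∀ p : Polynomial F, Polynomial.aeval (HahnSeries.single 1 1 : LaurentSeries F) p =
      HahnSeries.ofPowerSeries ℤ F (p : PowerSeries F) := by
    intro p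
    induction p using Polynomial.induction_on' with
    | add p q hp hq =>
      rw [map_add, hp, hq, Polynomial.coe_add, map_add]
    | monomial n a =>
      rw [Polynomial.aeval_monomial, ← Polynomial.C_mul_X_pow_eq_monomial, Polynomial.coe_mul,
        Polynomial.coe_pow, Polynomial.coe_X, Polynomial.coe_C, map_mul, map_pow,
        HahnSeries.ofPowerSeries_C, HahnSeries.ofPowerSeries_X, algebraMap_laurent]
      rfl
  intro p q hpq
  rw [h, h] at hpq
  exact Polynomial.coe_injective F (HahnSeries.ofPowerSeries_injective hpq)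

theorem indep_affine {E Ω J : Type} [Field E] [Field Ω] [Algebra E Ω] (u : J × Fin 3 → Ω) (X : Ω)
    (h : AlgebraicIndependent E (Sum.elim (fun _ : Unit => X) u))
    (M N : Fin 3 → Fin 3 → E) (hMN : ∀ r r', ∑ i, M r i * N i r' = if r = r' then 1 else 0)
    (t₀ : E) :
    AlgebraicIndependent E (fun jr : J × Fin 3 =>
      algebraMap E Ω t₀ + X * ∑ i, algebraMap E Ω (M jr.2 i) * u (jr.1, i)) := by
  let φ : MvPolynomial (J × Fin 3) E →ₐ[E] MvPolynomial (Unit ⊕ J × Fin 3) E :=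
    MvPolynomial.aeval (fun jr => MvPolynomial.C t₀ + MvPolynomial.X (Sum.inl ()) *
      ∑ i, MvPolynomial.C (M jr.2 i) * MvPolynomial.X (Sum.inr (jr.1, i)))
  let ψ : MvPolynomial (Unit ⊕ J × Fin 3) E →ₐ[E] MvPolynomial (J × Fin 3) E :=
    MvPolynomial.aeval (Sum.elim (fun _ => 1) (fun ji => ∑ r, MvPolynomial.C (N ji.2 r) *
      (MvPolynomial.X (ji.1, r) - MvPolynomial.C t₀)))
  have hψφ : ψ.comp φ = AlgHom.id E _ := by
    apply MvPolynomial.algHom_ext
    rintro ⟨j, r⟩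
    rw [AlgHom.comp_apply, AlgHom.id_apply]
    simp only [φ, ψ, MvPolynomial.aeval_X, map_add, map_mul, map_sum, MvPolynomial.algHom_C,
      Sum.elim_inl, Sum.elim_inr, one_mul, MvPolynomial.algebraMap_eq]
    have h1 : ∑ i, MvPolynomial.C (M r i) * ∑ r', MvPolynomial.C (N i r') *
        (MvPolynomial.X (j, r') - MvPolynomial.C t₀) =
        ∑ r', MvPolynomial.C (∑ i, M r i * N i r') *
        (MvPolynomial.X (j, r') - MvPolynomial.C t₀ : MvPolynomial (J × Fin 3) E) := by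
      simp only [Finset.mul_sum, map_sum, Finset.sum_mul, map_mul]
      rw [Finset.sum_comm]
      refine Finset.sum_congr rfl fun _ _ => Finset.sum_congr rfl fun _ _ => ?_
      ring
    rw [h1]
    simp only [hMN]
    rw [Finset.sum_eq_single r]
    · rw [if_pos rfl, map_one]
      ring
    · intro r' _ hr
      rw [if_neg (Ne.symm hr), map_zero, zero_mul]
    · intro hr
      exact absurd (Finset.mem_univ r) hr
  have hφ : Function.Injective φ := by
    intro p q hpq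
    have h1 := congrArg ψ hpq
    rw [← AlgHom.comp_apply, ← AlgHom.comp_apply, hψφ] at h1
    exact h1
  rw [algebraicIndependent_iff_injective_aeval] at h ⊢
  have hcomp : MvPolynomial.aeval (fun jr : J × Fin 3 =>
      algebraMap E Ω t₀ + X * ∑ i, algebraMap E Ω (M jr.2 i) * u (jr.1, i)) =
      (MvPolynomial.aeval (Sum.elim (fun _ : Unit => X) u)).comp φ := by
    apply MvPolynomial.algHom_ext
    rintro ⟨j, r⟩
    rw [AlgHom.comp_apply]
    simp only [φ, MvPolynomial.aeval_X, map_add, map_mul, map_sum, MvPolynomial.algHom_C,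
      Sum.elim_inl, Sum.elim_inr]
  rw [hcomp, AlgHom.coe_comp]
  exact h.comp hφ

theorem vandermonde {E : Type} [Field E] [CharZero E] (ω ν : E) (hω : ω ^ 2 + ω + 1 = 0)
    (hν : ν ≠ 0) (r r' : Fin 3) :
    ∑ i : Fin 3, (ω ^ (r : ℕ) * ν) ^ (i : ℕ) *
      ((1 / 3 : E) * ((ω ^ (r' : ℕ) * ν)⁻¹) ^ (i : ℕ)) = if r = r' then 1 else 0 := by
  have hω3 : ω ^ 3 = 1 := by linear_combination (ω - 1) * hω
  have hω0 : ω ≠ 0 := by
    rintro rfl
    simp at hω
  have hinv : ω⁻¹ = ω ^ 2 := by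
    field_simp
    linear_combination -hω3
  have key : ∀ i : Fin 3, (ω ^ (r : ℕ) * ν) ^ (i : ℕ) *
      ((1 / 3 : E) * ((ω ^ (r' : ℕ) * ν)⁻¹) ^ (i : ℕ)) =
      (1 / 3) * (ω ^ (r : ℕ) * (ω ^ 2) ^ (r' : ℕ)) ^ (i : ℕ) := by
    intro i
    rw [← hinv]
    have : ω ^ (r : ℕ) * ν = (ω ^ (r : ℕ) * ω⁻¹ ^ (r' : ℕ)) * (ω ^ (r' : ℕ) * ν) := by
      rw [inv_pow]
      field_simp
    rw [this, mul_pow _ (ω ^ (r' : ℕ) * ν), mul_assoc, mul_left_comm _ (1 / 3 : E), ← mul_pow _ _ (i : ℕ),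
      mul_inv_cancel₀ (mul_ne_zero (pow_ne_zero _ hω0) hν), one_pow]
    ring
  simp only [key]
  rw [Fin.sum_univ_three]
  have h0 : (1 / 3 : E) * 1 ^ 0 + 1 / 3 * 1 ^ 1 + 1 / 3 * 1 ^ 2 = 1 := by norm_num
  fin_cases r <;> fin_cases r' <;> simp
  · norm_num
  · linear_combination (1 / 3) * (ω ^ 2 - ω + 1) * hω
  · linear_combination (1 / 3) * (ω ^ 2 - ω + 1) * (1 - ω ^ 2 + ω ^ 4) * hω
  · linear_combination (1 / 3) * hω
  · linear_combination (1 / 3) * hω3 + (1 / 3) * (ω ^ 3 + 1) * hω3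
  · linear_combination (1 / 3) * hω + (1 / 3) * ω ^ 2 * hω3 +
      (1 / 3) * (ω ^ 7 + ω ^ 4 + ω) * hω3
  · linear_combination (1 / 3) * (ω ^ 2 - ω + 1) * hω
  · linear_combination (1 / 3) * (ω ^ 2 - ω + 1) * (1 - ω ^ 2 + ω ^ 4) * hω
  · linear_combination (1 / 3) * (ω ^ 3 + 1) * hω3 +
      (1 / 3) * (ω ^ 9 + ω ^ 6 + ω ^ 3 + 1) * hω3

theorem indep_total_aux (K Fd E κβ Ω J : Type) [Field K] [Field Fd] [Field E] [Field κβ] [Field Ω]
    [CharZero E]
    [Algebra Fd κβ] [Algebra κβ Ω] [Algebra K Ω] [Algebra Fd Ω] [Algebra Fd E]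
    [Algebra K E] [Algebra E Ω] [IsScalarTower K E Ω] [IsScalarTower Fd E Ω]
    [Algebra.IsAlgebraic Fd E]
    [IsScalarTower Fd κβ Ω] (ω t₀ : E) (hω : ω ^ 2 + ω + 1 = 0)
    (ν : E) (hν : ν ≠ 0) (u : J × Fin 3 → κβ)
    (hu : AlgebraicIndependent Fd u) (X : Ω) (hX : Transcendental κβ X) (ζ : Fin 2 → Ω)
    (hζ : AlgebraicIndependent K ζ) (hζalg : ∀ i, ζ i ∈ Set.range (algebraMap E Ω)) :
    AlgebraicIndependent K (Sum.elim (fun jr : J × Fin 3 => algebraMap E Ω t₀ +
      X * ∑ i : Fin 3, algebraMap E Ω ((ω ^ (jr.2 : ℕ) * ν) ^ (i : ℕ)) *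
        algebraMap κβ Ω (u (jr.1, i))) ζ) := by
  have h1 : AlgebraicIndependent Fd (Sum.elim (fun _ : Unit => X) (algebraMap κβ Ω ∘ u)) :=
    AlgebraicIndependent.sumElim_comp hu
      ((algebraicIndependent_unique_type_iff (ι := Unit)).mpr hX)
  have h2 := h1.extendScalars E
  have hvan := vandermonde ω ν hω hν
  have h3 := indep_affine (algebraMap κβ Ω ∘ u) X h2 _ _ hvan t₀
  refine hζ.sumElim_of_tower (S := E) ?_ h3
  rintro _ ⟨i, rfl⟩
  exact hζalg i

theorem indep_total (K Fd κβ Ω J : Type) [Field K] [Field Fd] [Field κβ] [Field Ω] [CharZero Ω]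
    [Algebra K Fd] [Algebra Fd κβ] [Algebra κβ Ω] [Algebra K Ω] [Algebra Fd Ω]
    [IsScalarTower K Fd Ω] [IsScalarTower Fd κβ Ω] (ω β t₀ : K) (hω : ω ^ 2 + ω + 1 = 0)
    (hβ : β ≠ 0) (ν : Ω) (hν : ν ^ 3 = algebraMap K Ω β) (u : J × Fin 3 → κβ)
    (hu : AlgebraicIndependent Fd u) (X : Ω) (hX : Transcendental κβ X) (ζ : Fin 2 → Ω)
    (hζ : AlgebraicIndependent K ζ) (hζalg : ∀ i, IsAlgebraic Fd (ζ i)) :
    AlgebraicIndependent K (Sum.elim (fun jr : J × Fin 3 => algebraMap K Ω t₀ +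
      X * ∑ i : Fin 3, (algebraMap K Ω ω ^ (jr.2 : ℕ) * ν) ^ (i : ℕ) *
        algebraMap κβ Ω (u (jr.1, i))) ζ) := by
  have hνalg : ν ∈ algebraicClosure Fd Ω := by
    rw [mem_algebraicClosure_iff]
    refine IsAlgebraic.of_pow (n := 3) (by norm_num) ?_
    rw [hν, IsScalarTower.algebraMap_apply K Fd Ω]
    exact isAlgebraic_algebraMap _
  have hν0 : ν ≠ 0 := by
    rintro rfl
    rw [zero_pow (by norm_num), eq_comm, map_eq_zero] at hν
    exact hβ hν
  have hE : CharZero (algebraicClosure Fd Ω) := (algebraMap (algebraicClosure Fd Ω) Ω).charZero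
  let _ : Algebra K (algebraicClosure Fd Ω) :=
    ((algebraMap Fd (algebraicClosure Fd Ω)).comp (algebraMap K Fd)).toAlgebra
  have hmapK : ∀ x : K, algebraMap (algebraicClosure Fd Ω) Ω
      (algebraMap K (algebraicClosure Fd Ω) x) = algebraMap K Ω x := by
    intro x
    rw [IsScalarTower.algebraMap_apply K Fd Ω,
      IsScalarTower.algebraMap_apply Fd (algebraicClosure Fd Ω) Ω]
    rfl
  have htower : IsScalarTower K (algebraicClosure Fd Ω) Ω :=
    IsScalarTower.of_algebraMap_eq fun x => (hmapK x).symm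
  have hωE : (algebraMap K (algebraicClosure Fd Ω) ω) ^ 2 + algebraMap K _ ω + 1 = 0 := by
    rw [← map_pow, ← map_add, ← map_one (algebraMap K (algebraicClosure Fd Ω)), ← map_add, hω,
      map_zero]
  have h4 := indep_total_aux K Fd (algebraicClosure Fd Ω) κβ Ω J (algebraMap K _ ω)
    (algebraMap K _ t₀) hωE ⟨ν, hνalg⟩ (fun h => hν0 (congrArg Subtype.val h)) u hu X hX ζ hζ
    (fun i => ⟨⟨ζ i, mem_algebraicClosure_iff.mpr (hζalg i)⟩, rfl⟩)
  simp only [map_pow, map_mul, hmapK] at h4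
  exact h4


/-- The purely transcendental extension. -/
theorem exists_kappa (Fd ι : Type) [Field Fd] [Infinite Fd] :
    ∃ (κ : Type) (_ : Field κ) (_ : Algebra Fd κ) (u : ι → κ), AlgebraicIndependent Fd u ∧
      (∀ (b : Fd) (g : κ), g ^ 3 = algebraMap Fd κ b → ∃ c : Fd, c ^ 3 = b) ∧
      (∀ α c : Fd, IsNm (algebraMap Fd κ α) (algebraMap Fd κ c) → IsNm α c) := by
  refine ⟨FractionRing (MvPolynomial ι Fd), inferInstance, inferInstance,
    fun i => algebraMap (MvPolynomial ι Fd) _ (MvPolynomial.X i), ?_,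
    exists_cube_of_fractionRing Fd ι, isNm_of_fractionRing_mvPolynomial Fd ι⟩
  have h := (MvPolynomial.algebraicIndependent_X ι Fd).map'
    (f := IsScalarTower.toAlgHom Fd (MvPolynomial ι Fd) (FractionRing (MvPolynomial ι Fd)))
    (IsFractionRing.injective _ _)
  exact h

/-- An algebraically closed field containing a given field, without further structure. -/
theorem exists_algClosed (k : Type) [Field k] :
    ∃ (Ω : Type) (_ : Field Ω) (_ : IsAlgClosed Ω) (_ : k →+* Ω), True :=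
  ⟨AlgebraicClosure k, inferInstance, inferInstance, algebraMap k _, trivial⟩

theorem cube_roots {Ω : Type} [Field Ω] (ω ν ν' : Ω) (hω : ω ^ 2 + ω + 1 = 0)
    (h : ν ^ 3 = ν' ^ 3) : ∃ s : ℕ, ν = ω ^ s * ν' := by
  have h1 : (ν - ν') * ((ν - ω * ν') * (ν - ω ^ 2 * ν')) = 0 := by
    linear_combination h + (-ν ^ 2 * ν' + ν * ν' ^ 2 * ω + ν * ν' ^ 2 - ν' ^ 3 * (ω - 1)
      - ν * ν' ^ 2) * hω
  rcases mul_eq_zero.mp h1 with h2 | h2
  · exact ⟨0, by rw [pow_zero, one_mul]; exact sub_eq_zero.mp h2⟩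
  · rcases mul_eq_zero.mp h2 with h3 | h3
    · exact ⟨1, by rw [pow_one]; exact sub_eq_zero.mp h3⟩
    · exact ⟨2, sub_eq_zero.mp h3⟩


theorem std_core (K : Type) [Field K] [CharZero K] (ω α β d a : K)
    (hω : ω ^ 2 + ω + 1 = 0) (hα : ∀ x : K, x ^ 3 ≠ α) (hβ : ∀ x : K, x ^ 3 ≠ β)
    (ha : ∀ j : ℕ, ¬ IsNm α (a * d ^ j))
    (L : Type) [Field L] [Algebra K L] (t : L)
    (Kβ : Type) [Field Kβ] [Algebra K Kβ] (ν₀ : Kβ) (hν₀ : ν₀ ^ 3 = algebraMap K Kβ β)
    (hgen : IntermediateField.adjoin K {ν₀} = ⊤)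
    (P₀ : L →ₐ[K] LaurentSeries Kβ) (t₀ : K)
    (hP₀ : P₀ t = algebraMap K (LaurentSeries Kβ) t₀ + HahnSeries.single 1 1)
    (J : Type) (Fd : Type) [Field Fd] [Algebra K Fd] (x y z : Fd)
    (hnorm : nf (algebraMap K Fd α) x y z = algebraMap K Fd d)
    (hdes : ∀ c : K, c ≠ 0 → IsNm (algebraMap K Fd α) (algebraMap K Fd c) →
      ∃ j : ℕ, IsNm α (c * d ^ j))
    (hcl : ∀ u : Fd, IsAlgebraic K u → u ∈ Set.range (algebraMap K Fd))
    (hind : ∀ (Ω : Type) [Field Ω] [Algebra K Ω] [Algebra Fd Ω] [IsScalarTower K Fd Ω] (μ : Ω),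
        μ ^ 3 = algebraMap K Ω α →
        AlgebraicIndependent K
          ![algebraMap Fd Ω x + μ * algebraMap Fd Ω y + μ ^ 2 * algebraMap Fd Ω z,
            algebraMap Fd Ω x + (algebraMap K Ω ω * μ) * algebraMap Fd Ω y
              + (algebraMap K Ω ω * μ) ^ 2 * algebraMap Fd Ω z]) :
    ∃ (Ω : Type) (_ : Field Ω) (_ : IsAlgClosed Ω) (_ : Algebra K Ω) (F : IntermediateField K Ω),
      ¬ IsNm (algebraMap K F α) (algebraMap K F a) ∧
      ∀ μ ν : Ω, μ ^ 3 = algebraMap K Ω α → ν ^ 3 = algebraMap K Ω β →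
        ∃ (p : J × Fin 3 → (L →ₐ[K] Ω)) (ξ : Fin 3 → Ω), (∀ i, ξ i ∈ F) ∧
          nf (algebraMap K Ω α) (ξ 0) (ξ 1) (ξ 2) = algebraMap K Ω d ∧
          AlgebraicIndependent K (Sum.elim (fun i => p i t)
            ![cj (algebraMap K Ω ω) μ ξ 0, cj (algebraMap K Ω ω) μ ξ 1]) ∧
          ∀ j : J, Rat3 F (algebraMap K Ω ω) ν (fun r => p (j, r)) := by
  classical
  have hβ0 : β ≠ 0 := fun h => hβ 0 (by rw [h]; ring)
  have hα0 : α ≠ 0 := fun h => hα 0 (by rw [h]; ring)
  have ha0 : a ≠ 0 := by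
    intro h
    apply ha 0
    rw [h, zero_mul]
    exact ⟨0, 0, 0, by unfold nf; ring⟩
  have hFd : CharZero Fd := charZero_of_injective_algebraMap (algebraMap K Fd).injective
  -- the field `κ`
  obtain ⟨κ, _, _, u, hu, hcube, hdes2⟩ := exists_kappa Fd (J × Fin 3)
  have hκ : CharZero κ := charZero_of_injective_algebraMap (algebraMap Fd κ).injective
  let _ : Algebra K κ := ((algebraMap Fd κ).comp (algebraMap K Fd)).toAlgebra
  have tw1 : IsScalarTower K Fd κ := IsScalarTower.of_algebraMap_eq fun _ => rfl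
  have hβκ : ∀ g : κ, g ^ 3 ≠ algebraMap K κ β := by
    intro g hg
    rw [IsScalarTower.algebraMap_apply K Fd κ] at hg
    obtain ⟨c, hc⟩ := hcube _ _ hg
    have hint : IsIntegral K c := by
      refine IsIntegral.of_pow (n := 3) (by norm_num) ?_
      rw [hc]
      exact isIntegral_algebraMap
    obtain ⟨k, hk⟩ := hcl c hint.isAlgebraic
    apply hβ k
    apply (algebraMap K Fd).injective
    rw [map_pow, hk, hc]
  have hωκ : (algebraMap K κ ω) ^ 2 + algebraMap K κ ω + 1 = 0 := by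
    rw [← map_pow, ← map_add, ← map_one (algebraMap K κ), ← map_add, hω, map_zero]
  -- the field `κβ`
  obtain ⟨κβ, _, _, ν₁, φ, hν₁, hφ, htr⟩ := exists_kummer κ (algebraMap K κ ω) (algebraMap K κ β)
    hωκ hβκ
  have hκβ : CharZero κβ := charZero_of_injective_algebraMap (algebraMap κ κβ).injective
  let _ : Algebra K κβ := ((algebraMap κ κβ).comp (algebraMap K κ)).toAlgebra
  let _ : Algebra Fd κβ := ((algebraMap κ κβ).comp (algebraMap Fd κ)).toAlgebra
  have tw2 : IsScalarTower K κ κβ := IsScalarTower.of_algebraMap_eq fun _ => rfl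
  have tw3 : IsScalarTower Fd κ κβ := IsScalarTower.of_algebraMap_eq fun _ => rfl
  have tw4 : IsScalarTower K Fd κβ := IsScalarTower.of_algebraMap_eq fun _ => rfl
  rw [← IsScalarTower.algebraMap_apply K κ κβ] at hν₁
  obtain ⟨ι⟩ := exists_hom K Kβ κβ β hβ ν₀ hν₀ hgen ν₁ hν₁
  have hφK : ∀ (k : ℕ) (e : K), φ k (algebraMap K κβ e) = algebraMap K κβ e := by
    intro k e
    rw [IsScalarTower.algebraMap_apply K κ κβ, (φ k).commutes]
  rw [← IsScalarTower.algebraMap_apply K κ κβ] at hφ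
  -- the elements `c j`
  let c : J → κβ := fun j => ∑ i : Fin 3, ν₁ ^ (i : ℕ) * algebraMap κ κβ (u (j, i))
  have hφc : ∀ (k : ℕ) (j : J), φ k (c j) =
      ∑ i : Fin 3, ((algebraMap K κβ ω) ^ k * ν₁) ^ (i : ℕ) * algebraMap κ κβ (u (j, i)) := by
    intro k j
    simp only [c, map_sum, map_mul, map_pow, hφ, (φ k).commutes]
  have hωβ : (algebraMap K κβ ω) ^ 2 + algebraMap K κβ ω + 1 = 0 := by
    rw [← map_pow, ← map_add, ← map_one (algebraMap K κβ), ← map_add, hω, map_zero]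
  have hφc0 : ∀ (k : ℕ) (j : J), φ k (c j) ≠ 0 := by
    intro k j hk
    rw [map_eq_zero] at hk
    have e0 := hφc 0 j
    have e1 := hφc 1 j
    have e2 := hφc 2 j
    rw [hk, map_zero, Fin.sum_univ_three] at e0 e1 e2
    simp only [Fin.val_zero, Fin.val_one, Fin.val_two, pow_zero, pow_one, one_mul] at e0 e1 e2
    have e3 : (3 : κβ) * algebraMap κ κβ (u (j, 0)) = 0 := by
      linear_combination -e0 - e1 - e2 - ν₁ * algebraMap κ κβ (u (j, 1)) * hωβ
        - ν₁ ^ 2 * algebraMap κ κβ (u (j, 2)) *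
          ((algebraMap K κβ ω) ^ 2 - algebraMap K κβ ω + 1) * hωβ
    rcases mul_eq_zero.mp e3 with h | h
    · norm_num at h
    · rw [map_eq_zero] at h
      exact hu.ne_zero (j, 0) h
  -- the twisted points
  have hΩ := exists_algClosed (LaurentSeries κβ)
  obtain ⟨Ω, _, _, jΩ, -⟩ := hΩ
  let _ : Algebra κβ Ω := (jΩ.comp HahnSeries.C).toAlgebra
  let _ : Algebra K Ω := ((algebraMap κβ Ω).comp (algebraMap K κβ)).toAlgebra
  let _ : Algebra Fd Ω := ((algebraMap κβ Ω).comp (algebraMap Fd κβ)).toAlgebra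
  have tw5 : IsScalarTower K κβ Ω := IsScalarTower.of_algebraMap_eq fun _ => rfl
  have tw6 : IsScalarTower Fd κβ Ω := IsScalarTower.of_algebraMap_eq fun _ => rfl
  have tw7 : IsScalarTower K Fd Ω := IsScalarTower.of_algebraMap_eq fun _ => rfl
  have hΩ0 : CharZero Ω := charZero_of_injective_algebraMap (algebraMap κβ Ω).injective
  have hjC : ∀ e : κβ, jΩ (HahnSeries.C e) = algebraMap κβ Ω e := fun _ => rfl
  let Q : J → ℕ → (LaurentSeries Kβ →+* LaurentSeries κβ) := fun j k =>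
    tw ((φ k : κβ →+* κβ).comp (ι : Kβ →+* κβ)) (φ k (c j)) (hφc0 k j)
  have hQ : ∀ (j : J) (k : ℕ) (f : LaurentSeries Kβ) (n : ℤ),
      (Q j k f).coeff n = φ k (ι (f.coeff n) * c j ^ n) := by
    intro j k f n
    simp only [Q, tw_coeff]
    rw [map_mul, map_zpow₀]
    rfl
  let pp : J → ℕ → (L →ₐ[K] Ω) := fun j k =>
    { toRingHom := jΩ.comp ((Q j k).comp (P₀ : L →+* LaurentSeries Kβ))
      commutes' := by
        intro e
        change jΩ (Q j k (P₀ (algebraMap K L e))) = algebraMap K Ω e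
        rw [P₀.commutes, algebraMap_laurent]
        simp only [Q]
        rw [tw_C, hjC, IsScalarTower.algebraMap_apply K κβ Ω]
        congr 1
        change φ k (ι (algebraMap K Kβ e)) = algebraMap K κβ e
        rw [ι.commutes, hφK] }
  have hpp : ∀ (j : J) (k : ℕ) (l : L), pp j k l = jΩ (Q j k (P₀ l)) := fun _ _ _ => rfl
  have hppt : ∀ (j : J) (k : ℕ), pp j k t = algebraMap K Ω t₀ +
      jΩ (HahnSeries.single 1 1) * algebraMap κβ Ω (φ k (c j)) := by
    intro j k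
    rw [hpp, hP₀, algebraMap_laurent]
    simp only [Q]
    rw [map_add, tw_C, tw_X, map_add, map_mul, hjC, hjC, IsScalarTower.algebraMap_apply K κβ Ω]
    have : ((φ k : κβ →+* κβ).comp (ι : Kβ →+* κβ)) (algebraMap K Kβ t₀) = algebraMap K κβ t₀ := by
      change φ k (ι (algebraMap K Kβ t₀)) = algebraMap K κβ t₀
      rw [ι.commutes, hφK]
    rw [this]
    ring
  -- the field `F`
  let Φ : LaurentSeries κ →ₐ[K] Ω :=
    { toRingHom := jΩ.comp (tw (algebraMap κ κβ) 1 one_ne_zero)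
      commutes' := by
        intro e
        change jΩ (tw (algebraMap κ κβ) 1 one_ne_zero (algebraMap K (LaurentSeries κ) e)) =
          algebraMap K Ω e
        rw [algebraMap_laurent, tw_C, hjC, ← IsScalarTower.algebraMap_apply K κ κβ,
          ← IsScalarTower.algebraMap_apply K κβ Ω] }
  have hΦ : ∀ f, Φ f = jΩ (tw (algebraMap κ κβ) 1 one_ne_zero f) := fun _ => rfl
  refine ⟨Ω, inferInstance, inferInstance, inferInstance, Φ.fieldRange, ?_, ?_⟩
  · intro h
    have h1 : IsNm (algebraMap κ (LaurentSeries κ) (algebraMap K κ α))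
        (algebraMap κ (LaurentSeries κ) (algebraMap K κ a)) := by
      have e1 : ∀ e : K, algebraMap κ (LaurentSeries κ) (algebraMap K κ e) =
          algebraMap K (LaurentSeries κ) e := by
        intro e
        rw [algebraMap_laurent, algebraMap_laurent]
        rfl
      rw [e1, e1]
      obtain ⟨⟨_, f1, rfl⟩, ⟨_, f2, rfl⟩, ⟨_, f3, rfl⟩, h⟩ := h
      refine ⟨f1, f2, f3, ?_⟩
      apply Φ.toRingHom.injective
      rw [map_nf]
      have h2 := congrArg (algebraMap Φ.fieldRange Ω) h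
      rw [map_nf, ← IsScalarTower.algebraMap_apply K Φ.fieldRange Ω,
        ← IsScalarTower.algebraMap_apply K Φ.fieldRange Ω, ← Φ.commutes, ← Φ.commutes] at h2
      exact h2
    have h3 := isNm_of_laurentSeries κ (algebraMap K κ ω) _ _ hωκ (by rwa [Ne, map_eq_zero]) h1
    have h4 := hdes2 _ _ h3
    obtain ⟨j, hj⟩ := hdes a ha0 h4
    exact ha j hj
  · intro μ ν hμ hν
    have hωΩ : (algebraMap K Ω ω) ^ 2 + algebraMap K Ω ω + 1 = 0 := by
      rw [← map_pow, ← map_add, ← map_one (algebraMap K Ω), ← map_add, hω, map_zero]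
    have hν₁Ω : (algebraMap κβ Ω ν₁) ^ 3 = algebraMap K Ω β := by
      rw [← map_pow, hν₁, ← IsScalarTower.algebraMap_apply K κβ Ω]
    obtain ⟨s, hs⟩ := cube_roots (algebraMap K Ω ω) ν (algebraMap κβ Ω ν₁) hωΩ
      (by rw [hν, hν₁Ω])
    have hFdmem : ∀ e : Fd, algebraMap Fd Ω e ∈ Φ.fieldRange := by
      intro e
      refine ⟨HahnSeries.C (algebraMap Fd κ e), ?_⟩
      change jΩ (tw (algebraMap κ κβ) 1 one_ne_zero _) = _
      rw [tw_C, hjC]
      rfl
    have hind' := hind Ω μ hμ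
    have hXtr : Transcendental κβ (jΩ (HahnSeries.single 1 1)) := by
      let jA : LaurentSeries κβ →ₐ[κβ] Ω :=
        { toRingHom := jΩ
          commutes' := by
            intro e
            change jΩ (algebraMap κβ (LaurentSeries κβ) e) = _
            rw [algebraMap_laurent]
            rfl }
      have h1 := transcendental_X κβ
      intro h2
      apply h1
      exact (isAlgebraic_algHom_iff jA jΩ.injective).mp h2
    have hu' : AlgebraicIndependent Fd (fun ji => algebraMap κ κβ (u ji)) :=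
      hu.map' (f := IsScalarTower.toAlgHom Fd κ κβ) (algebraMap κ κβ).injective
    have hμalg : IsAlgebraic Fd μ := by
      refine IsAlgebraic.of_pow (n := 3) (by norm_num) ?_
      rw [hμ, IsScalarTower.algebraMap_apply K Fd Ω]
      exact isAlgebraic_algebraMap _
    refine ⟨fun jr => pp jr.1 (jr.2 + s), fun i => algebraMap Fd Ω (![x, y, z] i),
      fun i => hFdmem _, ?_, ?_, ?_⟩
    · change nf (algebraMap K Ω α) (algebraMap Fd Ω x) (algebraMap Fd Ω y) (algebraMap Fd Ω z) = _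
      rw [IsScalarTower.algebraMap_apply K Fd Ω α, ← map_nf, hnorm,
        ← IsScalarTower.algebraMap_apply K Fd Ω]
    · have hfun : (fun jr : J × Fin 3 => (fun jr : J × Fin 3 => pp jr.1 ((jr.2 : ℕ) + s)) jr t) =
          (fun jr : J × Fin 3 => algebraMap K Ω t₀ + jΩ (HahnSeries.single 1 1) *
            ∑ i : Fin 3, (algebraMap K Ω ω ^ (jr.2 : ℕ) * ν) ^ (i : ℕ) *
              algebraMap κβ Ω (algebraMap κ κβ (u (jr.1, i)))) := by
        funext jr
        change pp jr.1 ((jr.2 : ℕ) + s) t = _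
        rw [hppt, hφc, map_sum]
        congr 2
        refine Finset.sum_congr rfl fun i _ => ?_
        rw [map_mul, map_pow, map_mul, map_pow, ← IsScalarTower.algebraMap_apply K κβ Ω, hs,
          pow_add, mul_assoc]
      have hζeq : ![cj (algebraMap K Ω ω) μ (fun i => algebraMap Fd Ω (![x, y, z] i)) 0,
          cj (algebraMap K Ω ω) μ (fun i => algebraMap Fd Ω (![x, y, z] i)) 1] =
          ![algebraMap Fd Ω x + μ * algebraMap Fd Ω y + μ ^ 2 * algebraMap Fd Ω z,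
            algebraMap Fd Ω x + (algebraMap K Ω ω * μ) * algebraMap Fd Ω y
              + (algebraMap K Ω ω * μ) ^ 2 * algebraMap Fd Ω z] := by
        unfold cj
        simp
      rw [hζeq, hfun]
      refine indep_total K Fd κβ Ω J ω β t₀ hω hβ0 ν hν _ hu' _ hXtr _ hind' ?_
      have hω2 : IsAlgebraic Fd (algebraMap K Ω ω) := by
        rw [IsScalarTower.algebraMap_apply K Fd Ω]
        exact isAlgebraic_algebraMap _
      intro i
      fin_cases i
      · exact ((isAlgebraic_algebraMap x).add (hμalg.mul (isAlgebraic_algebraMap y))).add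
          ((hμalg.pow 2).mul (isAlgebraic_algebraMap z))
      · exact ((isAlgebraic_algebraMap x).add ((hω2.mul hμalg).mul (isAlgebraic_algebraMap y))).add
          (((hω2.mul hμalg).pow 2).mul (isAlgebraic_algebraMap z))
    · intro j l m
      have hg : ∀ n : ℤ, (∑ r : Fin 3, HahnSeries.C (φ ((r : ℕ) + s) ((ν₁⁻¹) ^ m)) *
          Q j ((r : ℕ) + s) (P₀ l)).coeff n ∈ Set.range (algebraMap κ κβ) := by
        intro n
        have e1 : (∑ r : Fin 3, HahnSeries.C (φ ((r : ℕ) + s) ((ν₁⁻¹) ^ m)) *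
            Q j ((r : ℕ) + s) (P₀ l)).coeff n =
            ∑ r : Fin 3, φ ((r : ℕ) + s) ((ν₁⁻¹) ^ m * (ι ((P₀ l).coeff n) * c j ^ n)) := by
          rw [HahnSeries.coeff_sum]
          refine Finset.sum_congr rfl fun r _ => ?_
          rw [HahnSeries.C_mul_eq_smul, HahnSeries.coeff_smul, hQ, smul_eq_mul, ← map_mul]
        rw [e1]
        exact htr s _
      obtain ⟨f, hf⟩ := tw_one_range _ _ hg
      refine ⟨f, ?_⟩
      change jΩ (tw (algebraMap κ κβ) 1 one_ne_zero f) = _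
      rw [hf, map_sum]
      refine Finset.sum_congr rfl fun r _ => ?_
      rw [map_mul, hjC, ← hpp]
      congr 1
      rw [map_pow, map_inv₀, hφ, map_pow, map_inv₀, map_mul, map_pow,
        ← IsScalarTower.algebraMap_apply K κβ Ω, hs, pow_add, mul_assoc]

end Pool.Agent.D5741.Std

namespace Pool.Agent.D5741

/-- The standard model, given a field over which the norm form represents `d` generically. -/
theorem exists_std_model_of (K : Type) [Field K] [CharZero K] (ω α β d a : K)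
    (hω : ω ^ 2 + ω + 1 = 0) (hα : ∀ x : K, x ^ 3 ≠ α) (hβ : ∀ x : K, x ^ 3 ≠ β)
    (hKL : ∃ (F : Type) (_ : Field F) (_ : Algebra K F) (x y z : F),
      nf (algebraMap K F α) x y z = algebraMap K F d ∧
      (∀ c : K, c ≠ 0 → IsNm (algebraMap K F α) (algebraMap K F c) →
        ∃ j : ℕ, IsNm α (c * d ^ j)) ∧
      (∀ u : F, IsAlgebraic K u → u ∈ Set.range (algebraMap K F)) ∧
      (∀ (Ω : Type) [Field Ω] [Algebra K Ω] [Algebra F Ω] [IsScalarTower K F Ω] (μ : Ω),
        μ ^ 3 = algebraMap K Ω α →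
        AlgebraicIndependent K
          ![algebraMap F Ω x + μ * algebraMap F Ω y + μ ^ 2 * algebraMap F Ω z,
            algebraMap F Ω x + (algebraMap K Ω ω * μ) * algebraMap F Ω y
              + (algebraMap K Ω ω * μ) ^ 2 * algebraMap F Ω z]))
    (ha : ∀ j : ℕ, ¬ IsNm α (a * d ^ j))
    (L : Type) [Field L] [Algebra K L] (t : L)
    (Kβ : Type) [Field Kβ] [Algebra K Kβ] (ν₀ : Kβ) (hν₀ : ν₀ ^ 3 = algebraMap K Kβ β)
    (hgen : IntermediateField.adjoin K {ν₀} = ⊤)
    (P₀ : L →ₐ[K] LaurentSeries Kβ) (t₀ : K)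
    (hP₀ : P₀ t = algebraMap K (LaurentSeries Kβ) t₀ + HahnSeries.single 1 1)
    (J : Type) :
    ∃ (Ω : Type) (_ : Field Ω) (_ : IsAlgClosed Ω) (_ : Algebra K Ω) (F : IntermediateField K Ω),
      ¬ IsNm (algebraMap K F α) (algebraMap K F a) ∧
      ∀ μ ν : Ω, μ ^ 3 = algebraMap K Ω α → ν ^ 3 = algebraMap K Ω β →
        ∃ (p : J × Fin 3 → (L →ₐ[K] Ω)) (ξ : Fin 3 → Ω), (∀ i, ξ i ∈ F) ∧
          nf (algebraMap K Ω α) (ξ 0) (ξ 1) (ξ 2) = algebraMap K Ω d ∧
          AlgebraicIndependent K (Sum.elim (fun i => p i t)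
            ![cj (algebraMap K Ω ω) μ ξ 0, cj (algebraMap K Ω ω) μ ξ 1]) ∧
          ∀ j : J, Rat3 F (algebraMap K Ω ω) ν (fun r => p (j, r)) := by
  obtain ⟨Fd, _, _, x, y, z, hnorm, hdes, hcl, hind⟩ := hKL
  exact Std.std_core K ω α β d a hω hα hβ ha L t Kβ ν₀ hν₀ hgen P₀ t₀ hP₀ J Fd x y z hnorm hdes
    hcl hind

end Pool.Agent.D5741
end

section

/-!
# The standard model
-/

set_option autoImplicit false

namespace Pool.Agent.D5741

open scoped TensorProduct nonZeroDivisors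

theorem exists_std_model_fin (K : Type) [Field K] [CharZero K] (ω α β d a : K)
    (hω : ω ^ 2 + ω + 1 = 0) (hα : ∀ x : K, x ^ 3 ≠ α) (hβ : ∀ x : K, x ^ 3 ≠ β) (hd : d ≠ 0)
    (ha : ∀ j : ℕ, ¬ IsNm α (a * d ^ j))
    (L : Type) [Field L] [Algebra K L] (t : L)
    (_hfin : FiniteDimensional (IntermediateField.adjoin K {t}) L)
    (Kβ : Type) [Field Kβ] [Algebra K Kβ] (ν₀ : Kβ) (hν₀ : ν₀ ^ 3 = algebraMap K Kβ β)
    (hgen : IntermediateField.adjoin K {ν₀} = ⊤)
    (P₀ : L →ₐ[K] LaurentSeries Kβ) (t₀ : K)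
    (hP₀ : P₀ t = algebraMap K (LaurentSeries Kβ) t₀ + HahnSeries.single 1 1)
    (J : Type) [Finite J] :
    ∃ (Ω : Type) (_ : Field Ω) (_ : IsAlgClosed Ω) (_ : Algebra K Ω) (F : IntermediateField K Ω),
      ¬ IsNm (algebraMap K F α) (algebraMap K F a) ∧
      ∀ μ ν : Ω, μ ^ 3 = algebraMap K Ω α → ν ^ 3 = algebraMap K Ω β →
        ∃ (p : J × Fin 3 → (L →ₐ[K] Ω)) (ξ : Fin 3 → Ω), (∀ i, ξ i ∈ F) ∧
          nf (algebraMap K Ω α) (ξ 0) (ξ 1) (ξ 2) = algebraMap K Ω d ∧
          AlgebraicIndependent K (Sum.elim (fun i => p i t)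
            ![cj (algebraMap K Ω ω) μ ξ 0, cj (algebraMap K Ω ω) μ ξ 1]) ∧
          ∀ j : J, Rat3 F (algebraMap K Ω ω) ν (fun r => p (j, r)) :=
  exists_std_model_of K ω α β d a hω hα hβ (exists_generic_norm K ω α d hω hα hd) ha L t Kβ ν₀
    hν₀ hgen P₀ t₀ hP₀ J

end Pool.Agent.D5741
end
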