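import Mathlib
import Pool.Agent.Lib.MP_d5741c_al.Basic
import Pool.Agent.Lib.MP_d5741c_al.Mg.G001

section

/-!
# Laurent points of Kummer covers of function fields
-/

set_option autoImplicit false

namespace Pool.Agent.D5741

namespace Pt

open Polynomial

section PS

variable {K M : Type} [Field K] [Field M] [Algebra K M]

/-- The inclusion of power series into Laurent series. -/
noncomputable abbrev io (M : Type) [Field M] : PowerSeries M →+* LaurentSeries M :=
  HahnSeries.ofPowerSeries ℤ M

theorem io_injective : Function.Injective (io M) := HahnSeries.ofPowerSeries_injective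

theorem io_algebraMap (r : K) :
    io M (algebraMap K (PowerSeries M) r) = algebraMap K (LaurentSeries M) r :=
  (HahnSeries.algebraMap_apply' ℤ r).symm

theorem const_algebraMap (r : K) :
    PowerSeries.constantCoeff (algebraMap K (PowerSeries M) r) = algebraMap K M r := by
  rw [PowerSeries.algebraMap_apply, PowerSeries.constantCoeff_C]

/-- The shifted variable. -/
noncomputable def sh (M : Type) [Field M] [Algebra K M] (t₀ : K) : PowerSeries M :=
  algebraMap K (PowerSeries M) t₀ + PowerSeries.X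

theorem io_sh (t₀ : K) :
    io M (sh M t₀) = algebraMap K (LaurentSeries M) t₀ + HahnSeries.single 1 1 := by
  rw [sh, map_add, io_algebraMap]
  congr 1
  exact HahnSeries.ofPowerSeries_X

theorem const_sh (t₀ : K) : PowerSeries.constantCoeff (sh M t₀) = algebraMap K M t₀ := by
  rw [sh, map_add, const_algebraMap, PowerSeries.constantCoeff_X, add_zero]

theorem const_aeval (s : PowerSeries M) (p : K[X]) :
    PowerSeries.constantCoeff (aeval s p) = aeval (PowerSeries.constantCoeff s) p := by
  rw [aeval_def, aeval_def, hom_eval₂]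
  congr 1

theorem aeval_sh_ne_zero (t₀ : K) {p : K[X]} (hp : p ≠ 0) : aeval (sh M t₀) p ≠ 0 := by
  have h1 : aeval (sh M t₀) p =
      (((p.map (algebraMap K M)).comp (X + C (algebraMap K M t₀)) : M[X]) : PowerSeries M) := by
    have h2 : ∀ q : M[X], (q : PowerSeries M) = Polynomial.coeToPowerSeries.ringHom q := by
      intro q; rfl
    rw [h2, comp, hom_eval₂, eval₂_map, aeval_def]
    congr 1
    · ext r
      simp [PowerSeries.algebraMap_apply]
    · rw [sh, PowerSeries.algebraMap_apply]
      simp [add_comm]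
  rw [h1]
  intro h3
  have h4 : (p.map (algebraMap K M)).comp (X + C (algebraMap K M t₀)) = 0 := by
    exact_mod_cast h3
  have h5 : p.map (algebraMap K M) ≠ 0 := (Polynomial.map_ne_zero_iff (algebraMap K M).injective).mpr hp
  apply h5
  have h6 : Polynomial.taylor (algebraMap K M t₀) (p.map (algebraMap K M)) = 0 := h4
  exact (Polynomial.taylor_injective _) (by rw [h6, map_zero])

end PS

section Good

variable {K E M : Type} [Field K] [Field E] [Field M] [Algebra K E] [Algebra K M]

/-- The elements of `S` which `φ` maps to power series with constant term given by `ε`. -/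
def goodAlg (S : Subalgebra K E) (ε : S →ₐ[K] K) (φ : E →ₐ[K] LaurentSeries M) :
    Subalgebra K E where
  carrier := {x | ∃ (hx : x ∈ S) (p : PowerSeries M), φ x = io M p ∧
    PowerSeries.constantCoeff p = algebraMap K M (ε ⟨x, hx⟩)}
  mul_mem' := by
    rintro x y ⟨hx, p, hp, hp'⟩ ⟨hy, q, hq, hq'⟩
    refine ⟨S.mul_mem hx hy, p * q, by rw [map_mul, map_mul, hp, hq], ?_⟩
    rw [map_mul, hp', hq', ← map_mul, ← map_mul]
    rfl
  add_mem' := by
    rintro x y ⟨hx, p, hp, hp'⟩ ⟨hy, q, hq, hq'⟩
    refine ⟨S.add_mem hx hy, p + q, by rw [map_add, map_add, hp, hq], ?_⟩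
    rw [map_add, hp', hq', ← map_add, ← map_add]
    rfl
  algebraMap_mem' := by
    intro r
    refine ⟨S.algebraMap_mem r, algebraMap K _ r, ?_, ?_⟩
    · rw [AlgHom.commutes, io_algebraMap]
    · rw [const_algebraMap]
      congr 1
      exact (ε.commutes r).symm

theorem mem_goodAlg {S : Subalgebra K E} {ε : S →ₐ[K] K} {φ : E →ₐ[K] LaurentSeries M} {x : E} :
    x ∈ goodAlg S ε φ ↔ ∃ (hx : x ∈ S) (p : PowerSeries M), φ x = io M p ∧
      PowerSeries.constantCoeff p = algebraMap K M (ε ⟨x, hx⟩) := Iff.rfl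

theorem eps_mul_inv {S : Subalgebra K E} (ε : S →ₐ[K] K) {x : E} (hx0 : x ≠ 0) (hx : x ∈ S)
    (hxi : x⁻¹ ∈ S) : ε ⟨x, hx⟩ * ε ⟨x⁻¹, hxi⟩ = 1 := by
  rw [← map_mul, ← map_one ε]
  congr 1
  ext
  exact mul_inv_cancel₀ hx0

theorem io_inv {p : PowerSeries M} (h3 : PowerSeries.constantCoeff p ≠ 0) :
    io M p⁻¹ = (io M p)⁻¹ := by
  apply eq_inv_of_mul_eq_one_right
  rw [← map_mul, PowerSeries.mul_inv_cancel p h3, map_one]

theorem inv_mem_goodAlg {S : Subalgebra K E} {ε : S →ₐ[K] K} {φ : E →ₐ[K] LaurentSeries M}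
    {x : E} (hx : x ∈ goodAlg S ε φ) (hx0 : x ≠ 0) (hxi : x⁻¹ ∈ S) :
    x⁻¹ ∈ goodAlg S ε φ := by
  obtain ⟨hxS, p, hp, hp'⟩ := hx
  have h1 := eps_mul_inv ε hx0 hxS hxi
  have h2 : ε ⟨x, hxS⟩ ≠ 0 := left_ne_zero_of_mul_eq_one h1
  have h3 : PowerSeries.constantCoeff p ≠ 0 := by
    rw [hp']
    exact (_root_.map_ne_zero _).mpr h2
  refine ⟨hxi, p⁻¹, ?_, ?_⟩
  · rw [map_inv₀, hp, io_inv h3]
  · rw [PowerSeries.constantCoeff_inv, hp', ← map_inv₀]
    congr 1
    exact (eq_inv_of_mul_eq_one_right h1).symm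

theorem eps_aeval {S : Subalgebra K E} (ε : S →ₐ[K] K) {t : E} (ht : t ∈ S) (p : K[X]) :
    ∃ h : aeval t p ∈ S, ε ⟨aeval t p, h⟩ = aeval (ε ⟨t, ht⟩) p := by
  have h1 : ((aeval (⟨t, ht⟩ : S) p : S) : E) = aeval t p :=
    (Polynomial.aeval_algHom_apply S.val (⟨t, ht⟩ : S) p).symm
  refine ⟨h1 ▸ (aeval (⟨t, ht⟩ : S) p).2, ?_⟩
  rw [Polynomial.aeval_algHom_apply]
  congr 1
  ext
  exact h1.symm

theorem aeval_io (s : PowerSeries M) (p : K[X]) : aeval (io M s) p = io M (aeval s p) := by
  rw [aeval_def, aeval_def, hom_eval₂]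
  congr 1

end Good

section Base

variable {K E : Type} [Field K] [Field E] [Algebra K E] (t : E) (ht : Transcendental K t)
  (M : Type) [Field M] [Algebra K M] (t₀ : K)

theorem aeval_io_sh_ne_zero {p : K[X]} (hp : p ≠ 0) : aeval (io M (sh M t₀)) p ≠ 0 := by
  rw [aeval_io]
  intro h
  exact aeval_sh_ne_zero (M := M) t₀ hp (io_injective (by rw [h, map_zero]))

/-- The embedding of the rational functions. -/
noncomputable def lift0 : RatFunc K →ₐ[K] LaurentSeries M :=
  RatFunc.liftAlgHom (aeval (io M (sh M t₀))) (fun p hp => by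
    rw [Submonoid.mem_comap, mem_nonZeroDivisors_iff_ne_zero]
    exact aeval_io_sh_ne_zero M t₀ (mem_nonZeroDivisors_iff_ne_zero.mp hp))

theorem lift0_apply (f : RatFunc K) : lift0 M t₀ f =
    io M (aeval (sh M t₀) f.num) / io M (aeval (sh M t₀) f.denom) := by
  rw [lift0, RatFunc.liftAlgHom_apply, aeval_io, aeval_io]

open IntermediateField in
/-- The embedding of `K(t)`. -/
noncomputable def phi0 : K⟮t⟯ →ₐ[K] LaurentSeries M :=
  (lift0 M t₀).comp (RatFunc.algEquivOfTranscendental t ht).symm.toAlgHom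

open IntermediateField in
theorem phi0_eq' (c : K⟮t⟯) : phi0 t ht M t₀ c =
    lift0 M t₀ ((RatFunc.algEquivOfTranscendental t ht).symm c) := rfl

open IntermediateField in
theorem phi0_eq (c : K⟮t⟯) : phi0 t ht M t₀ c =
    io M (aeval (sh M t₀) ((RatFunc.algEquivOfTranscendental t ht).symm c).num) /
      io M (aeval (sh M t₀) ((RatFunc.algEquivOfTranscendental t ht).symm c).denom) := by
  rw [phi0_eq', lift0_apply]

open IntermediateField in
theorem coe_eq (c : K⟮t⟯) : (c : E) =
    aeval t ((RatFunc.algEquivOfTranscendental t ht).symm c).num /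
      aeval t ((RatFunc.algEquivOfTranscendental t ht).symm c).denom := by
  have h := RatFunc.algEquivOfTranscendental_apply t ht
    ((RatFunc.algEquivOfTranscendental t ht).symm c)
  rw [AlgEquiv.apply_symm_apply] at h
  exact h

open IntermediateField in
theorem phi0_gen : phi0 t ht M t₀ (AdjoinSimple.gen K t) = io M (sh M t₀) := by
  have h1 : (RatFunc.algEquivOfTranscendental t ht).symm (AdjoinSimple.gen K t) =
      algebraMap K[X] (RatFunc K) X := by
    rw [← RatFunc.algEquivOfTranscendental_symm_aeval t ht X, aeval_X]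
  rw [phi0_eq', h1, lift0_apply]
  simp

open IntermediateField in
theorem phi0_good {S : Subalgebra K E} (ε : S →ₐ[K] K) (htS : t ∈ S) (c : K⟮t⟯)
    (hc : (aeval t ((RatFunc.algEquivOfTranscendental t ht).symm c).denom)⁻¹ ∈ S) :
    ∃ (h : (c : E) ∈ S) (p : PowerSeries M), phi0 t ht M (ε ⟨t, htS⟩) c = io M p ∧
      PowerSeries.constantCoeff p = algebraMap K M (ε ⟨c, h⟩) := by
  rw [phi0_eq, coe_eq t ht c] at *
  set n := ((RatFunc.algEquivOfTranscendental t ht).symm c).num with hn
  set d := ((RatFunc.algEquivOfTranscendental t ht).symm c).denom with hd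
  have hd0 : d ≠ 0 := RatFunc.denom_ne_zero _
  have hdt : aeval t d ≠ 0 := fun h => hd0 ((transcendental_iff.mp ht) d h)
  obtain ⟨hnS, hn1⟩ := eps_aeval ε htS n
  obtain ⟨hdS, hd1⟩ := eps_aeval ε htS d
  have h1 := eps_mul_inv ε hdt hdS hc
  rw [hd1] at h1
  have h2 : aeval (ε ⟨t, htS⟩) d ≠ 0 := left_ne_zero_of_mul_eq_one h1
  have h3 : PowerSeries.constantCoeff (aeval (sh M (ε ⟨t, htS⟩)) d) ≠ 0 := by
    rw [const_aeval, const_sh, aeval_algebraMap_apply]
    exact (_root_.map_ne_zero _).mpr h2
  refine ⟨by rw [div_eq_mul_inv]; exact S.mul_mem hnS hc,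
    aeval (sh M (ε ⟨t, htS⟩)) n * (aeval (sh M (ε ⟨t, htS⟩)) d)⁻¹, ?_, ?_⟩
  · rw [map_mul, io_inv h3, div_eq_mul_inv]
  · rw [map_mul, PowerSeries.constantCoeff_inv, const_aeval, const_aeval, const_sh,
      aeval_algebraMap_apply, aeval_algebraMap_apply, ← map_inv₀, ← map_mul]
    congr 1
    rw [← eq_inv_of_mul_eq_one_right h1, ← hn1, ← map_mul]
    congr 1
    ext
    exact (div_eq_mul_inv _ _).symm

end Base

section Ext

open IntermediateField

theorem aeval_mem_of_coeff {K E : Type} [Field K] [Field E] [Algebra K E]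
    (L : IntermediateField K E) (U : Subalgebra K E) {θ : E} (hθ : θ ∈ U) (p : L[X])
    (hp : ∀ n, (p.coeff n : E) ∈ U) : aeval θ p ∈ U := by
  rw [aeval_eq_sum_range]
  refine U.sum_mem fun i _ => ?_
  rw [Algebra.smul_def]
  exact U.mul_mem (hp i) (U.pow_mem hθ i)

theorem map_eval_hom {R S : Type} [CommRing R] [CommRing S] (g : R →+* S) (p : R[X]) (x : R) :
    (p.map g).eval (g x) = g (p.eval x) := by
  rw [eval_map, eval₂_hom]

theorem exists_ext (K E : Type) [Field K] [CharZero K] [Field E] [Algebra K E] (t : E)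
    (ht : Transcendental K t) (hfin : FiniteDimensional K⟮t⟯ E) (T : Finset E) :
    ∃ (S : Subalgebra K E) (htS : t ∈ S), S.FG ∧ (∀ x ∈ T, x ∈ S) ∧
      ∀ (ε : S →ₐ[K] K) (M : Type) [Field M] [Algebra K M],
        ∃ φ : E →ₐ[K] LaurentSeries M, φ t = io M (sh M (ε ⟨t, htS⟩)) ∧ S ≤ goodAlg S ε φ := by
  classical
  have : CharZero K⟮t⟯ := charZero_of_injective_algebraMap (algebraMap K K⟮t⟯).injective
  obtain ⟨θ, hθ⟩ := Field.exists_primitive_element K⟮t⟯ E
  have hint : IsIntegral K⟮t⟯ θ := Algebra.IsIntegral.isIntegral θ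
  have htop : Algebra.adjoin K⟮t⟯ {θ} = ⊤ := by
    rw [← adjoin_simple_toSubalgebra_of_isAlgebraic hint.isAlgebraic, hθ]
    rfl
  set f := minpoly K⟮t⟯ θ with hf
  have hf0 : aeval θ f = 0 := minpoly.aeval _ _
  have hsep : aeval θ (derivative f) ≠ 0 :=
    (Algebra.IsSeparable.isSeparable K⟮t⟯ θ).aeval_derivative_ne_zero hf0
  have hq : ∀ x : E, ∃ q : K⟮t⟯[X], aeval θ q = x := by
    intro x
    have h1 : x ∈ Algebra.adjoin K⟮t⟯ {θ} := by rw [htop]; trivial
    rw [Algebra.adjoin_singleton_eq_range_aeval] at h1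
    exact h1
  choose q hq using hq
  let Cf : Finset K⟮t⟯ := insert 0 (f.coeffs ∪ T.biUnion fun x => (q x).coeffs)
  let dn : K⟮t⟯ → E := fun c =>
    (aeval t ((RatFunc.algEquivOfTranscendental t ht).symm c).denom)⁻¹
  let G : Finset E := {t, θ, (aeval θ (derivative f))⁻¹} ∪ Cf.image dn
  let S : Subalgebra K E := Algebra.adjoin K (G : Set E)
  have hGS : ∀ x ∈ G, x ∈ S := fun x hx => Algebra.subset_adjoin (Finset.mem_coe.mpr hx)
  have htS : t ∈ S := hGS t (by simp [G])
  have hθS : θ ∈ S := hGS θ (by simp [G])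
  have hiS : (aeval θ (derivative f))⁻¹ ∈ S := hGS _ (by simp [G])
  have hdS : ∀ c ∈ Cf, dn c ∈ S := fun c hc => hGS _ (by
    simp only [G, Finset.mem_union, Finset.mem_image]
    exact Or.inr ⟨c, hc, rfl⟩)
  have hfC : ∀ n, f.coeff n ∈ Cf := by
    intro n
    by_cases h : f.coeff n = 0
    · rw [h]; simp [Cf]
    · simp only [Cf, Finset.mem_insert, Finset.mem_union]
      exact Or.inr (Or.inl (coeff_mem_coeffs h))
  have hqC : ∀ x ∈ T, ∀ n, (q x).coeff n ∈ Cf := by
    intro x hx n
    by_cases h : (q x).coeff n = 0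
    · rw [h]; simp [Cf]
    · simp only [Cf, Finset.mem_insert, Finset.mem_union, Finset.mem_biUnion]
      exact Or.inr (Or.inr ⟨x, hx, coeff_mem_coeffs h⟩)
  have hCS : ∀ c ∈ Cf, (c : E) ∈ S := by
    intro c hc
    rw [coe_eq t ht c, div_eq_mul_inv]
    refine S.mul_mem ?_ (hdS c hc)
    exact (Algebra.adjoin_le (by simpa using htS) : Algebra.adjoin K {t} ≤ S)
      (aeval_mem_adjoin_singleton K t)
  refine ⟨S, htS, Subalgebra.fg_adjoin_finset G, ?_, ?_⟩
  · intro x hx
    rw [← hq x]
    exact aeval_mem_of_coeff _ S hθS _ fun n => hCS _ (hqC x hx n)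
  intro ε M _ _
  set φ₀ := phi0 t ht M (ε ⟨t, htS⟩) with hφ₀
  have hgood := fun c hc => phi0_good t ht M ε htS c (hdS c hc)
  have hlift : f.map φ₀.toRingHom ∈ Polynomial.lifts (io M) := by
    rw [lifts_iff_coeff_lifts]
    intro n
    rw [coeff_map]
    obtain ⟨_, p, hp, _⟩ := hgood (f.coeff n) (hfC n)
    exact ⟨p, hp.symm⟩
  obtain ⟨F, hF1, hF2, hF3⟩ := lifts_and_natDegree_eq_and_monic hlift
    ((minpoly.monic hint).map _)
  have hliftS : f.map (algebraMap K⟮t⟯ E) ∈ Polynomial.lifts S.val.toRingHom := by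
    rw [lifts_iff_coeff_lifts]
    intro n
    rw [coeff_map]
    exact ⟨⟨f.coeff n, hCS _ (hfC n)⟩, rfl⟩
  obtain ⟨fS, hfS⟩ := (mem_lifts _).mp hliftS
  set ψ : S →+* M := (algebraMap K M).comp ε.toRingHom with hψ
  have key : F.map PowerSeries.constantCoeff = fS.map ψ := by
    ext n
    rw [coeff_map, coeff_map]
    obtain ⟨hc, p, hp, hp'⟩ := hgood (f.coeff n) (hfC n)
    have h1 : F.coeff n = p := by
      apply io_injective
      rw [← hp, ← coeff_map, hF1, coeff_map]
      rfl
    have h2 : fS.coeff n = ⟨f.coeff n, hc⟩ := by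
      apply Subtype.ext
      have := congrArg (fun r => r.coeff n) hfS
      simp only [coeff_map] at this
      exact this
    rw [h1, hp', h2]
    rfl
  have hroot0 : fS.eval ⟨θ, hθS⟩ = 0 := by
    apply Subtype.ext
    have h1 : ((fS.eval ⟨θ, hθS⟩ : S) : E) = (fS.map S.val.toRingHom).eval θ :=
      (map_eval_hom S.val.toRingHom fS ⟨θ, hθS⟩).symm
    rw [h1, hfS, eval_map, ← aeval_def, hf0]
    rfl
  have hder0 : (derivative fS).eval ⟨θ, hθS⟩ * ⟨_, hiS⟩ = 1 := by
    apply Subtype.ext
    have h1 : (((derivative fS).eval ⟨θ, hθS⟩ : S) : E) =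
        ((derivative fS).map S.val.toRingHom).eval θ :=
      (map_eval_hom S.val.toRingHom _ ⟨θ, hθS⟩).symm
    have h2 : (((derivative fS).eval ⟨θ, hθS⟩ * ⟨_, hiS⟩ : S) : E) =
      (((derivative fS).eval ⟨θ, hθS⟩ : S) : E) * (aeval θ (derivative f))⁻¹ := rfl
    rw [h2, h1, ← derivative_map, hfS, derivative_map, eval_map, ← aeval_def, mul_inv_cancel₀ hsep]
    rfl
  set a₀ : PowerSeries M := algebraMap K _ (ε ⟨θ, hθS⟩) with ha₀
  have ha₀c : PowerSeries.constantCoeff a₀ = ψ ⟨θ, hθS⟩ := const_algebraMap _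
  have he1 : PowerSeries.constantCoeff (F.eval a₀) = 0 := by
    rw [← map_eval_hom, key, ha₀c, map_eval_hom, hroot0, map_zero]
  have he2 : PowerSeries.constantCoeff ((derivative F).eval a₀) ≠ 0 := by
    rw [← map_eval_hom, ← derivative_map, key, ha₀c, derivative_map, map_eval_hom]
    have h3 := congrArg ψ hder0
    rw [map_mul, map_one] at h3
    exact left_ne_zero_of_mul_eq_one h3
  obtain ⟨A, hA1, hA2⟩ := HenselianRing.is_henselian (I := Ideal.span {PowerSeries.X}) F hF3 a₀
    (by rw [Ideal.mem_span_singleton, PowerSeries.X_dvd_iff]; exact he1)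
    (((PowerSeries.isUnit_iff_constantCoeff).mpr (isUnit_iff_ne_zero.mpr he2)).map _)
  have hAc : PowerSeries.constantCoeff A = ψ ⟨θ, hθS⟩ := by
    rw [Ideal.mem_span_singleton, PowerSeries.X_dvd_iff, map_sub, sub_eq_zero] at hA2
    rw [hA2, ha₀c]
  let _ : Algebra K⟮t⟯ (LaurentSeries M) := φ₀.toRingHom.toAlgebra
  have hroot : aeval (io M A) (minpoly K⟮t⟯ θ) = 0 := by
    have h1 : aeval (io M A) (minpoly K⟮t⟯ θ) = (f.map φ₀.toRingHom).eval (io M A) := by
      rw [aeval_def, eval_map]
      rfl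
    rw [h1, ← hF1, map_eval_hom, hA1, map_zero]
  let pb := PowerBasis.ofAdjoinEqTop hint htop
  let φ' : E →ₐ[K⟮t⟯] LaurentSeries M := pb.lift (io M A) hroot
  let φ : E →ₐ[K] LaurentSeries M :=
    { φ'.toRingHom with
      commutes' := by
        intro r
        have h1 : φ' (algebraMap K⟮t⟯ E (algebraMap K K⟮t⟯ r)) =
            φ₀ (algebraMap K K⟮t⟯ r) := φ'.commutes _
        rw [φ₀.commutes] at h1
        exact h1 }
  have hφc : ∀ c : K⟮t⟯, φ (c : E) = φ₀ c := fun c => φ'.commutes c
  have hφθ : φ θ = io M A := pb.lift_gen _ hroot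
  have hφt : φ t = io M (sh M (ε ⟨t, htS⟩)) := by
    have h1 := hφc (AdjoinSimple.gen K t)
    rw [hφ₀, phi0_gen] at h1
    exact h1
  refine ⟨φ, hφt, ?_⟩
  have g1 : t ∈ goodAlg S ε φ := ⟨htS, sh M (ε ⟨t, htS⟩), hφt, const_sh _⟩
  have g2 : θ ∈ goodAlg S ε φ := ⟨hθS, A, hφθ, hAc⟩
  have g3 : ∀ c ∈ Cf, (c : E) ∈ goodAlg S ε φ := by
    intro c hc
    obtain ⟨h, p, hp, hp'⟩ := hgood c hc
    exact ⟨h, p, by rw [hφc]; exact hp, hp'⟩
  have g4 : ∀ p : K[X], aeval t p ∈ goodAlg S ε φ := by
    intro p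
    exact (Algebra.adjoin_le (by simpa using g1) : Algebra.adjoin K {t} ≤ goodAlg S ε φ)
      (aeval_mem_adjoin_singleton K t)
  have g5 : aeval θ (derivative f) ∈ goodAlg S ε φ := by
    refine aeval_mem_of_coeff _ _ g2 _ fun n => ?_
    rw [coeff_derivative]
    push_cast
    refine Subalgebra.mul_mem _ (g3 _ (hfC _)) ?_
    refine Subalgebra.add_mem _ ?_ (Subalgebra.one_mem _)
    exact Subalgebra.natCast_mem _ _
  refine Algebra.adjoin_le ?_
  intro x hx
  rw [Finset.mem_coe] at hx
  simp only [G, Finset.mem_union, Finset.mem_insert, Finset.mem_singleton, Finset.mem_image] at hx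
  rcases hx with (rfl | rfl | rfl) | ⟨c, hc, rfl⟩
  · exact g1
  · exact g2
  · exact inv_mem_goodAlg g5 hsep hiS
  · refine inv_mem_goodAlg (g4 _) ?_ (hdS c hc)
    intro h
    exact RatFunc.denom_ne_zero _ ((transcendental_iff.mp ht) _ h)

end Ext

section Norm

theorem exists_lift_poly {K E : Type} [Field K] [Field E] [Algebra K E] (S : Subalgebra K E)
    (p : E[X]) (hp : ∀ n, p.coeff n ∈ S) : ∃ q : S[X], q.map S.val.toRingHom = p := by
  have h1 : p ∈ Polynomial.lifts S.val.toRingHom := by
    rw [lifts_iff_coeff_lifts]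
    intro n
    exact ⟨⟨p.coeff n, hp n⟩, rfl⟩
  exact (mem_lifts _).mp h1

theorem isNm_of_point {K E E' : Type} [Field K] [Field E] [Field E'] [Algebra K E]
    [Algebra E E'] [Algebra K E'] [IsScalarTower K E E']
    (S : Subalgebra K E) (ε : S →ₐ[K] K) (h : E) (hS : h ∈ S) (ρ : E')
    (hρ : ρ ^ 3 = algebraMap E E' h) (hirr : Irreducible (X ^ 3 - C h : E[X]))
    (γ : K) (hγ : γ ^ 3 = ε ⟨h, hS⟩) (α a : K) (px py pz : E[X])
    (hx : ∀ n, px.coeff n ∈ S) (hy : ∀ n, py.coeff n ∈ S) (hz : ∀ n, pz.coeff n ∈ S)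
    (heq : nf (algebraMap K E' α) (aeval ρ px) (aeval ρ py) (aeval ρ pz) = algebraMap K E' a) :
    IsNm α a := by
  obtain ⟨qx, rfl⟩ := exists_lift_poly S px hx
  obtain ⟨qy, rfl⟩ := exists_lift_poly S py hy
  obtain ⟨qz, rfl⟩ := exists_lift_poly S pz hz
  set v : S →+* E := S.val.toRingHom with hv
  have hvinj : Function.Injective v := Subtype.val_injective
  set p : S[X] := nf (C (algebraMap K S α)) qx qy qz - C (algebraMap K S a) with hp
  set m : S[X] := X ^ 3 - C ⟨h, hS⟩ with hm
  have hmm : m.Monic := monic_X_pow_sub_C _ (by norm_num)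
  have hmE : m.map v = X ^ 3 - C h := by
    rw [hm, Polynomial.map_sub, Polynomial.map_pow, map_X, map_C]
    rfl
  have hmin : (X ^ 3 - C h : E[X]) = minpoly E ρ := by
    refine minpoly.eq_of_irreducible_of_monic hirr ?_ (monic_X_pow_sub_C _ (by norm_num))
    rw [map_sub, map_pow, aeval_X, aeval_C, hρ, sub_self]
  have hpE : p.map v = nf (C (algebraMap K E α)) (qx.map v) (qy.map v) (qz.map v) -
      C (algebraMap K E a) := by
    rw [hp, Polynomial.map_sub, ← coe_mapRingHom, map_nf]
    simp only [coe_mapRingHom, map_C]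
    rfl
  have hp0 : aeval ρ (p.map v) = 0 := by
    have h1 : ∀ r : E[X], aeval ρ r = (aeval ρ : E[X] →ₐ[E] E').toRingHom r := fun r => rfl
    rw [hpE, map_sub, h1 (nf _ _ _ _), map_nf]
    have h2 : ∀ r : K, aeval ρ (C (algebraMap K E r)) = algebraMap K E' r := by
      intro r
      rw [aeval_C, ← IsScalarTower.algebraMap_apply]
    have h3 : (aeval ρ : E[X] →ₐ[E] E').toRingHom (C (algebraMap K E α)) =
      algebraMap K E' α := h2 α
    rw [h2 a, h3, ← heq]
    exact sub_self _
  have hdvd : m.map v ∣ p.map v := by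
    rw [hmE, hmin]
    exact minpoly.dvd E ρ hp0
  have hdvdS : m ∣ p := by
    rw [← modByMonic_eq_zero_iff_dvd hmm]
    apply Polynomial.map_injective v hvinj
    rw [map_modByMonic _ hmm, Polynomial.map_zero]
    exact (modByMonic_eq_zero_iff_dvd (hmm.map v)).mpr hdvd
  obtain ⟨r, hr⟩ := hdvdS
  have h4 := congrArg (eval₂RingHom ε.toRingHom γ) hr
  rw [hp, map_sub, map_nf, map_mul, hm, map_sub, map_pow] at h4
  simp only [coe_eval₂RingHom, eval₂_X, eval₂_C] at h4
  have h5 : ε.toRingHom ⟨h, hS⟩ = γ ^ 3 := hγ.symm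
  have h6 : ∀ r : K, ε.toRingHom (algebraMap K S r) = r := fun r => ε.commutes r
  rw [h5, sub_self, zero_mul, h6, h6, sub_eq_zero] at h4
  exact ⟨_, _, _, h4⟩

theorem exists_cube_root {M : Type} [Field M] [CharZero M] (p : PowerSeries M) (ν : M)
    (hν : ν ≠ 0) (hp : PowerSeries.constantCoeff p = ν ^ 3) :
    ∃ w : PowerSeries M, w ^ 3 = p := by
  obtain ⟨w, hw, -⟩ := HenselianRing.is_henselian (I := Ideal.span {PowerSeries.X})
    (X ^ 3 - C p : (PowerSeries M)[X]) (monic_X_pow_sub_C _ (by norm_num)) (PowerSeries.C ν)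
    (by
      rw [Ideal.mem_span_singleton, PowerSeries.X_dvd_iff]
      simp [hp])
    (by
      apply IsUnit.map
      rw [PowerSeries.isUnit_iff_constantCoeff, isUnit_iff_ne_zero]
      have h1 : (derivative (X ^ 3 - C p : (PowerSeries M)[X])).eval (PowerSeries.C ν) =
          3 * PowerSeries.C ν ^ 2 := by
        rw [derivative_sub, derivative_X_pow, derivative_C, sub_zero, eval_mul, eval_pow, eval_X,
          eval_C]
        norm_num
      rw [h1, map_mul, map_pow, map_ofNat, PowerSeries.constantCoeff_C]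
      exact mul_ne_zero (by norm_num) (pow_ne_zero _ hν))
  refine ⟨w, ?_⟩
  have h1 : w ^ 3 - p = 0 := by simpa using hw
  exact sub_eq_zero.mp h1

end Norm

end Pt

open Polynomial Pt in
theorem exists_laurent_point (K E E' : Type) [Field K] [CharZero K] [Field E] [Field E']
    [Algebra K E] [Algebra E E'] [Algebra K E'] [IsScalarTower K E E'] (ω : K)
    (hω : ω ^ 2 + ω + 1 = 0) (hec : EC K E) (t : E) (ht : Transcendental K t)
    (hfin : FiniteDimensional (IntermediateField.adjoin K {t}) E)
    (h : E) (ρ : E') (hρ : ρ ^ 3 = algebraMap E E' h)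
    (hh : ∀ x : E, x ^ 3 ≠ h)
    (htop : IntermediateField.adjoin E {ρ} = ⊤)
    (α a : K) (ha : ¬ IsNm α a) (hE' : IsNm (algebraMap K E' α) (algebraMap K E' a)) :
    ∃ (β : K) (Kβ : Type) (_ : Field Kβ) (_ : Algebra K Kβ) (ν₀ : Kβ)
      (P₀ : E' →ₐ[K] LaurentSeries Kβ) (t₀ : K),
      (∀ x : K, x ^ 3 ≠ β) ∧ ν₀ ^ 3 = algebraMap K Kβ β ∧
      IntermediateField.adjoin K {ν₀} = ⊤ ∧
      P₀ (algebraMap E E' t) = algebraMap K (LaurentSeries Kβ) t₀ + HahnSeries.single 1 1 := by
  classical
  have hirr : Irreducible (X ^ 3 - C h : E[X]) :=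
    X_pow_sub_C_irreducible_of_prime Nat.prime_three hh
  have hmin : (X ^ 3 - C h : E[X]) = minpoly E ρ := by
    refine minpoly.eq_of_irreducible_of_monic hirr ?_ (monic_X_pow_sub_C _ (by norm_num))
    rw [map_sub, map_pow, aeval_X, aeval_C, hρ, sub_self]
  have hint : IsIntegral E ρ := by
    refine ⟨X ^ 3 - C h, monic_X_pow_sub_C _ (by norm_num), ?_⟩
    rw [← aeval_def, map_sub, map_pow, aeval_X, aeval_C, hρ, sub_self]
  have htop' : Algebra.adjoin E {ρ} = ⊤ := by
    rw [← IntermediateField.adjoin_simple_toSubalgebra_of_isAlgebraic hint.isAlgebraic, htop]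
    rfl
  have hpoly : ∀ x : E', ∃ q : E[X], aeval ρ q = x := by
    intro x
    have h1 : x ∈ Algebra.adjoin E {ρ} := by rw [htop']; trivial
    rw [Algebra.adjoin_singleton_eq_range_aeval] at h1
    exact h1
  obtain ⟨x, y, z, hxyz⟩ := hE'
  obtain ⟨px, rfl⟩ := hpoly x
  obtain ⟨py, rfl⟩ := hpoly y
  obtain ⟨pz, rfl⟩ := hpoly z
  obtain ⟨S, htS, hFG, hTS, hS⟩ := exists_ext K E t ht hfin
    (({h, h⁻¹} : Finset E) ∪ (px.coeffs ∪ (py.coeffs ∪ pz.coeffs)))
  obtain ⟨ε⟩ := hec S hFG
  have hhS : h ∈ S := hTS h (by simp)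
  have hhiS : h⁻¹ ∈ S := hTS _ (by simp)
  have hco : ∀ p : E[X], (∀ c ∈ p.coeffs, c ∈ S) → ∀ n, p.coeff n ∈ S := by
    intro p hp n
    by_cases h0 : p.coeff n = 0
    · rw [h0]; exact S.zero_mem
    · exact hp _ (coeff_mem_coeffs h0)
  have hh0 : h ≠ 0 := fun h0 => hh 0 (by rw [h0]; ring)
  set β : K := ε ⟨h, hhS⟩ with hβ
  have hβ0 : β ≠ 0 := left_ne_zero_of_mul_eq_one (eps_mul_inv ε hh0 hhS hhiS)
  have hβc : ∀ γ : K, γ ^ 3 ≠ β := by
    intro γ hγ
    apply ha
    exact isNm_of_point S ε h hhS ρ hρ hirr γ hγ α a px py pz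
      (hco px fun c hc => hTS c (by simp [hc]))
      (hco py fun c hc => hTS c (by simp [hc]))
      (hco pz fun c hc => hTS c (by simp [hc])) hxyz
  have hirrβ : Irreducible (X ^ 3 - C β : K[X]) :=
    X_pow_sub_C_irreducible_of_prime Nat.prime_three hβc
  have : Fact (Irreducible (X ^ 3 - C β : K[X])) := ⟨hirrβ⟩
  set Kβ := AdjoinRoot (X ^ 3 - C β : K[X]) with hKβ
  set ν₀ : Kβ := AdjoinRoot.root _ with hν₀
  have hν : ν₀ ^ 3 = algebraMap K Kβ β := by
    have h1 : aeval ν₀ (X ^ 3 - C β : K[X]) = 0 := by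
      rw [hν₀, AdjoinRoot.aeval_eq, AdjoinRoot.mk_self]
    rw [map_sub, map_pow, aeval_X, aeval_C, sub_eq_zero] at h1
    exact h1
  have hν0 : ν₀ ≠ 0 := by
    intro h0
    rw [h0, zero_pow (by norm_num)] at hν
    exact hβ0 ((map_eq_zero _).mp hν.symm)
  have : CharZero Kβ := charZero_of_injective_algebraMap (algebraMap K Kβ).injective
  obtain ⟨φ, hφt, hφS⟩ := hS ε Kβ
  obtain ⟨_, p, hp, hpc⟩ := hφS hhS
  obtain ⟨w, hw⟩ := exists_cube_root p ν₀ hν0 (by rw [hpc, hν])
  let _ : Algebra E (LaurentSeries Kβ) := φ.toRingHom.toAlgebra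
  have hroot : aeval (io Kβ w) (minpoly E ρ) = 0 := by
    have h1 : algebraMap E (LaurentSeries Kβ) h = φ h := rfl
    rw [← hmin, map_sub, map_pow, aeval_X, aeval_C, h1, hp, ← map_pow, hw, sub_self]
  let pb := PowerBasis.ofAdjoinEqTop hint htop'
  let φ' : E' →ₐ[E] LaurentSeries Kβ := pb.lift (io Kβ w) hroot
  let P₀ : E' →ₐ[K] LaurentSeries Kβ :=
    { φ'.toRingHom with
      commutes' := by
        intro r
        have h1 : φ' (algebraMap E E' (algebraMap K E r)) = φ (algebraMap K E r) := φ'.commutes _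
        rw [φ.commutes, ← IsScalarTower.algebraMap_apply] at h1
        exact h1 }
  refine ⟨β, Kβ, inferInstance, inferInstance, ν₀, P₀, ε ⟨t, htS⟩, hβc, hν, ?_, ?_⟩
  · exact IntermediateField.adjoin_eq_top_of_algebra K {ν₀} AdjoinRoot.adjoinRoot_eq_top
  · have h1 : P₀ (algebraMap E E' t) = φ t := φ'.commutes t
    rw [h1, hφt, io_sh]

end Pool.Agent.D5741
end

section

/-!
# Norm forms and extensions of degree prime to `3`; devissage through cubic Kummer extensions
-/

set_option autoImplicit false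
open scoped TensorProduct

namespace Pool.Agent.D5741

namespace Dev

open Polynomial

/-- The norm of `x + y θ + z θ²` when `1, θ, θ²` is a basis and `θ³ = α`. -/
theorem norm_eq_nf {R S : Type*} [CommRing R] [CommRing S] [Algebra R S]
    (b : Module.Basis (Fin 3) R S) (θ : S) (hb : ∀ i, b i = θ ^ (i : ℕ)) (α x y z : R)
    (hθ : θ ^ 3 = algebraMap R S α) :
    Algebra.norm R (algebraMap R S x + algebraMap R S y * θ + algebraMap R S z * θ ^ 2) =
      nf α x y z := by
  set w : S := algebraMap R S x + algebraMap R S y * θ + algebraMap R S z * θ ^ 2 with hw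
  have h0 : b 0 = 1 := by simpa using hb 0
  have h1 : b 1 = θ := by simpa using hb 1
  have h2 : b 2 = θ ^ 2 := by simpa using hb 2
  have hM : Algebra.leftMulMatrix b w = !![x, α * z, α * y; y, x, α * z; z, y, x] := by
    have e0 : w * b 0 = x • b 0 + y • b 1 + z • b 2 := by
      rw [h0, h1, h2, hw]
      simp only [Algebra.smul_def]
      ring
    have e1 : w * b 1 = (α * z) • b 0 + x • b 1 + y • b 2 := by
      rw [h0, h1, h2, hw]
      simp only [Algebra.smul_def, map_mul]
      linear_combination (algebraMap R S z) * hθ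
    have e2 : w * b 2 = (α * y) • b 0 + (α * z) • b 1 + x • b 2 := by
      rw [h0, h1, h2, hw]
      simp only [Algebra.smul_def, map_mul]
      linear_combination (algebraMap R S y + algebraMap R S z * θ) * hθ
    ext i j
    rw [Algebra.leftMulMatrix_eq_repr_mul]
    fin_cases j
    · simp only [Fin.zero_eta, e0]
      fin_cases i <;> simp
    · simp only [Fin.mk_one, e1]
      fin_cases i <;> simp
    · simp only [Fin.reduceFinMk, e2]
      fin_cases i <;> simp
  rw [Algebra.norm_eq_matrix_det b, hM, Matrix.det_fin_three]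
  simp [nf]
  ring

/-- The algebra `F[X]/(X³ - α)`. -/
abbrev Alg (F : Type) [Field F] (α : F) : Type := AdjoinRoot (X ^ 3 - C α : F[X])

theorem monic_cub {F : Type} [Field F] (α : F) : (X ^ 3 - C α : F[X]).Monic :=
  monic_X_pow_sub_C α three_ne_zero

theorem exists_basis (F : Type) [Field F] (α : F) : ∃ (b : Module.Basis (Fin 3) F (Alg F α)),
    ∀ i, b i = (AdjoinRoot.root (X ^ 3 - C α : F[X])) ^ (i : ℕ) := by
  have hd : (AdjoinRoot.powerBasis' (monic_cub α)).dim = 3 := by
    rw [AdjoinRoot.powerBasis'_dim, natDegree_X_pow_sub_C]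
  refine ⟨(AdjoinRoot.powerBasis' (monic_cub α)).basis.reindex (finCongr hd), fun i => ?_⟩
  rw [Module.Basis.reindex_apply, PowerBasis.basis_eq_pow, AdjoinRoot.powerBasis'_gen]
  simp

theorem root_cube (F : Type) [Field F] (α : F) :
    (AdjoinRoot.root (X ^ 3 - C α : F[X])) ^ 3 = algebraMap F (Alg F α) α := by
  have h := AdjoinRoot.eval₂_root (X ^ 3 - C α : F[X])
  rw [eval₂_sub, eval₂_X_pow, eval₂_C, sub_eq_zero] at h
  exact h

end Dev

open Polynomial in
/-- TASK NORM3 -/
theorem isNm_of_finrank (F L : Type) [Field F] [CharZero F] [Field L] [Algebra F L]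
    [FiniteDimensional F L] (hd : ¬ 3 ∣ Module.finrank F L) (ω α c : F)
    (hω : ω ^ 2 + ω + 1 = 0) (hα : α ≠ 0) (hc : c ≠ 0)
    (h : IsNm (algebraMap F L α) (algebraMap F L c)) : IsNm α c := by
  obtain ⟨x, y, z, hxyz⟩ := h
  obtain ⟨b, hb⟩ := Dev.exists_basis F α
  set θ : Dev.Alg F α := AdjoinRoot.root (X ^ 3 - C α : F[X]) with hθ
  have hθ3 : θ ^ 3 = algebraMap F (Dev.Alg F α) α := Dev.root_cube F α
  have : Module.Free F (Dev.Alg F α) := Module.Free.of_basis b
  have : Module.Finite F (Dev.Alg F α) := Module.Finite.of_basis b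
  -- the norm down to `L`
  set w : L ⊗[F] Dev.Alg F α := algebraMap L _ x + algebraMap L _ y * (1 ⊗ₜ θ) +
    algebraMap L _ z * (1 ⊗ₜ θ) ^ 2 with hw
  have h1 : Algebra.norm L w = algebraMap F L c := by
    rw [← hxyz]
    refine Dev.norm_eq_nf (Algebra.TensorProduct.basis L b) (1 ⊗ₜ θ) (fun i => ?_) _ _ _ _ ?_
    · rw [Algebra.TensorProduct.basis_apply, hb, Algebra.TensorProduct.tmul_pow, one_pow]
    · rw [Algebra.TensorProduct.tmul_pow, one_pow, hθ3, Algebra.TensorProduct.algebraMap_apply,
        Algebra.algebraMap_self_apply, Algebra.TensorProduct.tmul_one_eq_one_tmul]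
  have h2 : Algebra.norm F w = c ^ Module.finrank F L := by
    rw [← Algebra.norm_norm (R := F) (S := L), h1, Algebra.norm_algebraMap]
  -- the norm down to the cubic algebra
  set w' : Dev.Alg F α ⊗[F] L := Algebra.TensorProduct.comm F L (Dev.Alg F α) w with hw'
  have h3 : Algebra.norm F w' = c ^ Module.finrank F L := by
    rw [← h2, hw', Algebra.norm_eq_of_algEquiv]
  rw [← Algebra.norm_norm (R := F) (S := Dev.Alg F α)] at h3
  set v : Dev.Alg F α := Algebra.norm (Dev.Alg F α) w' with hv
  have h4 : v = algebraMap F _ (b.repr v 0) + algebraMap F _ (b.repr v 1) * θ +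
      algebraMap F _ (b.repr v 2) * θ ^ 2 := by
    conv_lhs => rw [← b.sum_repr v]
    rw [Fin.sum_univ_three, hb, hb, hb]
    simp only [Algebra.smul_def]
    simp
  refine IsNm.of_pow hc hd ?_
  rw [← h3, h4, Dev.norm_eq_nf b θ hb α _ _ _ hθ3]
  exact ⟨_, _, _, rfl⟩

namespace Dev

/-- The element `c` is a value of the norm form with entries in the subfield `S`. -/
def NmIn {N : Type} [Field N] (S : Subfield N) (α c : N) : Prop :=
  ∃ x y z : N, x ∈ S ∧ y ∈ S ∧ z ∈ S ∧ nf α x y z = c

theorem indep_of_finrank (F L : Type) [Field F] [CharZero F] [Field L] [Algebra F L]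
    [FiniteDimensional F L] (hd : ¬ 3 ∣ Module.finrank F L) (ω α a b : F)
    (hω : ω ^ 2 + ω + 1 = 0) (h : Indep α a b) :
    Indep (algebraMap F L α) (algebraMap F L a) (algebraMap F L b) := by
  obtain ⟨h1, h2, h3, h4⟩ := h
  refine ⟨by simpa using h1, by simpa using h2, by simpa using h3, fun i j hij => h4 i j ?_⟩
  refine isNm_of_finrank F L hd ω α _ hω h1 (mul_ne_zero (pow_ne_zero _ h2) (pow_ne_zero _ h3)) ?_
  simpa using hij

theorem isPrimitiveRoot_of {E : Type} [Field E] [CharZero E] {ω : E} (hω : ω ^ 2 + ω + 1 = 0) :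
    IsPrimitiveRoot ω 3 := by
  have h3 : ω ^ 3 = 1 := by linear_combination (ω - 1) * hω
  have h1 : ω ≠ 1 := by
    rintro rfl
    norm_num at hω
  have h := orderOf_eq_prime (p := 3) h3 h1
  rw [← h]
  exact IsPrimitiveRoot.orderOf ω

/-- A cube root generates a nontrivial extension only of a non-cube. -/
theorem not_cube_of_adjoin {E E' : Type} [Field E] [Field E'] [Algebra E E'] {ω : E}
    (hω : ω ^ 2 + ω + 1 = 0) {h : E} {ρ : E'} (hρ : ρ ^ 3 = algebraMap E E' h)
    (htop : IntermediateField.adjoin E {ρ} = ⊤) (hfin : Module.finrank E E' ≠ 1) (x : E) :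
    x ^ 3 ≠ h := by
  intro hx
  have hω' : (algebraMap E E' ω) ^ 2 + algebraMap E E' ω + 1 = 0 := by
    rw [← map_pow, ← map_add, ← map_one (algebraMap E E'), ← map_add, hω, map_zero]
  have h1 : (ρ - algebraMap E E' x) * (ρ - algebraMap E E' (ω * x)) *
      (ρ - algebraMap E E' (ω ^ 2 * x)) = 0 := by
    have h2 : ρ ^ 3 - algebraMap E E' x ^ 3 = 0 := by
      rw [hρ, ← hx, map_pow, sub_self]
    simp only [map_mul, map_pow]
    set w := algebraMap E E' ω
    set u := algebraMap E E' x
    have hw3 : w ^ 3 = 1 := by linear_combination (w - 1) * hω'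
    linear_combination h2 + (-ρ ^ 2 * u + ρ * w * u ^ 2) * hω' - u ^ 3 * hw3
  have h2 : ρ ∈ (⊥ : IntermediateField E E') := by
    rw [mul_eq_zero, mul_eq_zero] at h1
    rcases h1 with (h1 | h1) | h1 <;> rw [sub_eq_zero.mp h1] <;>
      exact IntermediateField.algebraMap_mem _ _
  have h3 : IntermediateField.adjoin E {ρ} = ⊥ :=
    IntermediateField.adjoin_simple_eq_bot_iff.mpr h2
  rw [h3] at htop
  apply hfin
  rw [← IntermediateField.finrank_top', ← htop, IntermediateField.finrank_bot]

theorem step (B N : Type) [Field B] [CharZero B] [Field N] [Algebra B N] (ω α a b : B)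
    (hω : ω ^ 2 + ω + 1 = 0)
    (key : ∀ (E E' : Type) [Field E] [Field E'] [Algebra B E] [Algebra E E'] [Algebra B E']
      [IsScalarTower B E E'] [FiniteDimensional B E] (h : E) (ρ : E'),
      Indep (algebraMap B E α) (algebraMap B E a) (algebraMap B E b) →
      ρ ^ 3 = algebraMap E E' h → (∀ x : E, x ^ 3 ≠ h) →
      IntermediateField.adjoin E {ρ} = ⊤ →
      ¬ Indep (algebraMap B E' α) (algebraMap B E' a) (algebraMap B E' b) →
      IsNm (algebraMap B E' α) (algebraMap B E' b)) (n : ℕ) :
    ∀ (E : Type) [Field E] [Algebra B E] [FiniteDimensional B E] [Algebra E N]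
      [IsScalarTower B E N] [FiniteDimensional E N] [IsGalois E N], Module.finrank E N = n →
      IsPGroup 3 (N ≃ₐ[E] N) →
      Indep (algebraMap B E α) (algebraMap B E a) (algebraMap B E b) →
      ∀ L₁ : Subfield N, (∀ e : E, algebraMap E N e ∈ L₁) →
      NmIn L₁ (algebraMap B N α) (algebraMap B N a) →
      NmIn L₁ (algebraMap B N α) (algebraMap B N b) := by
  induction n using Nat.strong_induction_on with
  | _ n ih =>
  intro E _ _ _ _ _ _ _ hn hG hind L₁ hL₁ ha
  have : Fact (Nat.Prime 3) := ⟨Nat.prime_three⟩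
  have : CharZero E := charZero_of_injective_algebraMap (algebraMap B E).injective
  obtain ⟨x, y, z, hx, hy, hz, hxyz⟩ := ha
  set K₁ : IntermediateField E N := L₁.toIntermediateField hL₁ with hK₁
  have hmem : ∀ u : N, u ∈ K₁ ↔ u ∈ L₁ := fun u => Iff.rfl
  -- `K₁` is not the bottom field
  have hne : K₁.fixingSubgroup ≠ ⊤ := by
    intro htop
    have hbot : K₁ = ⊥ := by
      rw [← IsGalois.fixedField_fixingSubgroup K₁, htop, IsGalois.fixedField_top]
    have hb : ∀ u : N, u ∈ L₁ → ∃ v : E, algebraMap E N v = u := by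
      intro u hu
      rw [← hmem, hbot, IntermediateField.mem_bot] at hu
      exact hu
    obtain ⟨x', rfl⟩ := hb x hx
    obtain ⟨y', rfl⟩ := hb y hy
    obtain ⟨z', rfl⟩ := hb z hz
    rw [IsScalarTower.algebraMap_apply B E N, IsScalarTower.algebraMap_apply B E N a,
      ← map_nf] at hxyz
    have h1 : IsNm (algebraMap B E α) (algebraMap B E a) :=
      ⟨x', y', z', (algebraMap E N).injective hxyz⟩
    have h2 := (hind.2.2.2 1 0 (by simpa using h1)).1
    omega
  obtain ⟨m, hm⟩ := (IsPGroup.iff_card (p := 3)).mp hG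
  obtain ⟨k, hk⟩ := (IsPGroup.iff_card (p := 3)).mp (hG.to_subgroup K₁.fixingSubgroup)
  have hkm : k < m := by
    by_contra hkm
    apply hne
    apply Subgroup.eq_top_of_le_card
    rw [hm, hk]
    exact Nat.pow_le_pow_right (by norm_num) (not_lt.mp hkm)
  obtain ⟨M, hMcard, hM⟩ := Sylow.exists_subgroup_card_pow_prime_le 3 (n := k) (m := m - 1)
    (G := N ≃ₐ[E] N) (by rw [hm]; exact pow_dvd_pow 3 (Nat.sub_le m 1)) K₁.fixingSubgroup hk
    (by omega)
  have hm' : (3 : ℕ) ^ m = 3 ^ (m - 1) * 3 := by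
    rw [← pow_succ]
    congr 1
    omega
  have hMi : M.index = 3 := by
    have h1 := M.card_mul_index
    rw [hMcard, hm, hm'] at h1
    exact Nat.eq_of_mul_eq_mul_left (by positivity) h1
  have hMn : M.Normal := by
    apply Subgroup.normal_of_index_eq_minFac_card
    rw [hMi, hm, Nat.prime_three.pow_minFac (by omega)]
  set E' : IntermediateField E N := IntermediateField.fixedField M with hE'
  have hgal : IsGalois E E' := IsGalois.of_fixedField_normal_subgroup M
  have hcN : Module.finrank E' N = 3 ^ (m - 1) := by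
    rw [hE', IntermediateField.finrank_fixedField_eq_card, hMcard]
  have hcEN : Module.finrank E N = 3 ^ m := by
    rw [← hm, IsGalois.card_aut_eq_finrank]
  have hcE' : Module.finrank E E' = 3 := by
    have h1 := Module.finrank_mul_finrank E E' N
    rw [hcN, hcEN, hm', mul_comm] at h1
    exact Nat.eq_of_mul_eq_mul_left (by positivity) h1
  have hcyc : IsCyclic (E' ≃ₐ[E] E') := by
    apply isCyclic_of_prime_card (p := 3)
    rw [IsGalois.card_aut_eq_finrank, hcE']
  have hωE : (algebraMap B E ω) ^ 2 + algebraMap B E ω + 1 = 0 := by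
    rw [← map_pow, ← map_add, ← map_one (algebraMap B E), ← map_add, hω, map_zero]
  have hprim : (primitiveRoots (Module.finrank E E') E).Nonempty := by
    rw [hcE']
    exact ⟨algebraMap B E ω, (mem_primitiveRoots (by norm_num)).mpr (isPrimitiveRoot_of hωE)⟩
  obtain ⟨ρ, ⟨h, hh⟩, hρ⟩ := exists_root_adjoin_eq_top_of_isCyclic E E' hprim
  rw [hcE'] at hh
  have hnc : ∀ x : E, x ^ 3 ≠ h :=
    not_cube_of_adjoin hωE hh.symm hρ (by rw [hcE']; norm_num)
  have hle : ∀ e : E', (e : N) ∈ L₁ := by
    intro e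
    rw [← hmem, ← IsGalois.fixedField_fixingSubgroup K₁, IntermediateField.mem_fixedField_iff]
    intro σ hσ
    exact (IntermediateField.mem_fixedField_iff M (e : N)).mp e.2 σ (hM hσ)
  have : FiniteDimensional B E' := Module.Finite.trans E E'
  have : IsScalarTower B E' N := IsScalarTower.of_algebraMap_eq fun u => by
    rw [IsScalarTower.algebraMap_apply B E N, IsScalarTower.algebraMap_apply B E E']
    rfl
  by_cases hP : Indep (algebraMap B E' α) (algebraMap B E' a) (algebraMap B E' b)
  · refine ih (Module.finrank E' N) ?_ E' rfl ?_ hP L₁ hle ⟨x, y, z, hx, hy, hz, hxyz⟩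
    · rw [← hn, hcN, hcEN]
      exact Nat.pow_lt_pow_right (by norm_num) (by omega)
    · exact hG.of_injective (AlgEquiv.restrictScalarsHom E)
        (AlgEquiv.restrictScalarsHom_injective E)
  · obtain ⟨u, v, w, huvw⟩ := key E E' h ρ hind hh.symm hnc hρ hP
    refine ⟨u, v, w, hle u, hle v, hle w, ?_⟩
    rw [IsScalarTower.algebraMap_apply B E' N, IsScalarTower.algebraMap_apply B E' N b, ← huvw,
      map_nf]
    rfl

theorem devissage_aux (B L N : Type) [Field B] [CharZero B] [Field L] [Algebra B L] [Field N]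
    [Algebra B N] [Algebra L N] [IsScalarTower B L N] [FiniteDimensional B N] [IsGalois B N] (ω α a b : B) (hω : ω ^ 2 + ω + 1 = 0) (hP : Indep α a b)
    (hL : IsNm (algebraMap B L α) (algebraMap B L a))
    (key : ∀ (E E' : Type) [Field E] [Field E'] [Algebra B E] [Algebra E E'] [Algebra B E']
      [IsScalarTower B E E'] [FiniteDimensional B E] (h : E) (ρ : E'),
      Indep (algebraMap B E α) (algebraMap B E a) (algebraMap B E b) →
      ρ ^ 3 = algebraMap E E' h → (∀ x : E, x ^ 3 ≠ h) →
      IntermediateField.adjoin E {ρ} = ⊤ →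
      ¬ Indep (algebraMap B E' α) (algebraMap B E' a) (algebraMap B E' b) →
      IsNm (algebraMap B E' α) (algebraMap B E' b)) :
    IsNm (algebraMap B L α) (algebraMap B L b) := by
  have : Fact (Nat.Prime 3) := ⟨Nat.prime_three⟩
  have : CharZero L := charZero_of_injective_algebraMap (algebraMap B L).injective
  have : FiniteDimensional L N := Module.Finite.of_restrictScalars_finite B L N
  have hgL : IsGalois L N := IsGalois.tower_top_of_isGalois B L N
  obtain ⟨P⟩ : Nonempty (Sylow 3 (N ≃ₐ[L] N)) := inferInstance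
  set L₁ : IntermediateField L N := IntermediateField.fixedField (P : Subgroup (N ≃ₐ[L] N))
    with hL₁
  have hdL : ¬ 3 ∣ Module.finrank L L₁ := by
    have h1 := Module.finrank_mul_finrank L L₁ N
    rw [hL₁, IntermediateField.finrank_fixedField_eq_card, ← IsGalois.card_aut_eq_finrank L N,
      ← (P : Subgroup (N ≃ₐ[L] N)).index_mul_card] at h1
    have h2 : Module.finrank L L₁ = (P : Subgroup (N ≃ₐ[L] N)).index :=
      Nat.eq_of_mul_eq_mul_right Nat.card_pos h1
    rw [h2]
    exact P.not_dvd_index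
  set PB : Subgroup (N ≃ₐ[B] N) :=
    (P : Subgroup (N ≃ₐ[L] N)).map (AlgEquiv.restrictScalarsHom B) with hPB
  obtain ⟨S, hS⟩ := (P.2.map (AlgEquiv.restrictScalarsHom B)).exists_le_sylow
  set E₀ : IntermediateField B N := IntermediateField.fixedField (S : Subgroup (N ≃ₐ[B] N))
    with hE₀
  have hdE : ¬ 3 ∣ Module.finrank B E₀ := by
    have h1 := Module.finrank_mul_finrank B E₀ N
    rw [hE₀, IntermediateField.finrank_fixedField_eq_card, ← IsGalois.card_aut_eq_finrank B N,
      ← (S : Subgroup (N ≃ₐ[B] N)).index_mul_card] at h1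
    have h2 : Module.finrank B E₀ = (S : Subgroup (N ≃ₐ[B] N)).index :=
      Nat.eq_of_mul_eq_mul_right Nat.card_pos h1
    rw [h2]
    exact S.not_dvd_index
  have hind := Dev.indep_of_finrank B E₀ hdE ω α a b hω hP
  have hpg : IsPGroup 3 (N ≃ₐ[E₀] N) := by
    have h1 : IsPGroup 3 (IntermediateField.fixingSubgroup E₀) := by
      rw [hE₀, IntermediateField.fixingSubgroup_fixedField]
      exact S.2
    exact h1.of_equiv (IntermediateField.fixingSubgroupEquiv E₀)
  have hsub : ∀ e : E₀, algebraMap E₀ N e ∈ L₁.toSubfield := by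
    intro e
    change (e : N) ∈ L₁
    rw [hL₁, IntermediateField.mem_fixedField_iff]
    intro σ hσ
    exact (IntermediateField.mem_fixedField_iff _ (e : N)).mp e.2
      (AlgEquiv.restrictScalarsHom B σ) (hS (Subgroup.mem_map_of_mem _ hσ))
  obtain ⟨x, y, z, hxyz⟩ := hL
  have hLN : ∀ u : B, algebraMap B N u = algebraMap L N (algebraMap B L u) := fun u =>
    IsScalarTower.algebraMap_apply B L N u
  have ha : Dev.NmIn L₁.toSubfield (algebraMap B N α) (algebraMap B N a) := by
    refine ⟨algebraMap L N x, algebraMap L N y, algebraMap L N z, L₁.algebraMap_mem x,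
      L₁.algebraMap_mem y, L₁.algebraMap_mem z, ?_⟩
    rw [hLN, hLN, ← hxyz, map_nf]
  obtain ⟨u, v, w, hu, hv, hw, huvw⟩ := Dev.step B N ω α a b hω key _ E₀ rfl hpg hind
    L₁.toSubfield hsub ha
  refine isNm_of_finrank L L₁ hdL (algebraMap B L ω) _ _ ?_ ?_ ?_
    ⟨⟨u, hu⟩, ⟨v, hv⟩, ⟨w, hw⟩, ?_⟩
  · rw [← map_pow, ← map_add, ← map_one (algebraMap B L), ← map_add, hω, map_zero]
  · simpa using hP.1
  · simpa using hP.2.2.1
  · apply (algebraMap L₁ N).injective
    rw [map_nf, ← IsScalarTower.algebraMap_apply L L₁ N, ← IsScalarTower.algebraMap_apply L L₁ N,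
      ← hLN, ← hLN]
    exact huvw

end Dev

/-- TASK DEV -/
theorem devissage (B L : Type) [Field B] [CharZero B] [Field L] [Algebra B L]
    [FiniteDimensional B L] (ω α a b : B) (hω : ω ^ 2 + ω + 1 = 0) (hP : Indep α a b)
    (hL : IsNm (algebraMap B L α) (algebraMap B L a))
    (key : ∀ (E E' : Type) [Field E] [Field E'] [Algebra B E] [Algebra E E'] [Algebra B E']
      [IsScalarTower B E E'] [FiniteDimensional B E] (h : E) (ρ : E'),
      Indep (algebraMap B E α) (algebraMap B E a) (algebraMap B E b) →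
      ρ ^ 3 = algebraMap E E' h → (∀ x : E, x ^ 3 ≠ h) →
      IntermediateField.adjoin E {ρ} = ⊤ →
      ¬ Indep (algebraMap B E' α) (algebraMap B E' a) (algebraMap B E' b) →
      IsNm (algebraMap B E' α) (algebraMap B E' b)) :
    IsNm (algebraMap B L α) (algebraMap B L b) := by
  have : FiniteDimensional B (IntermediateField.normalClosure B L (AlgebraicClosure L)) :=
    inferInstance
  have : Normal B (IntermediateField.normalClosure B L (AlgebraicClosure L)) := inferInstance
  have : IsGalois B (IntermediateField.normalClosure B L (AlgebraicClosure L)) := ⟨⟩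
  exact Dev.devissage_aux B L (IntermediateField.normalClosure B L (AlgebraicClosure L))
    ω α a b hω hP hL key

end Pool.Agent.D5741
end

section

/-!
# Reduction of the main theorem to the finite case and the curve case
-/

set_option autoImplicit false
open scoped TensorProduct nonZeroDivisors

namespace Pool.Agent.D5741

namespace Red

/-- The finite case. -/
def CaseZero : Prop :=
  ∀ (K : Type) [Field K] [CharZero K] (ω α a b : K) (hω : ω ^ 2 + ω + 1 = 0)
    (hP : Indep α a b)
    (hec : ∀ (K' : Type) [Field K'] [Algebra K K'],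
      Indep (algebraMap K K' α) (algebraMap K K' a) (algebraMap K K' b) → EC K K')
    (L : Type) [Field L] [Algebra K L] [FiniteDimensional K L]
    (hL : IsNm (algebraMap K L α) (algebraMap K L a)),
    IsNm (algebraMap K L α) (algebraMap K L b)

/-- Linear disjointness of a cubic Kummer extension that is not constant. -/
def KummerDomain : Prop :=
  ∀ (K E E' : Type) [Field K] [CharZero K] [Field E] [Field E'] [Algebra K E]
    [Algebra E E'] [Algebra K E'] [IsScalarTower K E E'] (ω : K) (hω : ω ^ 2 + ω + 1 = 0)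
    (hec : EC K E) (h : E) (ρ : E') (hρ : ρ ^ 3 = algebraMap E E' h)
    (htop : IntermediateField.adjoin E {ρ} = ⊤)
    (hnc : ∀ (γ : K) (v : E), h ≠ algebraMap K E γ * v ^ 3)
    (F : Type) [Field F] [Algebra K F],
    IsDomain (F ⊗[K] E')

/-- Existence of a Laurent point. -/
def LaurentPoint : Prop :=
  ∀ (K E E' : Type) [Field K] [CharZero K] [Field E] [Field E']
    [Algebra K E] [Algebra E E'] [Algebra K E'] [IsScalarTower K E E'] (ω : K)
    (hω : ω ^ 2 + ω + 1 = 0) (hec : EC K E) (t : E) (ht : Transcendental K t)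
    (hfin : FiniteDimensional (IntermediateField.adjoin K {t}) E)
    (h : E) (ρ : E') (hρ : ρ ^ 3 = algebraMap E E' h)
    (hh : ∀ x : E, x ^ 3 ≠ h)
    (htop : IntermediateField.adjoin E {ρ} = ⊤)
    (α a : K) (ha : ¬ IsNm α a) (hE' : IsNm (algebraMap K E' α) (algebraMap K E' a)),
    ∃ (β : K) (Kβ : Type) (_ : Field Kβ) (_ : Algebra K Kβ) (ν₀ : Kβ)
      (P₀ : E' →ₐ[K] LaurentSeries Kβ) (t₀ : K),
      (∀ x : K, x ^ 3 ≠ β) ∧ ν₀ ^ 3 = algebraMap K Kβ β ∧
      IntermediateField.adjoin K {ν₀} = ⊤ ∧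
      P₀ (algebraMap E E' t) = algebraMap K (LaurentSeries Kβ) t₀ + HahnSeries.single 1 1

/-- The curve case. -/
def MainCurve : Prop :=
  ∀ (K : Type) [Field K] [CharZero K] (ω α a b β : K) (hω : ω ^ 2 + ω + 1 = 0)
    (hP : Indep α a b)
    (hec : ∀ (K' : Type) [Field K'] [Algebra K K'],
      Indep (algebraMap K K' α) (algebraMap K K' a) (algebraMap K K' b) → EC K K')
    (hβ : ∀ x : K, x ^ 3 ≠ β)
    (L : Type) [Field L] [Algebra K L] (t : L) (ht : Transcendental K t)
    (hfin : FiniteDimensional (IntermediateField.adjoin K {t}) L)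
    (hreg : ∀ (F : Type) [Field F] [Algebra K F], IsDomain (F ⊗[K] L))
    (Kβ : Type) [Field Kβ] [Algebra K Kβ] (ν₀ : Kβ) (hν₀ : ν₀ ^ 3 = algebraMap K Kβ β)
    (hgen : IntermediateField.adjoin K {ν₀} = ⊤)
    (P₀ : L →ₐ[K] LaurentSeries Kβ) (t₀ : K)
    (hP₀ : P₀ t = algebraMap K (LaurentSeries Kβ) t₀ + HahnSeries.single 1 1)
    (hL : IsNm (algebraMap K L α) (algebraMap K L a)),
    IsNm (algebraMap K L α) (algebraMap K L b)

/-- From a failure of independence: either `b` is a norm or `a ^ i * b ^ j` with `3 ∤ i`. -/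
theorem notIndep_cases {F : Type} [Field F] {α a b : F} (hα : α ≠ 0) (ha : a ≠ 0) (hb : b ≠ 0)
    (h : ¬ Indep α a b) : IsNm α b ∨ ∃ i j : ℕ, ¬ 3 ∣ i ∧ IsNm α (a ^ i * b ^ j) := by
  unfold Indep at h
  push Not at h
  obtain ⟨i, j, hij, h1⟩ := h hα ha hb
  by_cases hi : 3 ∣ i
  · left
    have hj := h1 hi
    obtain ⟨k, rfl⟩ := hi
    rw [mul_comm, mul_comm 3 k, pow_mul, isNm_mul_cube_iff (pow_ne_zero _ ha)] at hij
    exact IsNm.of_pow hb hj hij
  · exact Or.inr ⟨i, j, hi, hij⟩

/-- Change of the pair, forward direction. -/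
theorem indep_change {F : Type} [Field F] {α a b : F} (h : Indep α a b) {i j : ℕ}
    (hi : ¬ 3 ∣ i) : Indep α (a ^ i * b ^ j) b := by
  obtain ⟨h1, h2, h3, h4⟩ := h
  refine ⟨h1, mul_ne_zero (pow_ne_zero _ h2) (pow_ne_zero _ h3), h3, fun m n hmn => ?_⟩
  have e : (a ^ i * b ^ j) ^ m * b ^ n = a ^ (i * m) * b ^ (j * m + n) := by
    rw [mul_pow, ← pow_mul, ← pow_mul, mul_assoc, ← pow_add]
  rw [e] at hmn
  obtain ⟨h5, h6⟩ := h4 _ _ hmn
  have h7 : 3 ∣ m := (Nat.prime_three.dvd_mul.mp h5).resolve_left hi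
  exact ⟨h7, (Nat.dvd_add_right (h7.mul_left j)).mp h6⟩

/-- Change of the pair, backward direction. -/
theorem indep_of_change {F : Type} [Field F] {α a b : F} (ha : a ≠ 0) {i j : ℕ}
    (hi : ¬ 3 ∣ i) (h : Indep α (a ^ i * b ^ j) b) : Indep α a b := by
  obtain ⟨h1, -, h3, h4⟩ := h
  refine ⟨h1, ha, h3, fun m n hmn => ?_⟩
  have e : (a ^ i * b ^ j) ^ m * b ^ (i * n + 2 * (j * m)) = (a ^ m * b ^ n) ^ i * (b ^ (j * m)) ^ 3 := by
    rw [mul_pow, mul_pow, ← pow_mul, ← pow_mul, ← pow_mul, ← pow_mul, ← pow_mul, mul_assoc,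
      ← pow_add, mul_assoc, ← pow_add, mul_comm i m]
    congr 2
    ring
  have h5 := h4 m (i * n + 2 * (j * m)) (by rw [e]; exact (hmn.pow i).mul (IsNm.cube α _))
  refine ⟨h5.1, ?_⟩
  have h6 : 3 ∣ i * n := (Nat.dvd_add_left ((h5.1.mul_left j).mul_left 2)).mp h5.2
  exact (Nat.prime_three.dvd_mul.mp h6).resolve_left hi

/-- Existential closedness for the changed pair. -/
theorem ec_change {K : Type} [Field K] {α a b : K} (ha : a ≠ 0)
    (hec : ∀ (K' : Type) [Field K'] [Algebra K K'],
      Indep (algebraMap K K' α) (algebraMap K K' a) (algebraMap K K' b) → EC K K')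
    {i j : ℕ} (hi : ¬ 3 ∣ i) (K' : Type) [Field K'] [Algebra K K']
    (h : Indep (algebraMap K K' α) (algebraMap K K' (a ^ i * b ^ j)) (algebraMap K K' b)) :
    EC K K' := by
  refine hec K' (indep_of_change (i := i) (j := j) (by simpa using ha) hi ?_)
  simpa only [map_mul, map_pow] using h

/-- Finiteness over the field generated by the image of a generator. -/
theorem finite_adjoin (K B M : Type) [Field K] [Field B] [Field M] [Algebra K B] [Algebra B M]
    [Algebra K M] [IsScalarTower K B M] (s : B) (hs : IntermediateField.adjoin K {s} = ⊤)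
    [Module.Finite B M] :
    FiniteDimensional (IntermediateField.adjoin K {algebraMap B M s}) M := by
  have hr : ∀ b : B, algebraMap B M b ∈ IntermediateField.adjoin K {algebraMap B M s} := by
    intro b
    have h1 : (IntermediateField.adjoin K {s} : IntermediateField K B) ≤
        (IntermediateField.adjoin K {algebraMap B M s}).comap (IsScalarTower.toAlgHom K B M) := by
      rw [IntermediateField.adjoin_le_iff]
      intro u hu
      rw [Set.mem_singleton_iff] at hu
      subst hu
      exact IntermediateField.mem_adjoin_simple_self K _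
    have h2 : b ∈ (IntermediateField.adjoin K {s} : IntermediateField K B) := by
      rw [hs]
      trivial
    exact h1 h2
  let φ : B →+* IntermediateField.adjoin K {algebraMap B M s} :=
    (algebraMap B M).codRestrict _ hr
  let _ : Algebra B (IntermediateField.adjoin K {algebraMap B M s}) := φ.toAlgebra
  have : IsScalarTower B (IntermediateField.adjoin K {algebraMap B M s}) M :=
    IsScalarTower.of_algebraMap_eq fun _ => rfl
  exact Module.Finite.of_restrictScalars_finite B (IntermediateField.adjoin K {algebraMap B M s}) M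

theorem adjoin_gen_eq_top {K M : Type} [Field K] [Field M] [Algebra K M] (s : M) :
    IntermediateField.adjoin K {IntermediateField.AdjoinSimple.gen K s} =
      (⊤ : IntermediateField K (IntermediateField.adjoin K {s})) := by
  apply IntermediateField.lift_injective
  rw [IntermediateField.lift_adjoin_simple, IntermediateField.lift_top]
  rfl

/-- The key step: a cubic Kummer extension over which independence is lost. -/
theorem key_step (hcase : CaseZero) (hkummer : KummerDomain) (hpoint : LaurentPoint)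
    (hcurve : MainCurve) (K : Type) [Field K] [CharZero K] (ω α a b : K) (hω : ω ^ 2 + ω + 1 = 0)
    (hP : Indep α a b)
    (hec : ∀ (K' : Type) [Field K'] [Algebra K K'],
      Indep (algebraMap K K' α) (algebraMap K K' a) (algebraMap K K' b) → EC K K')
    (E E' : Type) [Field E] [Field E'] [Algebra K E] [Algebra E E'] [Algebra K E']
    [IsScalarTower K E E'] (t : E) (ht : Transcendental K t)
    (hfin : FiniteDimensional (IntermediateField.adjoin K {t}) E) (h : E) (ρ : E')
    (hE : Indep (algebraMap K E α) (algebraMap K E a) (algebraMap K E b))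
    (hρ : ρ ^ 3 = algebraMap E E' h) (hh : ∀ x : E, x ^ 3 ≠ h)
    (htop : IntermediateField.adjoin E {ρ} = ⊤)
    (hE' : ¬ Indep (algebraMap K E' α) (algebraMap K E' a) (algebraMap K E' b)) :
    IsNm (algebraMap K E' α) (algebraMap K E' b) := by
  have hα0 := hP.1
  have ha0 := hP.2.1
  have hb0 := hP.2.2.1
  have hecE : EC K E := hec E hE
  have hh0 : h ≠ 0 := by
    rintro rfl
    exact hh 0 (by simp)
  by_cases hnc : ∀ (γ : K) (v : E), h ≠ algebraMap K E γ * v ^ 3
  · rcases notIndep_cases (by simpa using hα0) (by simpa using ha0) (by simpa using hb0) hE' with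
      h1 | ⟨i, j, hi, hij⟩
    · exact h1
    have hP' : Indep α (a ^ i * b ^ j) b := indep_change hP hi
    have hec' := fun (K' : Type) [Field K'] [Algebra K K'] =>
      ec_change (K := K) (α := α) (a := a) (b := b) ha0 hec (i := i) (j := j) hi K'
    have hreg : ∀ (F : Type) [Field F] [Algebra K F], IsDomain (F ⊗[K] E') := fun F _ _ =>
      hkummer K E E' ω hω hecE h ρ hρ htop hnc F
    have hna : ¬ IsNm α (a ^ i * b ^ j) := by
      intro h2
      have h3 := (hP'.2.2.2 1 0 (by simpa using h2)).1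
      omega
    have hij' : IsNm (algebraMap K E' α) (algebraMap K E' (a ^ i * b ^ j)) := by
      simpa only [map_mul, map_pow] using hij
    obtain ⟨β, Kβ, _, _, ν₀, P₀, t₀, hβ, hν₀, hgen, hP₀⟩ := hpoint K E E' ω hω hecE
      t ht hfin h ρ hρ hh htop α (a ^ i * b ^ j) hna hij'
    have hint : IsIntegral E ρ := by
      refine ⟨Polynomial.X ^ 3 - Polynomial.C h, Polynomial.monic_X_pow_sub_C h three_ne_zero, ?_⟩
      simp [hρ]
    have hEE' : Module.Finite E E' := by
      have h2 : FiniteDimensional E (IntermediateField.adjoin E {ρ}) :=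
        IntermediateField.adjoin.finiteDimensional hint
      rw [htop] at h2
      exact IntermediateField.topEquiv.toLinearEquiv.finiteDimensional
    have hfin' : FiniteDimensional (IntermediateField.adjoin K {algebraMap E E' t}) E' := by
      have : IsScalarTower K (IntermediateField.adjoin K {t}) E' :=
        IsScalarTower.of_algebraMap_eq fun u => by
          rw [IsScalarTower.algebraMap_apply K E E']
          rfl
      have : Module.Finite (IntermediateField.adjoin K {t}) E' :=
        Module.Finite.trans E E'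
      exact finite_adjoin K (IntermediateField.adjoin K {t}) E'
        (IntermediateField.AdjoinSimple.gen K t) (adjoin_gen_eq_top t)
    exact hcurve K ω α (a ^ i * b ^ j) b β hω hP' hec' hβ E' (algebraMap E E' t)
      ((transcendental_algebraMap_iff (algebraMap E E').injective).mpr ht) hfin' hreg Kβ ν₀ hν₀
      hgen P₀ t₀ hP₀ hij'
  · push Not at hnc
    obtain ⟨γ, v, hγ⟩ := hnc
    have hv : v ≠ 0 := by
      rintro rfl
      exact hh0 (by rw [hγ]; ring)
    have hγc : ∀ x : K, x ^ 3 ≠ γ := by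
      intro x hx
      refine hh (algebraMap K E x * v) ?_
      rw [hγ, ← hx, map_pow, mul_pow]
    have hv' : algebraMap E E' v ≠ 0 := by simpa using hv
    set σ : E' := ρ / algebraMap E E' v with hσ
    have hσ3 : σ ^ 3 = algebraMap K E' γ := by
      rw [hσ, div_pow, hρ, hγ, map_mul, map_pow, IsScalarTower.algebraMap_apply K E E',
        mul_div_assoc, div_self (pow_ne_zero 3 hv'), mul_one]
    have hint : IsIntegral K σ := by
      refine ⟨Polynomial.X ^ 3 - Polynomial.C γ, Polynomial.monic_X_pow_sub_C γ three_ne_zero, ?_⟩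
      simp [hσ3]
    set K₁ : IntermediateField K E' := IntermediateField.adjoin K {σ} with hK₁
    have : FiniteDimensional K K₁ := IntermediateField.adjoin.finiteDimensional hint
    have hσK : σ ∈ K₁ := IntermediateField.mem_adjoin_simple_self K σ
    have hnot : ¬ Indep (algebraMap K K₁ α) (algebraMap K K₁ a) (algebraMap K K₁ b) := by
      intro hI
      obtain ⟨f⟩ := hec K₁ hI (Algebra.adjoin K {(⟨σ, hσK⟩ : K₁)})
        ⟨{(⟨σ, hσK⟩ : K₁)}, by simp⟩
      refine hγc (f ⟨⟨σ, hσK⟩, Algebra.subset_adjoin rfl⟩) ?_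
      rw [← map_pow]
      have e : (⟨⟨σ, hσK⟩, Algebra.subset_adjoin rfl⟩ :
          Algebra.adjoin K {(⟨σ, hσK⟩ : K₁)}) ^ 3 =
          algebraMap K (Algebra.adjoin K {(⟨σ, hσK⟩ : K₁)}) γ := by
        apply Subtype.ext
        apply Subtype.ext
        exact hσ3
      rw [e, AlgHom.commutes]
      rfl
    have hmap : ∀ c : K, IsNm (algebraMap K K₁ α) (algebraMap K K₁ c) →
        IsNm (algebraMap K E' α) (algebraMap K E' c) := by
      intro c hc
      exact hc.map (algebraMap K₁ E')
    rcases notIndep_cases (by simpa using hα0) (by simpa using ha0) (by simpa using hb0) hnot with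
      h1 | ⟨i, j, hi, hij⟩
    · exact hmap b h1
    · apply hmap
      exact hcase K ω α (a ^ i * b ^ j) b hω (indep_change hP hi)
        (fun K' _ _ => ec_change ha0 hec hi K') K₁ (by simpa only [map_mul, map_pow] using hij)

/-- Independence over a purely transcendental extension. -/
theorem indep_adjoin (K L : Type) [Field K] [CharZero K] [Field L] [Algebra K L] (t : L)
    (ht : Transcendental K t) {α a b : K} (h : Indep α a b) :
    Indep (algebraMap K (IntermediateField.adjoin K {t}) α)
      (algebraMap K (IntermediateField.adjoin K {t}) a)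
      (algebraMap K (IntermediateField.adjoin K {t}) b) := by
  obtain ⟨h1, h2, h3, h4⟩ := h
  refine ⟨by simpa using h1, by simpa using h2, by simpa using h3, fun i j hij => h4 i j ?_⟩
  have h5 := hij.map ((RatFunc.algEquivOfTranscendental t ht).symm :
    IntermediateField.adjoin K {t} →+* RatFunc K)
  apply isNm_of_ratFunc
  have e : ∀ c : K, ((RatFunc.algEquivOfTranscendental t ht).symm :
      IntermediateField.adjoin K {t} →+* RatFunc K)
      (algebraMap K (IntermediateField.adjoin K {t}) c) = algebraMap K (RatFunc K) c := fun c =>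
    (RatFunc.algEquivOfTranscendental t ht).symm.commutes c
  rw [map_mul, map_pow, map_pow, e, e, e] at h5
  simpa only [map_mul, map_pow] using h5

/-- Reduction of the main theorem to the two cases. -/
theorem main_theorem_of (hcase : CaseZero) (hkummer : KummerDomain) (hpoint : LaurentPoint)
    (hcurve : MainCurve) (K : Type) [Field K] [CharZero K] (ω α a b : K) (hω : ω ^ 2 + ω + 1 = 0)
    (hP : Indep α a b)
    (hec : ∀ (K' : Type) [Field K'] [Algebra K K'],
      Indep (algebraMap K K' α) (algebraMap K K' a) (algebraMap K K' b) → EC K K')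
    (L : Type) [Field L] [Algebra K L] (htr : Algebra.trdeg K L ≤ 1)
    (hL : IsNm (algebraMap K L α) (algebraMap K L a)) :
    IsNm (algebraMap K L α) (algebraMap K L b) := by
  classical
  obtain ⟨x, y, z, hxyz⟩ := hL
  set L₀ : IntermediateField K L := IntermediateField.adjoin K {x, y, z} with hL₀
  have hx : x ∈ L₀ := IntermediateField.subset_adjoin K _ (by simp)
  have hy : y ∈ L₀ := IntermediateField.subset_adjoin K _ (by simp)
  have hz : z ∈ L₀ := IntermediateField.subset_adjoin K _ (by simp)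
  have hL0 : IsNm (algebraMap K L₀ α) (algebraMap K L₀ a) := by
    refine ⟨⟨x, hx⟩, ⟨y, hy⟩, ⟨z, hz⟩, ?_⟩
    apply (algebraMap L₀ L).injective
    rw [map_nf]
    exact hxyz
  suffices hsuff : IsNm (algebraMap K L₀ α) (algebraMap K L₀ b) from hsuff.map (algebraMap L₀ L)
  by_cases halg : ∀ u : L₀, IsAlgebraic K u
  · have hfd : FiniteDimensional K L₀ := by
      have h1 : ∀ u ∈ ({x, y, z} : Set L), IsIntegral K u := by
        intro u hu
        have huL : u ∈ L₀ := IntermediateField.subset_adjoin K _ hu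
        have h2 := (halg ⟨u, huL⟩).isIntegral
        exact h2.map (L₀.val)
      exact IntermediateField.finiteDimensional_adjoin h1
    exact hcase K ω α a b hω hP hec L₀ hL0
  · push Not at halg
    obtain ⟨t, ht⟩ := halg
    have htr0 : Algebra.trdeg K L₀ ≤ 1 :=
      (trdeg_le_of_injective L₀.val L₀.val.injective).trans htr
    have hti : AlgebraicIndependent K (fun _ : Unit => t) := by
      rw [algebraicIndependent_unique_type_iff]
      exact ht
    have htb : IsTranscendenceBasis K (fun _ : Unit => t) :=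
      hti.isTranscendenceBasis_of_trdeg_le_of_finite (by simpa using htr0)
    have hrange : Set.range (fun _ : Unit => t) = {t} := by simp
    have halg' : Algebra.IsAlgebraic (IntermediateField.adjoin K {t}) L₀ := by
      have := htb.isAlgebraic_field
      rwa [hrange] at this
    have hfd : FiniteDimensional (IntermediateField.adjoin K {t}) L₀ := by
      set T : Set L₀ := {⟨x, hx⟩, ⟨y, hy⟩, ⟨z, hz⟩} with hT
      have h1 : (IntermediateField.adjoin K T : IntermediateField K L₀) = ⊤ := by
        have hTi : Subtype.val '' T = ({x, y, z} : Set L) := by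
          simp [hT, Set.image_insert_eq]
        apply IntermediateField.lift_injective
        rw [IntermediateField.lift_adjoin, IntermediateField.lift_top, hTi]
      have h2 : (IntermediateField.adjoin (IntermediateField.adjoin K {t}) T :
          IntermediateField (IntermediateField.adjoin K {t}) L₀) = ⊤ := by
        rw [eq_top_iff]
        intro u _
        have h3 : u ∈ (IntermediateField.adjoin K T : IntermediateField K L₀) := by
          rw [h1]
          trivial
        have h4 : (IntermediateField.adjoin K T : IntermediateField K L₀) ≤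
            (IntermediateField.adjoin (IntermediateField.adjoin K {t}) T).restrictScalars K := by
          rw [IntermediateField.adjoin_le_iff]
          exact IntermediateField.subset_adjoin _ _
        exact h4 h3
      have h5 : FiniteDimensional (IntermediateField.adjoin K {t})
          (IntermediateField.adjoin (IntermediateField.adjoin K {t}) T :
            IntermediateField (IntermediateField.adjoin K {t}) L₀) :=
        IntermediateField.finiteDimensional_adjoin fun u _ => (halg'.isAlgebraic u).isIntegral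
      rw [h2] at h5
      exact IntermediateField.topEquiv.toLinearEquiv.finiteDimensional
    have hind := indep_adjoin K L₀ t ht hP
    have hωB : (algebraMap K (IntermediateField.adjoin K {t}) ω) ^ 2 +
        algebraMap K (IntermediateField.adjoin K {t}) ω + 1 = 0 := by
      rw [← map_pow, ← map_add, ← map_one (algebraMap K (IntermediateField.adjoin K {t})),
        ← map_add, hω, map_zero]
    have : CharZero (IntermediateField.adjoin K {t}) :=
      charZero_of_injective_algebraMap (algebraMap K _).injective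
    refine devissage (IntermediateField.adjoin K {t}) L₀ _ _ _ _ hωB hind hL0 ?_
    intro E E' _ _ _ _ _ _ _ h ρ hE hρ hh htop hE'
    let _ : Algebra K E := ((algebraMap (IntermediateField.adjoin K {t}) E).comp
      (algebraMap K (IntermediateField.adjoin K {t}))).toAlgebra
    let _ : Algebra K E' := ((algebraMap (IntermediateField.adjoin K {t}) E').comp
      (algebraMap K (IntermediateField.adjoin K {t}))).toAlgebra
    have : IsScalarTower K (IntermediateField.adjoin K {t}) E :=
      IsScalarTower.of_algebraMap_eq fun _ => rfl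
    have : IsScalarTower K (IntermediateField.adjoin K {t}) E' :=
      IsScalarTower.of_algebraMap_eq fun _ => rfl
    have : IsScalarTower K E E' := IsScalarTower.of_algebraMap_eq fun u => by
      rw [IsScalarTower.algebraMap_apply K (IntermediateField.adjoin K {t}) E',
        IsScalarTower.algebraMap_apply K (IntermediateField.adjoin K {t}) E,
        ← IsScalarTower.algebraMap_apply (IntermediateField.adjoin K {t}) E E']
    set s : E := algebraMap (IntermediateField.adjoin K {t}) E
      (IntermediateField.AdjoinSimple.gen K t) with hs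
    have hst : Transcendental K s := by
      rw [hs, transcendental_algebraMap_iff (algebraMap (IntermediateField.adjoin K {t}) E).injective]
      intro h1
      exact ht ((isAlgebraic_algebraMap_iff (algebraMap (IntermediateField.adjoin K {t}) L₀).injective).mpr h1)
    have hsfin : FiniteDimensional (IntermediateField.adjoin K {s}) E :=
      finite_adjoin K (IntermediateField.adjoin K {t}) E
        (IntermediateField.AdjoinSimple.gen K t) (adjoin_gen_eq_top t)
    exact key_step hcase hkummer hpoint hcurve K ω α a b hω hP hec E E' s hst hsfin h ρ hE hρ hh htop hE'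

end Red

end Pool.Agent.D5741
end
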